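import Pool.Agent.H14.KN.Defs

/-!
[H14 KN ADD] The additive step. Mathlib only.

Let `F`, `K` be as in `PF α a N`, `Y = Fin (a + 2b - 1)` (the right summand).
`F' = {A ∪ B | A ∈ F (on the left), B ⊆ Y, B.card = b} ∪ {C | C ⊆ Y, C.card = a + b}`.
* All members have `a + b` elements. `A ∪ B`, `A' ∪ B'` meet since `A`, `A'` meet; `A ∪ B` and
  `C` meet since `b + (a + b) > a + 2b - 1`; `C`, `C'` meet since `2 (a + b) > a + 2b - 1`.
* Let `T` be a cover, `T₀` its left part, `T₁` its part in `Y`. Since `T` meets all `C`: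
  `(Y \ T₁).card ≤ a + b - 1`, so `b ≤ T₁.card`. If `T₀` is not a cover of `F`, let `A ∈ F` be
  missed; then `T₁` meets all `b`-sets `B ⊆ Y`, so `(Y \ T₁).card ≤ b - 1`, so
  `a + b ≤ T₁.card`. If `T₀` is a cover of `F` then `a ≤ T₀.card`. In both cases
  `a + b ≤ T.card`.
* If `T.card = a + b`: in the first case `T₀ = ∅` and `T₁` is an `(a+b)`-subset of `Y`: at most
  `(a+2b-1).choose (a+b) = (a+2b-1).choose (b-1) ≤ (a+2b-1).choose b` sets (the last inequality
  because `2 b ≤ a + 2 b`, binomial coefficients increase up to the middle: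
  `Nat.choose_le_succ_of_lt_half_left` or `Nat.succ_mul_choose_eq`/`Nat.choose_mono`-type lemma:
  `(b-1) < (a+2b-1)/2` if `a ≥ 1`, and for `a = 0` the two numbers are equal by symmetry).
  In the second case `T₀.card ≥ a`, `T₁.card ≥ b`, so `T₀.card = a`, `T₁.card = b`, `T₀ ∈ K`:
  at most `N * (a+2b-1).choose b` sets. Together `(N+1) * (a+2b-1).choose b`.
-/

namespace Pool.Agent.H14.KN

open Finset

theorem add_meets {α β : Type} {U : Finset (α ⊕ β)} {A : Finset α} {B : Finset β} :
    Meets U (A.disjSum B) ↔ Meets U.toLeft A ∨ Meets U.toRight B := by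
  constructor
  · rintro ⟨x, hx, hx'⟩
    cases x with
    | inl x => exact Or.inl ⟨x, mem_toLeft.2 hx, inl_mem_disjSum.1 hx'⟩
    | inr x => exact Or.inr ⟨x, mem_toRight.2 hx, inr_mem_disjSum.1 hx'⟩
  · rintro (⟨x, hx, hx'⟩ | ⟨x, hx, hx'⟩)
    · exact ⟨Sum.inl x, mem_toLeft.1 hx, inl_mem_disjSum.2 hx'⟩
    · exact ⟨Sum.inr x, mem_toRight.1 hx, inr_mem_disjSum.2 hx'⟩

theorem add_big {n : ℕ} {C D : Finset (Fin n)} (h : n < C.card + D.card) : Meets C D := by
  have h1 : (univ : Finset (Fin n)).card < C.card + D.card := by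
    rw [card_univ, Fintype.card_fin]
    exact h
  obtain ⟨x, hx⟩ := inter_nonempty_of_card_lt_card_add_card (subset_univ C) (subset_univ D) h1
  exact ⟨x, (mem_inter.1 hx).1, (mem_inter.1 hx).2⟩

theorem add_cov {n c : ℕ} {T : Finset (Fin n)}
    (h : ∀ C : Finset (Fin n), C.card = c → Meets T C) : n < T.card + c := by
  by_contra hlt
  have h1 : c ≤ Tᶜ.card := by
    rw [card_compl, Fintype.card_fin]
    omega
  obtain ⟨C, hC, hCc⟩ := exists_subset_card_eq h1
  obtain ⟨x, hx, hx'⟩ := h C hCc
  exact (mem_compl.1 (hC hx')) hx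

theorem add_choose (a b : ℕ) (hb : 1 ≤ b) :
    (a + 2 * b - 1).choose (a + b) ≤ (a + 2 * b - 1).choose b := by
  rcases Nat.eq_zero_or_pos a with h | h
  · subst h
    simp
  · have h1 : (a + 2 * b - 1).choose (a + b) = (a + 2 * b - 1).choose (b - 1) := by
      apply Nat.choose_symm_of_eq_add
      omega
    rw [h1]
    have h2 := Nat.choose_le_succ_of_lt_half_left (r := b - 1) (n := a + 2 * b - 1) (by omega)
    rwa [Nat.sub_add_cancel hb] at h2

theorem PF.additive {α : Type} [DecidableEq α] {a N b : ℕ} (hb : 1 ≤ b) (h : PF α a N) :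
    PF (α ⊕ Fin (a + 2 * b - 1)) (a + b) ((N + 1) * (a + 2 * b - 1).choose b) := by
  obtain ⟨F, hF, hFF, hcov, K, hK, hKT⟩ := h
  obtain ⟨n, hn⟩ : ∃ n : ℕ, n = a + 2 * b - 1 := ⟨_, rfl⟩
  rw [← hn]
  have key : ∀ T : Finset (α ⊕ Fin n),
      Cov T {S | (∃ A ∈ F, ∃ B : Finset (Fin n), B.card = b ∧ S = A.disjSum B) ∨
        ∃ C : Finset (Fin n), C.card = a + b ∧ S = (∅ : Finset α).disjSum C} →
      b ≤ T.toRight.card ∧ (Cov T.toLeft F ∨ a + b ≤ T.toRight.card) := by
    intro T hT
    constructor
    · have h1 := add_cov (T := T.toRight) (c := a + b) (fun C hC => by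
        rcases add_meets.1 (hT _ (Or.inr ⟨C, hC, rfl⟩)) with ⟨x, _, hx⟩ | h
        · exact absurd hx (notMem_empty x)
        · exact h)
      omega
    · by_cases hc : Cov T.toLeft F
      · exact Or.inl hc
      · right
        unfold Cov at hc
        push Not at hc
        obtain ⟨A, hA, hAT⟩ := hc
        have h1 := add_cov (T := T.toRight) (c := b) (fun B hB => by
          rcases add_meets.1 (hT _ (Or.inl ⟨A, hA, B, hB, rfl⟩)) with h | h
          · exact absurd h hAT
          · exact h)
        omega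
  refine ⟨{S | (∃ A ∈ F, ∃ B : Finset (Fin n), B.card = b ∧ S = A.disjSum B) ∨
    ∃ C : Finset (Fin n), C.card = a + b ∧ S = (∅ : Finset α).disjSum C}, ?_, ?_, ?_, ?_⟩
  · rintro S (⟨A, hA, B, hB, rfl⟩ | ⟨C, hC, rfl⟩)
    · rw [card_disjSum, hF A hA, hB]
    · rw [card_disjSum, hC, card_empty, zero_add]
  · rintro S (⟨A, hA, B, hB, rfl⟩ | ⟨C, hC, rfl⟩) S' (⟨A', hA', B', hB', rfl⟩ | ⟨C', hC', rfl⟩)
    · rw [add_meets, toLeft_disjSum, toRight_disjSum]
      exact Or.inl (hFF A hA A' hA')
    · rw [add_meets, toLeft_disjSum, toRight_disjSum]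
      exact Or.inr (add_big (by omega))
    · rw [add_meets, toLeft_disjSum, toRight_disjSum]
      exact Or.inr (add_big (by omega))
    · rw [add_meets, toLeft_disjSum, toRight_disjSum]
      exact Or.inr (add_big (by omega))
  · intro T hT
    obtain ⟨h1, h2⟩ := key T hT
    have h3 := card_toLeft_add_card_toRight (u := T)
    rcases h2 with h2 | h2
    · have h4 := hcov _ h2
      omega
    · omega
  · refine ⟨((univ : Finset (Fin n)).powersetCard (a + b)).image
        (fun C => (∅ : Finset α).disjSum C) ∪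
      (K ×ˢ (univ : Finset (Fin n)).powersetCard b).image (fun p => p.1.disjSum p.2), ?_, ?_⟩
    · refine (card_union_le _ _).trans ?_
      have h1 : (((univ : Finset (Fin n)).powersetCard (a + b)).image
          (fun C => (∅ : Finset α).disjSum C)).card ≤ n.choose b := by
        refine card_image_le.trans ?_
        rw [card_powersetCard, card_univ, Fintype.card_fin, hn]
        exact add_choose a b hb
      have h2 : ((K ×ˢ (univ : Finset (Fin n)).powersetCard b).image
          (fun p => p.1.disjSum p.2)).card ≤ N * n.choose b := by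
        refine card_image_le.trans ?_
        rw [card_product, card_powersetCard, card_univ, Fintype.card_fin]
        exact Nat.mul_le_mul_right _ hK
      calc _ ≤ n.choose b + N * n.choose b := add_le_add h1 h2
        _ = (N + 1) * n.choose b := by ring
    · intro T hTc hT
      obtain ⟨h1, h2⟩ := key T hT
      have h3 := card_toLeft_add_card_toRight (u := T)
      have h4 := toLeft_disjSum_toRight (u := T)
      rw [mem_union, mem_image, mem_image]
      by_cases h5 : a + b ≤ T.toRight.card
      · left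
        have h6 : T.toLeft = ∅ := card_eq_zero.1 (by omega)
        refine ⟨T.toRight, mem_powersetCard.2 ⟨subset_univ _, by omega⟩, ?_⟩
        rw [← h6]
        exact h4
      · right
        have h6 : Cov T.toLeft F := h2.resolve_right h5
        have h7 := hcov _ h6
        have h8 : T.toLeft.card = a := by omega
        have h9 : T.toRight.card = b := by omega
        exact ⟨(T.toLeft, T.toRight), mem_product.2 ⟨hKT _ h8 h6,
          mem_powersetCard.2 ⟨subset_univ _, h9⟩⟩, h4⟩

end Pool.Agent.H14.KN
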