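import Pool.Agent.H14.KN.Defs

/-!
[H14 KN AVD] Random choices that avoid prescribed sets. Mathlib only.

The set is `Fintype.piFinset (fun f => univ \ G f)`, of cardinality
`∏_f (|V| - |G f|) = |V|^|K| * ∏_f (1 - |G f| / |V|) ≤ |V|^|K| * ∏_f exp (-(|G f| / |V|))
 = |V|^|K| * exp (-(∑_f |G f|) / |V|) ≤ |V|^|K| * exp (-t)` (`Real.add_one_le_exp`;
`Finset.prod_le_prod`).
-/

namespace Pool.Agent.H14.KN

open Finset

theorem avoid_count {K V : Type} [Fintype K] [DecidableEq K] [Fintype V] [DecidableEq V]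
    [Nonempty V] (G : K → Finset V) {t : ℝ}
    (h : t * Fintype.card V ≤ ∑ f, ((G f).card : ℝ)) :
    ((Fintype.piFinset (fun f => univ \ G f)).card : ℝ) ≤
      (Fintype.card V : ℝ) ^ Fintype.card K * Real.exp (-t) := by
  have hV : (0 : ℝ) < Fintype.card V := by exact_mod_cast Fintype.card_pos
  rw [Fintype.card_piFinset]
  push_cast
  have h1 : ∀ f : K, (((univ \ G f).card : ℕ) : ℝ) ≤
      (Fintype.card V : ℝ) * Real.exp (-(((G f).card : ℝ) / Fintype.card V)) := by
    intro f
    rw [Finset.card_sdiff_of_subset (subset_univ _), Finset.card_univ,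
      Nat.cast_sub (Finset.card_le_univ _)]
    have h2 := Real.add_one_le_exp (-(((G f).card : ℝ) / Fintype.card V))
    have h3 := mul_le_mul_of_nonneg_left h2 hV.le
    have h4 : (Fintype.card V : ℝ) * (-(((G f).card : ℝ) / Fintype.card V) + 1) =
        (Fintype.card V : ℝ) - (G f).card := by
      field_simp
      ring
    linarith
  calc ∏ f : K, (((univ \ G f).card : ℕ) : ℝ)
      ≤ ∏ f : K, ((Fintype.card V : ℝ) * Real.exp (-(((G f).card : ℝ) / Fintype.card V))) :=
        Finset.prod_le_prod (fun f _ => Nat.cast_nonneg _) fun f _ => h1 f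
    _ = (Fintype.card V : ℝ) ^ Fintype.card K *
          Real.exp (∑ f : K, -(((G f).card : ℝ) / Fintype.card V)) := by
        rw [Finset.prod_mul_distrib, Finset.prod_const, Finset.card_univ, Real.exp_sum]
    _ ≤ (Fintype.card V : ℝ) ^ Fintype.card K * Real.exp (-t) := by
        refine mul_le_mul_of_nonneg_left (Real.exp_le_exp.2 ?_) (by positivity)
        rw [Finset.sum_neg_distrib, neg_le_neg_iff, ← Finset.sum_div, le_div_iff₀ hV]
        exact h

end Pool.Agent.H14.KN
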