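import Pool.Agent.H14.KN.Coll

/-!
[H14 KN RA2] Most choices `ω f = (g f, z f)` have the second random property.

`B = {ω | ∃ f J, 2 ≤ |J|, 200 |J| ≤ q, |J| s ≤ 8 coll (ω f).2 J}` (classical filter). Write
`K = Fin w → ZMod q`, `V = Fin u × (Fin κ → Fin m → ZMod q)`. For a given pair `(f, J)`, `j = |J|`,
`2 ≤ j`, `200 j ≤ q`, put `k = (j s + 7)/8`, so `j s ≤ 8 k` and
(`|J| s ≤ 8 coll → k ≤ coll`). The number of `ω` with `k ≤ coll (ω f).2 J` is
`|V|^(|K|-1) * u * #{z | k ≤ coll z J}`, and by `coll_count`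
`#{z | ..} ≤ q^(κ m) * (j m).choose k * (j/q)^k`. Now
`(j m).choose k ≤ (j m)^k / k! ≤ (exp 1 * j m / k)^k` and `j m ≤ 2 j s ≤ 16 k`, so
`(j m).choose k * (j/q)^k ≤ (16 exp 1 * j / q)^k ≤ (16 * 2.72/200)^k ≤ 4^(-k)`. (In place of
`exp 1` one may use: `k^k ≤ 3^k k!`.) Let `σ = s / 8` (natural division). Then `j σ ≤ k`, so the
fraction of bad `ω` for `(f, J)` is at most `(4^(-σ))^j ≤ 4^(-σ) * (2^(-σ))^j` (as `j ≥ 2`:
`4^(-σ j) = 2^(-σ j) 2^(-σ j) ≤ 2^(-2σ) 2^(-σ j)`).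
Sum over `J ⊆ Fin κ`: `∑_J (2^(-σ))^|J| = (1 + 2^(-σ))^κ ≤ exp (κ 2^(-σ)) ≤ exp 1 ≤ 3` because
`κ^16 ≤ 2^s ≤ 2^(16 σ)` (`16 σ ≥ 2 s - 14 ≥ s`), so `κ ≤ 2^σ`. Sum over the `q^w ≤ 2^(w²)`
codewords `f`: the total fraction is at most `2^(w²) * 3 * 2^(-2σ) ≤ 1/4`, since
`2 σ ≥ (s-7)/4 ≥ w² + 4` (`s ≥ w^4`, `w ≥ 2^80`).
-/

namespace Pool.Agent.H14.KN

open Finset

private theorem card_coord {K : Type} [Fintype K] [DecidableEq K] {W : Type} [Fintype W]
    [DecidableEq W] (c : K) (bad : Finset W) :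
    (univ.filter (fun z : K → W => z c ∈ bad)).card * Fintype.card W =
      bad.card * Fintype.card W ^ Fintype.card K := by
  classical
  have h1 : univ.filter (fun z : K → W => z c ∈ bad) =
      Fintype.piFinset (fun c' => if c' = c then bad else univ) := by
    ext z
    rw [mem_filter, Fintype.mem_piFinset]
    constructor
    · rintro ⟨-, h⟩ c'
      split_ifs with h2
      · rw [h2]
        exact h
      · exact mem_univ _
    · intro h
      refine ⟨mem_univ _, ?_⟩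
      have := h c
      rwa [if_pos rfl] at this
  have h2 : ∏ c' ∈ univ.erase c, (if c' = c then bad else (univ : Finset W)).card =
      Fintype.card W ^ (Fintype.card K - 1) := by
    have h3 : ∀ c' ∈ (univ : Finset K).erase c,
        (if c' = c then bad else (univ : Finset W)).card = Fintype.card W := by
      intro c' hc'
      rw [if_neg (ne_of_mem_erase hc'), card_univ]
    rw [Finset.prod_congr rfl h3, Finset.prod_const, card_erase_of_mem (mem_univ _), card_univ]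
  have hκ : 1 ≤ Fintype.card K := Fintype.card_pos_iff.2 ⟨c⟩
  rw [h1, Fintype.card_piFinset, ← Finset.mul_prod_erase univ _ (mem_univ c), h2, if_pos rfl,
    mul_assoc, ← pow_succ]
  congr 2
  omega

private theorem choose_num {n j k q : ℕ} (hk : 1 ≤ k) (hn : n ≤ 16 * k) (hj : 200 * j ≤ q)
    (hq : 0 < q) : (n.choose k : ℝ) * ((j : ℝ) / q) ^ k ≤ (1 / 4) ^ k := by
  have hqR : (0 : ℝ) < q := by exact_mod_cast hq
  have hkR : (0 : ℝ) < k := by exact_mod_cast hk
  have h1 : (n.choose k : ℝ) ≤ (n : ℝ) ^ k / (k.factorial : ℝ) := Nat.choose_le_pow_div k n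
  have h2 : (k : ℝ) ^ k / (k.factorial : ℝ) ≤ 3 ^ k := by
    calc (k : ℝ) ^ k / (k.factorial : ℝ) ≤ Real.exp k :=
          Real.pow_div_factorial_le_exp k (Nat.cast_nonneg k) k
      _ = (Real.exp 1) ^ k := by rw [← Real.exp_nat_mul, mul_one]
      _ ≤ 3 ^ k := pow_le_pow_left₀ (Real.exp_pos 1).le
          (by have := Real.exp_one_lt_d9; linarith) k
  have h3 : (n : ℝ) ≤ 16 * k := by exact_mod_cast hn
  have h4 : (n.choose k : ℝ) ≤ 48 ^ k := by
    calc (n.choose k : ℝ) ≤ (n : ℝ) ^ k / (k.factorial : ℝ) := h1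
      _ ≤ (16 * (k : ℝ)) ^ k / (k.factorial : ℝ) :=
          div_le_div_of_nonneg_right (pow_le_pow_left₀ (by positivity) h3 k) (by positivity)
      _ = 16 ^ k * ((k : ℝ) ^ k / (k.factorial : ℝ)) := by
          rw [mul_pow]
          ring
      _ ≤ 16 ^ k * 3 ^ k := mul_le_mul_of_nonneg_left h2 (by positivity)
      _ = 48 ^ k := by
          rw [← mul_pow]
          norm_num
  have h5 : (j : ℝ) / q ≤ 1 / 200 := by
    rw [div_le_div_iff₀ hqR (by norm_num)]
    have : (200 : ℝ) * j ≤ q := by exact_mod_cast hj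
    linarith
  calc (n.choose k : ℝ) * ((j : ℝ) / q) ^ k ≤ 48 ^ k * (1 / 200) ^ k :=
        mul_le_mul h4 (pow_le_pow_left₀ (by positivity) h5 k) (by positivity) (by positivity)
    _ = (48 * (1 / 200)) ^ k := by rw [← mul_pow]
    _ ≤ (1 / 4) ^ k := pow_le_pow_left₀ (by norm_num) (by norm_num) k

theorem bad_two {q w s m r κ u : ℕ} [Fact q.Prime] (hP : Par q w s m r)
    (hκ : κ ^ 16 ≤ 2 ^ s) (hu1 : 1 ≤ u) :
    ∃ B : Finset ((Fin w → ZMod q) → Fin u × (Fin κ → Fin m → ZMod q)),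
      4 * B.card ≤ Fintype.card ((Fin w → ZMod q) → Fin u × (Fin κ → Fin m → ZMod q)) ∧
      ∀ ω, ω ∉ B → ∀ (f : Fin w → ZMod q) (J : Finset (Fin κ)), 2 ≤ J.card →
        200 * J.card ≤ q → 8 * coll (ω f).2 J < J.card * s := by
  classical
  have : NeZero u := ⟨by omega⟩
  have hqN : 0 < q := hP.prime.pos
  have hq0 : (0 : ℝ) < q := by exact_mod_cast hqN
  have hu0 : (0 : ℝ) < u := by exact_mod_cast hu1
  have hwN := hP.hw
  have hsN := hP.hs
  have hmN := hP.hm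
  have hw100 : 100 ≤ w := le_trans (by norm_num) hwN
  have hw4 : 10000 * w ^ 2 ≤ w ^ 4 := by
    have h1 : 100 * 100 ≤ w * w := Nat.mul_le_mul hw100 hw100
    calc 10000 * w ^ 2 = (100 * 100) * w ^ 2 := by ring
      _ ≤ (w * w) * w ^ 2 := Nat.mul_le_mul_right _ h1
      _ = w ^ 4 := by ring
  have hw2 : w ≤ w ^ 2 := by
    calc w = w ^ 1 := (pow_one w).symm
      _ ≤ w ^ 2 := Nat.pow_le_pow_right (by omega) (by norm_num)
  have hs1 : 10000 * w ^ 2 ≤ s := hw4.trans hsN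
  obtain ⟨σ, hσ⟩ : ∃ σ, σ = s / 8 := ⟨_, rfl⟩
  have hσ1 : 8 * σ ≤ s := by omega
  have hσ2 : s ≤ 8 * σ + 7 := by omega
  have hm2s : m ≤ 2 * s := by omega
  have hκσ : κ ≤ 2 ^ σ := by
    have h1 : κ ^ 16 ≤ (2 ^ σ) ^ 16 := by
      calc κ ^ 16 ≤ 2 ^ s := hκ
        _ ≤ 2 ^ (σ * 16) := Nat.pow_le_pow_right (by norm_num) (by omega)
        _ = (2 ^ σ) ^ 16 := by rw [pow_mul]
    exact (Nat.pow_le_pow_iff_left (by norm_num)).1 h1
  set V := Fin u × (Fin κ → Fin m → ZMod q) with hVdef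
  set K := Fin w → ZMod q with hKdef
  have hV : (Fintype.card V : ℝ) = u * (q : ℝ) ^ (κ * m) := by
    change ((Fintype.card (Fin u × (Fin κ → Fin m → ZMod q)) : ℕ) : ℝ) = _
    rw [Fintype.card_prod, Fintype.card_fin, Fintype.card_fun, Fintype.card_fun, ZMod.card,
      Fintype.card_fin, Fintype.card_fin, ← pow_mul]
    push_cast
    ring
  have hKc : Fintype.card K = q ^ w := by
    change Fintype.card (Fin w → ZMod q) = _
    rw [Fintype.card_fun, ZMod.card, Fintype.card_fin]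
  have hV0 : (0 : ℝ) < Fintype.card V := by
    rw [hV]
    positivity
  set N : ℝ := (Fintype.card V : ℝ) ^ Fintype.card K with hN
  have hN0 : 0 ≤ N := by positivity
  -- bad sets
  set Bad : K × Finset (Fin κ) → Finset (K → V) := fun x =>
    univ.filter (fun ω => x.2.card * s ≤ 8 * coll (ω x.1).2 x.2) with hBad
  set X : Finset (K × Finset (Fin κ)) :=
    univ.filter (fun x => 2 ≤ x.2.card ∧ 200 * x.2.card ≤ q) with hX
  have hbound : ∀ x ∈ X, ((Bad x).card : ℝ) ≤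
      N * ((1 / 2) ^ (2 * σ) * ((1 / 2) ^ σ) ^ x.2.card) := by
    rintro ⟨f, J⟩ hx
    obtain ⟨hJ2, hJq⟩ := (mem_filter.1 hx).2
    change 2 ≤ J.card at hJ2
    change 200 * J.card ≤ q at hJq
    change ((Bad (f, J)).card : ℝ) ≤ N * ((1 / 2) ^ (2 * σ) * ((1 / 2) ^ σ) ^ J.card)
    obtain ⟨j, hj⟩ : ∃ j, j = J.card := ⟨_, rfl⟩
    rw [← hj] at hJ2 hJq ⊢
    obtain ⟨k, hk⟩ : ∃ k, k = (j * s + 7) / 8 := ⟨_, rfl⟩
    have hk1 : j * s ≤ 8 * k := by omega
    have hjs : 2 * s ≤ j * s := Nat.mul_le_mul_right s hJ2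
    have hk3 : 1 ≤ k := by omega
    set Z := univ.filter (fun z : Fin κ → Fin m → ZMod q => k ≤ coll z J) with hZ
    set bad : Finset V := univ ×ˢ Z with hbad
    have hsub : Bad (f, J) ⊆ univ.filter (fun ω : K → V => ω f ∈ bad) := by
      intro ω hω
      have h1 : J.card * s ≤ 8 * coll (ω f).2 J := (mem_filter.1 hω).2
      rw [← hj] at h1
      refine mem_filter.2 ⟨mem_univ _, mem_product.2 ⟨mem_univ _, mem_filter.2 ⟨mem_univ _, ?_⟩⟩⟩
      omega
    have h1 := card_coord (K := K) f bad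
    have h2 : bad.card = u * Z.card := by
      rw [hbad, card_product, card_univ, Fintype.card_fin]
    have h3 := coll_count (m := m) (q := q) J k
    rw [← hj] at h3
    have h3R : (q : ℝ) ^ k * (Z.card : ℝ) ≤
        ((j * m).choose k : ℝ) * (j : ℝ) ^ k * (q : ℝ) ^ (κ * m) := by exact_mod_cast h3
    have h4 : ((j * m).choose k : ℝ) * ((j : ℝ) / q) ^ k ≤ (1 / 4) ^ k := by
      refine choose_num hk3 ?_ hJq hqN
      calc j * m ≤ j * (2 * s) := Nat.mul_le_mul_left j hm2s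
        _ = 2 * (j * s) := by ring
        _ ≤ 2 * (8 * k) := Nat.mul_le_mul_left 2 hk1
        _ = 16 * k := by ring
    have h5 : (Z.card : ℝ) ≤ (1 / 4) ^ k * (q : ℝ) ^ (κ * m) := by
      have h6 : (Z.card : ℝ) ≤
          ((j * m).choose k : ℝ) * ((j : ℝ) / q) ^ k * (q : ℝ) ^ (κ * m) := by
        rw [div_pow]
        have hqk : (0 : ℝ) < (q : ℝ) ^ k := by positivity
        have e : ((j * m).choose k : ℝ) * ((j : ℝ) ^ k / (q : ℝ) ^ k) * (q : ℝ) ^ (κ * m) =
            (((j * m).choose k : ℝ) * (j : ℝ) ^ k * (q : ℝ) ^ (κ * m)) / (q : ℝ) ^ k := by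
          ring
        rw [e, le_div_iff₀ hqk, mul_comm]
        exact h3R
      exact h6.trans (mul_le_mul_of_nonneg_right h4 (by positivity))
    have h6 : ((Bad (f, J)).card : ℝ) * Fintype.card V ≤ (u * (Z.card : ℝ)) * N := by
      have h7 : (Bad (f, J)).card * Fintype.card V ≤
          (u * Z.card) * Fintype.card V ^ Fintype.card K := by
        rw [← h2, ← h1]
        exact Nat.mul_le_mul_right _ (card_le_card hsub)
      rw [hN]
      exact_mod_cast h7
    have h7 : ((Bad (f, J)).card : ℝ) ≤ N * (1 / 4) ^ k := by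
      have h8 : ((Bad (f, J)).card : ℝ) * Fintype.card V ≤
          (N * (1 / 4) ^ k) * Fintype.card V := by
        refine h6.trans ?_
        rw [hV]
        calc (u * (Z.card : ℝ)) * N ≤ (u * ((1 / 4) ^ k * (q : ℝ) ^ (κ * m))) * N := by
              refine mul_le_mul_of_nonneg_right ?_ hN0
              exact mul_le_mul_of_nonneg_left h5 hu0.le
          _ = (N * (1 / 4) ^ k) * (u * (q : ℝ) ^ (κ * m)) := by ring
      exact le_of_mul_le_mul_right h8 hV0
    refine h7.trans (mul_le_mul_of_nonneg_left ?_ hN0)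
    have hjσ : j * σ ≤ k := by
      have h9 : 8 * (j * σ) ≤ 8 * k := by
        calc 8 * (j * σ) = j * (8 * σ) := by ring
          _ ≤ j * s := Nat.mul_le_mul_left j hσ1
          _ ≤ 8 * k := hk1
      omega
    have hjσ2 : 2 * σ ≤ j * σ := Nat.mul_le_mul_right σ hJ2
    calc (1 / 4 : ℝ) ^ k ≤ (1 / 4) ^ (j * σ) :=
          pow_le_pow_of_le_one (by norm_num) (by norm_num) hjσ
      _ = (1 / 2) ^ (j * σ) * (1 / 2) ^ (j * σ) := by
          rw [← mul_pow]
          norm_num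
      _ ≤ (1 / 2) ^ (2 * σ) * (1 / 2) ^ (j * σ) := by
          refine mul_le_mul_of_nonneg_right ?_ (by positivity)
          exact pow_le_pow_of_le_one (by norm_num) (by norm_num) hjσ2
      _ = (1 / 2) ^ (2 * σ) * ((1 / 2) ^ σ) ^ j := by
          rw [← pow_mul, mul_comm j σ]
  refine ⟨X.biUnion Bad, ?_, ?_⟩
  · have h1 : ((X.biUnion Bad).card : ℝ) ≤ ∑ x ∈ X, ((Bad x).card : ℝ) := by
      exact_mod_cast card_biUnion_le
    have h2 : ∑ x ∈ X, ((Bad x).card : ℝ) ≤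
        ∑ x : K × Finset (Fin κ), N * ((1 / 2) ^ (2 * σ) * ((1 / 2) ^ σ) ^ x.2.card) := by
      refine (Finset.sum_le_sum hbound).trans ?_
      exact Finset.sum_le_sum_of_subset_of_nonneg (subset_univ _) fun x _ _ => by positivity
    have h3 : ∑ x : K × Finset (Fin κ), N * ((1 / 2) ^ (2 * σ) * ((1 / 2) ^ σ) ^ x.2.card) =
        (q : ℝ) ^ w * (N * ((1 / 2) ^ (2 * σ) * ((1 / 2) ^ σ + 1) ^ κ)) := by
      have h4 := Fintype.sum_pow_mul_eq_add_pow (Fin κ) ((1 / 2 : ℝ) ^ σ) 1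
      rw [Fintype.card_fin] at h4
      simp only [one_pow, mul_one] at h4
      rw [Fintype.sum_prod_type]
      have h5 : ∀ f : K, ∑ J : Finset (Fin κ),
          N * ((1 / 2 : ℝ) ^ (2 * σ) * ((1 / 2) ^ σ) ^ (f, J).2.card) =
          N * ((1 / 2) ^ (2 * σ) * ((1 / 2) ^ σ + 1) ^ κ) := by
        intro f
        rw [← Finset.mul_sum, ← Finset.mul_sum, h4]
      rw [Finset.sum_congr rfl fun f _ => h5 f, Finset.sum_const, card_univ, nsmul_eq_mul, hKc]
      push_cast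
      ring
    have h4 : ((1 / 2 : ℝ) ^ σ + 1) ^ κ ≤ 3 := by
      have h5 : ((1 / 2 : ℝ) ^ σ + 1) ≤ Real.exp ((1 / 2 : ℝ) ^ σ) := Real.add_one_le_exp _
      calc ((1 / 2 : ℝ) ^ σ + 1) ^ κ ≤ (Real.exp ((1 / 2 : ℝ) ^ σ)) ^ κ :=
            pow_le_pow_left₀ (by positivity) h5 κ
        _ = Real.exp (κ * (1 / 2 : ℝ) ^ σ) := by rw [← Real.exp_nat_mul]
        _ ≤ Real.exp 1 := by
            refine Real.exp_le_exp.2 ?_
            have h6 : (κ : ℝ) ≤ 2 ^ σ := by exact_mod_cast hκσ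
            calc (κ : ℝ) * (1 / 2 : ℝ) ^ σ ≤ 2 ^ σ * (1 / 2 : ℝ) ^ σ :=
                  mul_le_mul_of_nonneg_right h6 (by positivity)
              _ = 1 := by
                  rw [← mul_pow]
                  norm_num
        _ ≤ 3 := by have := Real.exp_one_lt_d9; linarith
    have h5 : (q : ℝ) ^ w ≤ 2 ^ (w ^ 2) := by
      have h6 : q ^ w ≤ 2 ^ (w ^ 2) := by
        calc q ^ w ≤ (2 ^ w) ^ w := Nat.pow_le_pow_left hP.hq2 w
          _ = 2 ^ (w ^ 2) := by rw [← pow_mul, sq]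
      exact_mod_cast h6
    have h6 : (4 : ℝ) * ((q : ℝ) ^ w * ((1 / 2) ^ (2 * σ) * 3)) ≤ 1 := by
      have h7 : w ^ 2 + 4 ≤ 2 * σ := by omega
      calc (4 : ℝ) * ((q : ℝ) ^ w * ((1 / 2) ^ (2 * σ) * 3))
          ≤ 4 * (2 ^ (w ^ 2) * ((1 / 2) ^ (w ^ 2 + 4) * 3)) := by
            refine mul_le_mul_of_nonneg_left ?_ (by norm_num)
            refine mul_le_mul h5 ?_ (by positivity) (by positivity)
            refine mul_le_mul_of_nonneg_right ?_ (by norm_num)
            exact pow_le_pow_of_le_one (by norm_num) (by norm_num) h7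
        _ = (2 * (1 / 2)) ^ (w ^ 2) * (12 * (1 / 2) ^ 4) := by
            rw [mul_pow, pow_add]
            ring
        _ ≤ 1 := by
            norm_num
    have h7 : 4 * ((X.biUnion Bad).card : ℝ) ≤ N := by
      calc 4 * ((X.biUnion Bad).card : ℝ)
          ≤ 4 * ((q : ℝ) ^ w * (N * ((1 / 2) ^ (2 * σ) * ((1 / 2) ^ σ + 1) ^ κ))) := by
            refine mul_le_mul_of_nonneg_left ?_ (by norm_num)
            rw [← h3]
            exact h1.trans h2
        _ ≤ 4 * ((q : ℝ) ^ w * (N * ((1 / 2) ^ (2 * σ) * 3))) := by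
            refine mul_le_mul_of_nonneg_left ?_ (by norm_num)
            refine mul_le_mul_of_nonneg_left ?_ (by positivity)
            refine mul_le_mul_of_nonneg_left ?_ hN0
            exact mul_le_mul_of_nonneg_left h4 (by positivity)
        _ = (4 * ((q : ℝ) ^ w * ((1 / 2) ^ (2 * σ) * 3))) * N := by ring
        _ ≤ 1 * N := mul_le_mul_of_nonneg_right h6 hN0
        _ = N := one_mul N
    rw [Fintype.card_fun]
    rw [hN] at h7
    exact_mod_cast h7
  · intro ω hω f J hJ2 hJq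
    by_contra hcon
    push Not at hcon
    apply hω
    rw [mem_biUnion]
    exact ⟨(f, J), mem_filter.2 ⟨mem_univ _, hJ2, hJq⟩, mem_filter.2 ⟨mem_univ _, hcon⟩⟩

end Pool.Agent.H14.KN
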