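import Pool.Agent.H14.KN.RandOne
import Pool.Agent.H14.KN.RandTwo

/-!
[H14 KN RAN] The random choice: `g : codewords → Fin u` and words `z f c` for every codeword `f`
and class `c`.

`bad_one` and `bad_two`: the union of the two exceptional sets has at most half of all elements,
and the type is nonempty (`u ≥ 1`, `ZMod q` nonempty), so some `ω` lies in neither. Put
`g f = (ω f).1`, `z f = (ω f).2`.
-/

namespace Pool.Agent.H14.KN

open Finset

theorem random_code {q w s m r κ u : ℕ} [Fact q.Prime] (hP : Par q w s m r)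
    (hκ : κ ^ 16 ≤ 2 ^ s) (hκ1 : 1 ≤ κ) (hu1 : 1 ≤ u) (hu : u ≤ q ^ 2)
    (α β : Fin m → ZMod q) :
    ∃ (g : (Fin w → ZMod q) → Fin u) (z : (Fin w → ZMod q) → Fin κ → Fin m → ZMod q),
      (∀ T : Fin m → Finset (ZMod q × ZMod q),
        q ^ (m + 5) ≤ ∑ f : Fin w → ZMod q, nb α β s T f →
        ∀ (γ : Fin u) (c : Fin κ), ∃ f, g f = γ ∧
          s ≤ (univ.filter (fun l => z f c l ∈ miss (T l) (sym α β f l))).card) ∧
      (∀ (f : Fin w → ZMod q) (J : Finset (Fin κ)), 2 ≤ J.card →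
        200 * J.card ≤ q → 8 * coll (z f) J < J.card * s) := by
  classical
  obtain ⟨B1, hB1, h1⟩ := bad_one hP hκ hκ1 hu1 hu α β
  obtain ⟨B2, hB2, h2⟩ := bad_two (u := u) hP hκ hu1
  have : NeZero u := ⟨by omega⟩
  have hN : 0 < Fintype.card ((Fin w → ZMod q) → Fin u × (Fin κ → Fin m → ZMod q)) :=
    Fintype.card_pos
  obtain ⟨ω, hω⟩ : ∃ ω, ω ∉ B1 ∪ B2 := by
    by_contra hcon
    push Not at hcon
    have h3 : B1 ∪ B2 = univ := Finset.eq_univ_of_forall hcon
    have h4 := card_union_le B1 B2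
    rw [h3, card_univ] at h4
    omega
  rw [mem_union, not_or] at hω
  exact ⟨fun f => (ω f).1, fun f => (ω f).2, fun T hT γ c => h1 ω hω.1 T hT γ c,
    fun f J hJ hJq => h2 ω hω.2 f J hJ hJq⟩

end Pool.Agent.H14.KN
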