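import Pool.Agent.H14.KN.Slots

/-!
[H14 KN SHA] The extremal covers: the plane part.

`shape`: by `struct_ge` `|T l| ≥ q` on `H`, and `|H| = s`, so `|T l| = q` on `H` and `T l = ∅`
outside. For `l ∈ H` `line_of_two` (with the two excepted directions) shows that `T l` is a line.
If `l ∈ H`, `sym f₀ l ≠ none` (so `sym f₀ l = some (pe f₀ (α l))` and the two excepted directions
coincide) and `z l ∉ miss (T l) (sym f₀ l)`, then `T l = lin (sym f₀ l) (z l)` by
`eq_lin_of_hit`. So the planes `l ∈ H` with `T l ≠ lin (sym f₀ l) (z l)` are of two kinds: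
`sym f₀ l = none` (at most `w`, `inf_le`) or `z l ∈ miss (T l) (sym f₀ l)`. All `m - s = s - w`
planes outside `H` have `z l ∈ miss ∅ _`, so there are at most `s - 1 - (s - w) = w - 1` planes
of the second kind in `H`. Together fewer than `2w`.

`count_shape`: let `L l` be given lines (any sets). The number of the
`T : Fin m → Finset (ZMod q × ZMod q)` for which there is a set `H` with `T l = ∅` outside
`H`, `T l` a line on `H` and `|{l ∈ H | T l ≠ L l}| ≤ E`, is at most `4^m (2 q^2)^E`: `T` is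
determined by `H` (`2^m`), `D = {l ∈ H | T l ≠ L l}` (`2^m`), and the restriction of `T` to `D`
(at most `(q (q+1))^|D| ≤ (2q²)^E`: the lines are the images of `Option (ZMod q) × ZMod q` under
`lin`; as `2 q² ≥ 1` one may bound `|D|` by `E`). Take for `K` the image of
`{(H, D) | |D| ≤ E} × (functions D → lines)`, e.g. as a `biUnion` over `(H, D)` of
`Fintype.piFinset (fun l => if l ∈ H then (if l ∈ D then lines else {L l}) else {∅})`, whose
cardinality is `(card lines)^|D|` for `D ⊆ H`.
-/

namespace Pool.Agent.H14.KN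

open Finset

variable {q w s m r : ℕ} [Fact q.Prime]

theorem shape (hP : Par q w s m r) (α β : Fin m → ZMod q)
    (hinj : Function.Injective (Sum.elim α β))
    (T : Fin m → Finset (ZMod q × ZMod q)) (hT : ∑ l, (T l).card = s * q)
    (f₀ : Fin w → ZMod q) (H : Finset (Fin m)) (hH : H.card = s)
    (hS : ∀ l ∈ H, ∀ δ, δ ≠ sym α β f₀ l → δ ≠ some (pe f₀ (α l)) → miss (T l) δ = ∅)
    (z : Fin m → ZMod q)
    (hz : (univ.filter (fun l => z l ∈ miss (T l) (sym α β f₀ l))).card < s) :
    (∀ l, l ∉ H → T l = ∅) ∧ (∀ l ∈ H, ∃ δ c, T l = lin δ c) ∧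
      (H.filter (fun l => T l ≠ lin (sym α β f₀ l) (z l))).card ≤ 2 * w := by
  sorry

theorem count_shape (L : Fin m → Finset (ZMod q × ZMod q)) (E : ℕ) :
    ∃ K : Finset (Fin m → Finset (ZMod q × ZMod q)), K.card ≤ 4 ^ m * (2 * q ^ 2) ^ E ∧
      ∀ (T : Fin m → Finset (ZMod q × ZMod q)) (H : Finset (Fin m)),
        (∀ l, l ∉ H → T l = ∅) → (∀ l ∈ H, ∃ δ c, T l = lin δ c) →
        (H.filter (fun l => T l ≠ L l)).card ≤ E → T ∈ K := by
  sorry

end Pool.Agent.H14.KN
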