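import Pool.Agent.H14.KN.Cover
import Pool.Agent.H14.KN.Shape
import Pool.Agent.H14.KN.Random

/-!
[H14 KN BAS] The base family as a `PF`.

`Fintype.card (ZMod q) = q ≥ 2 m` (`m^10 ≤ q`), so there is an injective map
`Fin m ⊕ Fin m → ZMod q`; this gives `α, β` with `Sum.elim α β` injective. `u ≥ 1` by `hu`. Take
`g, z` from `random_code`, and `Z`, `K₀` (`K₀.card ≤ N`) from the directional family. The family
is `fam s α β g z Z`. Cardinality of the members: `card_memb` and the first property of `Z`.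
Intersection: `fam_meets`. Covers: `cover_cases` (if a cover has fewer than `s q + b` points,
`cover_cases` says that it has `s q + b` points, contradiction).

The covers with exactly `s q + b` points: take `f₀, H, c` from `cover_cases`. By `shape` (with
`z f₀ c`), `pl T` belongs to the set `K_{f₀,c}` of `count_shape` with
`L l = lin (sym f₀ l) (z f₀ c l)` and `E = 2 w`. `(c, cp T (g f₀)) ∈ K₀`. `T` is determined by
`f₀`, `(c, cp T (g f₀)) ∈ K₀` and `pl T ∈ K_{f₀,c}` (`eq_of_parts`; `cp T γ = ∅` for the other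
`γ`). So the number is at most `q^w * N * (4^m (2 q^2)^(2w))`. With `q ≤ 2^w`:
`q^w ≤ 2^(w²)`, `(2 q^2)^(2w) ≤ 2^(2w + 4w²)`, `4^m ≤ 4^(2s) = 2^(4s)`, and
`w² + 2 w + 4 w² ≤ 2 s` as `w^4 ≤ s`. So at most `2^(6 s) * N`.
(The finset `K`: the image of `univ ×ˢ K₀ ×ˢ ..` under the map that builds `T` from `f₀`,
`(c, B)` and `P ∈ K_{f₀,c}`, e.g. `Finset.biUnion`/`Finset.sigma`; the set built is
`univ.filter` of the points `x` with `x = inl (l, p)`, `p ∈ P l` or `x = inr (g f₀, y)`,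
`y ∈ B`.)
-/

namespace Pool.Agent.H14.KN

open Finset

theorem PF_base {q w s m r u n₀ κ b N σ : ℕ} [Fact q.Prime] (hP : Par q w s m r)
    (hD : DF (Fin n₀) (Fin κ) b N σ) (hb : b + 1 ≤ q) (hσ : 4 * σ ≤ s)
    (hκ : κ ^ 16 ≤ 2 ^ s) (hκ1 : 1 ≤ κ) (hu : s * q + b + 1 ≤ u * (b + 1)) (hu2 : u ≤ q ^ 2) :
    PF ((Fin m × (ZMod q × ZMod q)) ⊕ (Fin u × Fin n₀)) (s * q + b) (2 ^ (6 * s) * N) := by
  sorry

end Pool.Agent.H14.KN
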