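import Pool.Agent.H14.KN.Planes

/-!
[H14 KN DFA] The additive step for directional families (Blokhuis' trick).

Let `Z'`, `K'` be as in `DF α' ι' b' N' σ`, `m = 2x-1`, `b = x p + b'`. Since `1 ≤ u ≤ p + 1`
(`u ≥ 1` by `hu`) there is a surjective map `γ : Option (ZMod p) → Fin u`. The class `(δ, c')`
consists of the sets `A ∪ ({γ δ} × B)` where `A = {(i, P) | i ∈ J, icp δ P = c i}`,
`J.card = x`, `c : Fin m → ZMod p`, and `B ∈ Z' c'`. They have `x p + b'` elements. Let
`(δ, c') ≠ (δ₁, c₁')`: if `δ ≠ δ₁` the `A`-parts meet (`J ∩ J₁ ≠ ∅`, `exists_inter`); if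
`δ = δ₁` and `c' ≠ c₁'` the `B`-parts lie in the same copy `γ δ` and meet.

For a finite set `T` let `T i = {P | inl (i, P) ∈ T}`, `T₀ = ` its left part
(`∑ i, (T i).card = T₀.card`), and `T^g = {x | inr (g, x) ∈ T}` for `g : Fin u`;
`T.card = T₀.card + ∑_g (T^g).card`. Call `δ` good if at least `x` planes have
`miss (T i) δ = ∅`.
(1) If `δ` is not good and `Cov T (Z (δ, c'))` then `Cov (T^{γ δ}) (Z' c')`: there are `J` of
size `x` and `c` with `A ∩ T₀ = ∅` (as in `DFPlane`), so for each `B ∈ Z' c'` the set `T` meets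
`{γ δ} × B`.
(2) If `T₀.card < x p` no `δ` is good (`good_card`). If `T₀.card ≤ x p + b'` some `δ` is not good
(`exists_not_good`).

Third condition: let all classes be covered and `T.card ≤ x p + b'`. Some `δ` is not good, so
`b' + 1 ≤ (T^{γ δ}).card` by (1). If `T₀.card ≥ x p` then `T.card ≥ x p + b' + 1`, contradiction. If
`T₀.card < x p` no `δ` is good and, `γ` being surjective, all `u` sets `T^g` have at least
`b' + 1` elements: `T.card ≥ u (b' + 1) ≥ u b' ≥ x p + b' + 1`, contradiction.

Fourth condition: let `U` be nonempty and let all classes outside `U` be covered; suppose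
`T.card + σ * U.card < x p + b' + σ`, so `T.card ≤ x p + b'` (since `U.card ≥ 1`). For a
direction `δ` let `U_δ = {c' | (δ, c') ∈ U}` (classical). If `δ` is not good then `T^{γ δ}` covers
all `Z' c'`, `c' ∉ U_δ`, so `b' + σ ≤ (T^{γ δ}).card + σ * max 1 (U_δ).card` (third condition of
`Z'` if `U_δ` is empty, fourth otherwise), and `max 1 (U_δ).card ≤ U.card`. Some `δ` is not good.
If `T₀.card ≥ x p` this gives `T.card ≥ x p + b' + σ - σ * U.card`, contradiction. If
`T₀.card < x p` choose for each `g` a direction `δ_g` with `γ δ_g = g`. Then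
`∑_g (T^g).card ≥ u b' - σ ∑_g (max 1 (U_{δ_g}).card - 1)` and
`∑_g (max 1 (U_{δ_g}).card - 1) ≤ U.card - 1` (the sets `U_{δ_g}` come from disjoint parts of
`U`; if all of them are empty the left side is `0`; otherwise at least one `1` is subtracted
from a nonempty one). So `T.card ≥ x p + b' + 1 - σ (U.card - 1)`, contradiction.

Last condition: let `T.card = x p + b'` and let all classes but `(δ₀, c₀')` be covered. If
`T₀.card < x p`: no `δ` is good; for each `g` the set `T^g` covers all `Z' c'` with
`c' ≠ c₀'`, so `b' ≤ (T^g).card` (fourth condition with `{c₀'}`), so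
`T.card ≥ u b' ≥ x p + b' + 1`, contradiction. So `T₀.card ≥ x p` and `∑_g (T^g).card ≤ b'`. A
direction `δ ≠ δ₀` that is not good would give `(T^{γ δ}).card ≥ b' + 1`; so all `δ ≠ δ₀` are
good, and `δ₀` is not good by (2). So `T^{γ δ₀}` covers all `Z' c'`, `c' ≠ c₀'`, so it has at
least `b'` elements: hence `T₀.card = x p`, `(T^{γ δ₀}).card = b'`, `(c₀', T^{γ δ₀}) ∈ K'`,
`T^g = ∅` for `g ≠ γ δ₀`, and by `rigid` `T₀ = {(i,P) | i ∈ I, icp δ₀ P = c i}`. So the pair
`((δ₀, c₀'), T)` is determined by `δ₀` (`p+1`), `I` (`(2x-1).choose x`), the values of `c` on `I`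
(`p^x`) and an element of `K'`.
-/

namespace Pool.Agent.H14.KN

open Finset

/-- The fibre over `i`. -/
private def fib {ι β : Type} [DecidableEq ι] [DecidableEq β] (S : Finset (ι × β)) (i : ι) :
    Finset β := (S.filter (fun z => z.1 = i)).image Prod.snd

private theorem mem_fib {ι β : Type} [DecidableEq ι] [DecidableEq β] {S : Finset (ι × β)} {i : ι}
    {b : β} : b ∈ fib S i ↔ (i, b) ∈ S := by
  unfold fib
  rw [mem_image]
  constructor
  · rintro ⟨⟨j, c⟩, hz, rfl⟩
    obtain ⟨h1, h2⟩ := mem_filter.1 hz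
    have h3 : j = i := h2
    rw [← h3]
    exact h1
  · intro h
    exact ⟨(i, b), mem_filter.2 ⟨h, rfl⟩, rfl⟩

private theorem card_fib {ι β : Type} [DecidableEq ι] [DecidableEq β] (S : Finset (ι × β))
    (i : ι) : (fib S i).card = (S.filter (fun z => z.1 = i)).card := by
  unfold fib
  refine card_image_of_injOn ?_
  intro z hz w hw h
  have h1 := (mem_filter.1 (mem_coe.1 hz)).2
  have h2 := (mem_filter.1 (mem_coe.1 hw)).2
  exact Prod.ext (h1.trans h2.symm) h

private theorem sum_fib {ι β : Type} [Fintype ι] [DecidableEq ι] [DecidableEq β]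
    (S : Finset (ι × β)) : ∑ i, (fib S i).card = S.card := by
  rw [card_eq_sum_card_fiberwise (f := Prod.fst) (t := univ) (fun _ _ => mem_coe.2 (mem_univ _))]
  exact sum_congr rfl fun i _ => card_fib S i

/-- The left part of a member. -/
private def lft {p m : ℕ} [NeZero p] (δ : Option (ZMod p)) (J : Finset (Fin m))
    (c : Fin m → ZMod p) : Finset (Fin m × (ZMod p × ZMod p)) :=
  univ.filter (fun z => z.1 ∈ J ∧ icp δ z.2 = c z.1)

private theorem card_lft {p m : ℕ} [Fact p.Prime] (δ : Option (ZMod p)) (J : Finset (Fin m))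
    (c : Fin m → ZMod p) : (lft δ J c).card = J.card * p := by
  rw [← sum_fib]
  have h1 : ∀ i, (fib (lft δ J c) i).card = if i ∈ J then p else 0 := by
    intro i
    split_ifs with hi
    · have h2 : fib (lft δ J c) i = lin δ (c i) := by
        ext P
        rw [mem_fib, mem_lin]
        simp [lft, hi]
      rw [h2, card_lin]
    · rw [card_eq_zero, eq_empty_iff_forall_notMem]
      intro P hP
      rw [mem_fib] at hP
      simp [lft, hi] at hP
  rw [sum_congr rfl fun i _ => h1 i, sum_ite_mem, univ_inter, sum_const, smul_eq_mul]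

/-- The members. -/
private def mk {p m u : ℕ} [NeZero p] {α' : Type} (γ : Option (ZMod p) → Fin u)
    (δ : Option (ZMod p)) (J : Finset (Fin m)) (c : Fin m → ZMod p) (B : Finset α') :
    Finset ((Fin m × (ZMod p × ZMod p)) ⊕ (Fin u × α')) :=
  (lft δ J c).disjSum ({γ δ} ×ˢ B)

private theorem card_mk {p m u : ℕ} [Fact p.Prime] {α' : Type} (γ : Option (ZMod p) → Fin u)
    (δ : Option (ZMod p)) (J : Finset (Fin m)) (c : Fin m → ZMod p) (B : Finset α') :
    (mk γ δ J c B).card = J.card * p + B.card := by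
  unfold mk
  rw [card_disjSum, card_lft, card_product, card_singleton, one_mul]

private theorem inl_mem_mk {p m u : ℕ} [Fact p.Prime] {α' : Type} {γ : Option (ZMod p) → Fin u}
    {δ : Option (ZMod p)} {J : Finset (Fin m)} {c : Fin m → ZMod p} {B : Finset α'}
    {i : Fin m} {P : ZMod p × ZMod p} :
    Sum.inl (i, P) ∈ mk γ δ J c B ↔ i ∈ J ∧ icp δ P = c i := by
  unfold mk lft
  rw [inl_mem_disjSum, mem_filter]
  simp

private theorem inr_mem_mk {p m u : ℕ} [Fact p.Prime] {α' : Type} {γ : Option (ZMod p) → Fin u}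
    {δ : Option (ZMod p)} {J : Finset (Fin m)} {c : Fin m → ZMod p} {B : Finset α'}
    {g : Fin u} {b : α'} : Sum.inr (g, b) ∈ mk γ δ J c B ↔ g = γ δ ∧ b ∈ B := by
  unfold mk
  rw [inr_mem_disjSum, mem_product, mem_singleton]

/-- The classes. -/
private def cls {p m u : ℕ} [NeZero p] {α' ι' : Type} (x : ℕ) (γ : Option (ZMod p) → Fin u)
    (Z' : ι' → Set (Finset α')) (c : Option (ZMod p) × ι') :
    Set (Finset ((Fin m × (ZMod p × ZMod p)) ⊕ (Fin u × α'))) :=
  {A | ∃ (J : Finset (Fin m)) (f : Fin m → ZMod p) (B : Finset α'),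
    J.card = x ∧ B ∈ Z' c.2 ∧ A = mk γ c.1 J f B}

/-- (1) -/
private theorem step1 {p x u : ℕ} [Fact p.Prime] {α' ι' : Type} [DecidableEq α'] (hx : 1 ≤ x)
    (γ : Option (ZMod p) → Fin u) (Z' : ι' → Set (Finset α'))
    (T : Finset ((Fin (2 * x - 1) × (ZMod p × ZMod p)) ⊕ (Fin u × α')))
    (δ : Option (ZMod p)) (c' : ι')
    (hng : (univ.filter (fun i => miss (fib T.toLeft i) δ = ∅)).card < x)
    (hcov : Cov T (cls x γ Z' (δ, c'))) : Cov (fib T.toRight (γ δ)) (Z' c') := by
  classical
  have h1 : x ≤ (univ.filter (fun i => ¬ miss (fib T.toLeft i) δ = ∅)).card := by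
    have h2 := card_filter_add_card_filter_not (s := (univ : Finset (Fin (2 * x - 1))))
      (fun i => miss (fib T.toLeft i) δ = ∅)
    rw [card_univ, Fintype.card_fin] at h2
    omega
  obtain ⟨J, hJ1, hJ2⟩ := exists_subset_card_eq h1
  have hex : ∀ i, ∃ y : ZMod p, i ∈ J → y ∈ miss (fib T.toLeft i) δ := by
    intro i
    by_cases hi : i ∈ J
    · have h3 := (mem_filter.1 (hJ1 hi)).2
      obtain ⟨y, hy⟩ := nonempty_iff_ne_empty.2 h3
      exact ⟨y, fun _ => hy⟩
    · exact ⟨0, fun h => absurd h hi⟩
  choose f hf using hex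
  intro B hB
  obtain ⟨z, hzT, hzA⟩ := hcov (mk γ δ J f B) ⟨J, f, B, hJ2, hB, rfl⟩
  rcases z with ⟨i, P⟩ | ⟨g, b⟩
  · exfalso
    obtain ⟨h3, h4⟩ := inl_mem_mk.1 hzA
    have h5 := (mem_miss _ _ _).1 (hf i h3) P (mem_fib.2 (mem_toLeft.2 hzT))
    exact h5 h4
  · obtain ⟨h3, h4⟩ := inr_mem_mk.1 hzA
    refine ⟨b, mem_fib.2 (mem_toRight.2 ?_), h4⟩
    rw [← h3]
    exact hzT

private theorem count {m x p : ℕ} [NeZero p] :
    (((univ : Finset (Fin m)).powersetCard x).sigma (fun I => Fintype.piFinset
      (fun i => if i ∈ I then (univ : Finset (ZMod p)) else {0}))).card = m.choose x * p ^ x := by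
  rw [card_sigma]
  have h1 : ∀ I ∈ (univ : Finset (Fin m)).powersetCard x, (Fintype.piFinset
      (fun i => if i ∈ I then (univ : Finset (ZMod p)) else {0})).card = p ^ x := by
    intro I hI
    rw [Fintype.card_piFinset]
    have h2 : ∀ i, (if i ∈ I then (univ : Finset (ZMod p)) else {0}).card =
        if i ∈ I then p else 1 := by
      intro i
      split_ifs
      · rw [card_univ, ZMod.card]
      · rw [card_singleton]
    rw [prod_congr rfl fun i _ => h2 i, prod_ite_mem, univ_inter, prod_const,
      (mem_powersetCard.1 hI).2]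
  rw [sum_congr rfl h1, sum_const, card_powersetCard, card_univ, Fintype.card_fin, smul_eq_mul]

theorem DF_add {p x b' N' σ u : ℕ} {α' ι' : Type} [Fact p.Prime] [DecidableEq α']
    [DecidableEq ι'] (hx : 1 ≤ x) (hb : b' + 2 ≤ p) (hσ : 1 ≤ σ)
    (hu : x * p + b' + 1 ≤ u * b') (hup : u ≤ p + 1) (h : DF α' ι' b' N' σ) :
    DF ((Fin (2 * x - 1) × (ZMod p × ZMod p)) ⊕ (Fin u × α')) (Option (ZMod p) × ι')
      (x * p + b') ((2 * x - 1).choose x * ((p + 1) * p ^ x) * N') σ := by
  obtain ⟨Z', hZ1, hZ2, hZ3, hZ4, K', hK1, hK2⟩ := h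
  have hu0 : 0 < u := by
    rcases Nat.eq_zero_or_pos u with h0 | h0
    · rw [h0] at hu
      omega
    · exact h0
  have : Nonempty (Fin u) := ⟨⟨0, hu0⟩⟩
  obtain ⟨e⟩ : Nonempty (Fin u ↪ Option (ZMod p)) := by
    refine Function.Embedding.nonempty_of_card_le ?_
    rw [Fintype.card_fin, Fintype.card_option, ZMod.card]
    exact hup
  set γ : Option (ZMod p) → Fin u := Function.invFun e with hγ
  have hγe : ∀ g, γ (e g) = g := Function.leftInverse_invFun e.injective
  refine ⟨cls x γ Z', ?_, ?_, ?_, ?_, ?_⟩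
  · rintro ⟨δ, c'⟩ A ⟨J, f, B, hJ, hB, rfl⟩
    rw [card_mk, hJ, hZ1 c' B hB]
  · rintro ⟨δ, c'⟩ ⟨δ1, c1⟩ hne A ⟨J, f, B, hJ, hB, rfl⟩ A1 ⟨J1, f1, B1, hJ1, hB1, rfl⟩
    by_cases hδ : δ = δ1
    · subst hδ
      have hc : c' ≠ c1 := fun hc => hne (by rw [hc])
      obtain ⟨b, hb1, hb2⟩ := hZ2 c' c1 hc B hB B1 hB1
      exact ⟨Sum.inr (γ δ, b), inr_mem_mk.2 ⟨rfl, hb1⟩, inr_mem_mk.2 ⟨rfl, hb2⟩⟩
    · have hJJ : (J ∩ J1).Nonempty := by
        rw [← card_pos]
        have h2 := card_union_add_card_inter J J1
        have h3 : (J ∪ J1).card ≤ 2 * x - 1 := by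
          have := card_le_univ (J ∪ J1)
          rwa [Fintype.card_fin] at this
        omega
      obtain ⟨i, hi⟩ := hJJ
      obtain ⟨P, hP1, hP2⟩ := exists_inter hδ (f i) (f1 i)
      exact ⟨Sum.inl (i, P), inl_mem_mk.2 ⟨(mem_inter.1 hi).1, hP1⟩,
        inl_mem_mk.2 ⟨(mem_inter.1 hi).2, hP2⟩⟩
  · intro T hT
    by_contra hcon
    have hcard := card_toLeft_add_card_toRight (u := T)
    have hS0 := sum_fib T.toLeft
    have hSR := sum_fib T.toRight
    have hng : ∀ δ, (univ.filter (fun i => miss (fib T.toLeft i) δ = ∅)).card < x →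
        b' + 1 ≤ (fib T.toRight (γ δ)).card := fun δ hδ =>
      hZ3 _ fun c' => step1 hx γ Z' T δ c' hδ (hT (δ, c'))
    by_cases h0 : x * p ≤ T.toLeft.card
    · obtain ⟨δ, hδ⟩ := exists_not_good hx hb (fib T.toLeft) (by rw [hS0]; omega)
      have h1 := hng δ hδ
      have h2 : (fib T.toRight (γ δ)).card ≤ T.toRight.card := by
        rw [← hSR]
        exact single_le_sum (f := fun g => (fib T.toRight g).card) (fun _ _ => Nat.zero_le _)
          (mem_univ (γ δ))
      omega
    · have h1 : ∀ g, b' ≤ (fib T.toRight g).card := by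
        intro g
        have h2 := hng (e g) (by
          by_contra hg
          have := good_card (fib T.toLeft) (e g) (not_lt.1 hg)
          rw [hS0] at this
          exact h0 this)
        rw [hγe] at h2
        omega
      have h2 : u * b' ≤ T.toRight.card := by
        rw [← hSR]
        have h3 := card_nsmul_le_sum (univ : Finset (Fin u)) (fun g => (fib T.toRight g).card) b'
          (fun g _ => h1 g)
        rwa [card_univ, Fintype.card_fin, smul_eq_mul] at h3
      omega
  · intro T U hU hT
    by_contra hcon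
    have hcard := card_toLeft_add_card_toRight (u := T)
    have hS0 := sum_fib T.toLeft
    have hSR := sum_fib T.toRight
    have hU1 : 1 ≤ U.card := card_pos.2 hU
    have hσU : σ ≤ σ * U.card := Nat.le_mul_of_pos_right σ hU1
    have hfU : ∀ δ, (fib U δ).card ≤ U.card := by
      intro δ
      rw [card_fib]
      exact card_filter_le _ _
    have hcov : ∀ δ, (univ.filter (fun i => miss (fib T.toLeft i) δ = ∅)).card < x →
        ∀ c', c' ∉ fib U δ → Cov (fib T.toRight (γ δ)) (Z' c') := fun δ hδ c' hc =>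
      step1 hx γ Z' T δ c' hδ (hT (δ, c') (fun hc2 => hc (mem_fib.2 hc2)))
    have hng : ∀ δ, (univ.filter (fun i => miss (fib T.toLeft i) δ = ∅)).card < x →
        b' ≤ (fib T.toRight (γ δ)).card + σ * ((fib U δ).card - 1) := by
      intro δ hδ
      rcases (fib U δ).eq_empty_or_nonempty with he | hne
      · have h1 := hZ3 _ fun c' => hcov δ hδ c' (by rw [he]; exact notMem_empty _)
        omega
      · have h1 := hZ4 (fib T.toRight (γ δ)) (fib U δ) hne (hcov δ hδ)
        have h2 : 1 ≤ (fib U δ).card := card_pos.2 hne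
        obtain ⟨w, hw⟩ := Nat.exists_eq_add_of_le h2
        rw [hw] at h1 ⊢
        rw [Nat.add_sub_cancel_left]
        rw [mul_add, mul_one] at h1
        omega
    obtain ⟨δ, hδ⟩ := exists_not_good hx hb (fib T.toLeft) (by rw [hS0]; omega)
    by_cases h0 : x * p ≤ T.toLeft.card
    · have h1 := hng δ hδ
      have h2 : (fib T.toRight (γ δ)).card ≤ T.toRight.card := by
        rw [← hSR]
        exact single_le_sum (f := fun g => (fib T.toRight g).card) (fun _ _ => Nat.zero_le _)
          (mem_univ (γ δ))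
      have h3 : σ * ((fib U δ).card - 1) + σ ≤ σ * U.card := by
        have h4 : (fib U δ).card - 1 + 1 ≤ U.card := by
          have := hfU δ
          omega
        calc σ * ((fib U δ).card - 1) + σ = σ * ((fib U δ).card - 1 + 1) := by ring
          _ ≤ σ * U.card := Nat.mul_le_mul_left _ h4
      omega
    · have h1 : ∀ g, b' ≤ (fib T.toRight g).card + σ * ((fib U (e g)).card - 1) := by
        intro g
        have h2 := hng (e g) (by
          by_contra hg
          have := good_card (fib T.toLeft) (e g) (not_lt.1 hg)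
          rw [hS0] at this
          exact h0 this)
        rwa [hγe] at h2
      have h2 : u * b' ≤ T.toRight.card + σ * ∑ g, ((fib U (e g)).card - 1) := by
        rw [← hSR, mul_sum, ← sum_add_distrib]
        have h3 := card_nsmul_le_sum (univ : Finset (Fin u))
          (fun g => (fib T.toRight g).card + σ * ((fib U (e g)).card - 1)) b' (fun g _ => h1 g)
        rwa [card_univ, Fintype.card_fin, smul_eq_mul] at h3
      have h3 : ∑ g, (fib U (e g)).card ≤ U.card := by
        rw [← sum_fib U]
        have h4 : ∑ g, (fib U (e g)).card = ∑ δ ∈ univ.map e, (fib U δ).card := by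
          rw [sum_map]
        rw [h4]
        exact sum_le_sum_of_subset (subset_univ _)
      have h4 : ∑ g, ((fib U (e g)).card - 1) + 1 ≤ U.card := by
        by_cases hall : ∀ g, (fib U (e g)).card = 0
        · have h5 : ∑ g, ((fib U (e g)).card - 1) = 0 := sum_eq_zero fun g _ => by
            have := hall g
            omega
          omega
        · obtain ⟨g0, hg0⟩ := not_forall.1 hall
          have h5 : ∑ g, ((fib U (e g)).card - 1) < ∑ g, (fib U (e g)).card :=
            sum_lt_sum (fun g _ => Nat.sub_le _ _) ⟨g0, mem_univ _, by omega⟩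
          omega
      have h5 : σ * ∑ g, ((fib U (e g)).card - 1) + σ ≤ σ * U.card := by
        calc σ * ∑ g, ((fib U (e g)).card - 1) + σ
            = σ * (∑ g, ((fib U (e g)).card - 1) + 1) := by ring
          _ ≤ σ * U.card := Nat.mul_le_mul_left _ h4
      omega
  · classical
    refine ⟨((univ : Finset (Option (ZMod p))) ×ˢ
      (((univ : Finset (Fin (2 * x - 1))).powersetCard x).sigma (fun I => Fintype.piFinset
        (fun i => if i ∈ I then (univ : Finset (ZMod p)) else {0}))) ×ˢ K').image
      (fun w => ((w.1, w.2.2.1), mk γ w.1 w.2.1.1 w.2.1.2 w.2.2.2)), ?_, ?_⟩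
    · refine card_image_le.trans ?_
      rw [card_product, card_product, count, card_univ, Fintype.card_option, ZMod.card]
      calc (p + 1) * ((2 * x - 1).choose x * p ^ x * K'.card)
          ≤ (p + 1) * ((2 * x - 1).choose x * p ^ x * N') :=
            Nat.mul_le_mul_left _ (Nat.mul_le_mul_left _ hK1)
        _ = (2 * x - 1).choose x * ((p + 1) * p ^ x) * N' := by ring
    · rintro ⟨δ0, c0⟩ T hTc hT
      have hcard := card_toLeft_add_card_toRight (u := T)
      have hS0 := sum_fib T.toLeft
      have hSR := sum_fib T.toRight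
      have hle : ∀ g, (fib T.toRight g).card ≤ T.toRight.card := by
        intro g
        rw [← hSR]
        exact single_le_sum (f := fun g => (fib T.toRight g).card) (fun _ _ => Nat.zero_le _)
          (mem_univ g)
      have hcov : ∀ δ, (univ.filter (fun i => miss (fib T.toLeft i) δ = ∅)).card < x →
          ∀ c', c' ≠ c0 → Cov (fib T.toRight (γ δ)) (Z' c') := fun δ hδ c' hc =>
        step1 hx γ Z' T δ c' hδ (hT (δ, c') (fun hc2 => hc (congrArg Prod.snd hc2)))
      have hbd : ∀ δ, (univ.filter (fun i => miss (fib T.toLeft i) δ = ∅)).card < x →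
          b' ≤ (fib T.toRight (γ δ)).card := by
        intro δ hδ
        have h1 := hZ4 (fib T.toRight (γ δ)) {c0} (singleton_nonempty _) (fun c' hc =>
          hcov δ hδ c' (fun h => hc (mem_singleton.2 h)))
        rw [card_singleton, mul_one] at h1
        omega
      have h0 : x * p ≤ T.toLeft.card := by
        by_contra h0
        have h1 : ∀ g, b' ≤ (fib T.toRight g).card := by
          intro g
          have h2 := hbd (e g) (by
            by_contra hg
            have := good_card (fib T.toLeft) (e g) (not_lt.1 hg)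
            rw [hS0] at this
            exact h0 this)
          rwa [hγe] at h2
        have h2 : u * b' ≤ T.toRight.card := by
          rw [← hSR]
          have h3 := card_nsmul_le_sum (univ : Finset (Fin u))
            (fun g => (fib T.toRight g).card) b' (fun g _ => h1 g)
          rwa [card_univ, Fintype.card_fin, smul_eq_mul] at h3
        omega
      have hgood : ∀ δ, δ ≠ δ0 →
          x ≤ (univ.filter (fun i => miss (fib T.toLeft i) δ = ∅)).card := by
        intro δ hδ
        by_contra hg
        have h1 := hZ3 _ fun c' => step1 hx γ Z' T δ c' (not_le.1 hg)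
          (hT (δ, c') (fun hc2 => hδ (congrArg Prod.fst hc2)))
        have h2 := hle (γ δ)
        omega
      have hng0 : (univ.filter (fun i => miss (fib T.toLeft i) δ0 = ∅)).card < x := by
        obtain ⟨δ, hδ⟩ := exists_not_good hx hb (fib T.toLeft) (by rw [hS0]; omega)
        by_cases hd : δ = δ0
        · rw [← hd]
          exact hδ
        · exact absurd (hgood δ hd) (not_le.2 hδ)
      have h1 := hbd δ0 hng0
      have h2 := hle (γ δ0)
      have hT0 : T.toLeft.card = x * p := by omega
      have hTR : T.toRight.card = b' := by omega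
      have hfR : (fib T.toRight (γ δ0)).card = b' := by omega
      have hKm := hK2 c0 (fib T.toRight (γ δ0)) hfR (hcov δ0 hng0)
      obtain ⟨I, c, hI, hTI⟩ := rigid hx (fib T.toLeft) (by rw [hS0, hT0]) δ0 hgood
      have hRg : ∀ g, g ≠ γ δ0 → fib T.toRight g = ∅ := by
        intro g hg
        have h3 : (fib T.toRight (γ δ0)).card + (fib T.toRight g).card ≤
            ∑ g, (fib T.toRight g).card := by
          have h4 : ∑ g' ∈ ({γ δ0, g} : Finset (Fin u)), (fib T.toRight g').card ≤
              ∑ g', (fib T.toRight g').card := sum_le_sum_of_subset (subset_univ _)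
          rwa [sum_pair hg.symm] at h4
        rw [hSR] at h3
        exact card_eq_zero.1 (by omega)
      refine mem_image.2 ⟨(δ0, ⟨I, fun i => if i ∈ I then c i else 0⟩, (c0, fib T.toRight (γ δ0))),
        ?_, ?_⟩
      · refine mem_product.2 ⟨mem_univ _, mem_product.2 ⟨mem_sigma.2 ⟨?_, ?_⟩, hKm⟩⟩
        · exact mem_powersetCard.2 ⟨subset_univ _, hI⟩
        · rw [Fintype.mem_piFinset]
          intro i
          by_cases hi : i ∈ I
          · simp [hi]
          · simp [hi]
      · refine Prod.ext rfl ?_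
        ext z
        show z ∈ mk γ δ0 I (fun i => if i ∈ I then c i else 0) (fib T.toRight (γ δ0)) ↔ z ∈ T
        rcases z with ⟨i, P⟩ | ⟨g, b⟩
        · rw [inl_mem_mk, ← mem_toLeft, ← mem_fib, hTI i]
          by_cases hi : i ∈ I
          · simp only [hi, if_true, true_and, mem_lin]
          · simp only [hi, if_false, false_and, notMem_empty]
        · rw [inr_mem_mk, ← mem_toRight, ← mem_fib]
          by_cases hg : g = γ δ0
          · rw [hg]
            simp
          · rw [hRg g hg]
            simp [hg]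

end Pool.Agent.H14.KN
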