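import Pool.Agent.H14.KN.Planes

/-!
[H14 KN DFP] The directional family of `x` lines in `2x-1` planes.

Let `m = 2x - 1`. For a direction `δ` let `Z δ` be the family of all
`A = {(i, P) | i ∈ J, icp δ P = c i}` with `J : Finset (Fin m)`, `J.card = x`,
`c : Fin m → ZMod p`.
* `A.card = x p` (`card_lin`).
* `δ ≠ δ'`: `J ∩ J'` is nonempty as `2x > 2x-1`; use `exists_inter`.
* For a finite set `T` of points let `T i = {P | (i, P) ∈ T}` (e.g. a filter and image, or
  `T.preimage`), `∑ i, (T i).card = T.card`. `Cov T (Z δ)` iff at least `x` planes have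
  `miss (T i) δ = ∅` (direction needed: if fewer than `x` planes have this property, then at
  least `x` planes `i` have some `c i ∈ miss (T i) δ`; take `J` of size `x` among them, the
  member of `Z δ` is disjoint from `T`).
* Third condition: if all classes are covered, all directions are good; by `exists_not_good` with
  `b' = 0` (`0 + 2 ≤ p`) the sum cannot be `≤ x p`, so it is `≥ x p + 1`.
* Fourth condition, `σ = x`: if some `δ ∉ U`, then `δ` is good and `x p ≤ T.card` by `good_card`,
  and `1 ≤ U.card` gives `x p + x ≤ T.card + x * U.card`. If `U = univ` then `U.card = p + 1`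
  and `x p + x = x (p+1)`.
* Last condition: let `T.card = x p` and let all `δ ≠ δ₀` be covered. By `rigid`, `T` is
  `{(i,P) | i ∈ I, icp δ₀ P = c i}` with `I.card = x`. The pairs `(δ₀, T)` of this form are at most
  `(p+1) * ((2x-1).choose x * p^x)` in number: `p+1` directions; `I`; and only the values
  `c i`, `i ∈ I`, matter (`p^x` possibilities: e.g. restrict `c` to functions that vanish
  outside `I`, `Fintype.piFinset`).
-/

namespace Pool.Agent.H14.KN

open Finset

private def slice {m p : ℕ} [NeZero p] (T : Finset (Fin m × (ZMod p × ZMod p))) (i : Fin m) :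
    Finset (ZMod p × ZMod p) :=
  univ.filter fun P => (i, P) ∈ T

private theorem mem_slice {m p : ℕ} [NeZero p] {T : Finset (Fin m × (ZMod p × ZMod p))}
    {i : Fin m} {P : ZMod p × ZMod p} : P ∈ slice T i ↔ (i, P) ∈ T := by
  simp [slice]

private theorem sum_slice {m p : ℕ} [NeZero p] (T : Finset (Fin m × (ZMod p × ZMod p))) :
    ∑ i, (slice T i).card = T.card := by
  rw [card_eq_sum_card_fiberwise (f := Prod.fst) (t := univ) (fun _ _ => mem_univ _)]
  refine sum_congr rfl fun i _ => ?_
  refine card_bij (fun P _ => (i, P)) ?_ ?_ ?_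
  · intro P hP
    exact mem_filter.2 ⟨mem_slice.1 hP, rfl⟩
  · intro P _ Q _ h
    exact (Prod.mk.inj h).2
  · rintro ⟨j, P⟩ h
    obtain ⟨h1, h2⟩ := mem_filter.1 h
    have h3 : j = i := h2
    subst h3
    exact ⟨P, mem_slice.2 h1, rfl⟩

private def FA {m p : ℕ} [NeZero p] (δ : Option (ZMod p)) (J : Finset (Fin m))
    (c : Fin m → ZMod p) : Finset (Fin m × (ZMod p × ZMod p)) :=
  univ.filter fun a => a.1 ∈ J ∧ icp δ a.2 = c a.1

private theorem mem_FA {m p : ℕ} [NeZero p] {δ : Option (ZMod p)} {J : Finset (Fin m)}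
    {c : Fin m → ZMod p} {a : Fin m × (ZMod p × ZMod p)} :
    a ∈ FA δ J c ↔ a.1 ∈ J ∧ icp δ a.2 = c a.1 := by
  simp [FA]

private theorem slice_FA {m p : ℕ} [Fact p.Prime] (δ : Option (ZMod p)) (J : Finset (Fin m))
    (c : Fin m → ZMod p) (i : Fin m) :
    slice (FA δ J c) i = if i ∈ J then lin δ (c i) else ∅ := by
  ext P
  rw [mem_slice, mem_FA]
  split_ifs with h
  · rw [mem_lin]
    exact ⟨fun h1 => h1.2, fun h1 => ⟨h, h1⟩⟩
  · constructor
    · intro h1
      exact absurd h1.1 h
    · intro h1
      exact absurd h1 (notMem_empty _)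

private theorem card_FA {m p : ℕ} [Fact p.Prime] (δ : Option (ZMod p)) (J : Finset (Fin m))
    (c : Fin m → ZMod p) : (FA δ J c).card = J.card * p := by
  rw [← sum_slice]
  have h1 : ∀ i, (slice (FA δ J c) i).card = if i ∈ J then p else 0 := by
    intro i
    rw [slice_FA]
    split_ifs
    · exact card_lin _ _
    · exact card_empty
  rw [sum_congr rfl fun i _ => h1 i, ← sum_filter, sum_const, smul_eq_mul]
  congr 2
  ext i
  simp

/-- The classes. -/
private def ZZ (m p x : ℕ) [NeZero p] (δ : Option (ZMod p)) :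
    Set (Finset (Fin m × (ZMod p × ZMod p))) :=
  {A | ∃ (J : Finset (Fin m)) (c : Fin m → ZMod p), J.card = x ∧ A = FA δ J c}

private theorem good_of_cov {p x : ℕ} [Fact p.Prime] (hx : 1 ≤ x)
    {T : Finset (Fin (2 * x - 1) × (ZMod p × ZMod p))} {δ : Option (ZMod p)}
    (h : Cov T (ZZ (2 * x - 1) p x δ)) :
    x ≤ (univ.filter (fun i => miss (slice T i) δ = ∅)).card := by
  classical
  by_contra hcon
  push Not at hcon
  have h1 := card_filter_add_card_filter_not (s := (univ : Finset (Fin (2 * x - 1))))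
    (fun i => miss (slice T i) δ = ∅)
  rw [card_univ, Fintype.card_fin] at h1
  have h2 : x ≤ (univ.filter (fun i => ¬ miss (slice T i) δ = ∅)).card := by omega
  obtain ⟨J, hJ, hJx⟩ := exists_subset_card_eq h2
  have h3 : ∀ i, ∃ c : ZMod p, i ∈ J → c ∈ miss (slice T i) δ := by
    intro i
    by_cases hi : i ∈ J
    · obtain ⟨c, hc⟩ := nonempty_iff_ne_empty.2 (mem_filter.1 (hJ hi)).2
      exact ⟨c, fun _ => hc⟩
    · exact ⟨0, fun h => absurd h hi⟩
  choose c hc using h3
  obtain ⟨⟨i, P⟩, ha, hb⟩ := h (FA δ J c) ⟨J, c, hJx, rfl⟩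
  obtain ⟨h4, h5⟩ := mem_FA.1 hb
  exact (mem_miss _ _ _).1 (hc i h4) P (mem_slice.2 ha) h5

theorem DF_plane {p x : ℕ} [Fact p.Prime] (hx : 1 ≤ x) :
    DF (Fin (2 * x - 1) × (ZMod p × ZMod p)) (Option (ZMod p)) (x * p)
      ((2 * x - 1).choose x * ((p + 1) * p ^ x)) x := by
  classical
  have hp := (Fact.out : p.Prime).two_le
  have hcardO : Fintype.card (Option (ZMod p)) = p + 1 := by
    rw [Fintype.card_option, ZMod.card]
  refine ⟨ZZ (2 * x - 1) p x, ?_, ?_, ?_, ?_, ?_⟩
  · rintro δ A ⟨J, c, hJ, rfl⟩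
    rw [card_FA, hJ]
  · rintro δ δ' hne A ⟨J, c, hJ, rfl⟩ B ⟨J', c', hJ', rfl⟩
    have h1 : (J ∩ J').Nonempty := by
      by_contra hcon
      rw [not_nonempty_iff_eq_empty] at hcon
      have h2 := card_union_add_card_inter J J'
      have h3 := card_le_univ (J ∪ J')
      rw [Fintype.card_fin] at h3
      rw [hcon, card_empty] at h2
      omega
    obtain ⟨i, hi⟩ := h1
    obtain ⟨hi1, hi2⟩ := mem_inter.1 hi
    obtain ⟨P, hP1, hP2⟩ := exists_inter hne (c i) (c' i)
    exact ⟨(i, P), mem_FA.2 ⟨hi1, hP1⟩, mem_FA.2 ⟨hi2, hP2⟩⟩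
  · intro T hT
    by_contra hcon
    obtain ⟨δ, hδ⟩ := exists_not_good hx (b' := 0) (by omega) (slice T) (by
      rw [sum_slice]
      omega)
    have := good_of_cov hx (hT δ)
    omega
  · intro T U hU hT
    by_cases h1 : ∃ δ, δ ∉ U
    · obtain ⟨δ, hδ⟩ := h1
      have h2 := good_card (slice T) δ (good_of_cov hx (hT δ hδ))
      rw [sum_slice] at h2
      have h3 : 1 ≤ U.card := card_pos.2 hU
      nlinarith
    · push Not at h1
      have h2 : U = univ := eq_univ_iff_forall.2 h1
      rw [h2, card_univ, hcardO]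
      nlinarith
  · refine ⟨((univ : Finset (Option (ZMod p))) ×ˢ
      (powersetCard x (univ : Finset (Fin (2 * x - 1))))).biUnion fun a =>
        (Fintype.piFinset (fun i : Fin (2 * x - 1) =>
          if i ∈ a.2 then (univ : Finset (ZMod p)) else {0})).image fun c =>
            (a.1, FA a.1 a.2 c), ?_, ?_⟩
    · refine card_biUnion_le.trans ?_
      have h1 : ∀ a ∈ (univ : Finset (Option (ZMod p))) ×ˢ
          (powersetCard x (univ : Finset (Fin (2 * x - 1)))),
          ((Fintype.piFinset (fun i : Fin (2 * x - 1) =>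
            if i ∈ a.2 then (univ : Finset (ZMod p)) else {0})).image fun c =>
              (a.1, FA a.1 a.2 c)).card ≤ p ^ x := by
        intro a ha
        refine card_image_le.trans ?_
        rw [Fintype.card_piFinset]
        have h2 : ∀ i, (if i ∈ a.2 then (univ : Finset (ZMod p)) else {0}).card =
            if i ∈ a.2 then p else 1 := by
          intro i
          split_ifs
          · rw [card_univ, ZMod.card]
          · exact card_singleton _
        rw [prod_congr rfl fun i _ => h2 i, prod_ite_mem, univ_inter, prod_const,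
          (mem_powersetCard.1 (mem_product.1 ha).2).2]
      refine (sum_le_card_nsmul _ _ _ h1).trans (le_of_eq ?_)
      rw [card_product, card_univ, hcardO, card_powersetCard, card_univ, Fintype.card_fin,
        smul_eq_mul]
      ring
    · intro δ₀ T hT hcov
      obtain ⟨I, c, hI, hTI⟩ := rigid hx (slice T) (by rw [sum_slice, hT]) δ₀
        fun δ hδ => good_of_cov hx (hcov δ hδ)
      rw [mem_biUnion]
      refine ⟨(δ₀, I), mem_product.2 ⟨mem_univ _, mem_powersetCard.2 ⟨subset_univ _, hI⟩⟩, ?_⟩
      rw [mem_image]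
      refine ⟨fun i => if i ∈ I then c i else 0, ?_, ?_⟩
      · rw [Fintype.mem_piFinset]
        intro i
        show (if i ∈ I then c i else 0) ∈ (if i ∈ I then (univ : Finset (ZMod p)) else {0})
        split_ifs
        · exact mem_univ _
        · exact mem_singleton_self _
      · show (δ₀, FA δ₀ I fun i => if i ∈ I then c i else 0) = (δ₀, T)
        congr 1
        ext ⟨i, P⟩
        rw [← mem_slice, ← mem_slice, slice_FA, hTI]
        split_ifs <;> rfl

end Pool.Agent.H14.KN
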