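import Pool.Agent.H14.KN.ManyPrimes

/-!
[H14 KN STP] Every large `b` is `x p + b'` with a prime `p`, `x ≤ 15` and `x < b' ≤ p - 2`.

Take `n = b / 16` and `many_primes 18`: for large `b` there are at least 18 primes in
`(n, 4n]`. Each such `p` has `4 p ≤ b` and `16 p > b` (since `p ≥ n + 1`). Put `x = b / p`,
`b' = b % p`; then `4 ≤ x ≤ 15`. If `p` does not do, then `b' ≤ x ≤ 15`, so `p ∣ b - b'`, or
`b' = p - 1`, so `p ∣ b + 1`. So `p` divides one of the 17 positive numbers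
`b + 1, b, b - 1, …, b - 15`. If all 18 primes fail, two different primes `p, p'` divide the same
number `M ≤ b + 1` (pigeonhole), so `p p' ∣ M`, `(b/16)^2 < p p' ≤ b + 1`, which is false for
`b ≥ 1000`.
-/

namespace Pool.Agent.H14.KN

open Finset

theorem exists_step : ∃ b₀ : ℕ, ∀ b, b₀ ≤ b → ∃ p x b' : ℕ, p.Prime ∧ 1 ≤ x ∧ x ≤ 15 ∧
    b = x * p + b' ∧ x + 1 ≤ b' ∧ b' + 2 ≤ p ∧ 4 * p ≤ b := by
  sorry

end Pool.Agent.H14.KN
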