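import Pool.Agent.H14.KN.Transport
import Pool.Agent.H14.KN.DFPlane
import Pool.Agent.H14.KN.DFAdd
import Pool.Agent.H14.KN.DFStepNT

/-!
[H14 KN DAL] Directional families exist for all `b ≥ 2`.

`DF_small`: let `p` be a prime factor of `b ≥ 2`, `b = x p`. `DF_plane` and `DF.transport` give
`DF (Fin n) (Fin (p+1)) b N x` with `n = (2x-1) p^2 ≤ 2 (x p) p ≤ 2 b^2`.

`DF_all`: let `b₀` be from `exists_step`. Choose a natural number `C₀ ≥ 100` that is at least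
the numbers `N`, `κ`, `σ` of `DF_small` for all `2 ≤ b < max b₀ 16` (finitely many). Strong
induction on `b`. For `b < max b₀ 16`: `DF_small`, `DF.mono`, and
`N ≤ C₀ ≤ exp C₀ ≤ exp (C₀ (1 + log b)^2)`, the same for `κ`.
For larger `b` take `p, x, b'` from `exists_step`, and `n', N', κ'` for `b'` (`2 ≤ b' < b`).
Let `u = b / b' + 1`. Then `u * b' ≥ b + 1` and `u * b' ≤ b + b'`; and `u ≤ p + 1`, i.e.
`b / b' ≤ p`: `b = x p + b' < (p + 1) b'` because `x < b'`. `DF_add` (with `Fact p.Prime`) and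
`DF.transport` give `DF (Fin n) (Fin κ) b N C₀` with `n = (2x-1) p^2 + u n'`,
`κ = (p+1) κ'`, `N = (2x-1).choose x * ((p+1) p^x) * N'`.
* `n ≤ 2 (x p) p + 2 b' (u b') ≤ 2 b (b/4) + 2 (b/4) (b + b/4) = (9/8) b^2 ≤ 2 b^2`.
* `κ ≤ b κ'`, `N ≤ 2^29 * b^16 * N'` (`(2x-1).choose x ≤ 2^(2x-1) ≤ 2^29`, `p + 1 ≤ b`,
  `p^x ≤ b^15`). With `A = 1 + log b` and `b' ≤ p ≤ b/4`: `1 + log b' ≤ A - log 4`, and
  `(A - log 4)^2 ≤ A^2 - (log 4) A` since `A ≥ log 4`. So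
  `log N ≤ 29 log 2 + 16 A + C₀ A^2 - C₀ (log 4) A ≤ C₀ A^2` because
  `C₀ log 4 ≥ 100 ≥ 16 + 29 log 2` and `A ≥ 1`; the same for `κ`. (If `N' = 0` everything is
  trivial; work with `N ≤ exp (..)` directly: multiply the bound for `N'` by
  `2^29 b^16 = exp (29 log 2 + 16 log b)`.)
-/

namespace Pool.Agent.H14.KN

open Finset

theorem DF_small (b : ℕ) (hb : 2 ≤ b) : ∃ n N κ σ : ℕ, DF (Fin n) (Fin κ) b N σ ∧
    n ≤ 2 * b ^ 2 ∧ 1 ≤ κ := by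
  sorry

theorem DF_all : ∃ C₀ : ℕ, 1 ≤ C₀ ∧ ∀ b : ℕ, 2 ≤ b → ∃ n N κ : ℕ,
    DF (Fin n) (Fin κ) b N C₀ ∧ n ≤ 2 * b ^ 2 ∧ 1 ≤ κ ∧
    (N : ℝ) ≤ Real.exp (C₀ * (1 + Real.log b) ^ 2) ∧
    (κ : ℝ) ≤ Real.exp (C₀ * (1 + Real.log b) ^ 2) := by
  sorry

end Pool.Agent.H14.KN
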