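import Pool.Agent.H14.KN.ManyPrimes

/-!
[H14 KN PEX] Existence of the parameters.

Let `n₀` be from `many_primes 3`; let `a` be large: `a ≥ n₀^2` and `w = Nat.log 2 a + 1 ≥ 2^80`
(`a ≥ 2^(2^80)`; do not let Lean evaluate this number, e.g. use `a₀ = n₀^2 + 2^(2^80)` only
through `Nat.pow_le_pow_right`, or take `a₀` from an existence lemma: `Nat.log 2 a` tends to
infinity). Then `2^(w-1) ≤ a < 2^w`.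
(1) `w^100 ≤ 2^(w-1)`: let `L = Nat.log 2 w ≥ 80`; `w < 2^(L+1)` and
`100 (L+1) ≤ 2^L - 1 ≤ w - 1` (`2^L ≥ 100 L + 101` for `L ≥ 80`, induction).
(2) Let `Q = a / (8 w^4)`. As `8 w^4 ≤ a` we have `a ≤ 16 w^4 Q`. As `(16 w^4)^2 ≤ w^100 ≤ a`:
`a ≤ Q^2`, so `Q ≥ n₀` and `Q ≥ w^50`. As `4096 w^12 < a`:
`a^3 ≤ 4096 w^12 Q^3 < a Q^3`, so `a^2 < Q^3`.
(3) There is a prime `q` with `Q < q ≤ 4Q` and `a % q ≥ 2`: otherwise take three different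
primes in `(Q, 4Q]`; each divides `a` or `a - 1`, so divides `a (a-1)`, which is positive; so their
product divides `a (a-1)`, and `Q^3 < a (a-1) < a^2`, contradiction.
(4) Let `s = a / q`, `b = a % q`, `m = 2 s - w`, `r = q / (4 m)`. `q ≤ 4 Q`, `8 w^4 Q ≤ a` give
`2 w^4 q ≤ a`, so `s ≥ 2 w^4`. `a < 8 w^4 (Q+1) ≤ 8 w^4 q` gives `s ≤ 8 w^4`.
`w ≤ w^4 ≤ s ≤ m ≤ 2 s ≤ 16 w^4`. `m^10 ≤ 16^10 w^40 ≤ w^50 ≤ Q ≤ q` (`w ≥ 2^80`).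
`q ≤ a ≤ 2^w`. `4 m r ≤ q` clear; `r > 0` as `4 m ≤ q`; `q < 4 m (r+1) ≤ 8 m r`, so
`q^4 ≤ (8 m)^4 r^4 ≤ q r^4` as `(8m)^4 ≤ m^10 ≤ q`; so `q^3 ≤ r^4`.
-/

namespace Pool.Agent.H14.KN

open Finset

theorem par_exists : ∃ a₀ : ℕ, ∀ a, a₀ ≤ a → ∃ q w s m r b : ℕ, Par q w s m r ∧
    a = s * q + b ∧ 2 ≤ b ∧ b + 1 ≤ q ∧ w = Nat.log 2 a + 1 ∧ s ≤ 8 * w ^ 4 ∧
    2 * w ^ 4 * q ≤ a := by
  sorry

end Pool.Agent.H14.KN
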