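import Pool.Agent.H14.KN.Base
import Pool.Agent.H14.KN.ParEx
import Pool.Agent.H14.KN.DFAll

/-!
[H14 KN BAL] The base families for all large `a`.

Let `C₀` be from `DF_all` and `a₁` from `par_exists`; `a₀ = max a₁ (2^C₀ + 2)`,
`C₁ = 800 + 4 C₀`. For `a ≥ a₀` take `q, w, s, m, r, b` from `par_exists`; `2 ≤ b`,
`w = Nat.log 2 a + 1 > C₀`, `w ≥ 2^80`, and `n_b, N_b, κ` from `DF_all` for `b`.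
Real facts: `log a ≤ w` (`a < 2^w`, `log 2 ≤ 1`); `w ≤ 2 log a` (`2^(w-1) ≤ a`, so
`(w-1) log 2 ≤ log a`, `log 2 ≥ 0.69`, `w` large); `1 ≤ log a`.
* `κ^16 ≤ 2^s`: `16 C₀ (1 + log b)^2 ≤ 16 C₀ (1+w)^2 ≤ 64 C₀ w^2 ≤ 64 w^3 ≤ w^4 log 2 ≤ s log 2`.
* `4 C₀ ≤ 4 w ≤ w^4 ≤ s`.
* `u = (a+1)/(b+1) + 1` (natural division): `s q + b + 1 = a + 1 ≤ u (b+1)`;
  `u ≤ (a+1)/3 + 1 ≤ a ≤ (s+1) q ≤ q^2` (`s + 1 ≤ q`: `s ≤ m`, `m^10 ≤ q`).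
* `PF_base` (with `Fact q.Prime` from `Par.prime`) and `PF.transport` give `PF (Fin n) a N`,
  `n = m q^2 + u n_b`, `N = 2^(6s) N_b`.
* `m q^2 ≤ 2 s q q ≤ 2 a q`. `u (b+1) ≤ 2 (a+1)` (as `b ≤ a`), `n_b ≤ 2 b^2 ≤ 2 (b+1) q`, so
  `u n_b ≤ 4 (a+1) q ≤ 5 a q`. So `n ≤ 7 a q` and `2 n w^4 ≤ 7 a (2 w^4 q) / 1 ≤ 7 a^2`, so
  `n (log a)^4 ≤ n w^4 ≤ 4 a^2`.
* `N ≤ exp (6 s log 2 + C₀ (1 + log b)^2)`; `6 s ≤ 48 w^4 ≤ 768 (log a)^4`,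
  `(1 + log b)^2 ≤ (2 log a)^2 ≤ 4 (log a)^4`.
-/

namespace Pool.Agent.H14.KN

open Finset

theorem base_all : ∃ (C₁ : ℝ) (a₀ : ℕ), 1 ≤ C₁ ∧ 2 ≤ a₀ ∧ ∀ a : ℕ, a₀ ≤ a → ∃ n N : ℕ,
    PF (Fin n) a N ∧ (n : ℝ) * Real.log a ^ 4 ≤ C₁ * (a : ℝ) ^ 2 ∧
    (N : ℝ) ≤ Real.exp (C₁ * Real.log a ^ 4) := by
  sorry

end Pool.Agent.H14.KN
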