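import Pool.Agent.H14.KN.Defs

/-!
[H14 KN NUM] Three numerical inequalities. Mathlib only.

Facts from `Par`: `w ≥ 2^80`, `m ≥ s ≥ w^4` (from `m + w = 2 s`, `w ≤ s`), `q ≥ m^10 ≥ w^40`,
`q ≤ 2^w`, `q ≤ r^4/q^2`, i.e. `(r/q)^4 ≥ 1/q`, `r ≤ q` (from `4 m r ≤ q`). Put `ρ = (r/q)^2`, so
`ρ ≤ 1`, `ρ^2 ≥ 1/q`, and `(q ρ)^2 ≥ q`, so `q ρ ≥ √q ≥ w^20 ≥ w/12800`. `exp 2 ≤ 8`.

`num1`: `(r/q)^4 ≥ 1/q`. It is enough to show the 20th power or to use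
`(r/q/m)^20 ≥ (1/q)^5 (1/q)^2 = q^(-7)` (`(r/q)^20 ≥ q^(-5)`, `m^20 ≤ q^2`). Simple way: write
`w + 3 = 20 k + t` with `t < 20`, `k ≥ 10`; `(r/q/m)^(w+3) ≥ (r/q/m)^(20(k+1)) ≥ q^(-7(k+1))`; and
`q^w ≥ q^(20 k - 3)`. So the product is `≥ q^(13 k - 10) ≥ q^(20) ≥ q^5 * 2 m^2 ..`, using
`2 m² ≤ q`.

`num2`: let `z = w - y`. `(ρ/exp 2)^(z+2) = ρ^z ρ^2 exp(-2)^(z+2) ≥ ρ^z q^(-1) 8^(-(w+2))`.
So the right side is at least
`(q ρ)^z * (w/12800)^y * q^(-2) * 8^(-(w+2)) / (4 * 2^w)`, and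
`(q ρ)^z (w/12800)^y ≥ (w/12800)^w ≥ (2^66)^w` (`12800 ≤ 2^14`). Since `q ≤ 2^w`,
`q^7 * 8^(w+2) * 4 * 2^w ≤ 2^(7w + 3w + 6 + 2 + w) = 2^(11 w + 8) ≤ 2^(66 w)`.

`num3`: `(ρ/exp 2)^2 ≥ q^(-1) / 64`; the right side is at least
`q^(-3) (w/25600)^(w-1) / 128 ≥ q^(-3) 2^(65 (w-1)) / 128`, and `q^8 * 128 ≤ 2^(8w+7)`.
-/

namespace Pool.Agent.H14.KN

open Finset

/-- basic facts -/
private theorem facts {q w s m r : ℕ} (hP : Par q w s m r) :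
    (2 : ℝ) ^ 80 ≤ w ∧ (w : ℝ) ≤ m ∧ (m : ℝ) ^ 10 ≤ q ∧ (q : ℝ) ≤ 2 ^ w ∧
      (q : ℝ) ^ 3 ≤ (r : ℝ) ^ 4 ∧ (4 : ℝ) * m * r ≤ q ∧ (1 : ℝ) ≤ r ∧ (1 : ℝ) ≤ m ∧ (1 : ℝ) ≤ q ∧
      (r : ℝ) ≤ q ∧ (2 : ℝ) ≤ m := by
  have hw : (2 : ℝ) ^ 80 ≤ w := by exact_mod_cast hP.hw
  have hw1 : 1 ≤ w := le_trans (by norm_num) hP.hw
  have h1 : w ≤ s := le_trans (by
    calc w = w ^ 1 := (pow_one w).symm
      _ ≤ w ^ 4 := Nat.pow_le_pow_right hw1 (by norm_num)) hP.hs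
  have h2 : w ≤ m := by have := hP.hm; omega
  have h3 : (w : ℝ) ≤ m := by exact_mod_cast h2
  have h4 : (m : ℝ) ^ 10 ≤ q := by exact_mod_cast hP.hmq
  have h5 : (q : ℝ) ≤ 2 ^ w := by exact_mod_cast hP.hq2
  have h6 : (q : ℝ) ^ 3 ≤ (r : ℝ) ^ 4 := by exact_mod_cast hP.hr
  have h7 : (4 : ℝ) * m * r ≤ q := by exact_mod_cast hP.hmr
  have h8 : (1 : ℝ) ≤ r := by exact_mod_cast hP.hr0
  have h9 : (2 : ℝ) ≤ m := le_trans (by norm_num) (hw.trans h3)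
  have h10 : (1 : ℝ) ≤ m := by linarith
  have h11 : (1 : ℝ) ≤ q := by nlinarith
  refine ⟨hw, h3, h4, h5, h6, h7, h8, h10, h11, ?_, h9⟩
  nlinarith

private theorem rho {q w s m r : ℕ} (hP : Par q w s m r) :
    (1 : ℝ) ≤ q * ((r : ℝ) / q) ^ 4 := by
  obtain ⟨-, -, -, -, h6, -, -, -, h11, -, -⟩ := facts hP
  have hq : (0 : ℝ) < q := by linarith
  have e : (q : ℝ) * ((r : ℝ) / q) ^ 4 = (r : ℝ) ^ 4 / (q : ℝ) ^ 3 := by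
    field_simp
  rw [e, le_div_iff₀ (by positivity), one_mul]
  exact h6

theorem num1 {q w s m r : ℕ} (hP : Par q w s m r) :
    (q : ℝ) ^ 5 ≤ (q : ℝ) ^ w * ((((r : ℝ) / q) / m) ^ (w + 3) / (2 * (m : ℝ) ^ 2)) := by
  obtain ⟨hw, hwm, hm10, hq2, hr4, h4m, hr1, hm1, hq1, hrq, hm2⟩ := facts hP
  have hrho := rho hP
  have hq : (0 : ℝ) < q := by linarith
  have hm : (0 : ℝ) < m := by linarith
  have hr : (0 : ℝ) < r := by linarith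
  set a : ℝ := ((r : ℝ) / q) / m with ha
  have ha0 : 0 < a := by positivity
  have ha1 : a ≤ 1 := by
    rw [ha, div_div, div_le_one (by positivity)]
    nlinarith
  have ha20 : 1 ≤ (q : ℝ) ^ 7 * a ^ 20 := by
    have e : (q : ℝ) ^ 7 * a ^ 20 =
        ((q : ℝ) * ((r : ℝ) / q) ^ 4) ^ 5 * ((q : ℝ) / (m : ℝ) ^ 10) ^ 2 := by
      rw [ha]
      field_simp
    rw [e]
    have h2 : 1 ≤ (q : ℝ) / (m : ℝ) ^ 10 := by
      rw [le_div_iff₀ (by positivity), one_mul]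
      exact hm10
    exact one_le_mul_of_one_le_of_one_le (one_le_pow₀ hrho) (one_le_pow₀ h2)
  have hwN : 2 ^ 80 ≤ w := hP.hw
  obtain ⟨k, hk⟩ : ∃ k, k = (w + 3) / 20 := ⟨_, rfl⟩
  have hk1 : w + 3 ≤ 20 * (k + 1) := by omega
  have hk2 : 20 * k ≤ w + 3 := by omega
  have hk3 : 2 ≤ k := by
    have : 100 ≤ w := le_trans (by norm_num) hwN
    omega
  obtain ⟨n, hn⟩ : ∃ n, w = n + 7 * (k + 1) := ⟨w - 7 * (k + 1), by omega⟩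
  have hn6 : 6 ≤ n := by omega
  have h1 : (q : ℝ) ^ n ≤ (q : ℝ) ^ w * a ^ (w + 3) := by
    calc (q : ℝ) ^ n = (q : ℝ) ^ n * 1 := (mul_one _).symm
      _ ≤ (q : ℝ) ^ n * ((q : ℝ) ^ 7 * a ^ 20) ^ (k + 1) :=
          mul_le_mul_of_nonneg_left (one_le_pow₀ ha20) (by positivity)
      _ = (q : ℝ) ^ w * a ^ (20 * (k + 1)) := by
          rw [mul_pow, ← pow_mul, ← pow_mul, ← mul_assoc, ← pow_add, ← hn]
      _ ≤ (q : ℝ) ^ w * a ^ (w + 3) :=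
          mul_le_mul_of_nonneg_left (pow_le_pow_of_le_one ha0.le ha1 hk1) (by positivity)
  have h2 : (q : ℝ) ^ 6 ≤ (q : ℝ) ^ n := pow_le_pow_right₀ hq1 hn6
  have h3 : 2 * (m : ℝ) ^ 2 ≤ q := by
    calc 2 * (m : ℝ) ^ 2 ≤ m * (m : ℝ) ^ 2 := by nlinarith [sq_nonneg (m : ℝ)]
      _ = (m : ℝ) ^ 3 := by ring
      _ ≤ (m : ℝ) ^ 10 := pow_le_pow_right₀ hm1 (by norm_num)
      _ ≤ q := hm10
  rw [← mul_div_assoc, le_div_iff₀ (by positivity)]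
  calc (q : ℝ) ^ 5 * (2 * (m : ℝ) ^ 2) ≤ (q : ℝ) ^ 5 * q :=
        mul_le_mul_of_nonneg_left h3 (by positivity)
    _ = (q : ℝ) ^ 6 := by ring
    _ ≤ _ := h2.trans h1

private theorem exp2 : Real.exp 2 ≤ 8 := by
  have h := Real.exp_one_lt_d9
  have e : Real.exp 2 = Real.exp 1 * Real.exp 1 := by
    rw [← Real.exp_add]
    norm_num
  have h0 := Real.exp_pos 1
  rw [e]
  nlinarith

/-- `1 / (64 q) ≤ (ρ / exp 2)^2` in the form without division -/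
private theorem rho2 {q w s m r : ℕ} (hP : Par q w s m r) (z : ℕ) :
    (((r : ℝ) / q) ^ 2) ^ z / ((q : ℝ) * 8 ^ (z + 2)) ≤
      (((r : ℝ) / q) ^ 2 / Real.exp 2) ^ (z + 2) := by
  obtain ⟨hw, hwm, hm10, hq2, hr4, h4m, hr1, hm1, hq1, hrq, hm2⟩ := facts hP
  have hrho := rho hP
  have hq : (0 : ℝ) < q := by linarith
  have hr : (0 : ℝ) < r := by linarith
  set ρ : ℝ := ((r : ℝ) / q) ^ 2 with hρ
  have hρ0 : 0 < ρ := by positivity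
  have h1 : 1 ≤ q * ρ ^ 2 := by
    rw [hρ, ← pow_mul]
    exact hrho
  have hE := exp2
  have hE0 := Real.exp_pos 2
  calc ρ ^ z / ((q : ℝ) * 8 ^ (z + 2)) ≤ ρ ^ z * (q * ρ ^ 2) / ((q : ℝ) * 8 ^ (z + 2)) := by
        refine div_le_div_of_nonneg_right ?_ (by positivity)
        have : 0 ≤ ρ ^ z := by positivity
        nlinarith
    _ = ρ ^ (z + 2) / 8 ^ (z + 2) := by
        rw [pow_add ρ]
        field_simp
    _ = (ρ / 8) ^ (z + 2) := by rw [div_pow]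
    _ ≤ (ρ / Real.exp 2) ^ (z + 2) := by
        refine pow_le_pow_left₀ (by positivity) ?_ _
        exact div_le_div_of_nonneg_left hρ0.le hE0 hE

theorem num2 {q w s m r : ℕ} (hP : Par q w s m r) {y : ℕ} (hy : 1 ≤ y) (hyw : y ≤ w) :
    (q : ℝ) ^ 5 ≤ (((r : ℝ) / q) ^ 2 / Real.exp 2) ^ (w + 2 - y) / q *
      ((q : ℝ) ^ (w - y) / 4 * (((w : ℝ) / 12800) ^ y / 2 ^ w)) := by
  obtain ⟨hw, hwm, hm10, hq2, hr4, h4m, hr1, hm1, hq1, hrq, hm2⟩ := facts hP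
  have hrho := rho hP
  have hq : (0 : ℝ) < q := by linarith
  have hr : (0 : ℝ) < r := by linarith
  have hwN : 2 ^ 80 ≤ w := hP.hw
  obtain ⟨z, hz⟩ : ∃ z, z = w - y := ⟨_, rfl⟩
  have hz1 : w + 2 - y = z + 2 := by omega
  have hzy : z + y = w := by omega
  have hzw : z ≤ w := by omega
  rw [hz1, ← hz]
  have hrho2 := rho2 hP z
  set ρ : ℝ := ((r : ℝ) / q) ^ 2 with hρ
  have hρ0 : 0 < ρ := by positivity
  have h1 : 1 ≤ q * ρ ^ 2 := by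
    rw [hρ, ← pow_mul]
    exact hrho
  have hw0 : (0 : ℝ) < w := lt_of_lt_of_le (by norm_num) hw
  have hwq : (w : ℝ) ^ 2 ≤ q := by
    calc (w : ℝ) ^ 2 ≤ (m : ℝ) ^ 2 := pow_le_pow_left₀ hw0.le hwm 2
      _ ≤ (m : ℝ) ^ 10 := pow_le_pow_right₀ hm1 (by norm_num)
      _ ≤ q := hm10
  have h2 : (w : ℝ) ≤ q * ρ := by
    have h3 : (w : ℝ) ^ 2 ≤ (q * ρ) ^ 2 := by
      calc (w : ℝ) ^ 2 ≤ q := hwq
        _ = q * 1 := (mul_one _).symm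
        _ ≤ q * (q * ρ ^ 2) := mul_le_mul_of_nonneg_left h1 hq.le
        _ = (q * ρ) ^ 2 := by ring
    exact le_of_sq_le_sq h3 (by positivity)
  have h3 : (w : ℝ) / 12800 ≤ q * ρ := le_trans (by linarith) h2
  have h4 : (2 : ℝ) ^ 66 ≤ (w : ℝ) / 12800 := by
    rw [le_div_iff₀ (by norm_num)]
    refine le_trans ?_ hw
    norm_num
  have h5 : ((2 : ℝ) ^ 66) ^ w ≤ (q * ρ) ^ z * ((w : ℝ) / 12800) ^ y := by
    calc ((2 : ℝ) ^ 66) ^ w ≤ ((w : ℝ) / 12800) ^ w := pow_le_pow_left₀ (by positivity) h4 _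
      _ = ((w : ℝ) / 12800) ^ z * ((w : ℝ) / 12800) ^ y := by rw [← pow_add, hzy]
      _ ≤ (q * ρ) ^ z * ((w : ℝ) / 12800) ^ y :=
          mul_le_mul_of_nonneg_right (pow_le_pow_left₀ (by positivity) h3 _) (by positivity)
  have h6 : (q : ℝ) ^ 7 * (8 ^ (z + 2) * 4 * 2 ^ w) ≤ ((2 : ℝ) ^ 66) ^ w := by
    calc (q : ℝ) ^ 7 * (8 ^ (z + 2) * 4 * 2 ^ w)
        ≤ ((2 : ℝ) ^ w) ^ 7 * (8 ^ (w + 2) * 4 * 2 ^ w) := by
          refine mul_le_mul (pow_le_pow_left₀ hq.le hq2 7) ?_ (by positivity) (by positivity)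
          have : (8 : ℝ) ^ (z + 2) ≤ 8 ^ (w + 2) := pow_le_pow_right₀ (by norm_num) (by omega)
          have h2w : (0 : ℝ) < 2 ^ w := by positivity
          nlinarith
      _ = (2 : ℝ) ^ (7 * w + (3 * (w + 2) + 2 + w)) := by
          rw [show (8 : ℝ) = 2 ^ 3 by norm_num, show (4 : ℝ) = 2 ^ 2 by norm_num, ← pow_mul,
            ← pow_mul, ← pow_add, ← pow_add, ← pow_add]
          congr 1
          ring
      _ ≤ (2 : ℝ) ^ (66 * w) := by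
          refine pow_le_pow_right₀ (by norm_num) ?_
          have : 1 ≤ w := le_trans (by norm_num) hwN
          omega
      _ = ((2 : ℝ) ^ 66) ^ w := by rw [← pow_mul]
  have h7 : ρ ^ z / ((q : ℝ) * 8 ^ (z + 2)) / q * ((q : ℝ) ^ z / 4 * (((w : ℝ) / 12800) ^ y /
      2 ^ w)) = ((q * ρ) ^ z * ((w : ℝ) / 12800) ^ y) / ((q : ℝ) ^ 2 * (8 ^ (z + 2) * 4 * 2 ^ w)) := by
    rw [mul_pow]
    field_simp
  have h8 : (q : ℝ) ^ 5 ≤ ρ ^ z / ((q : ℝ) * 8 ^ (z + 2)) / q *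
      ((q : ℝ) ^ z / 4 * (((w : ℝ) / 12800) ^ y / 2 ^ w)) := by
    rw [h7, le_div_iff₀ (by positivity)]
    calc (q : ℝ) ^ 5 * ((q : ℝ) ^ 2 * (8 ^ (z + 2) * 4 * 2 ^ w))
        = (q : ℝ) ^ 7 * (8 ^ (z + 2) * 4 * 2 ^ w) := by ring
      _ ≤ _ := h6.trans h5
  refine h8.trans ?_
  refine mul_le_mul_of_nonneg_right ?_ (by positivity)
  exact div_le_div_of_nonneg_right hrho2 hq.le

theorem num3 {q w s m r : ℕ} (hP : Par q w s m r) :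
    (q : ℝ) ^ 5 ≤ (((r : ℝ) / q) ^ 2 / Real.exp 2) ^ 2 / q *
      (((w : ℝ) / 25600) ^ (w - 1) / (2 * q)) := by
  obtain ⟨hw, hwm, hm10, hq2, hr4, h4m, hr1, hm1, hq1, hrq, hm2⟩ := facts hP
  have hq : (0 : ℝ) < q := by linarith
  have hwN : 2 ^ 80 ≤ w := hP.hw
  have hw2 : 2 ≤ w := le_trans (by norm_num) hwN
  have hrho2 := rho2 hP 0
  rw [pow_zero, zero_add] at hrho2
  have h4 : (2 : ℝ) ^ 65 ≤ (w : ℝ) / 25600 := by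
    rw [le_div_iff₀ (by norm_num)]
    refine le_trans ?_ hw
    norm_num
  have h5 : ((2 : ℝ) ^ 65) ^ (w - 1) ≤ ((w : ℝ) / 25600) ^ (w - 1) :=
    pow_le_pow_left₀ (by positivity) h4 _
  have h6 : (q : ℝ) ^ 8 * 128 ≤ ((2 : ℝ) ^ 65) ^ (w - 1) := by
    calc (q : ℝ) ^ 8 * 128 ≤ ((2 : ℝ) ^ w) ^ 8 * 128 :=
          mul_le_mul_of_nonneg_right (pow_le_pow_left₀ hq.le hq2 8) (by norm_num)
      _ = (2 : ℝ) ^ (8 * w + 7) := by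
          rw [show (128 : ℝ) = 2 ^ 7 by norm_num, ← pow_mul, ← pow_add]
          congr 1
          ring
      _ ≤ (2 : ℝ) ^ (65 * (w - 1)) := by
          refine pow_le_pow_right₀ (by norm_num) ?_
          omega
      _ = ((2 : ℝ) ^ 65) ^ (w - 1) := by rw [← pow_mul]
  have h7 : (q : ℝ) ^ 5 ≤ 1 / ((q : ℝ) * 8 ^ 2) / q *
      (((w : ℝ) / 25600) ^ (w - 1) / (2 * q)) := by
    have e : 1 / ((q : ℝ) * 8 ^ 2) / q * (((w : ℝ) / 25600) ^ (w - 1) / (2 * q)) =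
        ((w : ℝ) / 25600) ^ (w - 1) / ((q : ℝ) ^ 3 * 128) := by
      field_simp
      norm_num
    rw [e, le_div_iff₀ (by positivity)]
    calc (q : ℝ) ^ 5 * ((q : ℝ) ^ 3 * 128) = (q : ℝ) ^ 8 * 128 := by ring
      _ ≤ _ := h6.trans h5
  refine h7.trans ?_
  refine mul_le_mul_of_nonneg_right ?_ (by positivity)
  exact div_le_div_of_nonneg_right hrho2 hq.le

end Pool.Agent.H14.KN
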