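import Pool.Agent.H14.KN.Defs

/-!
[H14 KN PRL] Lower bound for a product, and the connection of `nb` with `tail`. Mathlib only.

`prod_low`: let `D = {l ∈ I | 1/2 < τ l}`; `|D| / 2 ≤ ∑_D τ ≤ B`, so `|D| ≤ 2B` and
`∏_D (1 - τ l) ≥ ε^|D| ≥ ε^(2B)` (`0 < ε ≤ 1`). For `l ∈ I \ D`:
`1 - τ ≥ 1/(1 + 2τ) ≥ exp (-2τ)` since `(1-τ)(1+2τ) = 1 + τ (1 - 2τ) ≥ 1`. So
`∏_{I\D} (1-τ l) ≥ exp (-2 ∑ τ) ≥ exp (-2B)`. The product is
`≥ ε^(2B) exp(-2B) = (ε²/exp 2)^B`.

`nb_eq`: for fixed `f` let `M l = miss (T l) (sym f l)`. The number of words `z` with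
`{l | z l ∈ M l} = A` is `∏_{l∈A} |M l| * ∏_{l∉A} (q - |M l|)` (`Fintype.card_piFinset` applied
to the sets `M l` for `l ∈ A` and `(M l)ᶜ` for `l ∉ A`). Dividing by `q^m` gives
`∏_A vf * ∏_{univ\A} (1 - vf)`. Sum over `A` with `s ≤ |A|`.

`vf_nonneg`, `vf_le_one`: `(miss ..).card ≤ q = Fintype.card (ZMod q)`.
-/

namespace Pool.Agent.H14.KN

open Finset

theorem prod_low {ι : Type} (I : Finset ι) (τ : ι → ℝ) {ε : ℝ} (hε : 0 < ε) (hε1 : ε ≤ 1)
    (h0 : ∀ l ∈ I, 0 ≤ τ l) (h1 : ∀ l ∈ I, τ l ≤ 1 - ε) {B : ℕ} (hB : ∑ l ∈ I, τ l ≤ B) :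
    (ε ^ 2 / Real.exp 2) ^ B ≤ ∏ l ∈ I, (1 - τ l) := by
  classical
  have hD : ∀ l ∈ I, (if 1 / 2 < τ l then ε else 1) * Real.exp (-(2 * τ l)) ≤ 1 - τ l := by
    intro l hl
    have ht0 := h0 l hl
    have ht1 := h1 l hl
    split_ifs with h
    · have h2 : Real.exp (-(2 * τ l)) ≤ 1 := Real.exp_le_one_iff.2 (by linarith)
      nlinarith
    · rw [one_mul]
      have h2 := Real.add_one_le_exp (2 * τ l)
      have h3 : Real.exp (2 * τ l) * Real.exp (-(2 * τ l)) = 1 := by
        rw [← Real.exp_add]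
        simp
      have h4 := Real.exp_pos (-(2 * τ l))
      have h5 : (1 - τ l) * (2 * τ l + 1) ≥ 1 := by nlinarith
      have h6 : (1 - τ l) * Real.exp (2 * τ l) ≥ 1 := by
        have : (1 - τ l) * (2 * τ l + 1) ≤ (1 - τ l) * Real.exp (2 * τ l) :=
          mul_le_mul_of_nonneg_left h2 (by linarith)
        linarith
      nlinarith
  have hcard : ((I.filter (fun l => 1 / 2 < τ l)).card : ℝ) ≤ 2 * B := by
    have h2 : ∑ l ∈ I.filter (fun l => 1 / 2 < τ l), (1 / 2 : ℝ) ≤ ∑ l ∈ I, τ l :=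
      (Finset.sum_le_sum fun l hl => (mem_filter.1 hl).2.le).trans
        (Finset.sum_le_sum_of_subset_of_nonneg (filter_subset _ _) fun l hl _ => h0 l hl)
    rw [Finset.sum_const, nsmul_eq_mul] at h2
    linarith
  have hcard' : (I.filter (fun l => 1 / 2 < τ l)).card ≤ 2 * B := by exact_mod_cast hcard
  have hprod := Finset.prod_le_prod (s := I)
    (f := fun l => (if 1 / 2 < τ l then ε else 1) * Real.exp (-(2 * τ l)))
    (g := fun l => 1 - τ l) (fun l _ => by
      split_ifs <;> positivity) hD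
  refine le_trans ?_ hprod
  rw [Finset.prod_mul_distrib, ← Real.exp_sum, Finset.prod_ite, Finset.prod_const,
    Finset.prod_const_one, mul_one]
  have h3 : (ε ^ 2 / Real.exp 2) ^ B = ε ^ (2 * B) * Real.exp (-(2 * B)) := by
    rw [div_pow, ← pow_mul, ← Real.exp_nat_mul, div_eq_mul_inv, ← Real.exp_neg]
    congr 2
    ring
  rw [h3]
  refine mul_le_mul ?_ ?_ (Real.exp_pos _).le (by positivity)
  · exact pow_le_pow_of_le_one hε.le hε1 hcard'
  · rw [Real.exp_le_exp]
    have h4 : ∑ l ∈ I, -(2 * τ l) = -(2 * ∑ l ∈ I, τ l) := by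
      rw [Finset.mul_sum, Finset.sum_neg_distrib]
    rw [h4]
    linarith

theorem vf_nonneg {q w m : ℕ} [NeZero q] (α β : Fin m → ZMod q)
    (T : Fin m → Finset (ZMod q × ZMod q)) (f : Fin w → ZMod q) (l : Fin m) :
    0 ≤ vf α β T f l := by
  unfold vf
  positivity

theorem vf_le_one {q w m : ℕ} [NeZero q] (α β : Fin m → ZMod q)
    (T : Fin m → Finset (ZMod q × ZMod q)) (f : Fin w → ZMod q) (l : Fin m) :
    vf α β T f l ≤ 1 := by
  unfold vf
  have hq : (0 : ℝ) < q := by exact_mod_cast Nat.pos_of_ne_zero (NeZero.ne q)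
  rw [div_le_one hq]
  have h := Finset.card_le_univ (miss (T l) (sym α β f l))
  rw [ZMod.card] at h
  exact_mod_cast h

theorem nb_eq {q w m : ℕ} [NeZero q] (α β : Fin m → ZMod q) (s : ℕ)
    (T : Fin m → Finset (ZMod q × ZMod q)) (f : Fin w → ZMod q) :
    (nb α β s T f : ℝ) = (q : ℝ) ^ m * tail univ (vf α β T f) s := by
  classical
  have hq : (0 : ℝ) < q := by exact_mod_cast Nat.pos_of_ne_zero (NeZero.ne q)
  set M : Fin m → Finset (ZMod q) := fun l => miss (T l) (sym α β f l) with hM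
  have hcardM : ∀ l, ((M l).card : ℝ) = q * vf α β T f l := by
    intro l
    unfold vf
    rw [mul_div_cancel₀ _ hq.ne']
  have hcardMc : ∀ l, (((M l)ᶜ).card : ℝ) = q * (1 - vf α β T f l) := by
    intro l
    rw [Finset.card_compl, ZMod.card, Nat.cast_sub (by
      have h := Finset.card_le_univ (M l)
      rwa [ZMod.card] at h), hcardM l]
    ring
  have hA : ∀ A : Finset (Fin m), ((univ.filter (fun z : Fin m → ZMod q =>
      univ.filter (fun l => z l ∈ M l) = A)).card : ℝ) =
      (q : ℝ) ^ m * ((∏ l ∈ A, vf α β T f l) * ∏ l ∈ univ \ A, (1 - vf α β T f l)) := by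
    intro A
    have h1 : univ.filter (fun z : Fin m → ZMod q => univ.filter (fun l => z l ∈ M l) = A) =
        Fintype.piFinset (fun l => if l ∈ A then M l else (M l)ᶜ) := by
      ext z
      rw [mem_filter, Fintype.mem_piFinset]
      constructor
      · rintro ⟨-, h⟩ l
        by_cases hl : l ∈ A
        · rw [if_pos hl]
          rw [← h] at hl
          exact (mem_filter.1 hl).2
        · rw [if_neg hl, mem_compl]
          intro h2
          apply hl
          rw [← h]
          exact mem_filter.2 ⟨mem_univ _, h2⟩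
      · intro h
        refine ⟨mem_univ _, ?_⟩
        ext l
        rw [mem_filter]
        constructor
        · rintro ⟨-, h2⟩
          by_contra hl
          have h3 := h l
          rw [if_neg hl, mem_compl] at h3
          exact h3 h2
        · intro hl
          have h3 := h l
          rw [if_pos hl] at h3
          exact ⟨mem_univ _, h3⟩
    rw [h1, Fintype.card_piFinset]
    push_cast
    have h2 : ∀ l, (((if l ∈ A then M l else (M l)ᶜ).card : ℕ) : ℝ) =
        q * (if l ∈ A then vf α β T f l else 1 - vf α β T f l) := by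
      intro l
      split_ifs
      · exact hcardM l
      · exact hcardMc l
    rw [Finset.prod_congr rfl fun l _ => h2 l, Finset.prod_mul_distrib, Finset.prod_const,
      Finset.card_univ, Fintype.card_fin, Finset.prod_ite]
    congr 2
    · refine Finset.prod_congr ?_ fun _ _ => rfl
      ext l
      simp
    · refine Finset.prod_congr ?_ fun _ _ => rfl
      ext l
      simp
  have h3 : (nb α β s T f : ℝ) = ∑ A ∈ (univ : Finset (Fin m)).powerset.filter
      (fun A => s ≤ A.card), ((univ.filter (fun z : Fin m → ZMod q =>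
        univ.filter (fun l => z l ∈ M l) = A)).card : ℝ) := by
    unfold nb
    rw [Finset.card_eq_sum_card_fiberwise (f := fun z : Fin m → ZMod q =>
      univ.filter (fun l => z l ∈ M l))
      (t := (univ : Finset (Fin m)).powerset.filter (fun A => s ≤ A.card)) (by
        intro z hz
        rw [Finset.mem_coe, mem_filter] at hz
        rw [Finset.mem_coe, mem_filter, mem_powerset]
        exact ⟨subset_univ _, hz.2⟩)]
    push_cast
    refine Finset.sum_congr rfl fun A hA' => ?_
    congr 2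
    rw [Finset.filter_filter]
    refine Finset.filter_congr fun z _ => ?_
    constructor
    · exact fun h => h.2
    · intro h
      refine ⟨?_, h⟩
      rw [h]
      exact (mem_filter.1 hA').2
  rw [h3, Finset.sum_congr rfl fun A _ => hA A, ← Finset.mul_sum]
  rfl

end Pool.Agent.H14.KN
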