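import Pool.Agent.H14.KN.TailBasic

/-!
[H14 KN TAS] A lower bound for the tail a little above the mean, when all probabilities are at
least `ε`. Needs only `TailBasic` (or Mathlib).

Put `N = I.card`, `w_A = (∏_{l∈A} v l) ∏_{l∈I\A} (1 - v l)` for `A ⊆ I`,
`p_i = ∑_{A ⊆ I, |A| = i} w_A`. Then `∑_i p_i = 1` and `∑_i i p_i = ∑_{l∈I} v l` (exchange the
sums: `∑_{A ∋ l} w_A = v l`).
(1) For `i < N`: `(i+1) p_{i+1} = ∑_{|A| = i} ∑_{j ∈ I\A} (∏_A v) v_j ∏_{I\(A∪{j})} (1 - v)`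
(pairs `(A', j ∈ A')` with `A = A' \ {j}`) `≥ ∑_{|A|=i} ∑_{j∈I\A} ε w_A = ε (N - i) p_i ≥ ε p_i`
(as `1 - v_j ≤ 1`). So `p_{i+1} ≥ ε p_i / (i+1) ≥ (ε/m) p_i` (`i + 1 ≤ N ≤ m`).
(2) Let `i₁ = s - d - 1 ≥ 0`. Then `P := ∑_{i ≥ i₁} p_i ≥ 1/m`: for `i₁ = 0` it is `1` and
`m ≥ N ≥ s ≥ 1`. For `i₁ ≥ 1`: `i₁ + 1 ≤ s - d + 0 ≤ ∑ v = ∑ i p_i ≤ (i₁ - 1) + N P`, so
`P ≥ 2/N ≥ 1/m`.
(3) If `∑_{i≥s} p_i = tail I v s ≥ 1/(2m)` we are done: `ε ≤ 1` (because `ε ≤ v l ≤ 1` for some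
`l ∈ I`, `I` is nonempty as `s ≥ 1`), so `(ε/m)^(d+1)/(2m²) ≤ 1/(2m)`. Otherwise
`∑_{i₁ ≤ i < s} p_i ≥ 1/(2m)`, there are `d+1 ≤ s ≤ m` terms, so some `i` has
`p_i ≥ 1/(2m²)`, and by (1) (with `s ≤ N`) `tail I v s ≥ p_s ≥ (ε/m)^(s-i) p_i ≥
(ε/m)^(d+1)/(2m²)` as `s - i ≤ d + 1` and `ε/m ≤ 1`.
-/

namespace Pool.Agent.H14.KN

open Finset

section

variable {ι : Type} [DecidableEq ι]

private noncomputable def pw (I : Finset ι) (v : ι → ℝ) (A : Finset ι) : ℝ :=
  (∏ l ∈ A, v l) * ∏ l ∈ I \ A, (1 - v l)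

/-- probability of exactly `i` -/
private noncomputable def pp (I : Finset ι) (v : ι → ℝ) (i : ℕ) : ℝ :=
  ∑ A ∈ I.powersetCard i, pw I v A

private theorem pw_nonneg (I : Finset ι) (v : ι → ℝ) (h0 : ∀ l ∈ I, 0 ≤ v l)
    (h1 : ∀ l ∈ I, v l ≤ 1) {A : Finset ι} (hA : A ⊆ I) : 0 ≤ pw I v A := by
  unfold pw
  exact mul_nonneg (Finset.prod_nonneg fun l hl => h0 l (hA hl))
    (Finset.prod_nonneg fun l hl => by linarith [h1 l (mem_sdiff.1 hl).1])

private theorem pp_nonneg (I : Finset ι) (v : ι → ℝ) (h0 : ∀ l ∈ I, 0 ≤ v l)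
    (h1 : ∀ l ∈ I, v l ≤ 1) (i : ℕ) : 0 ≤ pp I v i :=
  Finset.sum_nonneg fun A hA => pw_nonneg I v h0 h1 (mem_powersetCard.1 hA).1

private theorem sum_pw (I : Finset ι) (v : ι → ℝ) : ∑ A ∈ I.powerset, pw I v A = 1 := by
  have h := Finset.prod_add v (fun l => 1 - v l) I
  unfold pw
  rw [← h]
  exact Finset.prod_eq_one fun l _ => by ring

private theorem sum_pp (I : Finset ι) (v : ι → ℝ) :
    ∑ i ∈ range (I.card + 1), pp I v i = 1 := by
  rw [← sum_pw I v, Finset.sum_powerset]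
  rfl

private theorem sum_mem (I : Finset ι) (v : ι → ℝ) {l : ι} (hl : l ∈ I) :
    ∑ A ∈ I.powerset, (if l ∈ A then pw I v A else 0) = v l := by
  have h := Finset.prod_add v (fun l' => if l' = l then 0 else 1 - v l') I
  have h2 : ∏ l' ∈ I, (v l' + if l' = l then 0 else 1 - v l') = v l := by
    rw [← Finset.mul_prod_erase I (fun l' => v l' + if l' = l then 0 else 1 - v l') hl]
    have h3 : ∏ l' ∈ I.erase l, (v l' + if l' = l then 0 else 1 - v l') = 1 := by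
      refine Finset.prod_eq_one fun l' hl' => ?_
      rw [if_neg (ne_of_mem_erase hl')]
      ring
    rw [h3, mul_one, if_pos rfl, add_zero]
  rw [h2] at h
  rw [h]
  refine Finset.sum_congr rfl fun A hA => ?_
  unfold pw
  by_cases hlA : l ∈ A
  · rw [if_pos hlA]
    congr 1
    refine Finset.prod_congr rfl fun l' hl' => ?_
    rw [if_neg]
    rintro rfl
    exact (mem_sdiff.1 hl').2 hlA
  · have h4 : ∏ l' ∈ I \ A, (if l' = l then 0 else 1 - v l') = 0 :=
      Finset.prod_eq_zero (mem_sdiff.2 ⟨hl, hlA⟩) (if_pos rfl)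
    rw [if_neg hlA, h4, mul_zero]

private theorem sum_mean (I : Finset ι) (v : ι → ℝ) :
    ∑ l ∈ I, v l = ∑ i ∈ range (I.card + 1), (i : ℝ) * pp I v i := by
  have h1 : ∑ A ∈ I.powerset, ((A.card : ℝ) * pw I v A) =
      ∑ i ∈ range (I.card + 1), (i : ℝ) * pp I v i := by
    rw [Finset.sum_powerset]
    refine Finset.sum_congr rfl fun i _ => ?_
    unfold pp
    rw [Finset.mul_sum]
    refine Finset.sum_congr rfl fun A hA => ?_
    rw [(mem_powersetCard.1 hA).2]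
  rw [← h1, Finset.sum_congr rfl fun l hl => (sum_mem I v hl).symm, Finset.sum_comm]
  refine Finset.sum_congr rfl fun A hA => ?_
  rw [← Finset.sum_filter, Finset.sum_const, nsmul_eq_mul]
  congr 2
  have : I.filter (fun l => l ∈ A) = A := by
    ext x
    rw [mem_filter]
    exact ⟨fun h => h.2, fun h => ⟨mem_powerset.1 hA h, h⟩⟩
  rw [this]

private theorem tail_pp (I : Finset ι) (v : ι → ℝ) (s : ℕ) :
    tail I v s = ∑ i ∈ range (I.card + 1), if s ≤ i then pp I v i else 0 := by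
  unfold tail
  rw [Finset.sum_filter, Finset.sum_powerset]
  refine Finset.sum_congr rfl fun i _ => ?_
  unfold pp
  split_ifs with h
  · refine Finset.sum_congr rfl fun A hA => ?_
    rw [(mem_powersetCard.1 hA).2, if_pos h]
    rfl
  · refine Finset.sum_eq_zero fun A hA => ?_
    rw [(mem_powersetCard.1 hA).2, if_neg h]

private theorem pp_succ (I : Finset ι) (v : ι → ℝ) {ε : ℝ} (hε : 0 < ε)
    (h0 : ∀ l ∈ I, ε ≤ v l) (h1 : ∀ l ∈ I, v l ≤ 1) {i : ℕ} (hi : i < I.card) :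
    ε * pp I v i ≤ ((i : ℝ) + 1) * pp I v (i + 1) := by
  have h0' : ∀ l ∈ I, 0 ≤ v l := fun l hl => hε.le.trans (h0 l hl)
  have hL : ε * pp I v i ≤ ∑ A ∈ I.powersetCard i, ∑ j ∈ I \ A, pw I v (insert j A) := by
    unfold pp
    rw [Finset.mul_sum]
    refine Finset.sum_le_sum fun A hA => ?_
    obtain ⟨hAI, hAc⟩ := mem_powersetCard.1 hA
    have hne : (I \ A).Nonempty := by
      rw [← Finset.card_pos, Finset.card_sdiff_of_subset hAI]
      omega
    obtain ⟨j, hj⟩ := hne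
    have hj1 := (mem_sdiff.1 hj).1
    have hj2 := (mem_sdiff.1 hj).2
    refine le_trans ?_ (Finset.single_le_sum (f := fun j => pw I v (insert j A))
      (fun j' hj' => pw_nonneg I v h0' h1 (insert_subset (mem_sdiff.1 hj').1 hAI)) hj)
    show ε * pw I v A ≤ pw I v (insert j A)
    have e1 : pw I v (insert j A) = v j * ((∏ l ∈ A, v l) * ∏ l ∈ (I \ A).erase j, (1 - v l)) := by
      unfold pw
      rw [Finset.prod_insert hj2, ← Finset.erase_sdiff_comm, Finset.sdiff_insert]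
      have : (I \ A).erase j = I.erase j \ A := by
        rw [Finset.erase_sdiff_comm]
      rw [this]
      ring
    have e2 : pw I v A = (1 - v j) * ((∏ l ∈ A, v l) * ∏ l ∈ (I \ A).erase j, (1 - v l)) := by
      unfold pw
      rw [← Finset.mul_prod_erase (I \ A) (fun l => 1 - v l) hj]
      ring
    rw [e1, e2]
    have hX : 0 ≤ (∏ l ∈ A, v l) * ∏ l ∈ (I \ A).erase j, (1 - v l) :=
      mul_nonneg (Finset.prod_nonneg fun l hl => h0' l (hAI hl))
        (Finset.prod_nonneg fun l hl => by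
          linarith [h1 l (mem_sdiff.1 (mem_of_mem_erase hl)).1])
    have hv := h0 j hj1
    have hv1 := h1 j hj1
    calc ε * ((1 - v j) * ((∏ l ∈ A, v l) * ∏ l ∈ (I \ A).erase j, (1 - v l)))
        = (ε * (1 - v j)) * ((∏ l ∈ A, v l) * ∏ l ∈ (I \ A).erase j, (1 - v l)) := by ring
      _ ≤ v j * ((∏ l ∈ A, v l) * ∏ l ∈ (I \ A).erase j, (1 - v l)) := by
          refine mul_le_mul_of_nonneg_right ?_ hX
          nlinarith
  have hR : ∑ A ∈ I.powersetCard i, ∑ j ∈ I \ A, pw I v (insert j A) =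
      ((i : ℝ) + 1) * pp I v (i + 1) := by
    unfold pp
    rw [Finset.mul_sum, Finset.sum_sigma']
    have h2 : ∀ A' ∈ I.powersetCard (i + 1), ((i : ℝ) + 1) * pw I v A' =
        ∑ j ∈ A', pw I v A' := by
      intro A' hA'
      rw [Finset.sum_const, (mem_powersetCard.1 hA').2, nsmul_eq_mul]
      push_cast
      ring
    rw [Finset.sum_congr rfl h2, Finset.sum_sigma']
    refine Finset.sum_bij' (fun x _ => ⟨insert x.2 x.1, x.2⟩) (fun x _ => ⟨x.1.erase x.2, x.2⟩)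
      ?_ ?_ ?_ ?_ ?_
    · rintro ⟨A, j⟩ h
      simp only [mem_sigma, mem_powersetCard, mem_sdiff] at h ⊢
      refine ⟨⟨insert_subset h.2.1 h.1.1, ?_⟩, mem_insert_self _ _⟩
      rw [card_insert_of_notMem h.2.2, h.1.2]
    · rintro ⟨A, j⟩ h
      simp only [mem_sigma, mem_powersetCard, mem_sdiff] at h ⊢
      refine ⟨⟨(erase_subset _ _).trans h.1.1, ?_⟩, h.1.1 h.2, notMem_erase _ _⟩
      rw [card_erase_of_mem h.2, h.1.2]
      rfl
    · rintro ⟨A, j⟩ h
      simp only [mem_sigma, mem_powersetCard, mem_sdiff] at h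
      simp only [erase_insert h.2.2]
    · rintro ⟨A, j⟩ h
      simp only [mem_sigma, mem_powersetCard] at h
      simp only [insert_erase h.2]
    · rintro ⟨A, j⟩ h
      rfl
  linarith

private theorem pp_le (I : Finset ι) (v : ι → ℝ) {ε : ℝ} (hε : 0 < ε)
    (h0 : ∀ l ∈ I, ε ≤ v l) (h1 : ∀ l ∈ I, v l ≤ 1) {m : ℕ} (hI : I.card ≤ m) (hm : 0 < m)
    {s : ℕ} (hs : s ≤ I.card) (t : ℕ) (ht : t ≤ s) :
    (ε / m) ^ t * pp I v (s - t) ≤ pp I v s := by
  have hmR : (0 : ℝ) < m := by exact_mod_cast hm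
  have h0' : ∀ l ∈ I, 0 ≤ v l := fun l hl => hε.le.trans (h0 l hl)
  induction t with
  | zero => simp
  | succ t ih =>
    have h2 := ih (by omega)
    have h3 : s - t = (s - (t + 1)) + 1 := by omega
    have h4 := pp_succ I v hε h0 h1 (i := s - (t + 1)) (by omega)
    rw [← h3] at h4
    have h5 : ((s - (t + 1) : ℕ) : ℝ) + 1 ≤ m := by
      have : s - (t + 1) + 1 ≤ m := by omega
      exact_mod_cast this
    have h6 := pp_nonneg I v h0' h1 (s - t)
    have h7 : ε / m * pp I v (s - (t + 1)) ≤ pp I v (s - t) := by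
      rw [div_mul_eq_mul_div, div_le_iff₀ hmR]
      nlinarith
    calc (ε / m) ^ (t + 1) * pp I v (s - (t + 1))
        = (ε / m) ^ t * (ε / m * pp I v (s - (t + 1))) := by ring
      _ ≤ (ε / m) ^ t * pp I v (s - t) := mul_le_mul_of_nonneg_left h7 (by positivity)
      _ ≤ pp I v s := h2

end

theorem tail_step {ι : Type} [DecidableEq ι] (I : Finset ι) (v : ι → ℝ) {ε : ℝ} (hε : 0 < ε)
    (h0 : ∀ l ∈ I, ε ≤ v l) (h1 : ∀ l ∈ I, v l ≤ 1) {m s d : ℕ} (hI : I.card ≤ m)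
    (hs : s ≤ I.card) (hd : d + 1 ≤ s) (hE : (s : ℝ) - d ≤ ∑ l ∈ I, v l) :
    (ε / m) ^ (d + 1) / (2 * (m : ℝ) ^ 2) ≤ tail I v s := by
  have hm : 0 < m := by omega
  have hmR : (0 : ℝ) < m := by exact_mod_cast hm
  have hm1 : (1 : ℝ) ≤ m := by exact_mod_cast hm
  have h0' : ∀ l ∈ I, 0 ≤ v l := fun l hl => hε.le.trans (h0 l hl)
  obtain ⟨l0, hl0⟩ : I.Nonempty := Finset.card_pos.1 (by omega)
  have hε1 : ε ≤ 1 := (h0 l0 hl0).trans (h1 l0 hl0)
  have hx0 : 0 < ε / m := by positivity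
  have hx1 : ε / m ≤ 1 := by
    rw [div_le_one hmR]
    linarith
  obtain ⟨i₁, hi₁⟩ : ∃ i₁, i₁ + (d + 1) = s := ⟨s - (d + 1), by omega⟩
  have hP : 1 / (m : ℝ) ≤ ∑ i ∈ range (I.card + 1), if i₁ ≤ i then pp I v i else 0 := by
    rcases Nat.eq_zero_or_pos i₁ with h | h
    · subst h
      simp only [Nat.zero_le, if_true]
      rw [sum_pp, div_le_one hmR]
      exact hm1
    · have h2 := sum_mean I v
      have h3 : ∀ i ∈ range (I.card + 1), (i : ℝ) * pp I v i ≤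
          ((i₁ : ℝ) - 1) * pp I v i + (I.card : ℝ) * (if i₁ ≤ i then pp I v i else 0) := by
        intro i hi
        have hp := pp_nonneg I v h0' h1 i
        have hi1 : (1 : ℝ) ≤ i₁ := by exact_mod_cast h
        by_cases h4 : i₁ ≤ i
        · rw [if_pos h4]
          have h5 : (i : ℝ) ≤ I.card := by
            exact_mod_cast Nat.lt_succ_iff.1 (mem_range.1 hi)
          nlinarith
        · rw [if_neg h4, mul_zero, add_zero]
          have h5 : (i : ℝ) + 1 ≤ i₁ := by exact_mod_cast (by omega : i + 1 ≤ i₁)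
          nlinarith
      have h4 := Finset.sum_le_sum h3
      rw [← h2, Finset.sum_add_distrib, ← Finset.mul_sum, ← Finset.mul_sum, sum_pp] at h4
      have h5 : (i₁ : ℝ) + (d + 1) = s := by exact_mod_cast hi₁
      have h6 : (I.card : ℝ) ≤ m := by exact_mod_cast hI
      set X := ∑ i ∈ range (I.card + 1), if i₁ ≤ i then pp I v i else 0 with hX
      have hX0 : 0 ≤ X := by
        rw [hX]
        refine Finset.sum_nonneg fun i _ => ?_
        split_ifs
        · exact pp_nonneg I v h0' h1 i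
        · exact le_rfl
      rw [div_le_iff₀ hmR]
      nlinarith
  by_contra hcon
  push Not at hcon
  have hps : pp I v s ≤ tail I v s := by
    rw [tail_pp]
    refine le_trans ?_ (Finset.single_le_sum
      (f := fun i => if s ≤ i then pp I v i else 0) (fun i _ => ?_)
      (mem_range.2 (Nat.lt_succ_of_le hs)))
    · show pp I v s ≤ if s ≤ s then pp I v s else 0
      rw [if_pos le_rfl]
    · show 0 ≤ if s ≤ i then pp I v i else 0
      split_ifs
      · exact pp_nonneg I v h0' h1 i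
      · exact le_rfl
  have hi : ∀ i, i₁ ≤ i → i < s → pp I v i ≤ 1 / (2 * (m : ℝ) ^ 2) := by
    intro i h2 h3
    have h4 := pp_le I v hε h0 h1 hI hm hs (s - i) (by omega)
    have h5 : s - (s - i) = i := by omega
    rw [h5] at h4
    have h6 : (ε / m) ^ (d + 1) ≤ (ε / m) ^ (s - i) :=
      pow_le_pow_of_le_one hx0.le hx1 (by omega)
    have h7 : (ε / m) ^ (d + 1) * pp I v i ≤ (ε / m) ^ (d + 1) / (2 * (m : ℝ) ^ 2) :=
      calc (ε / m) ^ (d + 1) * pp I v i ≤ (ε / m) ^ (s - i) * pp I v i :=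
            mul_le_mul_of_nonneg_right h6 (pp_nonneg I v h0' h1 i)
        _ ≤ _ := h4.trans (hps.trans hcon.le)
    have h8 : 0 < (ε / m) ^ (d + 1) := by positivity
    have h9 : (ε / m) ^ (d + 1) * pp I v i ≤ (ε / m) ^ (d + 1) * (1 / (2 * (m : ℝ) ^ 2)) := by
      rw [mul_one_div]
      exact h7
    exact le_of_mul_le_mul_left h9 h8
  have hsplit : ∑ i ∈ range (I.card + 1), (if i₁ ≤ i then pp I v i else 0) ≤
      ∑ i ∈ Ico i₁ s, pp I v i + tail I v s := by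
    rw [tail_pp]
    have h2 : ∑ i ∈ Ico i₁ s, pp I v i =
        ∑ i ∈ range (I.card + 1), if i₁ ≤ i ∧ i < s then pp I v i else 0 := by
      rw [← Finset.sum_filter]
      refine Finset.sum_congr ?_ fun _ _ => rfl
      ext i
      simp only [mem_Ico, mem_filter, mem_range]
      omega
    rw [h2, ← Finset.sum_add_distrib]
    refine Finset.sum_le_sum fun i _ => ?_
    by_cases h3 : i₁ ≤ i
    · by_cases h4 : i < s
      · rw [if_pos h3, if_pos ⟨h3, h4⟩, if_neg (by omega), add_zero]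
      · rw [if_pos h3, if_neg (by tauto), if_pos (by omega), zero_add]
    · rw [if_neg h3, if_neg (by tauto), if_neg (by omega), zero_add]
  have h2 : ∑ i ∈ Ico i₁ s, pp I v i ≤ ((d : ℝ) + 1) * (1 / (2 * (m : ℝ) ^ 2)) := by
    refine (Finset.sum_le_card_nsmul _ _ _ fun i hi' =>
      hi i (mem_Ico.1 hi').1 (mem_Ico.1 hi').2).trans ?_
    rw [Nat.card_Ico, nsmul_eq_mul]
    have : s - i₁ = d + 1 := by omega
    rw [this]
    push_cast
    exact le_rfl
  have h3 : (ε / m) ^ (d + 1) ≤ 1 := pow_le_one₀ hx0.le hx1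
  have h4 : (ε / m) ^ (d + 1) / (2 * (m : ℝ) ^ 2) ≤ 1 / (2 * (m : ℝ) ^ 2) :=
    div_le_div_of_nonneg_right h3 (by positivity)
  have h5 : 1 / (m : ℝ) < ((d : ℝ) + 1) * (1 / (2 * (m : ℝ) ^ 2)) + 1 / (2 * (m : ℝ) ^ 2) := by
    linarith
  have h6 : (d : ℝ) + 1 ≤ m := by exact_mod_cast (by omega : d + 1 ≤ m)
  have h7 : ((d : ℝ) + 1) * (1 / (2 * (m : ℝ) ^ 2)) + 1 / (2 * (m : ℝ) ^ 2) ≤ 1 / (m : ℝ) := by
    rw [← add_one_mul, mul_one_div, div_le_div_iff₀ (by positivity) hmR]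
    nlinarith
  linarith

end Pool.Agent.H14.KN
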