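import Pool.Agent.H14.KN.Plane
import Pool.Agent.H14.KN.TailStep
import Pool.Agent.H14.KN.ProdLow
import Pool.Agent.H14.KN.Num

/-!
[H14 KN CA1] Main lemma, case 1: at least `s` planes contain at most `q - r` points.

Let `Q = {l | (T l).card + r ≤ q}`, `H` its complement, `ε = r/q`, `t l = (T l).card`. Fix a
codeword `f`, `v = vf f`. By `card_miss_ge`, `v l ≥ 1 - t l / q`; so `v l ≥ ε` on `Q`; `v ≤ 1`
(`vf_le_one`). Sum: for `l ∈ H`, `t l > q - r`. So
`∑_Q t l ≤ (s+1) q - |H| (q - r)` and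
`∑_Q v l ≥ |Q| - ∑_Q t l / q ≥ |Q| - (s+1) + |H| (1 - r/q) = m - (s+1) - |H| r / q
 ≥ 2 s - w - s - 1 - 1 = s - (w + 2)`, since `|H| r ≤ m r ≤ q`.
`tail_step` with `I = Q`, `d = w + 2` (`d + 1 ≤ s` as `w^4 ≤ s`) gives
`(ε/m)^(w+3)/(2m²) ≤ tail Q v s ≤ tail univ v s` (`tail_mono`). By `nb_eq`,
`∑_f nb f = q^m ∑_f tail ≥ q^m q^w (ε/m)^(w+3)/(2m²) ≥ q^m q^5` by `num1` (there are `q^w`
codewords).
-/

namespace Pool.Agent.H14.KN

open Finset

theorem case1 {q w s m r : ℕ} [Fact q.Prime] (hP : Par q w s m r) (α β : Fin m → ZMod q)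
    (T : Fin m → Finset (ZMod q × ZMod q)) (hT : ∑ l, (T l).card + 1 ≤ (s + 1) * q)
    (hQ : s ≤ (univ.filter (fun l => (T l).card + r ≤ q)).card) :
    q ^ (m + 5) ≤ ∑ f : Fin w → ZMod q, nb α β s T f := by
  classical
  have hq0 : 0 < q := hP.prime.pos
  have hqR : (0 : ℝ) < q := by exact_mod_cast hq0
  have hr0 : (0 : ℝ) < r := by exact_mod_cast hP.hr0
  have hε : (0 : ℝ) < (r : ℝ) / q := div_pos hr0 hqR
  set Q : Finset (Fin m) := univ.filter (fun l => (T l).card + r ≤ q) with hQdef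
  have hcard : Q.card + Qᶜ.card = m := by
    rw [card_add_card_compl, Fintype.card_fin]
  have hmain : ∀ f : Fin w → ZMod q,
      ((r : ℝ) / q / m) ^ (w + 3) / (2 * (m : ℝ) ^ 2) ≤ tail univ (vf α β T f) s := by
    intro f
    have hv : ∀ l, 1 - ((T l).card : ℝ) / q ≤ vf α β T f l := by
      intro l
      unfold vf
      have h := card_miss_ge (T l) (sym α β f l)
      have h' : (q : ℝ) ≤ ((miss (T l) (sym α β f l)).card : ℝ) + ((T l).card : ℝ) := by
        exact_mod_cast h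
      rw [sub_le_iff_le_add, ← add_div, le_div_iff₀ hqR]
      linarith
    have h0 : ∀ l ∈ Q, (r : ℝ) / q ≤ vf α β T f l := by
      intro l hl
      refine le_trans ?_ (hv l)
      have h := (mem_filter.1 hl).2
      have h' : ((T l).card : ℝ) + r ≤ q := by exact_mod_cast h
      rw [le_sub_iff_add_le, ← add_div, div_le_one hqR]
      linarith
    have h1 : ∀ l ∈ Q, vf α β T f l ≤ 1 := fun l _ => vf_le_one α β T f l
    have hE : (s : ℝ) - ((w + 2 : ℕ) : ℝ) ≤ ∑ l ∈ Q, vf α β T f l := by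
      refine le_trans ?_ (Finset.sum_le_sum fun l _ => hv l)
      rw [Finset.sum_sub_distrib, Finset.sum_const, nsmul_eq_mul, mul_one, ← Finset.sum_div]
      have h2 : (Qᶜ.card : ℝ) * ((q : ℝ) - r) ≤ ∑ l ∈ Qᶜ, ((T l).card : ℝ) := by
        rw [← nsmul_eq_mul]
        refine Finset.card_nsmul_le_sum _ _ _ fun l hl => ?_
        have h3 : ¬ (T l).card + r ≤ q := by
          intro h
          exact (mem_compl.1 hl) (mem_filter.2 ⟨mem_univ _, h⟩)
        have h4 : (q : ℝ) < ((T l).card : ℝ) + r := by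
          exact_mod_cast not_le.1 h3
        linarith
      have h3 : ∑ l ∈ Q, ((T l).card : ℝ) + ∑ l ∈ Qᶜ, ((T l).card : ℝ) + 1 ≤
          ((s : ℝ) + 1) * q := by
        rw [Finset.sum_add_sum_compl]
        exact_mod_cast hT
      have h4 : (Q.card : ℝ) + (Qᶜ.card : ℝ) = m := by exact_mod_cast hcard
      have h5 : (m : ℝ) + w = 2 * s := by exact_mod_cast hP.hm
      have h6 : (4 : ℝ) * m * r ≤ q := by exact_mod_cast hP.hmr
      have h7 : (0 : ℝ) ≤ Q.card := Nat.cast_nonneg _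
      have h8 : (Qᶜ.card : ℝ) * r ≤ q := by
        have : (Qᶜ.card : ℝ) ≤ m := by linarith
        have h9 : (Qᶜ.card : ℝ) * r ≤ m * r := mul_le_mul_of_nonneg_right this hr0.le
        have h10 : (0 : ℝ) ≤ (m : ℝ) * r := by positivity
        linarith
      have h9 : (∑ l ∈ Q, ((T l).card : ℝ)) / q ≤ (Q.card : ℝ) - ((s : ℝ) - ((w : ℝ) + 2)) := by
        rw [div_le_iff₀ hqR]
        have e1 : ((Q.card : ℝ) - ((s : ℝ) - ((w : ℝ) + 2))) * q =
            ((s : ℝ) + 1) * q - (Qᶜ.card : ℝ) * q + q := by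
          have : (Q.card : ℝ) = m - Qᶜ.card := by linarith
          rw [this]
          have : (m : ℝ) = 2 * s - w := by linarith
          rw [this]
          ring
        rw [e1]
        nlinarith
      push_cast
      linarith
    have hd : w + 2 + 1 ≤ s := by
      have h2 := hP.hs
      have h3 := hP.hw
      have h4 : w * w ^ 3 = w ^ 4 := by ring
      have h5 : 2 ≤ w ^ 3 := by
        calc 2 ≤ w := le_trans (by norm_num) h3
          _ = w ^ 1 := (pow_one w).symm
          _ ≤ w ^ 3 := Nat.pow_le_pow_right (le_trans (by norm_num) h3) (by norm_num)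
      have h6 : w * 2 ≤ w * w ^ 3 := Nat.mul_le_mul_left w h5
      have h7 : 3 ≤ w := le_trans (by norm_num) h3
      omega
    have hQm : Q.card ≤ m := by omega
    refine (tail_step Q (vf α β T f) hε h0 h1 hQm hQ hd hE).trans ?_
    exact tail_mono Q univ (subset_univ _) _ (fun l _ => vf_nonneg α β T f l)
      (fun l _ => vf_le_one α β T f l) s
  have hn := num1 hP
  have hfin : ((q ^ (m + 5) : ℕ) : ℝ) ≤ ((∑ f : Fin w → ZMod q, nb α β s T f : ℕ) : ℝ) := by
    push_cast
    calc (q : ℝ) ^ (m + 5) = (q : ℝ) ^ m * (q : ℝ) ^ 5 := pow_add _ _ _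
      _ ≤ (q : ℝ) ^ m * ((q : ℝ) ^ w * ((((r : ℝ) / q) / m) ^ (w + 3) / (2 * (m : ℝ) ^ 2))) :=
          mul_le_mul_of_nonneg_left hn (by positivity)
      _ = ∑ f : Fin w → ZMod q,
          (q : ℝ) ^ m * ((((r : ℝ) / q) / m) ^ (w + 3) / (2 * (m : ℝ) ^ 2)) := by
          rw [Finset.sum_const, Finset.card_univ, Fintype.card_fun, ZMod.card, Fintype.card_fin,
            nsmul_eq_mul]
          push_cast
          ring
      _ ≤ ∑ f : Fin w → ZMod q, (nb α β s T f : ℝ) := by
          refine Finset.sum_le_sum fun f _ => ?_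
          rw [nb_eq]
          exact mul_le_mul_of_nonneg_left (hmain f) (by positivity)
  exact_mod_cast hfin

end Pool.Agent.H14.KN
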