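import Pool.Agent.H14.KN.CodeBasic
import Pool.Agent.H14.KN.ProdLow

/-!
Two lemmas for `CaseLt` and `CaseE`: `(n/k)^k ≤ n.choose k`, and the number of the planes of `I`
with `vf f₀ l ≥ 1/(160 w)`.
-/

namespace Pool.Agent.H14.KN

open Finset

theorem pow_div_le_choose (k : ℕ) :
    ∀ n : ℕ, k ≤ n → ((n : ℝ) / k) ^ k ≤ (n.choose k : ℝ) := by
  induction k with
  | zero => intro n _; simp
  | succ k ih =>
    intro n hn
    obtain ⟨n', rfl⟩ : ∃ n', n = n' + 1 := ⟨n - 1, by omega⟩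
    have h1 := ih n' (by omega)
    have h2 := Nat.add_one_mul_choose_eq n' k
    have h3 : ((n' : ℝ) + 1) * (n'.choose k : ℝ) =
        ((n' + 1).choose (k + 1) : ℝ) * ((k : ℝ) + 1) := by exact_mod_cast h2
    have h4 : (((n' : ℝ) + 1) / ((k : ℝ) + 1)) ^ k ≤ (n'.choose k : ℝ) := by
      refine le_trans ?_ h1
      rcases Nat.eq_zero_or_pos k with h | h
      · subst h
        simp
      · refine pow_le_pow_left₀ (by positivity) ?_ k
        have hk : (0 : ℝ) < k := by exact_mod_cast h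
        have hkn : (k : ℝ) ≤ n' := by exact_mod_cast (by omega : k ≤ n')
        rw [div_le_div_iff₀ (by positivity) hk]
        nlinarith
    have h5 : ((n' + 1).choose (k + 1) : ℝ) =
        (((n' : ℝ) + 1) / ((k : ℝ) + 1)) * (n'.choose k : ℝ) := by
      have : (0 : ℝ) < (k : ℝ) + 1 := by positivity
      field_simp
      linarith
    push_cast
    rw [h5, pow_succ, mul_comm]
    exact mul_le_mul_of_nonneg_left h4 (by positivity)

theorem par_w {q w s m r : ℕ} (hP : Par q w s m r) :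
    (2 : ℝ) ^ 80 ≤ w ∧ (w : ℝ) ^ 4 ≤ s ∧ (m : ℝ) ≤ 2 * s ∧ 4 * w ≤ q ∧ 7 ≤ w := by
  have hw : (2 : ℝ) ^ 80 ≤ w := by exact_mod_cast hP.hw
  have hw1 : 7 ≤ w := le_trans (by norm_num) hP.hw
  have hs : (w : ℝ) ^ 4 ≤ s := by exact_mod_cast hP.hs
  have hm : m ≤ 2 * s := by have := hP.hm; omega
  have h1 : w ≤ s := le_trans (by
    calc w = w ^ 1 := (pow_one w).symm
      _ ≤ w ^ 4 := Nat.pow_le_pow_right (by omega) (by norm_num)) hP.hs
  have h2 : w ≤ m := by have := hP.hm; omega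
  have h3 : 4 * w ≤ q := by
    calc 4 * w ≤ m ^ 9 * m := by
          refine Nat.mul_le_mul ?_ h2
          calc 4 ≤ m ^ 1 := by rw [pow_one]; omega
            _ ≤ m ^ 9 := Nat.pow_le_pow_right (by omega) (by norm_num)
      _ = m ^ 10 := by ring
      _ ≤ q := hP.hmq
  exact ⟨hw, hs, by exact_mod_cast hm, h3, hw1⟩

theorem conc_card {q w s m r : ℕ} [Fact q.Prime] (hP : Par q w s m r) (α β : Fin m → ZMod q)
    (T : Fin m → Finset (ZMod q × ZMod q)) (I : Finset (Fin m)) (f₀ : Fin w → ZMod q)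
    (hlam : (s : ℝ) < 40 * (w : ℝ) * ∑ l ∈ I, vf α β T f₀ l) :
    (s : ℝ) < 80 * (w : ℝ) *
      ((I.filter (fun l => 1 / (160 * (w : ℝ)) ≤ vf α β T f₀ l)).card : ℝ) := by
  classical
  obtain ⟨hw, hs, hm, -, -⟩ := par_w hP
  have hw0 : (0 : ℝ) < w := lt_of_lt_of_le (by norm_num) hw
  set A := I.filter (fun l => 1 / (160 * (w : ℝ)) ≤ vf α β T f₀ l) with hA
  set B := I.filter (fun l => ¬ 1 / (160 * (w : ℝ)) ≤ vf α β T f₀ l) with hB
  have h1 : ∑ l ∈ A, vf α β T f₀ l + ∑ l ∈ B, vf α β T f₀ l = ∑ l ∈ I, vf α β T f₀ l :=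
    Finset.sum_filter_add_sum_filter_not _ _ _
  have h2 : ∑ l ∈ A, vf α β T f₀ l ≤ A.card := by
    have := Finset.sum_le_card_nsmul A (fun l => vf α β T f₀ l) 1
      (fun l _ => vf_le_one α β T f₀ l)
    simpa using this
  have h3 : ∑ l ∈ B, vf α β T f₀ l ≤ (2 * s) * (1 / (160 * (w : ℝ))) := by
    have h4 := Finset.sum_le_card_nsmul B (fun l => vf α β T f₀ l) (1 / (160 * (w : ℝ)))
      (fun l hl => (not_le.1 (mem_filter.1 hl).2).le)
    rw [nsmul_eq_mul] at h4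
    refine h4.trans (mul_le_mul_of_nonneg_right ?_ (by positivity))
    have h5 : B.card ≤ m := by
      have := card_le_univ B
      rwa [Fintype.card_fin] at this
    have h6 : (B.card : ℝ) ≤ m := by exact_mod_cast h5
    linarith
  have h4 : 40 * (w : ℝ) * ((2 * s) * (1 / (160 * (w : ℝ)))) = s / 2 := by
    field_simp
    ring
  have h5 : 40 * (w : ℝ) * ∑ l ∈ I, vf α β T f₀ l ≤
      40 * (w : ℝ) * A.card + s / 2 := by
    rw [← h1, ← h4, ← mul_add]
    exact mul_le_mul_of_nonneg_left (by linarith) (by positivity)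
  linarith

end Pool.Agent.H14.KN
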