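import Pool.Agent.H14.KN.Defs

/-!
[H14 KN JAM] Jamison's theorem (Brouwer, Schrijver) for the affine plane over `ZMod q`: a set of
points that meets all lines has at least `2q-1` points. Mathlib only.

`jamison`: `T` is nonempty (take any line). Fix `P₀ = (x₀, y₀) ∈ T` and put `T' = T.erase P₀`.
Let `G : MvPolynomial (Fin 2) (ZMod q)` be
`∏_{P ∈ T'} (C (P.1 - x₀) * X 0 + C (P.2 - y₀) * X 1 - 1)`. Its total degree is at most
`T'.card = T.card - 1`. `G` takes the value `(-1)^(T.card-1) ≠ 0` at `(0,0)`. At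
`(a, b) ≠ (0,0)` it vanishes: the points with `a (x - x₀) + b (y - y₀) = 1` form a line: for
`b ≠ 0` the line with direction `some (-(a/b))` and intercept
`icp (some (-(a/b))) (x, y) = y + (a/b) x = y₀ + (a/b) x₀ + 1/b`; for `b = 0` (so `a ≠ 0`) the
line with direction `none` and intercept `x₀ + 1/a`. By hypothesis it contains a point `P ∈ T`;
`P ≠ P₀` because `P₀` gives `0 ≠ 1`. So the factor of `P` vanishes. Hence the sum of all values
of `G` over `(ZMod q)^2` is `(-1)^(T.card-1) ≠ 0`. By `MvPolynomial.sum_eval_eq_zero` the sum is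
`0` if `G.totalDegree < (q - 1) * 2`. So `(q-1) * 2 ≤ T.card - 1`, i.e. `2 q - 1 ≤ T.card`.

`jamison_miss`: for every pair `(δ, c)` with `c ∈ miss T δ` choose a point on the line
`lin δ c` (e.g. `(c, 0)` for `none`, `(0, c)` for `some d`). Adding all these points to `T` gives
a set that meets all lines and has at most `T.card + ∑_δ (miss T δ).card` points.
-/

namespace Pool.Agent.H14.KN

open Finset

variable {q : ℕ} [Fact q.Prime]

theorem jamison (T : Finset (ZMod q × ZMod q))
    (h : ∀ (δ : Option (ZMod q)) (c : ZMod q), ∃ P ∈ T, icp δ P = c) : 2 * q - 1 ≤ T.card := by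
  classical
  obtain ⟨P0, hP0, -⟩ := h none 0
  set G : MvPolynomial (Fin 2) (ZMod q) := ∏ P ∈ T.erase P0,
    (MvPolynomial.C (P.1 - P0.1) * MvPolynomial.X 0 + MvPolynomial.C (P.2 - P0.2) *
      MvPolynomial.X 1 - 1) with hG
  have hdeg : G.totalDegree ≤ T.card - 1 := by
    refine (MvPolynomial.totalDegree_finset_prod _ _).trans ?_
    refine (Finset.sum_le_card_nsmul _ _ 1 fun P _ => ?_).trans ?_
    · refine (MvPolynomial.totalDegree_sub _ _).trans (max_le ?_ ?_)
      · refine (MvPolynomial.totalDegree_add _ _).trans (max_le ?_ ?_)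
        · refine (MvPolynomial.totalDegree_mul _ _).trans ?_
          rw [MvPolynomial.totalDegree_C, MvPolynomial.totalDegree_X]
        · refine (MvPolynomial.totalDegree_mul _ _).trans ?_
          rw [MvPolynomial.totalDegree_C, MvPolynomial.totalDegree_X]
      · rw [MvPolynomial.totalDegree_one]
        exact Nat.zero_le _
    · rw [card_erase_of_mem hP0]
      simp
  have heval : ∀ x : Fin 2 → ZMod q, MvPolynomial.eval x G =
      ∏ P ∈ T.erase P0, ((P.1 - P0.1) * x 0 + (P.2 - P0.2) * x 1 - 1) := by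
    intro x
    rw [hG, MvPolynomial.eval_prod]
    refine prod_congr rfl fun P _ => ?_
    simp only [map_sub, map_add, map_mul, MvPolynomial.eval_C, MvPolynomial.eval_X, map_one]
  have hsum : ∑ x, MvPolynomial.eval x G = MvPolynomial.eval 0 G := by
    refine Finset.sum_eq_single 0 ?_ (fun h => absurd (mem_univ _) h)
    intro x _ hx
    have hex : ∃ P ∈ T, (P.1 - P0.1) * x 0 + (P.2 - P0.2) * x 1 = 1 := by
      by_cases hb : x 1 = 0
      · have ha : x 0 ≠ 0 := by
          intro ha
          apply hx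
          funext i
          fin_cases i
          · exact ha
          · exact hb
        obtain ⟨P, hP, hPc⟩ := h none (P0.1 + (x 0)⁻¹)
        refine ⟨P, hP, ?_⟩
        have hP1 : P.1 = P0.1 + (x 0)⁻¹ := hPc
        rw [hb, mul_zero, add_zero, hP1, add_sub_cancel_left, inv_mul_cancel₀ ha]
      · obtain ⟨P, hP, hPc⟩ := h (some (-(x 0 * (x 1)⁻¹)))
          (P0.2 + x 0 * (x 1)⁻¹ * P0.1 + (x 1)⁻¹)
        refine ⟨P, hP, ?_⟩
        have hP1 : P.2 - -(x 0 * (x 1)⁻¹) * P.1 = P0.2 + x 0 * (x 1)⁻¹ * P0.1 + (x 1)⁻¹ := hPc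
        have h3 : (x 1)⁻¹ * x 1 = 1 := inv_mul_cancel₀ hb
        have h4 : (P.1 - P0.1) * x 0 + (P.2 - P0.2) * x 1 =
            (P.2 - -(x 0 * (x 1)⁻¹) * P.1 - (P0.2 + x 0 * (x 1)⁻¹ * P0.1)) * x 1 +
              (P.1 - P0.1) * x 0 * (1 - (x 1)⁻¹ * x 1) := by ring
        rw [h4, hP1, h3, sub_self, mul_zero, add_zero, add_sub_cancel_left, h3]
    obtain ⟨P, hP, hP1⟩ := hex
    have hne : P ≠ P0 := by
      intro he
      rw [he, sub_self, sub_self, zero_mul, zero_mul, add_zero] at hP1
      exact zero_ne_one hP1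
    rw [heval]
    exact prod_eq_zero (mem_erase.2 ⟨hne, hP⟩) (by rw [hP1, sub_self])
  have h0 : MvPolynomial.eval 0 G ≠ 0 := by
    rw [heval, prod_ne_zero_iff]
    intro P _
    simp
  by_contra hcon
  have h1 := MvPolynomial.sum_eval_eq_zero G (by
    rw [ZMod.card, Fintype.card_fin]
    have hq := (Fact.out : q.Prime).two_le
    omega)
  rw [hsum] at h1
  exact h0 h1

private def pnt (δ : Option (ZMod q)) (c : ZMod q) : ZMod q × ZMod q :=
  match δ with
  | none => (c, 0)
  | some _ => (0, c)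

private theorem icp_pnt (δ : Option (ZMod q)) (c : ZMod q) : icp δ (pnt δ c) = c := by
  cases δ with
  | none => rfl
  | some d => simp [icp, pnt]

theorem jamison_miss (T : Finset (ZMod q × ZMod q)) :
    2 * q - 1 ≤ T.card + ∑ δ : Option (ZMod q), (miss T δ).card := by
  classical
  have h1 := jamison (T ∪ univ.biUnion (fun δ : Option (ZMod q) => (miss T δ).image (pnt δ)))
    (by
      intro δ c
      by_cases hc : c ∈ miss T δ
      · exact ⟨pnt δ c, mem_union_right _ (mem_biUnion.2 ⟨δ, mem_univ _, mem_image_of_mem _ hc⟩),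
          icp_pnt δ c⟩
      · by_contra hcon
        apply hc
        unfold miss
        refine mem_filter.2 ⟨mem_univ _, fun P hP he => hcon ⟨P, mem_union_left _ hP, he⟩⟩)
  refine h1.trans ((card_union_le _ _).trans (Nat.add_le_add_left ?_ _))
  exact card_biUnion_le.trans (sum_le_sum fun δ _ => card_image_le)

end Pool.Agent.H14.KN
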