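import Pool.Agent.H14.KN.Defs

/-!
[H14 KN PLA] The affine plane over `ZMod q`, basic facts. Mathlib only, short.

* `card_lin`: the line of direction `none` with intercept `c` is `{(c, y)}`, the one of direction
  `some d` is `{(x, d x + c)}`: both have `q` points (image of an injective map of `ZMod q`).
* `exists_inter`: for `δ = none`, `δ' = some d`: `P = (c, d c + c')`. For `some d`, `some d'`,
  `d ≠ d'`: `x = (c' - c)/(d - d')`, `P = (x, d x + c)`. The case `some, none` is symmetric.
* `exists_join`: if `P.1 = Q.1` take `none`, otherwise `some ((P.2 - Q.2)/(P.1 - Q.1))`.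
* `join_unique`: two different directions `δ ≠ δ'` with `icp δ P = icp δ Q` and
  `icp δ' P = icp δ' Q` force `P = Q`: for `none` and `some d`: `P.1 = Q.1` and then `P.2 = Q.2`;
  for `some d`, `some d'`: subtract, `(d - d') (P.1 - Q.1) = 0`.
* `card_miss_ge`: the complement of `miss T δ` is the image of `T` under `icp δ`.
* `injOn_of_hit`: if `T.card = q` and `miss T δ = ∅` then `icp δ` maps `T` onto `ZMod q`, which
  has `q` elements, so it is injective on `T`.
-/

namespace Pool.Agent.H14.KN

open Finset

variable {q : ℕ} [Fact q.Prime]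

theorem mem_lin (δ : Option (ZMod q)) (c : ZMod q) (P : ZMod q × ZMod q) :
    P ∈ lin δ c ↔ icp δ P = c := by
  simp [lin]

theorem mem_miss (T : Finset (ZMod q × ZMod q)) (δ : Option (ZMod q)) (c : ZMod q) :
    c ∈ miss T δ ↔ ∀ P ∈ T, icp δ P ≠ c := by
  simp [miss]

theorem card_lin (δ : Option (ZMod q)) (c : ZMod q) : (lin δ c).card = q := by
  have hq : Fintype.card (ZMod q) = q := ZMod.card q
  cases δ with
  | none =>
    have h1 : lin (none : Option (ZMod q)) c = univ.image (fun y : ZMod q => (c, y)) := by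
      ext P
      rw [mem_lin, mem_image]
      constructor
      · intro h
        exact ⟨P.2, mem_univ _, Prod.ext (show c = P.1 from h.symm) rfl⟩
      · rintro ⟨y, -, rfl⟩
        rfl
    rw [h1, card_image_of_injective _ (fun y y' h => (Prod.mk.inj h).2), card_univ, hq]
  | some d =>
    have h1 : lin (some d) c = univ.image (fun x : ZMod q => (x, d * x + c)) := by
      ext P
      rw [mem_lin, mem_image]
      constructor
      · intro h
        refine ⟨P.1, mem_univ _, Prod.ext rfl ?_⟩
        have h2 : P.2 - d * P.1 = c := h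
        show d * P.1 + c = P.2
        rw [← h2]
        ring
      · rintro ⟨x, -, rfl⟩
        show d * x + c - d * x = c
        ring
    rw [h1, card_image_of_injective _ (fun y y' h => (Prod.mk.inj h).1), card_univ, hq]

theorem exists_inter {δ δ' : Option (ZMod q)} (h : δ ≠ δ') (c c' : ZMod q) :
    ∃ P : ZMod q × ZMod q, icp δ P = c ∧ icp δ' P = c' := by
  cases δ with
  | none =>
    cases δ' with
    | none => exact absurd rfl h
    | some d =>
      refine ⟨(c, d * c + c'), rfl, ?_⟩
      show d * c + c' - d * c = c'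
      ring
  | some d =>
    cases δ' with
    | none =>
      refine ⟨(c', d * c' + c), ?_, rfl⟩
      show d * c' + c - d * c' = c
      ring
    | some d' =>
      have hd : d - d' ≠ 0 := fun h1 => h (by rw [sub_eq_zero.1 h1])
      refine ⟨((c' - c) / (d - d'), d * ((c' - c) / (d - d')) + c), ?_, ?_⟩
      · show d * ((c' - c) / (d - d')) + c - d * ((c' - c) / (d - d')) = c
        ring
      · show d * ((c' - c) / (d - d')) + c - d' * ((c' - c) / (d - d')) = c'
        have h2 : d * ((c' - c) / (d - d')) + c - d' * ((c' - c) / (d - d')) =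
            (d - d') * ((c' - c) / (d - d')) + c := by ring
        rw [h2, mul_div_cancel₀ _ hd]
        ring

theorem exists_join (P Q : ZMod q × ZMod q) : ∃ δ, icp δ P = icp δ Q := by
  by_cases h : P.1 = Q.1
  · exact ⟨none, h⟩
  · have h1 : P.1 - Q.1 ≠ 0 := sub_ne_zero.2 h
    refine ⟨some ((P.2 - Q.2) / (P.1 - Q.1)), ?_⟩
    show P.2 - (P.2 - Q.2) / (P.1 - Q.1) * P.1 = Q.2 - (P.2 - Q.2) / (P.1 - Q.1) * Q.1
    have h2 : (P.2 - Q.2) / (P.1 - Q.1) * (P.1 - Q.1) = P.2 - Q.2 := div_mul_cancel₀ _ h1
    have h3 : (P.2 - Q.2) / (P.1 - Q.1) * P.1 - (P.2 - Q.2) / (P.1 - Q.1) * Q.1 = P.2 - Q.2 := by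
      rw [← mul_sub, h2]
    linear_combination -h3

theorem join_unique {P Q : ZMod q × ZMod q} (hPQ : P ≠ Q) {δ δ' : Option (ZMod q)}
    (h : icp δ P = icp δ Q) (h' : icp δ' P = icp δ' Q) : δ = δ' := by
  cases δ with
  | none =>
    cases δ' with
    | none => rfl
    | some d =>
      exfalso
      have h1 : P.1 = Q.1 := h
      have h2 : P.2 - d * P.1 = Q.2 - d * Q.1 := h'
      apply hPQ
      rw [h1] at h2
      exact Prod.ext h1 (sub_left_inj.1 h2)
  | some d =>
    cases δ' with
    | none =>
      exfalso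
      have h1 : P.1 = Q.1 := h'
      have h2 : P.2 - d * P.1 = Q.2 - d * Q.1 := h
      apply hPQ
      rw [h1] at h2
      exact Prod.ext h1 (sub_left_inj.1 h2)
    | some d' =>
      have h1 : P.2 - d * P.1 = Q.2 - d * Q.1 := h
      have h2 : P.2 - d' * P.1 = Q.2 - d' * Q.1 := h'
      by_cases h3 : P.1 = Q.1
      · exfalso
        rw [h3] at h2
        exact hPQ (Prod.ext h3 (sub_left_inj.1 h2))
      · have h4 : (d - d') * (P.1 - Q.1) = 0 := by linear_combination h2 - h1
        rcases mul_eq_zero.1 h4 with h5 | h5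
        · rw [sub_eq_zero.1 h5]
        · exact absurd (sub_eq_zero.1 h5) h3

theorem card_miss_ge (T : Finset (ZMod q × ZMod q)) (δ : Option (ZMod q)) :
    q ≤ (miss T δ).card + T.card := by
  have h1 : (univ : Finset (ZMod q)) ⊆ miss T δ ∪ T.image (icp δ) := by
    intro c _
    by_cases hc : c ∈ miss T δ
    · exact mem_union_left _ hc
    · rw [mem_miss] at hc
      push Not at hc
      obtain ⟨P, hP, hc⟩ := hc
      exact mem_union_right _ (mem_image.2 ⟨P, hP, hc⟩)
  have h2 := card_le_card h1
  rw [card_univ, ZMod.card] at h2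
  exact h2.trans ((card_union_le _ _).trans (Nat.add_le_add_left card_image_le _))

theorem card_miss_le (T : Finset (ZMod q × ZMod q)) (δ : Option (ZMod q)) :
    (miss T δ).card ≤ q := by
  have h1 := card_le_univ (miss T δ)
  rwa [ZMod.card] at h1

theorem injOn_of_hit {T : Finset (ZMod q × ZMod q)} (hT : T.card = q) {δ : Option (ZMod q)}
    (h : miss T δ = ∅) : Set.InjOn (icp δ) (T : Set (ZMod q × ZMod q)) := by
  apply injOn_of_card_image_eq
  apply le_antisymm card_image_le
  have h1 : (univ : Finset (ZMod q)) ⊆ T.image (icp δ) := by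
    intro c _
    have hc : c ∉ miss T δ := by
      rw [h]
      simp
    rw [mem_miss] at hc
    push Not at hc
    obtain ⟨P, hP, hc⟩ := hc
    exact mem_image.2 ⟨P, hP, hc⟩
  have h2 := card_le_card h1
  rw [card_univ, ZMod.card] at h2
  rw [hT]
  exact h2

end Pool.Agent.H14.KN
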