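import Pool.Agent.H14.KN.TailBasic

/-!
[H14 KN TAT] The tail is bounded below by the elementary symmetric function when the mean is
small. Needs only `TailBasic` (or Mathlib).

With `w_A` as in `TailStep`: `esy I v y = ∑_{A⊆I} w_A * |A|.choose y` (for `S ⊆ I`:
`∏_{l∈S} v l = ∑_{S ⊆ A ⊆ I} w_A`, i.e. `∏_S v * ∑_{A' ⊆ I\S} w'_{A'}` with the last sum `1`;
exchange the sums; `|{S ⊆ A, |S| = y}| = |A|.choose y`).
The part `|A| ≤ B`: the binomial coefficient is `≤ B.choose y` and vanishes for `|A| < y`, so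
this part is `≤ B.choose y * tail I v y`.
The part `|A| > B`: it is `∑_{S, |S|=y} ∏_S v * P_S`, where `P_S` is the sum of
`w'_{A'}` over `A' ⊆ I \ S` with `|A'| > B - y` (i.e. `|A'| ≥ B - y + 1`; `y ≤ B` by `hB`, as
`Λ ≥ ∑ v ≥ 0`). By Markov `P_S (B - y + 1) ≤ ∑_{A'} |A'| w'_{A'} = ∑_{I\S} v ≤ Λ`, and
`2 Λ ≤ B - y`, so `P_S ≤ 1/2`. So this part is `≤ esy I v y / 2`. Together
`esy ≤ B.choose y * tail + esy / 2`.
-/

namespace Pool.Agent.H14.KN

open Finset

section

variable {ι : Type} [DecidableEq ι]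

private noncomputable def pw (I : Finset ι) (v : ι → ℝ) (A : Finset ι) : ℝ :=
  (∏ l ∈ A, v l) * ∏ l ∈ I \ A, (1 - v l)

private theorem pw_nonneg (I : Finset ι) (v : ι → ℝ) (h0 : ∀ l ∈ I, 0 ≤ v l)
    (h1 : ∀ l ∈ I, v l ≤ 1) {A : Finset ι} (hA : A ⊆ I) : 0 ≤ pw I v A := by
  unfold pw
  exact mul_nonneg (Finset.prod_nonneg fun l hl => h0 l (hA hl))
    (Finset.prod_nonneg fun l hl => by linarith [h1 l (mem_sdiff.1 hl).1])

private theorem sum_pw (I : Finset ι) (v : ι → ℝ) : ∑ A ∈ I.powerset, pw I v A = 1 := by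
  have h := Finset.prod_add v (fun l => 1 - v l) I
  unfold pw
  rw [← h]
  exact Finset.prod_eq_one fun l _ => by ring

private theorem sum_mem (I : Finset ι) (v : ι → ℝ) {l : ι} (hl : l ∈ I) :
    ∑ A ∈ I.powerset, (if l ∈ A then pw I v A else 0) = v l := by
  have h := Finset.prod_add v (fun l' => if l' = l then 0 else 1 - v l') I
  have h2 : ∏ l' ∈ I, (v l' + if l' = l then 0 else 1 - v l') = v l := by
    rw [← Finset.mul_prod_erase I (fun l' => v l' + if l' = l then 0 else 1 - v l') hl]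
    have h3 : ∏ l' ∈ I.erase l, (v l' + if l' = l then 0 else 1 - v l') = 1 := by
      refine Finset.prod_eq_one fun l' hl' => ?_
      rw [if_neg (ne_of_mem_erase hl')]
      ring
    rw [h3, mul_one, if_pos rfl, add_zero]
  rw [h2] at h
  rw [h]
  refine Finset.sum_congr rfl fun A hA => ?_
  unfold pw
  by_cases hlA : l ∈ A
  · rw [if_pos hlA]
    congr 1
    refine Finset.prod_congr rfl fun l' hl' => ?_
    rw [if_neg]
    rintro rfl
    exact (mem_sdiff.1 hl').2 hlA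
  · have h4 : ∏ l' ∈ I \ A, (if l' = l then 0 else 1 - v l') = 0 :=
      Finset.prod_eq_zero (mem_sdiff.2 ⟨hl, hlA⟩) (if_pos rfl)
    rw [if_neg hlA, h4, mul_zero]

private theorem sum_mean (I : Finset ι) (v : ι → ℝ) :
    ∑ A ∈ I.powerset, ((A.card : ℝ) * pw I v A) = ∑ l ∈ I, v l := by
  rw [Finset.sum_congr rfl fun l hl => (sum_mem I v hl).symm, Finset.sum_comm]
  refine Finset.sum_congr rfl fun A hA => ?_
  rw [← Finset.sum_filter, Finset.sum_const, nsmul_eq_mul]
  congr 2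
  have : I.filter (fun l => l ∈ A) = A := by
    ext x
    rw [mem_filter]
    exact ⟨fun h => h.2, fun h => ⟨mem_powerset.1 hA h, h⟩⟩
  rw [this]

/-- Markov -/
private theorem markov (J : Finset ι) (v : ι → ℝ) (h0 : ∀ l ∈ J, 0 ≤ v l)
    (h1 : ∀ l ∈ J, v l ≤ 1) {Λ : ℝ} {c : ℕ} (hΛ : ∑ l ∈ J, v l ≤ Λ) (hc : 2 * Λ ≤ c) :
    1 / 2 ≤ ∑ A ∈ J.powerset.filter (fun A => A.card ≤ c), pw J v A := by
  have h2 : ∑ A ∈ J.powerset, (((c : ℝ) + 1) - A.card) * pw J v A ≤
      ∑ A ∈ J.powerset, ((c : ℝ) + 1) * (if A.card ≤ c then pw J v A else 0) := by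
    refine Finset.sum_le_sum fun A hA => ?_
    have hp := pw_nonneg J v h0 h1 (mem_powerset.1 hA)
    by_cases h : A.card ≤ c
    · rw [if_pos h]
      have : (0 : ℝ) ≤ A.card := Nat.cast_nonneg _
      nlinarith
    · rw [if_neg h, mul_zero]
      have : (c : ℝ) + 1 ≤ A.card := by exact_mod_cast (by omega : c + 1 ≤ A.card)
      nlinarith
  rw [← Finset.mul_sum, ← Finset.sum_filter] at h2
  have h3 : ∑ A ∈ J.powerset, (((c : ℝ) + 1) - A.card) * pw J v A =
      ((c : ℝ) + 1) - ∑ l ∈ J, v l := by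
    rw [← sum_mean J v, Finset.sum_congr rfl fun A _ => sub_mul _ _ _, Finset.sum_sub_distrib,
      ← Finset.mul_sum, sum_pw, mul_one]
  rw [h3] at h2
  have h4 : (0 : ℝ) < (c : ℝ) + 1 := by positivity
  have h5 : ((c : ℝ) + 1) * (1 / 2) ≤ ((c : ℝ) + 1) *
      ∑ A ∈ J.powerset.filter (fun A => A.card ≤ c), pw J v A := by linarith
  exact le_of_mul_le_mul_left h5 h4

private theorem inner (I : Finset ι) (v : ι → ℝ) (h0 : ∀ l ∈ I, 0 ≤ v l)
    (h1 : ∀ l ∈ I, v l ≤ 1) {Λ : ℝ} {B : ℕ} {S : Finset ι} (hS : S ⊆ I)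
    (hSB : S.card ≤ B) (hΛ : ∑ l ∈ I, v l ≤ Λ) (hB : (S.card : ℝ) + 2 * Λ ≤ B) :
    (∏ l ∈ S, v l) * (1 / 2) ≤
      ∑ A ∈ I.powerset.filter (fun A => S ⊆ A ∧ A.card ≤ B), pw I v A := by
  have hm := markov (I \ S) v (fun l hl => h0 l (mem_sdiff.1 hl).1)
    (fun l hl => h1 l (mem_sdiff.1 hl).1) (Λ := Λ) (c := B - S.card)
    (le_trans (Finset.sum_le_sum_of_subset_of_nonneg sdiff_subset fun l hl _ => h0 l hl) hΛ)
    (by rw [Nat.cast_sub hSB]; linarith)
  have hP : 0 ≤ ∏ l ∈ S, v l := Finset.prod_nonneg fun l hl => h0 l (hS hl)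
  refine (mul_le_mul_of_nonneg_left hm hP).trans (le_of_eq ?_)
  rw [Finset.mul_sum]
  refine Finset.sum_bij' (fun A' _ => S ∪ A') (fun A _ => A \ S) ?_ ?_ ?_ ?_ ?_
  · intro A' hA'
    rw [mem_filter, mem_powerset] at hA'
    have hd : Disjoint S A' := Finset.disjoint_of_subset_right hA'.1 disjoint_sdiff
    rw [mem_filter, mem_powerset, card_union_of_disjoint hd]
    refine ⟨union_subset hS (hA'.1.trans sdiff_subset), subset_union_left, ?_⟩
    have := hA'.2
    omega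
  · intro A hA
    rw [mem_filter, mem_powerset] at hA
    rw [mem_filter, mem_powerset, card_sdiff_of_subset hA.2.1]
    refine ⟨sdiff_subset_sdiff hA.1 le_rfl, ?_⟩
    have := hA.2.2
    omega
  · intro A' hA'
    rw [mem_filter, mem_powerset] at hA'
    have hd : Disjoint S A' := Finset.disjoint_of_subset_right hA'.1 disjoint_sdiff
    rw [Finset.union_sdiff_left]
    exact Finset.sdiff_eq_self_of_disjoint hd.symm
  · intro A hA
    rw [mem_filter] at hA
    exact Finset.union_sdiff_of_subset hA.2.1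
  · intro A' hA'
    rw [mem_filter, mem_powerset] at hA'
    have hd : Disjoint S A' := Finset.disjoint_of_subset_right hA'.1 disjoint_sdiff
    have h : (I \ S) \ A' = I \ (S ∪ A') := sdiff_sdiff_left
    unfold pw
    rw [Finset.prod_union hd, h]
    ring

end

theorem tail_trunc {ι : Type} [DecidableEq ι] (I : Finset ι) (v : ι → ℝ)
    (h0 : ∀ l ∈ I, 0 ≤ v l) (h1 : ∀ l ∈ I, v l ≤ 1) {Λ : ℝ} {B y : ℕ}
    (hΛ : ∑ l ∈ I, v l ≤ Λ) (hB : (y : ℝ) + 2 * Λ ≤ B) :
    esy I v y ≤ 2 * (B.choose y : ℝ) * tail I v y := by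
  have hΛ0 : 0 ≤ Λ := (Finset.sum_nonneg h0).trans hΛ
  have hyB : y ≤ B := by
    have : (y : ℝ) ≤ B := by linarith
    exact_mod_cast this
  have hA : esy I v y * (1 / 2) ≤ ∑ S ∈ I.powersetCard y,
      ∑ A ∈ I.powerset.filter (fun A => S ⊆ A ∧ A.card ≤ B), pw I v A := by
    unfold esy
    rw [Finset.sum_mul]
    refine Finset.sum_le_sum fun S hS => ?_
    obtain ⟨hSI, hSc⟩ := mem_powersetCard.1 hS
    exact inner I v h0 h1 hSI (by omega) hΛ (by rw [hSc]; exact hB)
  have hE : ∑ S ∈ I.powersetCard y,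
      ∑ A ∈ I.powerset.filter (fun A => S ⊆ A ∧ A.card ≤ B), pw I v A =
      ∑ A ∈ I.powerset.filter (fun A => A.card ≤ B), ((A.card.choose y : ℕ) : ℝ) * pw I v A := by
    have h2 : ∀ S ∈ I.powersetCard y,
        ∑ A ∈ I.powerset.filter (fun A => S ⊆ A ∧ A.card ≤ B), pw I v A =
        ∑ A ∈ I.powerset.filter (fun A => A.card ≤ B), if S ⊆ A then pw I v A else 0 := by
      intro S _
      rw [← Finset.sum_filter, Finset.filter_filter]
      refine Finset.sum_congr ?_ fun _ _ => rfl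
      ext A
      simp only [mem_filter]
      tauto
    rw [Finset.sum_congr rfl h2, Finset.sum_comm]
    refine Finset.sum_congr rfl fun A hA => ?_
    rw [← Finset.sum_filter, Finset.sum_const, nsmul_eq_mul]
    congr 2
    have h3 : (I.powersetCard y).filter (fun S => S ⊆ A) = A.powersetCard y := by
      ext S
      simp only [mem_filter, mem_powersetCard, mem_powerset] at hA ⊢
      exact ⟨fun h => ⟨h.2, h.1.2⟩, fun h => ⟨⟨h.1.trans hA.1, h.2⟩, h.1⟩⟩
    rw [h3, card_powersetCard]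
  rw [hE] at hA
  have hF : ∑ A ∈ I.powerset.filter (fun A => A.card ≤ B), ((A.card.choose y : ℕ) : ℝ) * pw I v A
      ≤ (B.choose y : ℝ) * tail I v y := by
    have h4 : tail I v y = ∑ A ∈ I.powerset.filter (fun A => y ≤ A.card), pw I v A := rfl
    rw [h4, Finset.mul_sum, Finset.sum_filter, Finset.sum_filter]
    refine Finset.sum_le_sum fun A hA => ?_
    have hp := pw_nonneg I v h0 h1 (mem_powerset.1 hA)
    by_cases h : A.card ≤ B
    · rw [if_pos h]
      by_cases h5 : y ≤ A.card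
      · rw [if_pos h5]
        refine mul_le_mul_of_nonneg_right ?_ hp
        exact_mod_cast Nat.choose_le_choose y h
      · rw [if_neg h5, Nat.choose_eq_zero_of_lt (by omega)]
        simp
    · rw [if_neg h]
      split_ifs
      · positivity
      · exact le_rfl
  linarith

end Pool.Agent.H14.KN
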