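import Pool.Agent.H14.KN.CodeMass
import Pool.Agent.H14.KN.Plane
import Pool.Agent.H14.KN.Jamison
import Pool.Agent.H14.KN.TailTrunc
import Pool.Agent.H14.KN.ProdLow

/-!
[H14 KN CAD] Main lemma, diffuse case: every codeword has a small number of expected missed lines
in `I`.

Let `u l δ = (miss (T l) δ).card / q ∈ [0,1]`; `vf f l = vh u f l`. For `l ∈ I`:
`tot u l = ∑_δ u l δ ≥ (2q - 1 - |T l|)/q ≥ (q/2 - 1)/q ≥ 1/3` (`jamison_miss`, `2|T l| ≤ 3q`).
Let `ũ l δ = u l δ / max 1 (tot u l)`. Then `0 ≤ ũ ≤ u`, `tot ũ l = min 1 (tot u l) ∈ [1/3, 1]`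
for `l ∈ I`.
(1) `(q^(w-y)/2) esy I (tot ũ) y ≤ ∑_f esy I (vh ũ f) y`: for `y < w` sum `mass_lt` over
`S ⊆ I`, `|S| = y` (`1 - y/q ≥ 1/2`, as `2 w ≤ q`). For `y = w` this is `mass_eq` with
`Λ = s/(40 w)` (`∑_I vh ũ f ≤ ∑_I vf f ≤ Λ`); its condition:
`2 (Λ + w) w + w = s/20 + 2 w² + w ≤ s/6 ≤ |I|/3 ≤ ∑_I tot ũ`, as `w^4 ≤ s`.
(2) `esy I (tot ũ) y ≥ |I|.choose y * (1/3)^y`.
(3) Let `B = y + ⌈s/(20 w)⌉₊`. `tail_trunc` with this `Λ`: `y + 2 Λ ≤ B`, so
`esy I (vf f) y ≤ 2 (B.choose y) tail I (vf f) y`, and `esy I (vh ũ f) y ≤ esy I (vf f) y`.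
So `∑_f tail I (vf f) y ≥ (q^(w-y)/4) * |I|.choose y / B.choose y * (1/3)^y`.
(4) `B ≤ w + s/(20w) + 1 ≤ 3 s/(40 w)` since `s/(40 w) ≥ w + 1`; `|I| ≥ s/2 ≥ B ≥ y`. For
`y ≤ B ≤ n`: `n.choose y / B.choose y = ∏_{i<y} (n-i)/(B-i) ≥ (n/B)^y`. So the quotient in (3)
is at least `(|I|/(3B))^y ≥ ((s/2) * 40 w/(9 s))^y = (20 w/9)^y ≥ (2 w)^y`.
-/

namespace Pool.Agent.H14.KN

open Finset

private theorem cad_desc (c : ℕ) (hc : 1 ≤ c) (B y : ℕ) :
    c ^ y * B.descFactorial y ≤ (c * B).descFactorial y := by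
  induction y with
  | zero => simp
  | succ y ih =>
    rw [Nat.descFactorial_succ, Nat.descFactorial_succ]
    have h1 : c * (B - y) ≤ c * B - y := by
      rw [Nat.mul_sub]
      have : y ≤ c * y := Nat.le_mul_of_pos_left y hc
      omega
    calc c ^ (y + 1) * ((B - y) * B.descFactorial y)
        = (c * (B - y)) * (c ^ y * B.descFactorial y) := by ring
      _ ≤ (c * B - y) * (c * B).descFactorial y := Nat.mul_le_mul h1 ih

private theorem cad_choose (c : ℕ) (hc : 1 ≤ c) (B n y : ℕ) (h : c * B ≤ n) :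
    c ^ y * B.choose y ≤ n.choose y := by
  have h1 := cad_desc c hc B y
  have h2 : (c * B).descFactorial y ≤ n.descFactorial y := Nat.descFactorial_le y h
  have h3 := h1.trans h2
  rw [Nat.descFactorial_eq_factorial_mul_choose, Nat.descFactorial_eq_factorial_mul_choose] at h3
  have h4 : y.factorial * (c ^ y * B.choose y) ≤ y.factorial * n.choose y := by
    calc y.factorial * (c ^ y * B.choose y) = c ^ y * (y.factorial * B.choose y) := by ring
      _ ≤ y.factorial * n.choose y := h3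
  exact Nat.le_of_mul_le_mul_left h4 (Nat.factorial_pos y)

private theorem cad_mono {ι : Type} [DecidableEq ι] (I : Finset ι) (u v : ι → ℝ)
    (h0 : ∀ l ∈ I, 0 ≤ u l) (h : ∀ l ∈ I, u l ≤ v l) (y : ℕ) : esy I u y ≤ esy I v y := by
  unfold esy
  refine sum_le_sum fun S hS => ?_
  have hS' := (mem_powersetCard.1 hS).1
  exact prod_le_prod (fun l hl => h0 l (hS' hl)) (fun l hl => h l (hS' hl))

private theorem cad_low {ι : Type} [DecidableEq ι] (I : Finset ι) (v : ι → ℝ) (c : ℝ)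
    (hc : 0 ≤ c) (h : ∀ l ∈ I, c ≤ v l) (y : ℕ) : (I.card.choose y : ℝ) * c ^ y ≤ esy I v y := by
  unfold esy
  rw [← card_powersetCard, ← nsmul_eq_mul, ← sum_const]
  refine sum_le_sum fun S hS => ?_
  rw [mem_powersetCard] at hS
  rw [← hS.2, ← prod_const]
  exact prod_le_prod (fun l _ => hc) (fun l hl => h l (hS.1 hl))

theorem caseD {q w s m r : ℕ} [Fact q.Prime] (hP : Par q w s m r) (α β : Fin m → ZMod q)
    (hinj : Function.Injective (Sum.elim α β)) (T : Fin m → Finset (ZMod q × ZMod q))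
    {y : ℕ} (hy : 1 ≤ y) (hyw : y ≤ w) (I : Finset (Fin m)) (hI : s ≤ 2 * I.card)
    (hIT : ∀ l ∈ I, 2 * (T l).card ≤ 3 * q)
    (hlam : ∀ f : Fin w → ZMod q, 40 * (w : ℝ) * ∑ l ∈ I, vf α β T f l ≤ s) :
    (q : ℝ) ^ (w - y) / 4 * (2 * (w : ℝ)) ^ y ≤
      ∑ f : Fin w → ZMod q, tail I (vf α β T f) y := by
  -- numbers
  have hw80 : 2 ^ 80 ≤ w := hP.hw
  have hw100 : 1000 ≤ w := le_trans (by norm_num) hw80
  have hws : w ^ 4 ≤ s := hP.hs
  have hw4 : 1000 * w ^ 3 ≤ w ^ 4 := by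
    calc 1000 * w ^ 3 ≤ w * w ^ 3 := Nat.mul_le_mul_right _ hw100
      _ = w ^ 4 := by ring
  have hw3 : 1000 * w ^ 2 ≤ w ^ 3 := by
    calc 1000 * w ^ 2 ≤ w * w ^ 2 := Nat.mul_le_mul_right _ hw100
      _ = w ^ 3 := by ring
  have hw2 : 1000 * w ≤ w ^ 2 := by
    calc 1000 * w ≤ w * w := Nat.mul_le_mul_right _ hw100
      _ = w ^ 2 := by ring
  have hms := hP.hm
  have hsw2 : 1000000 * w ^ 2 ≤ s := by omega
  have hms' : s ≤ m := by omega
  have hmq : m ≤ q := by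
    refine le_trans ?_ hP.hmq
    exact Nat.le_self_pow (by norm_num) m
  have hq2w : 2 * w ≤ q := by omega
  have hq6 : 6 ≤ q := by omega
  have hq : (0 : ℝ) < q := by
    have : 0 < q := by omega
    exact_mod_cast this
  have hwr : (0 : ℝ) < w := by
    have : 0 < w := by omega
    exact_mod_cast this
  have hsr : (1000000 : ℝ) * (w : ℝ) ^ 2 ≤ s := by exact_mod_cast hsw2
  have hw1000 : (1000 : ℝ) ≤ w := by exact_mod_cast hw100
  -- the weights
  obtain ⟨u, hu⟩ : ∃ u : Fin m → Option (ZMod q) → ℝ, u = fun l δ => ((miss (T l) δ).card : ℝ) / q :=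
    ⟨_, rfl⟩
  have hu0 : ∀ l δ, 0 ≤ u l δ := by
    intro l δ
    rw [hu]
    positivity
  have hvf : ∀ (f : Fin w → ZMod q) (l : Fin m), vf α β T f l = vh α β u f l := by
    intro f l
    rw [hu]
    rfl
  have htot : ∀ l ∈ I, (1 : ℝ) / 3 ≤ tot u l := by
    intro l hl
    have h1 := jamison_miss (T l)
    have h2 := hIT l hl
    have h3 : tot u l = ((∑ δ : Option (ZMod q), (miss (T l) δ).card : ℕ) : ℝ) / q := by
      unfold tot
      rw [hu, Nat.cast_sum, sum_div]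
    rw [h3, le_div_iff₀ hq]
    have h4 : q ≤ 3 * ∑ δ : Option (ZMod q), (miss (T l) δ).card := by omega
    have h5 : (q : ℝ) ≤ 3 * ((∑ δ : Option (ZMod q), (miss (T l) δ).card : ℕ) : ℝ) := by
      exact_mod_cast h4
    linarith
  obtain ⟨U, hUdef⟩ : ∃ U : Fin m → Option (ZMod q) → ℝ, U = fun l δ => u l δ / max 1 (tot u l) :=
    ⟨_, rfl⟩
  have hmax : ∀ l, (1 : ℝ) ≤ max 1 (tot u l) := fun l => le_max_left _ _
  have hmax0 : ∀ l, (0 : ℝ) < max 1 (tot u l) := fun l => lt_of_lt_of_le one_pos (hmax l)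
  have hU0 : ∀ l δ, 0 ≤ U l δ := by
    intro l δ
    rw [hUdef]
    exact div_nonneg (hu0 l δ) (hmax0 l).le
  have hUu : ∀ l δ, U l δ ≤ u l δ := by
    intro l δ
    rw [hUdef]
    exact div_le_self (hu0 l δ) (hmax l)
  have hUt : ∀ l, tot U l = tot u l / max 1 (tot u l) := by
    intro l
    rw [hUdef]
    unfold tot
    rw [sum_div]
  have hUt1 : ∀ l ∈ I, tot U l ≤ 1 := by
    intro l _
    rw [hUt, div_le_one (hmax0 l)]
    exact le_max_right _ _
  have hUt3 : ∀ l ∈ I, (1 : ℝ) / 3 ≤ tot U l := by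
    intro l hl
    rw [hUt, le_div_iff₀ (hmax0 l)]
    rcases le_total (tot u l) 1 with h | h
    · rw [max_eq_left h]
      linarith [htot l hl]
    · rw [max_eq_right h]
      linarith
  have hvU : ∀ (f : Fin w → ZMod q) (l : Fin m), vh α β U f l ≤ vf α β T f l := by
    intro f l
    rw [hvf]
    exact hUu _ _
  -- (1)
  have hΛ : ∀ f : Fin w → ZMod q, ∑ l ∈ I, vf α β T f l ≤ (s : ℝ) / (40 * w) := by
    intro f
    rw [le_div_iff₀ (by positivity)]
    linarith [hlam f]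
  have h1 : (q : ℝ) ^ (w - y) / 2 * esy I (tot U) y ≤
      ∑ f : Fin w → ZMod q, esy I (vh α β U f) y := by
    rcases hyw.lt_or_eq with hlt | heq
    · unfold esy
      rw [mul_sum, sum_comm]
      refine sum_le_sum fun S hS => ?_
      rw [mem_powersetCard] at hS
      have h2 := mass_lt (w := w) α β hinj U hU0 S (by omega)
      refine le_trans ?_ h2
      rw [hS.2]
      have h3 : (1 : ℝ) / 2 ≤ 1 - (y : ℝ) / q := by
        have h4 : (y : ℝ) / q ≤ 1 / 2 := by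
          rw [div_le_iff₀ hq]
          have h5 : 2 * y ≤ q := by omega
          have h6 : 2 * (y : ℝ) ≤ q := by exact_mod_cast h5
          linarith
        linarith
      have h4 : 0 ≤ ∏ l ∈ S, tot U l := prod_nonneg fun l _ => ms_tot0 U hU0 l
      refine mul_le_mul_of_nonneg_right ?_ h4
      rw [div_eq_mul_one_div]
      exact mul_le_mul_of_nonneg_left h3 (by positivity)
    · subst heq
      have h2 := mass_eq α β hinj U hU0 (by omega) I hUt1 ((s : ℝ) / (40 * y)) (by positivity)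
        (fun f => (sum_le_sum fun l _ => hvU f l).trans (hΛ f)) (by
          have h3 : (I.card : ℝ) * (1 / 3) ≤ ∑ l ∈ I, tot U l := by
            rw [← nsmul_eq_mul, ← sum_const]
            exact sum_le_sum hUt3
          have h4 : (s : ℝ) ≤ 2 * (I.card : ℝ) := by exact_mod_cast hI
          have h5 : 2 * ((s : ℝ) / (40 * y) + y) * y = s / 20 + 2 * (y : ℝ) ^ 2 := by
            field_simp
            ring
          rw [h5]
          nlinarith)
      rw [Nat.sub_self, pow_zero]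
      linarith
  -- (2)
  have h2 : (I.card.choose y : ℝ) * (1 / 3) ^ y ≤ esy I (tot U) y :=
    cad_low I (tot U) (1 / 3) (by norm_num) hUt3 y
  -- (3)
  obtain ⟨B, hB⟩ : ∃ B, B = y + ⌈(s : ℝ) / (20 * w)⌉₊ := ⟨_, rfl⟩
  have hB1 : (y : ℝ) + 2 * ((s : ℝ) / (40 * w)) ≤ B := by
    have h3 := Nat.le_ceil ((s : ℝ) / (20 * w))
    have h4 : 2 * ((s : ℝ) / (40 * w)) = (s : ℝ) / (20 * w) := by
      field_simp
      ring
    rw [h4, hB]
    push_cast
    linarith
  have h3 : ∑ f : Fin w → ZMod q, esy I (vh α β U f) y ≤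
      2 * (B.choose y : ℝ) * ∑ f : Fin w → ZMod q, tail I (vf α β T f) y := by
    rw [mul_sum]
    refine sum_le_sum fun f _ => ?_
    refine (cad_mono I _ (vf α β T f) (fun l _ => ms_vh0 α β U hU0 f l) (fun l _ => hvU f l)
      y).trans ?_
    exact tail_trunc I (vf α β T f) (fun l _ => vf_nonneg α β T f l)
      (fun l _ => vf_le_one α β T f l) (hΛ f) hB1
  -- (4)
  have hBn : 6 * w * B ≤ I.card := by
    have h4 : (B : ℝ) ≤ w + (s : ℝ) / (20 * w) + 1 := by
      have h5 := (Nat.ceil_lt_add_one (show (0 : ℝ) ≤ (s : ℝ) / (20 * w) by positivity)).le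
      have h6 : (y : ℝ) ≤ w := by exact_mod_cast hyw
      rw [hB]
      push_cast
      linarith
    have h5 : 6 * (w : ℝ) * B ≤ (I.card : ℝ) := by
      have h6 : (s : ℝ) ≤ 2 * (I.card : ℝ) := by exact_mod_cast hI
      have h7 : 6 * (w : ℝ) * B ≤ 6 * (w : ℝ) * (w + (s : ℝ) / (20 * w) + 1) :=
        mul_le_mul_of_nonneg_left h4 (by positivity)
      have h8 : 6 * (w : ℝ) * (w + (s : ℝ) / (20 * w) + 1) =
          6 * (w : ℝ) ^ 2 + 6 * w + 3 / 10 * s := by
        field_simp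
        ring
      rw [h8] at h7
      nlinarith
    exact_mod_cast h5
  have h4 := cad_choose (6 * w) (by omega) B I.card y hBn
  have h5 : ((6 * (w : ℝ)) ^ y) * (B.choose y : ℝ) ≤ (I.card.choose y : ℝ) := by
    exact_mod_cast h4
  have hBy : (0 : ℝ) < (B.choose y : ℝ) := by
    have : 0 < B.choose y := Nat.choose_pos (by omega)
    exact_mod_cast this
  have hqp : (0 : ℝ) ≤ (q : ℝ) ^ (w - y) / 2 := by positivity
  have h6 : (q : ℝ) ^ (w - y) / 2 * ((2 * (w : ℝ)) ^ y * (B.choose y : ℝ)) ≤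
      (q : ℝ) ^ (w - y) / 2 * esy I (tot U) y := by
    refine mul_le_mul_of_nonneg_left (le_trans ?_ h2) hqp
    have h7 : (2 * (w : ℝ)) ^ y = (6 * (w : ℝ)) ^ y * (1 / 3) ^ y := by
      rw [← mul_pow]
      congr 1
      ring
    rw [h7]
    have h8 := mul_le_mul_of_nonneg_right h5 (show (0 : ℝ) ≤ (1 / 3) ^ y by positivity)
    linarith
  have h7 := (h6.trans h1).trans h3
  have h8 : (B.choose y : ℝ) * ((q : ℝ) ^ (w - y) / 4 * (2 * (w : ℝ)) ^ y) ≤
      (B.choose y : ℝ) * ∑ f : Fin w → ZMod q, tail I (vf α β T f) y := by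
    linarith
  exact le_of_mul_le_mul_left h8 hBy

end Pool.Agent.H14.KN
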