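import Pool.Agent.H14.KN.Defs

/-!
[H14 KN TAB] Basic facts on the tail function. Mathlib only.

Write `pw I v A = (∏_{l∈A} v l) * ∏_{l∈I\A} (1 - v l)` (`A ⊆ I`), all nonnegative when
`0 ≤ v ≤ 1` on `I`, and `∑_{A ⊆ I} pw I v A = ∏_{l∈I} (v l + (1 - v l)) = 1`
(`Finset.prod_add`).

* `tail_mul`: for disjoint `I₁, I₂` the map `(A₁, A₂) ↦ A₁ ∪ A₂` is a bijection from pairs of
  subsets onto the subsets of `I₁ ∪ I₂`, with `pw (I₁ ∪ I₂) (A₁ ∪ A₂) = pw I₁ A₁ * pw I₂ A₂`; if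
  `a ≤ |A₁|` and `b ≤ |A₂|` then `a + b ≤ |A₁ ∪ A₂|`; the other terms are nonnegative.
* `tail_mono`: `tail_mul` with `I₁ = I'`, `I₂ = I \ I'`, `b = 0`, and `tail (I\I') v 0 = 1`.
* `tail_anti`: fewer terms.
* `prod_le_tail`: `tail S v S.card ≥` the term `A = S`, which is `∏_{l∈S} v l`; then
  `tail_anti` and `tail_mono`.
-/

namespace Pool.Agent.H14.KN

open Finset

variable {ι : Type} [DecidableEq ι]

private noncomputable def pw (I : Finset ι) (v : ι → ℝ) (A : Finset ι) : ℝ :=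
  (∏ l ∈ A, v l) * ∏ l ∈ I \ A, (1 - v l)

private theorem tail_eq (I : Finset ι) (v : ι → ℝ) (s : ℕ) :
    tail I v s = ∑ A ∈ I.powerset, if s ≤ A.card then pw I v A else 0 := by
  unfold tail pw
  rw [Finset.sum_filter]

private theorem pw_nonneg (I : Finset ι) (v : ι → ℝ) (h0 : ∀ l ∈ I, 0 ≤ v l)
    (h1 : ∀ l ∈ I, v l ≤ 1) {A : Finset ι} (hA : A ∈ I.powerset) : 0 ≤ pw I v A := by
  rw [mem_powerset] at hA
  unfold pw
  exact mul_nonneg (Finset.prod_nonneg fun l hl => h0 l (hA hl))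
    (Finset.prod_nonneg fun l hl => by linarith [h1 l (mem_sdiff.1 hl).1])

private theorem sum_pw (I : Finset ι) (v : ι → ℝ) : ∑ A ∈ I.powerset, pw I v A = 1 := by
  have h := Finset.prod_add v (fun l => 1 - v l) I
  unfold pw
  rw [← h]
  exact Finset.prod_eq_one fun l _ => by ring

theorem tail_nonneg (I : Finset ι) (v : ι → ℝ) (h0 : ∀ l ∈ I, 0 ≤ v l) (h1 : ∀ l ∈ I, v l ≤ 1)
    (s : ℕ) : 0 ≤ tail I v s := by
  rw [tail_eq]
  refine Finset.sum_nonneg fun A hA => ?_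
  split_ifs
  · exact pw_nonneg I v h0 h1 hA
  · exact le_rfl

theorem tail_le_one (I : Finset ι) (v : ι → ℝ) (h0 : ∀ l ∈ I, 0 ≤ v l)
    (h1 : ∀ l ∈ I, v l ≤ 1) (s : ℕ) : tail I v s ≤ 1 := by
  rw [tail_eq, ← sum_pw I v]
  refine Finset.sum_le_sum fun A hA => ?_
  split_ifs
  · exact le_rfl
  · exact pw_nonneg I v h0 h1 hA

theorem tail_anti (I : Finset ι) (v : ι → ℝ) (h0 : ∀ l ∈ I, 0 ≤ v l) (h1 : ∀ l ∈ I, v l ≤ 1)
    {s s' : ℕ} (hs : s' ≤ s) : tail I v s ≤ tail I v s' := by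
  rw [tail_eq, tail_eq]
  refine Finset.sum_le_sum fun A hA => ?_
  by_cases h : s ≤ A.card
  · rw [if_pos h, if_pos (hs.trans h)]
  · rw [if_neg h]
    split_ifs
    · exact pw_nonneg I v h0 h1 hA
    · exact le_rfl

theorem tail_mul (I₁ I₂ : Finset ι) (hd : Disjoint I₁ I₂) (v : ι → ℝ)
    (h0 : ∀ l ∈ I₁ ∪ I₂, 0 ≤ v l) (h1 : ∀ l ∈ I₁ ∪ I₂, v l ≤ 1) (a b : ℕ) :
    tail I₁ v a * tail I₂ v b ≤ tail (I₁ ∪ I₂) v (a + b) := by
  have hdd : ∀ A ∈ I₁.powerset, ∀ B ∈ I₂.powerset, Disjoint A B := by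
    intro A hA B hB
    exact Finset.disjoint_of_subset_left (mem_powerset.1 hA)
      (Finset.disjoint_of_subset_right (mem_powerset.1 hB) hd)
  have hpw : ∀ A ∈ I₁.powerset, ∀ B ∈ I₂.powerset,
      pw (I₁ ∪ I₂) v (A ∪ B) = pw I₁ v A * pw I₂ v B := by
    intro A hA B hB
    have hAB := hdd A hA B hB
    have hA' := mem_powerset.1 hA
    have hB' := mem_powerset.1 hB
    have h2 : (I₁ ∪ I₂) \ (A ∪ B) = (I₁ \ A) ∪ (I₂ \ B) := by
      ext x
      have hx : x ∈ I₁ → x ∉ I₂ := fun h => Finset.disjoint_left.1 hd h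
      have ha := @hA' x
      have hb := @hB' x
      simp only [mem_sdiff, mem_union]
      tauto
    have h3 : Disjoint (I₁ \ A) (I₂ \ B) :=
      Finset.disjoint_of_subset_left sdiff_subset
        (Finset.disjoint_of_subset_right sdiff_subset hd)
    unfold pw
    rw [h2, Finset.prod_union hAB, Finset.prod_union h3]
    ring
  rw [tail_eq, tail_eq, Finset.sum_mul_sum, ← Finset.sum_product']
  rw [tail_eq]
  have hinj : Set.InjOn (fun x : Finset ι × Finset ι => x.1 ∪ x.2)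
      (I₁.powerset ×ˢ I₂.powerset : Set (Finset ι × Finset ι)) := by
    rintro ⟨A, B⟩ hAB ⟨A', B'⟩ hAB' h
    simp only [Set.mem_prod, Finset.mem_coe, mem_powerset] at hAB hAB'
    have h' : A ∪ B = A' ∪ B' := h
    have e1 : ∀ A B : Finset ι, A ⊆ I₁ → B ⊆ I₂ → (A ∪ B) ∩ I₁ = A := by
      intro A B hA hB
      ext x
      have hx : x ∈ I₁ → x ∉ I₂ := fun h => Finset.disjoint_left.1 hd h
      have ha := @hA x
      have hb := @hB x
      simp only [mem_inter, mem_union]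
      tauto
    have e2 : ∀ A B : Finset ι, A ⊆ I₁ → B ⊆ I₂ → (A ∪ B) ∩ I₂ = B := by
      intro A B hA hB
      ext x
      have hx : x ∈ I₁ → x ∉ I₂ := fun h => Finset.disjoint_left.1 hd h
      have ha := @hA x
      have hb := @hB x
      simp only [mem_inter, mem_union]
      tauto
    have h3 : A = A' := by
      rw [← e1 A B hAB.1 hAB.2, h', e1 A' B' hAB'.1 hAB'.2]
    have h4 : B = B' := by
      rw [← e2 A B hAB.1 hAB.2, h', e2 A' B' hAB'.1 hAB'.2]
    rw [h3, h4]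
  have hsub : (I₁.powerset ×ˢ I₂.powerset).image (fun x => x.1 ∪ x.2) ⊆
      (I₁ ∪ I₂).powerset := by
    intro C hC
    obtain ⟨⟨A, B⟩, hAB, rfl⟩ := mem_image.1 hC
    rw [mem_product, mem_powerset, mem_powerset] at hAB
    exact mem_powerset.2 (union_subset_union hAB.1 hAB.2)
  refine le_trans ?_ (Finset.sum_le_sum_of_subset_of_nonneg hsub fun C hC _ => ?_)
  · rw [Finset.sum_image (by
      intro x hx y hy h
      exact hinj (by simpa using hx) (by simpa using hy) h)]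
    refine Finset.sum_le_sum fun x hx => ?_
    obtain ⟨A, B⟩ := x
    rw [mem_product] at hx
    have hA := hx.1
    have hB := hx.2
    have hpA : 0 ≤ pw I₁ v A := pw_nonneg I₁ v (fun l hl => h0 l (mem_union_left _ hl))
      (fun l hl => h1 l (mem_union_left _ hl)) hA
    have hpB : 0 ≤ pw I₂ v B := pw_nonneg I₂ v (fun l hl => h0 l (mem_union_right _ hl))
      (fun l hl => h1 l (mem_union_right _ hl)) hB
    show (if a ≤ A.card then pw I₁ v A else 0) * (if b ≤ B.card then pw I₂ v B else 0) ≤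
      if a + b ≤ (A ∪ B).card then pw (I₁ ∪ I₂) v (A ∪ B) else 0
    rw [hpw A hA B hB, card_union_of_disjoint (hdd A hA B hB)]
    by_cases ha : a ≤ A.card
    · by_cases hb : b ≤ B.card
      · rw [if_pos ha, if_pos hb, if_pos (by omega)]
      · rw [if_neg hb, mul_zero]
        split_ifs
        · exact mul_nonneg hpA hpB
        · exact le_rfl
    · rw [if_neg ha, zero_mul]
      split_ifs
      · exact mul_nonneg hpA hpB
      · exact le_rfl
  · split_ifs
    · exact pw_nonneg _ v h0 h1 hC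
    · exact le_rfl

private theorem tail_zero (I : Finset ι) (v : ι → ℝ) : tail I v 0 = 1 := by
  rw [tail_eq, ← sum_pw I v]
  exact Finset.sum_congr rfl fun A _ => by rw [if_pos (Nat.zero_le _)]

theorem tail_mono (I' I : Finset ι) (hI : I' ⊆ I) (v : ι → ℝ) (h0 : ∀ l ∈ I, 0 ≤ v l)
    (h1 : ∀ l ∈ I, v l ≤ 1) (s : ℕ) : tail I' v s ≤ tail I v s := by
  have hU : I' ∪ (I \ I') = I := Finset.union_sdiff_of_subset hI
  have h := tail_mul I' (I \ I') disjoint_sdiff v (by rw [hU]; exact h0) (by rw [hU]; exact h1)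
    s 0
  rwa [tail_zero, mul_one, hU, add_zero] at h

theorem prod_le_tail (S I : Finset ι) (hS : S ⊆ I) (v : ι → ℝ) (h0 : ∀ l ∈ I, 0 ≤ v l)
    (h1 : ∀ l ∈ I, v l ≤ 1) {s : ℕ} (hs : s ≤ S.card) : ∏ l ∈ S, v l ≤ tail I v s := by
  have h0' : ∀ l ∈ S, 0 ≤ v l := fun l hl => h0 l (hS hl)
  have h1' : ∀ l ∈ S, v l ≤ 1 := fun l hl => h1 l (hS hl)
  have h2 : ∏ l ∈ S, v l ≤ tail S v S.card := by
    rw [tail_eq]
    have h3 : ∏ l ∈ S, v l = if S.card ≤ S.card then pw S v S else 0 := by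
      rw [if_pos le_rfl]
      unfold pw
      rw [Finset.sdiff_self, Finset.prod_empty, mul_one]
    rw [h3]
    refine Finset.single_le_sum (f := fun A => if S.card ≤ A.card then pw S v A else 0)
      (fun A hA => ?_) (mem_powerset_self S)
    show 0 ≤ if S.card ≤ A.card then pw S v A else 0
    split_ifs
    · exact pw_nonneg S v h0' h1' hA
    · exact le_rfl
  exact h2.trans ((tail_anti S v h0' h1' hs).trans (tail_mono S I hS v h0 h1 s))

end Pool.Agent.H14.KN
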