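import Pool.Agent.H14.KN.CountEq
import Pool.Agent.H14.KN.TailBasic
import Pool.Agent.H14.KN.ProdLow
import Pool.Agent.H14.KN.CaseAux

/-!
[H14 KN CAE] Main lemma, concentrated case with `y = w`: some plane `l₁` misses a line of another
direction.

`A₀ = {l ∈ I | 1/(160 w) ≤ vf f₀ l}` has `≥ s/(80 w)` elements (as in `CaseLt`:
`s/(40 w) < |A₀| + 2 s/(160 w)`). Let `A = A₀.erase l₁`, `a = |A| ≥ s/(80 w) - 1 ≥ s/(160 w) ≥
5 w²`. `count_eq` gives `𝓕` with `2 |𝓕| ≥ a.choose (w-1)`. For `f ∈ 𝓕` with its set `S`: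
`tail Ht (vf f) w ≥ (∏_S vf f l) * vf f l₁` (`prod_le_tail` for `insert l₁ S ⊆ Ht`, which has `w`
elements), `vf f l = vf f₀ l ≥ 1/(160 w)` on `S`, and `vf f l₁ = |miss (T l₁) δ₁|/q ≥ 1/q`. So the
sum is at least `(1/(2q)) a.choose (w-1) (160 w)^(-(w-1))`. With
`a.choose (w-1) ≥ (a/(w-1))^(w-1) ≥ (a/w)^(w-1)` and `a ≥ s/(160 w)`:
`≥ (1/(2q)) (s/(25600 w³))^(w-1) ≥ (1/(2q)) (w/25600)^(w-1)`.
-/

namespace Pool.Agent.H14.KN

open Finset

theorem caseE {q w s m r : ℕ} [Fact q.Prime] (hP : Par q w s m r) (α β : Fin m → ZMod q)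
    (hinj : Function.Injective (Sum.elim α β)) (T : Fin m → Finset (ZMod q × ZMod q))
    (I Ht : Finset (Fin m)) (hI : I ⊆ Ht) (f₀ : Fin w → ZMod q)
    (hlam : (s : ℝ) < 40 * (w : ℝ) * ∑ l ∈ I, vf α β T f₀ l) (l₁ : Fin m) (hl : l₁ ∈ Ht)
    (δ₁ : Option (ZMod q)) (h1 : δ₁ ≠ sym α β f₀ l₁) (h2 : δ₁ ≠ some (pe f₀ (α l₁)))
    (hm : (miss (T l₁) δ₁).Nonempty) :
    ((w : ℝ) / 25600) ^ (w - 1) / (2 * q) ≤
      ∑ f : Fin w → ZMod q, tail Ht (vf α β T f) w := by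
  classical
  obtain ⟨hw, hs, hm', h4wq, hw7⟩ := par_w hP
  have hw0 : (0 : ℝ) < w := lt_of_lt_of_le (by norm_num) hw
  have hw800 : (1000 : ℝ) ≤ w := le_trans (by norm_num) hw
  have hqN : 0 < q := hP.prime.pos
  have hq0 : (0 : ℝ) < q := by exact_mod_cast hqN
  have hconc := conc_card hP α β T I f₀ hlam
  set A₀ := I.filter (fun l => 1 / (160 * (w : ℝ)) ≤ vf α β T f₀ l) with hA₀
  have hA₀I : A₀ ⊆ I := filter_subset _ _
  set A := A₀.erase l₁ with hA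
  have hAA : A₀.card ≤ A.card + 1 := by
    have : A₀.card - 1 ≤ A.card := Finset.pred_card_le_card_erase (a := l₁) (s := A₀)
    omega
  have hAAR : (A₀.card : ℝ) ≤ A.card + 1 := by exact_mod_cast hAA
  have hA₀3 : (w : ℝ) ^ 3 < 80 * A₀.card := by
    have h1 : (w : ℝ) * (w : ℝ) ^ 3 < w * (80 * A₀.card) := by
      calc (w : ℝ) * (w : ℝ) ^ 3 = (w : ℝ) ^ 4 := by ring
        _ ≤ (s : ℝ) := hs
        _ < 80 * (w : ℝ) * A₀.card := hconc
        _ = w * (80 * A₀.card) := by ring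
    exact lt_of_mul_lt_mul_left h1 hw0.le
  have hw3 : (1000000 : ℝ) * w ≤ (w : ℝ) ^ 3 := by
    have h1 : (1000000 : ℝ) ≤ (w : ℝ) ^ 2 := by nlinarith
    calc (1000000 : ℝ) * w ≤ (w : ℝ) ^ 2 * w := mul_le_mul_of_nonneg_right h1 hw0.le
      _ = (w : ℝ) ^ 3 := by ring
  have hA3 : (w : ℝ) ^ 3 ≤ 160 * A.card := by linarith
  have hA5 : 5 * w ^ 2 ≤ A.card := by
    have h1 : (5 : ℝ) * (w : ℝ) ^ 2 ≤ A.card := by
      have h2 : (1000 : ℝ) * (w : ℝ) ^ 2 ≤ (w : ℝ) ^ 3 := by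
        calc (1000 : ℝ) * (w : ℝ) ^ 2 ≤ w * (w : ℝ) ^ 2 :=
              mul_le_mul_of_nonneg_right hw800 (by positivity)
          _ = (w : ℝ) ^ 3 := by ring
      have h3 : (0 : ℝ) ≤ (w : ℝ) ^ 2 := by positivity
      linarith
    exact_mod_cast h1
  obtain ⟨F, hFc, hF⟩ := count_eq α β hinj (by omega) f₀ A l₁ (notMem_erase _ _) δ₁ h1 h2 hA5
  have htail : ∀ f ∈ F, 1 / (q : ℝ) * (1 / (160 * (w : ℝ))) ^ (w - 1) ≤
      tail Ht (vf α β T f) w := by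
    intro f hf
    obtain ⟨hfl, S, hSA, hSc, hag⟩ := hF f hf
    have hlS : l₁ ∉ S := fun h => notMem_erase l₁ A₀ (hSA h)
    have hSI : S ⊆ A₀ := hSA.trans (erase_subset _ _)
    have hsub : insert l₁ S ⊆ Ht := insert_subset hl ((hSI.trans hA₀I).trans hI)
    have hc : w ≤ (insert l₁ S).card := by
      rw [card_insert_of_notMem hlS]
      omega
    refine le_trans ?_ (prod_le_tail _ Ht hsub (vf α β T f)
      (fun l _ => vf_nonneg α β T f l) (fun l _ => vf_le_one α β T f l) hc)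
    rw [Finset.prod_insert hlS]
    have h3 : 1 / (q : ℝ) ≤ vf α β T f l₁ := by
      unfold vf
      rw [hfl]
      refine div_le_div_of_nonneg_right ?_ hq0.le
      exact_mod_cast Finset.card_pos.2 hm
    have h4 : (1 / (160 * (w : ℝ))) ^ (w - 1) ≤ ∏ l ∈ S, vf α β T f l := by
      have h5 : ∏ l ∈ S, vf α β T f l = ∏ l ∈ S, vf α β T f₀ l := by
        refine Finset.prod_congr rfl fun l hl => ?_
        unfold vf
        rw [hag l hl]
      rw [h5, ← hSc, ← Finset.prod_const]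
      exact Finset.prod_le_prod (fun l _ => by positivity)
        fun l hl => (mem_filter.1 (hSI hl)).2
    exact mul_le_mul h3 h4 (by positivity) (vf_nonneg α β T f l₁)
  have hsum : (F.card : ℝ) * (1 / (q : ℝ) * (1 / (160 * (w : ℝ))) ^ (w - 1)) ≤
      ∑ f : Fin w → ZMod q, tail Ht (vf α β T f) w := by
    rw [← nsmul_eq_mul]
    refine (Finset.card_nsmul_le_sum _ _ _ htail).trans ?_
    exact Finset.sum_le_sum_of_subset_of_nonneg (subset_univ _) fun f _ _ =>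
      tail_nonneg _ _ (fun l _ => vf_nonneg α β T f l) (fun l _ => vf_le_one α β T f l) _
  refine le_trans ?_ hsum
  have hFcR : (A.card.choose (w - 1) : ℝ) ≤ 2 * F.card := by exact_mod_cast hFc
  have hwA : w - 1 ≤ A.card := by
    have h1 : w ≤ w ^ 2 := by
      calc w = w ^ 1 := (pow_one w).symm
        _ ≤ w ^ 2 := Nat.pow_le_pow_right (by omega) (by norm_num)
    omega
  have hch := pow_div_le_choose (w - 1) A.card hwA
  have hw1R : ((w - 1 : ℕ) : ℝ) ≤ w := by exact_mod_cast Nat.sub_le w 1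
  have hw1p : (0 : ℝ) < ((w - 1 : ℕ) : ℝ) := by exact_mod_cast (by omega : 0 < w - 1)
  have h3 : (w : ℝ) ^ 2 / 160 ≤ (A.card : ℝ) / ((w - 1 : ℕ) : ℝ) := by
    calc (w : ℝ) ^ 2 / 160 ≤ (A.card : ℝ) / w := by
          rw [div_le_div_iff₀ (by norm_num) hw0]
          nlinarith
      _ ≤ (A.card : ℝ) / ((w - 1 : ℕ) : ℝ) :=
          div_le_div_of_nonneg_left (by positivity) hw1p hw1R
  have h4 : ((w : ℝ) ^ 2 / 160) ^ (w - 1) ≤ 2 * F.card :=
    ((pow_le_pow_left₀ (by positivity) h3 _).trans hch).trans hFcR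
  have h5 : ((w : ℝ) / 25600) ^ (w - 1) =
      ((w : ℝ) ^ 2 / 160) ^ (w - 1) * (1 / (160 * (w : ℝ))) ^ (w - 1) := by
    rw [← mul_pow]
    congr 1
    field_simp
    norm_num
  rw [h5]
  calc ((w : ℝ) ^ 2 / 160) ^ (w - 1) * (1 / (160 * (w : ℝ))) ^ (w - 1) / (2 * q)
      = ((w : ℝ) ^ 2 / 160) ^ (w - 1) * ((1 / (160 * (w : ℝ))) ^ (w - 1) / (2 * q)) := by ring
    _ ≤ (2 * F.card) * ((1 / (160 * (w : ℝ))) ^ (w - 1) / (2 * q)) :=
        mul_le_mul_of_nonneg_right h4 (by positivity)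
    _ = (F.card : ℝ) * (1 / (q : ℝ) * (1 / (160 * (w : ℝ))) ^ (w - 1)) := by
        field_simp

end Pool.Agent.H14.KN
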