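import Pool.Agent.H14.KN.CountAgree
import Pool.Agent.H14.KN.TailBasic
import Pool.Agent.H14.KN.ProdLow
import Pool.Agent.H14.KN.CaseAux

/-!
[H14 KN CLT] Main lemma, concentrated case with `y < w`.

`A = {l ∈ I | 1/(160 w) ≤ vf f₀ l}`. As `vf ≤ 1` and `|I| ≤ m ≤ 2 s`:
`s/(40 w) < ∑_I vf f₀ ≤ |A| + 2 s/(160 w)`, so `|A| ≥ s/(80 w)`.
For `S ⊆ A`, `|S| = y`, let `G S` be the set of the `f ≠ f₀` that agree with `f₀` on `S`:
`|G S| ≥ q^(w-y)/2` (`count_agree`; `4 w ≤ q`). An `f ≠ f₀` lies in at most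
`(w-1).choose y ≤ 2^(w-1)` of the sets `G S` because `S ⊆ {l | sym f l = sym f₀ l}`, which has at
most `w - 1` elements (`agree_lt`). So the set `𝓕` of the `f` that lie in some `G S` has
`|𝓕| ≥ |A|.choose y * q^(w-y) / 2^w`. For `f ∈ G S`: `tail I (vf f) y ≥ ∏_S vf f l =
∏_S vf f₀ l ≥ (160 w)^(-y)` (`prod_le_tail`; `vf f l` depends only on `sym f l`). So the sum is
at least `q^(w-y) 2^(-w) |A|.choose y (160 w)^(-y)`. With `|A|.choose y ≥ (|A|/y)^y ≥
(s/(80 w²))^y` (`y ≤ |A|`, `y ≤ w`) this is `≥ q^(w-y) 2^(-w) (s/(12800 w³))^y ≥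
q^(w-y) 2^(-w) (w/12800)^y`.
-/

namespace Pool.Agent.H14.KN

open Finset

theorem caseLt {q w s m r : ℕ} [Fact q.Prime] (hP : Par q w s m r) (α β : Fin m → ZMod q)
    (hinj : Function.Injective (Sum.elim α β)) (T : Fin m → Finset (ZMod q × ZMod q))
    {y : ℕ} (hy : 1 ≤ y) (hyw : y + 1 ≤ w) (I : Finset (Fin m)) (f₀ : Fin w → ZMod q)
    (hlam : (s : ℝ) < 40 * (w : ℝ) * ∑ l ∈ I, vf α β T f₀ l) :
    (q : ℝ) ^ (w - y) / 4 * (((w : ℝ) / 12800) ^ y / 2 ^ w) ≤
      ∑ f : Fin w → ZMod q, tail I (vf α β T f) y := by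
  classical
  obtain ⟨hw, hs, hm, h4wq, hw7⟩ := par_w hP
  have hw0 : (0 : ℝ) < w := lt_of_lt_of_le (by norm_num) hw
  have hqN : 0 < q := hP.prime.pos
  have hq0 : (0 : ℝ) < q := by exact_mod_cast hqN
  have hconc := conc_card hP α β T I f₀ hlam
  set A := I.filter (fun l => 1 / (160 * (w : ℝ)) ≤ vf α β T f₀ l) with hA
  have hAI : A ⊆ I := filter_subset _ _
  -- the number of the elements of A
  have hA3 : (w : ℝ) ^ 3 < 80 * A.card := by
    have h1 : (w : ℝ) * (w : ℝ) ^ 3 < w * (80 * A.card) := by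
      calc (w : ℝ) * (w : ℝ) ^ 3 = (w : ℝ) ^ 4 := by ring
        _ ≤ (s : ℝ) := hs
        _ < 80 * (w : ℝ) * A.card := hconc
        _ = w * (80 * A.card) := by ring
    exact lt_of_mul_lt_mul_left h1 hw0.le
  have hAw : w ≤ A.card := by
    have h1 : (w : ℝ) ≤ A.card := by
      have h2 : (80 : ℝ) * w ≤ (w : ℝ) ^ 3 := by
        have h3 : (80 : ℝ) ≤ w := le_trans (by norm_num) hw
        have h4 : (1 : ℝ) ≤ w := le_trans (by norm_num) hw
        calc (80 : ℝ) * w ≤ w * w := mul_le_mul_of_nonneg_right h3 hw0.le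
          _ = (w : ℝ) ^ 2 := by ring
          _ ≤ (w : ℝ) ^ 3 := pow_le_pow_right₀ h4 (by norm_num)
      linarith
    exact_mod_cast h1
  -- the sets G S
  set G : Finset (Fin m) → Finset (Fin w → ZMod q) := fun S =>
    univ.filter (fun f => f ≠ f₀ ∧ ∀ l ∈ S, sym α β f l = sym α β f₀ l) with hG
  set F : Finset (Fin w → ZMod q) :=
    univ.filter (fun f => ∃ S ∈ A.powersetCard y, f ∈ G S) with hF
  have hGc : ∀ S ∈ A.powersetCard y, q ^ (w - y) ≤ 2 * (G S).card := by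
    intro S hS
    have hSc := (mem_powersetCard.1 hS).2
    have h1 := count_agree α β hinj f₀ S (by omega) h4wq
    rw [hSc] at h1
    exact h1
  have hcount : ∑ S ∈ A.powersetCard y, (G S).card ≤ F.card * 2 ^ (w - 1) := by
    have h1 : ∑ S ∈ A.powersetCard y, (G S).card =
        ∑ f ∈ F, ((A.powersetCard y).filter (fun S => f ∈ G S)).card := by
      have h2 : ∀ S ∈ A.powersetCard y, (G S).card = (F.filter (fun f => f ∈ G S)).card := by
        intro S hS
        congr 1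
        ext f
        constructor
        · intro h
          exact mem_filter.2 ⟨mem_filter.2 ⟨mem_univ _, S, hS, h⟩, h⟩
        · intro h
          exact (mem_filter.1 h).2
      rw [Finset.sum_congr rfl h2]
      exact Finset.sum_card_bipartiteAbove_eq_sum_card_bipartiteBelow (fun S f => f ∈ G S)
    rw [h1, ← smul_eq_mul]
    refine Finset.sum_le_card_nsmul _ _ _ fun f hf => ?_
    obtain ⟨S₀, hS₀, hfS₀⟩ := (mem_filter.1 hf).2
    have hne : f ≠ f₀ := (mem_filter.1 hfS₀).2.1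
    set E := univ.filter (fun l => sym α β f l = sym α β f₀ l) with hE
    have hEc : E.card ≤ w - 1 := by
      have : E.card < w := agree_lt α β hinj f f₀ hne
      omega
    have h3 : (A.powersetCard y).filter (fun S => f ∈ G S) ⊆ E.powerset := by
      intro S hS
      rw [mem_powerset]
      intro l hl
      exact mem_filter.2 ⟨mem_univ _, (mem_filter.1 (mem_filter.1 hS).2).2.2 l hl⟩
    calc ((A.powersetCard y).filter (fun S => f ∈ G S)).card ≤ E.powerset.card :=
          card_le_card h3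
      _ = 2 ^ E.card := card_powerset E
      _ ≤ 2 ^ (w - 1) := Nat.pow_le_pow_right (by norm_num) hEc
  have hFc : (A.card.choose y) * q ^ (w - y) ≤ 2 ^ w * F.card := by
    have h1 : (A.card.choose y) * q ^ (w - y) ≤ ∑ S ∈ A.powersetCard y, 2 * (G S).card := by
      rw [← card_powersetCard, ← smul_eq_mul]
      exact Finset.card_nsmul_le_sum _ _ _ hGc
    rw [← Finset.mul_sum] at h1
    calc (A.card.choose y) * q ^ (w - y) ≤ 2 * ∑ S ∈ A.powersetCard y, (G S).card := h1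
      _ ≤ 2 * (F.card * 2 ^ (w - 1)) := Nat.mul_le_mul_left 2 hcount
      _ = (2 * 2 ^ (w - 1)) * F.card := by ring
      _ = 2 ^ w * F.card := by
          congr 1
          rw [mul_comm, ← pow_succ]
          congr 1
          omega
  -- lower bound of each tail
  have htail : ∀ f ∈ F, (1 / (160 * (w : ℝ))) ^ y ≤ tail I (vf α β T f) y := by
    intro f hf
    obtain ⟨S, hS, hfS⟩ := (mem_filter.1 hf).2
    obtain ⟨hSA, hSc⟩ := mem_powersetCard.1 hS
    have hag := (mem_filter.1 hfS).2.2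
    refine le_trans ?_ (prod_le_tail S I (hSA.trans hAI) (vf α β T f)
      (fun l _ => vf_nonneg α β T f l) (fun l _ => vf_le_one α β T f l) (le_of_eq hSc.symm))
    have h1 : ∏ l ∈ S, vf α β T f l = ∏ l ∈ S, vf α β T f₀ l := by
      refine Finset.prod_congr rfl fun l hl => ?_
      unfold vf
      rw [hag l hl]
    rw [h1, ← hSc, ← Finset.prod_const]
    exact Finset.prod_le_prod (fun l _ => by positivity)
      fun l hl => (mem_filter.1 (hSA hl)).2
  have hsum : (F.card : ℝ) * (1 / (160 * (w : ℝ))) ^ y ≤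
      ∑ f : Fin w → ZMod q, tail I (vf α β T f) y := by
    rw [← nsmul_eq_mul]
    refine (Finset.card_nsmul_le_sum _ _ _ htail).trans ?_
    exact Finset.sum_le_sum_of_subset_of_nonneg (subset_univ _) fun f _ _ =>
      tail_nonneg _ _ (fun l _ => vf_nonneg α β T f l) (fun l _ => vf_le_one α β T f l) _
  refine le_trans ?_ hsum
  -- the numbers
  have hFcR : (A.card.choose y : ℝ) * (q : ℝ) ^ (w - y) ≤ 2 ^ w * F.card := by
    exact_mod_cast hFc
  have hch := pow_div_le_choose y A.card (by omega)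
  have hyR : (0 : ℝ) < y := by exact_mod_cast hy
  have hywR : (y : ℝ) ≤ w := by exact_mod_cast (by omega : y ≤ w)
  have h1 : (w : ℝ) ^ 2 / 80 ≤ (A.card : ℝ) / y := by
    calc (w : ℝ) ^ 2 / 80 ≤ (A.card : ℝ) / w := by
          rw [div_le_div_iff₀ (by norm_num) hw0]
          nlinarith
      _ ≤ (A.card : ℝ) / y := div_le_div_of_nonneg_left (by positivity) hyR hywR
  have h2 : ((w : ℝ) ^ 2 / 80) ^ y ≤ (A.card.choose y : ℝ) :=
    (pow_le_pow_left₀ (by positivity) h1 y).trans hch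
  have h3 : ((w : ℝ) / 12800) ^ y = ((w : ℝ) ^ 2 / 80) ^ y * (1 / (160 * (w : ℝ))) ^ y := by
    rw [← mul_pow]
    congr 1
    field_simp
    norm_num
  have h4 : ((w : ℝ) ^ 2 / 80) ^ y * (q : ℝ) ^ (w - y) / 2 ^ w ≤ F.card := by
    rw [div_le_iff₀ (by positivity)]
    calc ((w : ℝ) ^ 2 / 80) ^ y * (q : ℝ) ^ (w - y)
        ≤ (A.card.choose y : ℝ) * (q : ℝ) ^ (w - y) :=
          mul_le_mul_of_nonneg_right h2 (by positivity)
      _ ≤ 2 ^ w * F.card := hFcR
      _ = F.card * 2 ^ w := mul_comm _ _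
  rw [h3]
  calc (q : ℝ) ^ (w - y) / 4 * (((w : ℝ) ^ 2 / 80) ^ y * (1 / (160 * (w : ℝ))) ^ y / 2 ^ w)
      = (((w : ℝ) ^ 2 / 80) ^ y * (q : ℝ) ^ (w - y) / 2 ^ w) *
        ((1 / (160 * (w : ℝ))) ^ y / 4) := by ring
    _ ≤ (F.card : ℝ) * ((1 / (160 * (w : ℝ))) ^ y / 4) :=
        mul_le_mul_of_nonneg_right h4 (by positivity)
    _ ≤ (F.card : ℝ) * (1 / (160 * (w : ℝ))) ^ y :=
        mul_le_mul_of_nonneg_left (div_le_self (by positivity) (by norm_num)) (by positivity)

end Pool.Agent.H14.KN
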