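import Pool.Agent.H14.KN.Defs

/-!
[H14 KN COD] The code: two codewords agree in fewer than `w` planes; at most `w` symbols are
infinite. Mathlib only.

`root_lt`: `pe f x - pe f' x` is the value at `x` of the polynomial
`∑ i, C (f i - f' i) * X^i`, which is not zero and has degree `< w`; so it has fewer than `w`
roots (`Polynomial.card_roots'`, `Polynomial.natDegree_lt..`). If `w = 0` then `f = f'`.

`formal_lt`: for `l` in the set let `γ l = β l` if `sym f₀ l = none` and `γ l = α l` otherwise. In
the first case only the second alternative is possible and `pe f (β l) = β l ^ w = pe f₀ (β l)`;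
in the second case `sym f₀ l = some (pe f₀ (α l))` and only the first alternative is possible,
so `pe f (α l) = pe f₀ (α l)`. The points `γ l` are different for different `l` (injectivity of
`Sum.elim α β`), so their number is less than `w` by `root_lt`.

`agree_lt`: the set is contained in the one of `formal_lt` (with `f₀ = f'`): if
`sym f l = sym f' l = none` then `pe f (β l) = β l ^ w`; if `sym f l = sym f' l ≠ none` then
`sym f l = some (pe f (α l))`.

`inf_le`: the polynomial `X^w - ∑ i, C (f i) X^i` is monic of degree `w` and the different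
points `β l` with `sym f l = none` are roots.
-/

namespace Pool.Agent.H14.KN

open Finset

variable {q w m : ℕ} [Fact q.Prime]

private theorem pe_sub (f f' : Fin w → ZMod q) (x : ZMod q) :
    (∑ i : Fin w, Polynomial.C (f i - f' i) * Polynomial.X ^ (i : ℕ)).eval x =
      pe f x - pe f' x := by
  rw [Polynomial.eval_finset_sum]
  unfold pe
  rw [← Finset.sum_sub_distrib]
  refine Finset.sum_congr rfl fun i _ => ?_
  simp only [Polynomial.eval_mul, Polynomial.eval_C, Polynomial.eval_pow, Polynomial.eval_X]
  ring

private theorem poly_coeff (g : Fin w → ZMod q) (j : Fin w) :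
    (∑ i : Fin w, Polynomial.C (g i) * Polynomial.X ^ (i : ℕ)).coeff (j : ℕ) = g j := by
  rw [Polynomial.finset_sum_coeff, Finset.sum_eq_single j]
  · simp
  · intro i _ hij
    rw [Polynomial.coeff_C_mul, Polynomial.coeff_X_pow, if_neg, mul_zero]
    exact fun h => hij (Fin.ext h.symm)
  · intro h
    exact absurd (mem_univ _) h

private theorem poly_deg (g : Fin w → ZMod q) :
    (∑ i : Fin w, Polynomial.C (g i) * Polynomial.X ^ (i : ℕ)).degree < (w : WithBot ℕ) := by
  rw [Polynomial.degree_lt_iff_coeff_zero]
  intro j hj
  rw [Polynomial.finset_sum_coeff]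
  refine Finset.sum_eq_zero fun i _ => ?_
  rw [Polynomial.coeff_C_mul, Polynomial.coeff_X_pow, if_neg, mul_zero]
  have := i.2
  omega

theorem root_lt (f f' : Fin w → ZMod q) (hne : f ≠ f') (X : Finset (ZMod q))
    (hX : ∀ x ∈ X, pe f x = pe f' x) : X.card < w := by
  obtain ⟨j, hj⟩ := Function.ne_iff.1 hne
  set P : Polynomial (ZMod q) :=
    ∑ i : Fin w, Polynomial.C (f i - f' i) * Polynomial.X ^ (i : ℕ) with hP
  have hP0 : P ≠ 0 := by
    intro h
    have h1 := poly_coeff (fun i => f i - f' i) j
    rw [← hP, h, Polynomial.coeff_zero] at h1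
    exact hj (sub_eq_zero.1 h1.symm)
  have hroots : X.val ≤ P.roots := by
    rw [Multiset.le_iff_subset X.nodup]
    intro x hx
    rw [Polynomial.mem_roots hP0, Polynomial.IsRoot, hP, pe_sub, hX x hx, sub_self]
  have h1 : X.card ≤ P.natDegree := (Multiset.card_le_card hroots).trans (Polynomial.card_roots' P)
  have h2 : P.natDegree < w := by
    have h3 := poly_deg (fun i => f i - f' i)
    rw [← hP] at h3
    rwa [Polynomial.natDegree_lt_iff_degree_lt hP0]
  omega

theorem formal_lt (α β : Fin m → ZMod q) (hinj : Function.Injective (Sum.elim α β))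
    (f f₀ : Fin w → ZMod q) (hne : f ≠ f₀) :
    (univ.filter (fun l => some (pe f (α l)) = sym α β f₀ l ∨
      (pe f (β l) = β l ^ w ∧ sym α β f₀ l = none))).card < w := by
  classical
  set Y := univ.filter (fun l => some (pe f (α l)) = sym α β f₀ l ∨
      (pe f (β l) = β l ^ w ∧ sym α β f₀ l = none)) with hY
  let γ : Fin m → ZMod q := fun l => if sym α β f₀ l = none then β l else α l
  have hγ : Function.Injective γ := by
    intro a b hab
    simp only [γ] at hab
    split_ifs at hab with h1 h2 h2
    · have := @hinj (Sum.inr a) (Sum.inr b) hab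
      simpa using this
    · have := @hinj (Sum.inr a) (Sum.inl b) hab
      simp at this
    · have := @hinj (Sum.inl a) (Sum.inr b) hab
      simp at this
    · have := @hinj (Sum.inl a) (Sum.inl b) hab
      simpa using this
  rw [← Finset.card_image_of_injective Y hγ]
  refine root_lt f f₀ hne _ fun x hx => ?_
  obtain ⟨l, hl, rfl⟩ := Finset.mem_image.1 hx
  have hl' := (mem_filter.1 hl).2
  by_cases h0 : sym α β f₀ l = none
  · simp only [γ, h0, if_true]
    have h1 : pe f₀ (β l) = β l ^ w := by
      unfold sym at h0
      by_contra h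
      rw [if_neg h] at h0
      exact absurd h0 (by simp)
    rcases hl' with h | h
    · rw [h0] at h
      exact absurd h (by simp)
    · rw [h.1, h1]
  · simp only [γ, h0, if_false]
    have h1 : sym α β f₀ l = some (pe f₀ (α l)) := by
      unfold sym at h0 ⊢
      by_cases h : pe f₀ (β l) = β l ^ w
      · rw [if_pos h] at h0
        exact absurd rfl h0
      · rw [if_neg h]
    rcases hl' with h | h
    · rw [h1] at h
      exact Option.some_injective _ h
    · exact absurd h.2 h0

theorem agree_lt (α β : Fin m → ZMod q) (hinj : Function.Injective (Sum.elim α β))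
    (f f' : Fin w → ZMod q) (hne : f ≠ f') :
    (univ.filter (fun l => sym α β f l = sym α β f' l)).card < w := by
  refine lt_of_le_of_lt (Finset.card_le_card ?_) (formal_lt α β hinj f f' hne)
  intro l hl
  rw [mem_filter] at hl ⊢
  refine ⟨mem_univ _, ?_⟩
  have h := hl.2
  by_cases hf : pe f (β l) = β l ^ w
  · right
    refine ⟨hf, ?_⟩
    rw [← h]
    unfold sym
    rw [if_pos hf]
  · left
    rw [← h]
    unfold sym
    rw [if_neg hf]

theorem inf_le (α β : Fin m → ZMod q) (hinj : Function.Injective (Sum.elim α β))
    (f : Fin w → ZMod q) : (univ.filter (fun l => sym α β f l = none)).card ≤ w := by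
  classical
  have hβ : Function.Injective β := by
    intro a b hab
    have := @hinj (Sum.inr a) (Sum.inr b) hab
    simpa using this
  set Y := univ.filter (fun l => sym α β f l = none) with hY
  set Q : Polynomial (ZMod q) :=
    ∑ i : Fin w, Polynomial.C (f i) * Polynomial.X ^ (i : ℕ) with hQ
  have hdeg : Q.degree < (w : WithBot ℕ) := poly_deg f
  set P : Polynomial (ZMod q) := Polynomial.X ^ w - Q with hP
  have hPm : P.Monic := Polynomial.monic_X_pow_sub hdeg
  have hPd : P.natDegree = w := by
    have h1 : P.degree = (w : WithBot ℕ) := by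
      rw [hP, Polynomial.degree_sub_eq_left_of_degree_lt]
      · exact Polynomial.degree_X_pow w
      · rwa [Polynomial.degree_X_pow]
    exact Polynomial.natDegree_eq_of_degree_eq_some h1
  rw [← Finset.card_image_of_injective Y hβ]
  have hroots : (Y.image β).val ≤ P.roots := by
    rw [Multiset.le_iff_subset (Y.image β).nodup]
    intro x hx
    have hx' : x ∈ Y.image β := hx
    obtain ⟨l, hl, rfl⟩ := Finset.mem_image.1 hx'
    have h0 := (mem_filter.1 hl).2
    have h1 : pe f (β l) = β l ^ w := by
      unfold sym at h0
      by_contra h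
      rw [if_neg h] at h0
      exact absurd h0 (by simp)
    rw [Polynomial.mem_roots hPm.ne_zero, Polynomial.IsRoot, hP, Polynomial.eval_sub,
      Polynomial.eval_pow, Polynomial.eval_X, hQ, Polynomial.eval_finset_sum]
    have h2 : ∑ i : Fin w, (Polynomial.C (f i) * Polynomial.X ^ (i : ℕ)).eval (β l) =
        pe f (β l) := by
      unfold pe
      refine Finset.sum_congr rfl fun i _ => ?_
      simp only [Polynomial.eval_mul, Polynomial.eval_C, Polynomial.eval_pow, Polynomial.eval_X]
    rw [h2, h1, sub_self]
  have h1 : (Y.image β).card ≤ P.natDegree :=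
    (Multiset.card_le_card hroots).trans (Polynomial.card_roots' P)
  omega

end Pool.Agent.H14.KN
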