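import Pool.Agent.H14.KN.Interp

/-!
[H14 KN FRM] Sums of products of formal weights over all codewords.

`uh_eq`: by cases on `pe f (β l) = β l ^ w`.

`form_sum`: expand the product of the sums
`U l (some (pe f (α l))) + (if pe f (β l) = β l ^ w then U l none else 0)`
(`Finset.prod_add`): a sum over `S' ⊆ S` of
`∏_{l ∈ S'} U l (some (pe f (α l))) * ∏_{l ∈ S \ S'} (if pe f (β l) = β l ^ w then U l none else 0)`.
For fixed `S'` apply `interp_sum` with the points `x l = α l` (`l ∈ S'`), `x l = β l` (`l ∉ S'`)
(injective on `S`) and `φ l v = U l (some v)` (`l ∈ S'`),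
`φ l v = if v = β l ^ w then U l none else 0` (`l ∉ S'`). The sums over `v` are `∑_v U l (some v)`
and `U l none`. Summing over `S'` (again `Finset.prod_add`) gives
`∏_{l ∈ S} (∑_v U l (some v) + U l none) = ∏ tot U l` (`Fintype.sum_option`).

`form_sum_d`: the same with the additional factor `dh f i`, which is
`(if pe f (β i) = β i ^ w then 1 else 0) * U i (some (pe f (α i)))`: two more points `β i`, `α i`.
E.g. apply `interp_sum` with the index type `Option (Fin m)`: the set `S.map some ∪ {some i, none}`,
points `x (some l)` as before for `l ∈ S`, `x (some i) = α i`, `x none = β i`. The result is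
`q^(w - (S.card + 2)) * (∑_v U i (some v)) * ∏_{l ∈ S} tot U l`, and
`∑_v U i (some v) ≤ tot U i`.
-/

namespace Pool.Agent.H14.KN

open Finset

variable {q w m : ℕ} [Fact q.Prime]

theorem uh_eq (α β : Fin m → ZMod q) (U : Fin m → Option (ZMod q) → ℝ) (f : Fin w → ZMod q)
    (l : Fin m) : uh α β U f l = vh α β U f l + dh α β U f l := by
  unfold uh vh dh sym
  by_cases h : pe f (β l) = β l ^ w
  · rw [if_pos h, if_pos h, if_pos h]
    ring
  · rw [if_neg h, if_neg h, if_neg h]

private theorem pick_inj (α β : Fin m → ZMod q) (hinj : Function.Injective (Sum.elim α β))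
    (t : Finset (Fin m)) : Function.Injective (fun l => if l ∈ t then α l else β l) := by
  intro a b hab
  simp only at hab
  split_ifs at hab with h1 h2 h2
  · have := @hinj (Sum.inl a) (Sum.inl b) hab
    simpa using this
  · have := @hinj (Sum.inl a) (Sum.inr b) hab
    simp at this
  · have := @hinj (Sum.inr a) (Sum.inl b) hab
    simp at this
  · have := @hinj (Sum.inr a) (Sum.inr b) hab
    simpa using this

private theorem tot_eq (U : Fin m → Option (ZMod q) → ℝ) (l : Fin m) :
    tot U l = ∑ v, U l (some v) + U l none := by
  unfold tot
  rw [Fintype.sum_option]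
  ring

theorem form_sum (α β : Fin m → ZMod q) (hinj : Function.Injective (Sum.elim α β))
    (U : Fin m → Option (ZMod q) → ℝ) (S : Finset (Fin m)) (hS : S.card ≤ w) :
    ∑ f : Fin w → ZMod q, ∏ l ∈ S, uh α β U f l =
      (q : ℝ) ^ (w - S.card) * ∏ l ∈ S, tot U l := by
  classical
  have h1 : ∀ f : Fin w → ZMod q, ∏ l ∈ S, uh α β U f l = ∑ t ∈ S.powerset,
      ∏ l ∈ S, (if l ∈ t then U l (some (pe f (if l ∈ t then α l else β l))) else
        if pe f (if l ∈ t then α l else β l) = β l ^ w then U l none else 0) := by
    intro f
    unfold uh
    rw [Finset.prod_add]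
    refine Finset.sum_congr rfl fun t ht => ?_
    rw [← Finset.prod_sdiff (mem_powerset.1 ht), mul_comm]
    congr 1
    · refine Finset.prod_congr rfl fun l hl => ?_
      rw [if_neg (mem_sdiff.1 hl).2, if_neg (mem_sdiff.1 hl).2]
    · refine Finset.prod_congr rfl fun l hl => ?_
      rw [if_pos hl, if_pos hl]
  rw [Finset.sum_congr rfl fun f _ => h1 f, Finset.sum_comm]
  have h2 : ∀ t ∈ S.powerset, ∑ f : Fin w → ZMod q, ∏ l ∈ S,
      (if l ∈ t then U l (some (pe f (if l ∈ t then α l else β l))) else
        if pe f (if l ∈ t then α l else β l) = β l ^ w then U l none else 0) =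
      (q : ℝ) ^ (w - S.card) * ((∏ l ∈ t, ∑ v, U l (some v)) * ∏ l ∈ S \ t, U l none) := by
    intro t ht
    have h3 := interp_sum (w := w) S (fun l => if l ∈ t then α l else β l)
      ((pick_inj α β hinj t).injOn) hS
      (fun l v => if l ∈ t then U l (some v) else if v = β l ^ w then U l none else 0)
    rw [h3]
    congr 1
    rw [← Finset.prod_sdiff (mem_powerset.1 ht), mul_comm]
    congr 1
    · refine Finset.prod_congr rfl fun l hl => ?_
      exact Finset.sum_congr rfl fun v _ => by rw [if_pos hl]
    · refine Finset.prod_congr rfl fun l hl => ?_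
      rw [Finset.sum_congr rfl fun v _ => if_neg (mem_sdiff.1 hl).2]
      simp
  rw [Finset.sum_congr rfl h2, ← Finset.mul_sum, ← Finset.prod_add]
  congr 1
  exact Finset.prod_congr rfl fun l _ => (tot_eq U l).symm

theorem form_sum_d (α β : Fin m → ZMod q) (hinj : Function.Injective (Sum.elim α β))
    (U : Fin m → Option (ZMod q) → ℝ) (hU : ∀ l δ, 0 ≤ U l δ) (i : Fin m)
    (S : Finset (Fin m)) (hi : i ∉ S) (hS : S.card + 2 ≤ w) :
    ∑ f : Fin w → ZMod q, dh α β U f i * ∏ l ∈ S, uh α β U f l ≤
      (q : ℝ) ^ (w - (S.card + 2)) * (tot U i * ∏ l ∈ S, tot U l) := by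
  classical
  have hmem : some i ∉ S.map Function.Embedding.some := by
    simp [hi]
  have hnone : none ∉ insert (some i) (S.map Function.Embedding.some) := by
    simp
  set S₁ : Finset (Option (Fin m)) := insert none (insert (some i)
    (S.map Function.Embedding.some)) with hS₁
  have hc : S₁.card = S.card + 2 := by
    rw [hS₁, card_insert_of_notMem hnone, card_insert_of_notMem hmem, card_map]
  have hprod : ∀ g : Option (Fin m) → ℝ, ∏ o ∈ S₁, g o =
      g none * (g (some i) * ∏ l ∈ S, g (some l)) := by
    intro g
    rw [hS₁, prod_insert hnone, prod_insert hmem, prod_map]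
    rfl
  have h1 : ∀ f : Fin w → ZMod q, dh α β U f i * ∏ l ∈ S, uh α β U f l = ∑ t ∈ S.powerset,
      ∏ o ∈ S₁, (match o with
        | none => fun v => if v = β i ^ w then (1 : ℝ) else 0
        | some l => fun v => if l = i then U i (some v) else
            (if l ∈ t then U l (some v) else if v = β l ^ w then U l none else 0))
        (pe f (match o with
          | none => β i
          | some l => if l = i then α i else if l ∈ t then α l else β l)) := by
    intro f
    have hd : dh α β U f i = (if pe f (β i) = β i ^ w then (1 : ℝ) else 0) *
        U i (some (pe f (α i))) := by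
      unfold dh
      by_cases h : pe f (β i) = β i ^ w
      · rw [if_pos h, if_pos h, one_mul]
      · rw [if_neg h, if_neg h, zero_mul]
    have hu : ∏ l ∈ S, uh α β U f l = ∏ l ∈ S, (U l (some (pe f (α l))) +
        if pe f (β l) = β l ^ w then U l none else 0) := rfl
    rw [hd, hu, Finset.prod_add, Finset.mul_sum]
    refine Finset.sum_congr rfl fun t ht => ?_
    rw [hprod, mul_assoc]
    simp only [if_true]
    congr 2
    have hne : ∀ l ∈ S, l ≠ i := fun l hl h => hi (h ▸ hl)
    rw [← Finset.prod_sdiff (mem_powerset.1 ht), mul_comm]
    congr 1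
    · refine Finset.prod_congr rfl fun l hl => ?_
      have hl1 := hne l (mem_sdiff.1 hl).1
      have hl2 := (mem_sdiff.1 hl).2
      simp only [hl1, hl2, if_false]
    · refine Finset.prod_congr rfl fun l hl => ?_
      have hl' := hne l (mem_powerset.1 ht hl)
      simp only [hl', hl, if_false, if_true]
  rw [Finset.sum_congr rfl fun f _ => h1 f, Finset.sum_comm]
  have h2 : ∀ t ∈ S.powerset, ∑ f : Fin w → ZMod q,
      ∏ o ∈ S₁, (match o with
        | none => fun v => if v = β i ^ w then (1 : ℝ) else 0
        | some l => fun v => if l = i then U i (some v) else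
            (if l ∈ t then U l (some v) else if v = β l ^ w then U l none else 0))
        (pe f (match o with
          | none => β i
          | some l => if l = i then α i else if l ∈ t then α l else β l)) =
      (q : ℝ) ^ (w - (S.card + 2)) * ((∑ v, U i (some v)) *
        ((∏ l ∈ t, ∑ v, U l (some v)) * ∏ l ∈ S \ t, U l none)) := by
    intro t ht
    have hne : ∀ l ∈ S, l ≠ i := fun l hl h => hi (h ▸ hl)
    have hx : Set.InjOn (fun o : Option (Fin m) => match o with
          | none => β i
          | some l => if l = i then α i else if l ∈ t then α l else β l)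
        (S₁ : Set (Option (Fin m))) := by
      have hαβ : ∀ a b, α a ≠ β b := by
        intro a b h
        have := @hinj (Sum.inl a) (Sum.inr b) h
        simp at this
      have hα : Function.Injective α := by
        intro a b hab
        have := @hinj (Sum.inl a) (Sum.inl b) hab
        simpa using this
      have hβ : Function.Injective β := by
        intro a b hab
        have := @hinj (Sum.inr a) (Sum.inr b) hab
        simpa using this
      have hp := pick_inj α β hinj t
      have key : ∀ l, some l ∈ S₁ → l = i ∨ l ∈ S := by
        intro l hl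
        rw [hS₁] at hl
        simpa using hl
      intro o ho o' ho' h
      cases o with
      | none =>
        cases o' with
        | none => rfl
        | some l' =>
          exfalso
          simp only at h
          rcases key l' ho' with h3 | h3
          · rw [if_pos h3] at h
            exact hαβ _ _ h.symm
          · rw [if_neg (hne l' h3)] at h
            split_ifs at h with h4
            · exact hαβ _ _ h.symm
            · exact hne l' h3 (hβ h).symm
      | some l =>
        cases o' with
        | none =>
          exfalso
          simp only at h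
          rcases key l ho with h3 | h3
          · rw [if_pos h3] at h
            exact hαβ _ _ h
          · rw [if_neg (hne l h3)] at h
            split_ifs at h with h4
            · exact hαβ _ _ h
            · exact hne l h3 (hβ h)
        | some l' =>
          simp only at h
          rcases key l ho with h3 | h3
          · rcases key l' ho' with h5 | h5
            · rw [h3, h5]
            · exfalso
              rw [if_pos h3, if_neg (hne l' h5)] at h
              split_ifs at h with h4
              · exact hne l' h5 (hα h).symm
              · exact hαβ _ _ h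
          · rcases key l' ho' with h5 | h5
            · exfalso
              rw [if_pos h5, if_neg (hne l h3)] at h
              split_ifs at h with h4
              · exact hne l h3 (hα h)
              · exact hαβ _ _ h.symm
            · rw [if_neg (hne l h3), if_neg (hne l' h5)] at h
              rw [hp h]
    have h3 := interp_sum (w := w) S₁ _ hx (by rw [hc]; exact hS)
      (fun o => match o with
        | none => fun v => if v = β i ^ w then (1 : ℝ) else 0
        | some l => fun v => if l = i then U i (some v) else
            (if l ∈ t then U l (some v) else if v = β l ^ w then U l none else 0))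
    rw [h3, hc, hprod]
    congr 1
    simp only [if_true]
    rw [Finset.sum_ite_eq' univ (β i ^ w) (fun _ => (1 : ℝ)), if_pos (mem_univ _), one_mul]
    congr 1
    rw [← Finset.prod_sdiff (mem_powerset.1 ht), mul_comm]
    congr 1
    · refine Finset.prod_congr rfl fun l hl => ?_
      refine Finset.sum_congr rfl fun v _ => ?_
      rw [if_neg (hne l (mem_powerset.1 ht hl)), if_pos hl]
    · refine Finset.prod_congr rfl fun l hl => ?_
      rw [Finset.sum_congr rfl fun v _ => if_neg (hne l (mem_sdiff.1 hl).1),
        Finset.sum_congr rfl fun v _ => if_neg (mem_sdiff.1 hl).2]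
      simp
  rw [Finset.sum_congr rfl h2, ← Finset.mul_sum, ← Finset.mul_sum, ← Finset.prod_add]
  have h4 : ∏ l ∈ S, (∑ v, U l (some v) + U l none) = ∏ l ∈ S, tot U l :=
    Finset.prod_congr rfl fun l _ => (tot_eq U l).symm
  rw [h4]
  refine mul_le_mul_of_nonneg_left ?_ (by positivity)
  refine mul_le_mul_of_nonneg_right ?_ (Finset.prod_nonneg fun l _ => ?_)
  · rw [tot_eq]
    linarith [hU i none]
  · unfold tot
    exact Finset.sum_nonneg fun δ _ => hU l δ

end Pool.Agent.H14.KN
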