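import Pool.Agent.H14.KN.CodeBasic
import Pool.Agent.H14.KN.FormSum

/-!
[H14 KN MAS] The weight of the true symbols is a large part of the formal weight.

All weights are nonnegative and `uh = vh + dh` (`uh_eq`), so `0 ≤ vh ≤ uh`. Telescoping:
(*) `∏_{l∈S} uh f l - ∏_{l∈S} vh f l ≤ ∑_{i ∈ S} dh f i * ∏_{l ∈ S \ {i}} uh f l`
(induction on `S`, or `prod_add` arguments; all factors nonnegative, `vh ≤ uh`).

`mass_lt` (`S.card + 1 ≤ w`): sum (*) over `f`. By `form_sum` the first sum is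
`q^(w-|S|) ∏ tot`. By `form_sum_d` (with `S.erase i`, `|S| - 1 + 2 ≤ w`) the error is at most
`∑_{i∈S} q^(w-|S|-1) ∏_S tot = |S| q^(w-|S|-1) ∏_S tot = q^(w-|S|) (|S|/q) ∏_S tot`.

`mass_eq`: sum (*) over `f` and over `S ⊆ I`, `|S| = w`. `form_sum` gives `esy I (tot U) w` for
the formal part. The error is at most
`E = ∑_{S} ∑_{i∈S} ∑_f dh f i * ∏_{l∈S\{i}} uh f l`.
`(w-1) E` is the sum over all triples `(S, i, j)`, `i ≠ j ∈ S`. Put `S₁ = S \ {j}` (`w-1` elements,
`i ∈ S₁`, `j ∈ I \ S₁`). So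
`(w-1) E = ∑_{S₁} ∑_{i∈S₁} ∑_f dh f i (∏_{l∈S₁\{i}} uh f l) (∑_{j∈I\S₁} uh f j)`.
The last factor is at most `∑_{j∈I} uh f j ≤ ∑_{j∈I} vh f j + ∑_{j∈I} dh f j ≤ Λ + w`: indeed
`dh f j` is nonzero only if `sym f j = none` (at most `w` planes, `inf_le`) and then
`dh f j = U j (some ..) ≤ tot U j ≤ 1`. By `form_sum_d` with `S₁.erase i`
(`w - 2 + 2 = w`): `∑_f dh f i ∏_{S₁\{i}} uh ≤ ∏_{S₁} tot`. So
`(w-1) E ≤ (Λ + w) (w-1) esy I (tot U) (w-1)`, i.e. `E ≤ (Λ+w) e_{w-1}` with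
`e_j = esy I (tot U) j`. On the other hand
`w e_w = ∑_{S₁, |S₁| = w-1} ∏_{S₁} tot * ∑_{j∈I\S₁} tot U j ≥ e_{w-1} (∑_I tot - (w-1))` since
`tot ≤ 1` on `I`. By `hb`, `2 (Λ+w) w ≤ ∑_I tot - w`, so
`2 E * w ≤ 2 (Λ+w) w e_{w-1} ≤ (∑_I tot - (w-1)) e_{w-1} ≤ w e_w`: `E ≤ e_w / 2`. Hence
`∑_f esy I (vh f) w ≥ e_w - E ≥ e_w / 2`.
-/

namespace Pool.Agent.H14.KN

open Finset

/-! ### Elementary symmetric functions (also used in `CountEq`) -/

section esy

variable {ι : Type} [DecidableEq ι]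

theorem ms_nonneg (I : Finset ι) (u : ι → ℝ) (hu : ∀ l ∈ I, 0 ≤ u l) (n : ℕ) :
    0 ≤ esy I u n := by
  unfold esy
  refine sum_nonneg fun S hS => prod_nonneg fun l hl => hu l ?_
  exact (mem_powersetCard.1 hS).1 hl

theorem ms_double (a u : ι → ℝ) (I : Finset ι) (n : ℕ) :
    ∑ S ∈ I.powersetCard (n + 1), ∑ i ∈ S, a i * ∏ l ∈ S.erase i, u l =
      ∑ i ∈ I, a i * esy (I.erase i) u n := by
  unfold esy
  simp only [mul_sum]
  rw [sum_sigma', sum_sigma']
  refine sum_bij' (fun x _ => (⟨x.2, x.1.erase x.2⟩ : (_ : ι) × Finset ι))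
    (fun x _ => (⟨insert x.1 x.2, x.1⟩ : (_ : Finset ι) × ι)) ?_ ?_ ?_ ?_ ?_
  · rintro ⟨S, i⟩ h
    rw [mem_sigma] at h ⊢
    simp only at h ⊢
    obtain ⟨h1, h2⟩ := h
    rw [mem_powersetCard] at h1
    refine ⟨h1.1 h2, ?_⟩
    rw [mem_powersetCard]
    refine ⟨erase_subset_erase _ h1.1, ?_⟩
    rw [card_erase_of_mem h2, h1.2, Nat.add_sub_cancel]
  · rintro ⟨i, T⟩ h
    rw [mem_sigma] at h ⊢
    simp only at h ⊢
    obtain ⟨h1, h2⟩ := h
    rw [mem_powersetCard] at h2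
    have h3 : i ∉ T := fun h => absurd (h2.1 h) (notMem_erase i I)
    refine ⟨?_, mem_insert_self _ _⟩
    rw [mem_powersetCard]
    refine ⟨insert_subset h1 (h2.1.trans (erase_subset _ _)), ?_⟩
    rw [card_insert_of_notMem h3, h2.2]
  · rintro ⟨S, i⟩ h
    rw [mem_sigma] at h
    simp only at h ⊢
    rw [insert_erase h.2]
  · rintro ⟨i, T⟩ h
    rw [mem_sigma] at h
    simp only at h ⊢
    rw [mem_powersetCard] at h
    have h3 : i ∉ T := fun h' => absurd (h.2.1 h') (notMem_erase i I)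
    rw [erase_insert h3]
  · rintro ⟨S, i⟩ _
    rfl

theorem ms_rec (u : ι → ℝ) (I : Finset ι) (n : ℕ) :
    ((n : ℝ) + 1) * esy I u (n + 1) = ∑ i ∈ I, u i * esy (I.erase i) u n := by
  rw [← ms_double]
  unfold esy
  rw [mul_sum]
  refine sum_congr rfl fun S hS => ?_
  rw [mem_powersetCard] at hS
  have h1 : ∀ i ∈ S, u i * ∏ l ∈ S.erase i, u l = ∏ l ∈ S, u l := fun i hi =>
    mul_prod_erase S u hi
  rw [sum_congr rfl h1, sum_const, hS.2, nsmul_eq_mul]
  push_cast
  ring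

theorem ms_erase_le (I : Finset ι) (u : ι → ℝ) (hu : ∀ l ∈ I, 0 ≤ u l) (i : ι) (n : ℕ) :
    esy (I.erase i) u n ≤ esy I u n := by
  unfold esy
  refine sum_le_sum_of_subset_of_nonneg (powersetCard_mono (erase_subset _ _)) ?_
  intro S hS _
  exact prod_nonneg fun l hl => hu l ((mem_powersetCard.1 hS).1 hl)

theorem ms_le (I : Finset ι) (u : ι → ℝ) (hu : ∀ l ∈ I, 0 ≤ u l) (n : ℕ) :
    ((n : ℝ) + 1) * esy I u (n + 1) ≤ (∑ i ∈ I, u i) * esy I u n := by
  rw [ms_rec, sum_mul]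
  exact sum_le_sum fun i hi => mul_le_mul_of_nonneg_left (ms_erase_le I u hu i n) (hu i hi)

theorem ms_split (I : Finset ι) (u : ι → ℝ) (j : ι) (hj : j ∈ I) (n : ℕ) :
    esy I u (n + 1) = esy (I.erase j) u (n + 1) + u j * esy (I.erase j) u n := by
  unfold esy
  conv_lhs => rw [← insert_erase hj]
  rw [powersetCard_succ_insert (notMem_erase j I), sum_union, mul_sum]
  · congr 1
    rw [sum_image]
    · refine sum_congr rfl fun S hS => ?_
      have h1 : j ∉ S := fun h => absurd ((mem_powersetCard.1 hS).1 h) (notMem_erase j I)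
      rw [prod_insert h1]
    · intro S hS T hT h
      have h1 : j ∉ S := fun h => absurd ((mem_powersetCard.1 hS).1 h) (notMem_erase j I)
      have h2 : j ∉ T := fun h => absurd ((mem_powersetCard.1 hT).1 h) (notMem_erase j I)
      rw [← erase_insert h1, ← erase_insert h2]
      exact congrArg (fun X => X.erase j) h
  · rw [disjoint_left]
    intro S hS hS'
    rw [mem_image] at hS'
    obtain ⟨T, _, rfl⟩ := hS'
    exact absurd ((mem_powersetCard.1 hS).1 (mem_insert_self j T)) (notMem_erase j I)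

/-- lower bound for the next elementary symmetric function -/
theorem ms_lower (I : Finset ι) (t : ι → ℝ) (h0 : ∀ l ∈ I, 0 ≤ t l) (h1 : ∀ l ∈ I, t l ≤ 1)
    (n : ℕ) : ((∑ i ∈ I, t i) - n) * esy I t n ≤ ((n : ℝ) + 1) * esy I t (n + 1) := by
  rcases Nat.eq_zero_or_pos n with hn | hn
  · subst hn
    rw [ms_rec]
    have h2 : ∀ J : Finset ι, esy J t 0 = 1 := by
      intro J
      unfold esy
      rw [powersetCard_zero, sum_singleton, prod_empty]
    rw [h2, Nat.cast_zero, sub_zero, mul_one]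
    refine le_of_eq (sum_congr rfl fun i _ => ?_)
    rw [h2, mul_one]
  · obtain ⟨n, rfl⟩ : ∃ k, n = k + 1 := ⟨n - 1, by omega⟩
    rw [ms_rec]
    have h2 : ∀ i ∈ I, t i * esy I t (n + 1) - t i * esy (I.erase i) t n ≤
        t i * esy (I.erase i) t (n + 1) := by
      intro i hi
      have h3 := ms_split I t i hi n
      have h4 : 0 ≤ esy (I.erase i) t n := ms_nonneg _ _ (fun l hl => h0 l (mem_of_mem_erase hl)) n
      have h5 : t i * (t i * esy (I.erase i) t n) ≤ t i * esy (I.erase i) t n := by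
        refine mul_le_mul_of_nonneg_left ?_ (h0 i hi)
        exact mul_le_of_le_one_left h4 (h1 i hi)
      have h6 : t i * esy I t (n + 1) = t i * esy (I.erase i) t (n + 1) +
          t i * (t i * esy (I.erase i) t n) := by rw [h3]; ring
      linarith
    have h3 := sum_le_sum h2
    rw [sum_sub_distrib, ← sum_mul, ← ms_rec] at h3
    push_cast
    have e : ((∑ i ∈ I, t i) - ((n : ℝ) + 1)) * esy I t (n + 1) =
      (∑ i ∈ I, t i) * esy I t (n + 1) - ((n : ℝ) + 1) * esy I t (n + 1) := by ring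
    rw [e]
    exact h3

/-- telescoping -/
theorem ms_tele (S : Finset ι) (u v d : ι → ℝ) (hv : ∀ l, 0 ≤ v l) (hd : ∀ l, 0 ≤ d l)
    (huv : ∀ l, u l = v l + d l) :
    ∏ l ∈ S, u l - ∏ l ∈ S, v l ≤ ∑ i ∈ S, d i * ∏ l ∈ S.erase i, u l := by
  have hu : ∀ l, 0 ≤ u l := fun l => by rw [huv]; exact add_nonneg (hv l) (hd l)
  induction S using Finset.induction_on with
  | empty => simp
  | insert a S ha ih =>
    rw [prod_insert ha, prod_insert ha, sum_insert ha, erase_insert ha]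
    have h1 : ∑ i ∈ S, d i * ∏ l ∈ (insert a S).erase i, u l =
        u a * ∑ i ∈ S, d i * ∏ l ∈ S.erase i, u l := by
      rw [mul_sum]
      refine sum_congr rfl fun i hi => ?_
      have h2 : (insert a S).erase i = insert a (S.erase i) := by
        rw [erase_insert_of_ne]
        rintro rfl
        exact ha hi
      rw [h2, prod_insert (fun h => ha (mem_of_mem_erase h))]
      ring
    rw [h1]
    have h3 : 0 ≤ ∑ i ∈ S, d i * ∏ l ∈ S.erase i, u l :=
      sum_nonneg fun i _ => mul_nonneg (hd i) (prod_nonneg fun l _ => hu l)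
    have h4 : v a * (∏ l ∈ S, u l - ∏ l ∈ S, v l) ≤
        v a * ∑ i ∈ S, d i * ∏ l ∈ S.erase i, u l := mul_le_mul_of_nonneg_left ih (hv a)
    have h5 : v a * ∑ i ∈ S, d i * ∏ l ∈ S.erase i, u l ≤
        u a * ∑ i ∈ S, d i * ∏ l ∈ S.erase i, u l :=
      mul_le_mul_of_nonneg_right (by rw [huv]; linarith [hd a]) h3
    have h6 : u a * ∏ l ∈ S, u l - v a * ∏ l ∈ S, v l =
        d a * ∏ l ∈ S, u l + v a * (∏ l ∈ S, u l - ∏ l ∈ S, v l) := by
      rw [huv a]
      ring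
    rw [h6]
    linarith

end esy

variable {q w m : ℕ} [Fact q.Prime]

theorem ms_vh0 (α β : Fin m → ZMod q) (U : Fin m → Option (ZMod q) → ℝ)
    (hU : ∀ l δ, 0 ≤ U l δ) (f : Fin w → ZMod q) (l : Fin m) : 0 ≤ vh α β U f l := hU _ _

theorem ms_dh0 (α β : Fin m → ZMod q) (U : Fin m → Option (ZMod q) → ℝ)
    (hU : ∀ l δ, 0 ≤ U l δ) (f : Fin w → ZMod q) (l : Fin m) : 0 ≤ dh α β U f l := by
  unfold dh
  split
  · exact hU _ _
  · exact le_rfl

theorem ms_uh0 (α β : Fin m → ZMod q) (U : Fin m → Option (ZMod q) → ℝ)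
    (hU : ∀ l δ, 0 ≤ U l δ) (f : Fin w → ZMod q) (l : Fin m) : 0 ≤ uh α β U f l := by
  rw [uh_eq]
  exact add_nonneg (ms_vh0 α β U hU f l) (ms_dh0 α β U hU f l)

theorem ms_tot0 (U : Fin m → Option (ZMod q) → ℝ) (hU : ∀ l δ, 0 ≤ U l δ) (l : Fin m) :
    0 ≤ tot U l := sum_nonneg fun δ _ => hU l δ

theorem mass_lt (α β : Fin m → ZMod q) (hinj : Function.Injective (Sum.elim α β))
    (U : Fin m → Option (ZMod q) → ℝ) (hU : ∀ l δ, 0 ≤ U l δ)
    (S : Finset (Fin m)) (hS : S.card + 1 ≤ w) :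
    (q : ℝ) ^ (w - S.card) * (1 - (S.card : ℝ) / q) * ∏ l ∈ S, tot U l ≤
      ∑ f : Fin w → ZMod q, ∏ l ∈ S, vh α β U f l := by
  have hq : (0 : ℝ) < q := by exact_mod_cast (Fact.out : q.Prime).pos
  have h1 : ∀ f : Fin w → ZMod q, ∏ l ∈ S, uh α β U f l - ∏ l ∈ S, vh α β U f l ≤
      ∑ i ∈ S, dh α β U f i * ∏ l ∈ S.erase i, uh α β U f l := fun f =>
    ms_tele S _ _ _ (ms_vh0 α β U hU f) (ms_dh0 α β U hU f) (uh_eq α β U f)
  have h2 := sum_le_sum fun f (_ : f ∈ (univ : Finset (Fin w → ZMod q))) => h1 f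
  rw [sum_sub_distrib, form_sum α β hinj U S (by omega), sum_comm] at h2
  have h3 : ∀ i ∈ S, ∑ f : Fin w → ZMod q, dh α β U f i * ∏ l ∈ S.erase i, uh α β U f l ≤
      (q : ℝ) ^ (w - (S.card + 1)) * ∏ l ∈ S, tot U l := by
    intro i hi
    have hc : (S.erase i).card + 1 = S.card := card_erase_add_one hi
    have h4 := form_sum_d (w := w) α β hinj U hU i (S.erase i) (notMem_erase i S) (by omega)
    rw [mul_prod_erase S (tot U) hi] at h4
    have e : (S.erase i).card + 2 = S.card + 1 := by omega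
    rw [e] at h4
    exact h4
  have h5 := sum_le_sum h3
  rw [sum_const, nsmul_eq_mul] at h5
  have e1 : (q : ℝ) ^ (w - S.card) = (q : ℝ) ^ (w - (S.card + 1)) * q := by
    rw [← pow_succ]
    congr 1
    omega
  have e2 : (q : ℝ) ^ (w - S.card) * (1 - (S.card : ℝ) / q) * ∏ l ∈ S, tot U l =
      (q : ℝ) ^ (w - S.card) * ∏ l ∈ S, tot U l -
        (S.card : ℝ) * ((q : ℝ) ^ (w - (S.card + 1)) * ∏ l ∈ S, tot U l) := by
    rw [e1]
    field_simp
  rw [e2]
  linarith

/-- the error term of `mass_eq` -/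
theorem ms_err (α β : Fin m → ZMod q) (hinj : Function.Injective (Sum.elim α β))
    (U : Fin m → Option (ZMod q) → ℝ) (hU : ∀ l δ, 0 ≤ U l δ) (n : ℕ) (hw : w = n + 2)
    (I : Finset (Fin m)) (c : ℝ)
    (hc : ∀ f : Fin w → ZMod q, ∑ l ∈ I, uh α β U f l ≤ c) :
    ∑ f : Fin w → ZMod q, ∑ i ∈ I, dh α β U f i * esy (I.erase i) (uh α β U f) (n + 1) ≤
      c * esy I (tot U) (n + 1) := by
  have hn : (0 : ℝ) < (n : ℝ) + 1 := by positivity
  have h1 : ∀ (f : Fin w → ZMod q), ∀ i ∈ I,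
      ((n : ℝ) + 1) * (dh α β U f i * esy (I.erase i) (uh α β U f) (n + 1)) ≤
        c * (dh α β U f i * esy (I.erase i) (uh α β U f) n) := by
    intro f i _
    have h2 := ms_le (I.erase i) (uh α β U f) (fun l _ => ms_uh0 α β U hU f l) n
    have h3 : ∑ l ∈ I.erase i, uh α β U f l ≤ c := (sum_le_sum_of_subset_of_nonneg
      (erase_subset _ _) fun l _ _ => ms_uh0 α β U hU f l).trans (hc f)
    have h4 : 0 ≤ esy (I.erase i) (uh α β U f) n :=
      ms_nonneg _ _ (fun l _ => ms_uh0 α β U hU f l) n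
    have h5 := h2.trans (mul_le_mul_of_nonneg_right h3 h4)
    have h6 := mul_le_mul_of_nonneg_left h5 (ms_dh0 α β U hU f i)
    calc ((n : ℝ) + 1) * (dh α β U f i * esy (I.erase i) (uh α β U f) (n + 1))
        = dh α β U f i * (((n : ℝ) + 1) * esy (I.erase i) (uh α β U f) (n + 1)) := by ring
      _ ≤ dh α β U f i * (c * esy (I.erase i) (uh α β U f) n) := h6
      _ = c * (dh α β U f i * esy (I.erase i) (uh α β U f) n) := by ring
  have h2 : ∀ i ∈ I, ∑ f : Fin w → ZMod q, dh α β U f i * esy (I.erase i) (uh α β U f) n ≤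
      tot U i * esy (I.erase i) (tot U) n := by
    intro i _
    unfold esy
    simp only [mul_sum]
    rw [sum_comm]
    refine sum_le_sum fun T hT => ?_
    rw [mem_powersetCard] at hT
    have h3 := form_sum_d (w := w) α β hinj U hU i T (fun h => absurd (hT.1 h) (notMem_erase i I))
      (by omega)
    have e : w - (T.card + 2) = 0 := by omega
    rw [e, pow_zero, one_mul] at h3
    exact h3
  by_cases hc0 : 0 ≤ c
  · have h3 : ((n : ℝ) + 1) * ∑ f : Fin w → ZMod q, ∑ i ∈ I,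
        dh α β U f i * esy (I.erase i) (uh α β U f) (n + 1) ≤
        ((n : ℝ) + 1) * (c * esy I (tot U) (n + 1)) := by
      calc ((n : ℝ) + 1) * ∑ f : Fin w → ZMod q, ∑ i ∈ I,
            dh α β U f i * esy (I.erase i) (uh α β U f) (n + 1)
          = ∑ f : Fin w → ZMod q, ∑ i ∈ I,
              ((n : ℝ) + 1) * (dh α β U f i * esy (I.erase i) (uh α β U f) (n + 1)) := by
            simp only [mul_sum]
        _ ≤ ∑ f : Fin w → ZMod q, ∑ i ∈ I, c * (dh α β U f i * esy (I.erase i) (uh α β U f) n) :=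
            sum_le_sum fun f _ => sum_le_sum fun i hi => h1 f i hi
        _ = c * ∑ i ∈ I, ∑ f : Fin w → ZMod q,
              dh α β U f i * esy (I.erase i) (uh α β U f) n := by
            rw [sum_comm]
            simp only [mul_sum]
        _ ≤ c * ∑ i ∈ I, tot U i * esy (I.erase i) (tot U) n :=
            mul_le_mul_of_nonneg_left (sum_le_sum h2) hc0
        _ = ((n : ℝ) + 1) * (c * esy I (tot U) (n + 1)) := by
            rw [← ms_rec]
            ring
    exact le_of_mul_le_mul_left h3 hn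
  · exfalso
    have h3 := hc (fun _ => 0)
    have h4 : 0 ≤ ∑ l ∈ I, uh α β U (fun _ => 0 : Fin w → ZMod q) l :=
      sum_nonneg fun l _ => ms_uh0 α β U hU _ l
    linarith

theorem mass_eq (α β : Fin m → ZMod q) (hinj : Function.Injective (Sum.elim α β))
    (U : Fin m → Option (ZMod q) → ℝ) (hU : ∀ l δ, 0 ≤ U l δ) (hw : 2 ≤ w)
    (I : Finset (Fin m)) (hU1 : ∀ l ∈ I, tot U l ≤ 1) (Λ : ℝ) (hΛ0 : 0 ≤ Λ)
    (hΛ : ∀ f : Fin w → ZMod q, ∑ l ∈ I, vh α β U f l ≤ Λ)
    (hb : 2 * (Λ + w) * w + w ≤ ∑ l ∈ I, tot U l) :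
    esy I (tot U) w ≤ 2 * ∑ f : Fin w → ZMod q, esy I (vh α β U f) w := by
  obtain ⟨n, hn⟩ : ∃ n, w = n + 2 := ⟨w - 2, by omega⟩
  have hc : ∀ f : Fin w → ZMod q, ∑ l ∈ I, uh α β U f l ≤ Λ + w := by
    intro f
    have h1 : ∑ l ∈ I, dh α β U f l ≤ w := by
      have h2 : ∀ l ∈ I, dh α β U f l ≤ if sym α β f l = none then 1 else 0 := by
        intro l hl
        unfold dh sym
        by_cases h : pe f (β l) = β l ^ w
        · rw [if_pos h, if_pos h, if_pos rfl]
          refine le_trans ?_ (hU1 l hl)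
          exact single_le_sum (fun δ _ => hU l δ) (mem_univ _)
        · rw [if_neg h, if_neg h, if_neg (by simp)]
      refine (sum_le_sum h2).trans ?_
      rw [sum_boole]
      have h3 := inf_le α β hinj f
      have h4 : (I.filter (fun l => sym α β f l = none)).card ≤
          (univ.filter (fun l => sym α β f l = none)).card :=
        card_le_card (filter_subset_filter _ (subset_univ _))
      exact_mod_cast h4.trans h3
    have h2 : ∑ l ∈ I, uh α β U f l = ∑ l ∈ I, vh α β U f l + ∑ l ∈ I, dh α β U f l := by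
      rw [← sum_add_distrib]
      exact sum_congr rfl fun l _ => uh_eq α β U f l
    rw [h2]
    exact add_le_add (hΛ f) h1
  have herr := ms_err α β hinj U hU n hn I (Λ + w) hc
  have h1 : ∑ f : Fin w → ZMod q, esy I (uh α β U f) w = esy I (tot U) w := by
    unfold esy
    rw [sum_comm]
    refine sum_congr rfl fun S hS => ?_
    rw [mem_powersetCard] at hS
    rw [form_sum α β hinj U S hS.2.le, hS.2, Nat.sub_self, pow_zero, one_mul]
  have h2 : ∀ f : Fin w → ZMod q, esy I (uh α β U f) w - esy I (vh α β U f) w ≤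
      ∑ i ∈ I, dh α β U f i * esy (I.erase i) (uh α β U f) (n + 1) := by
    intro f
    rw [← ms_double]
    have e : w = n + 1 + 1 := by omega
    unfold esy
    rw [← sum_sub_distrib, ← e]
    exact sum_le_sum fun S _ => ms_tele S _ _ _ (ms_vh0 α β U hU f) (ms_dh0 α β U hU f)
      (uh_eq α β U f)
  have h3 := sum_le_sum fun f (_ : f ∈ (univ : Finset (Fin w → ZMod q))) => h2 f
  rw [sum_sub_distrib, h1] at h3
  have h4 := ms_lower I (tot U) (fun l _ => ms_tot0 U hU l) hU1 (n + 1)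
  have e : n + 1 + 1 = w := by omega
  rw [e] at h4
  have hwr : (w : ℝ) = (n : ℝ) + 2 := by rw [hn]; push_cast; ring
  have h5 : 0 ≤ esy I (tot U) (n + 1) := ms_nonneg _ _ (fun l _ => ms_tot0 U hU l) _
  have h6 : 2 * (Λ + w) * w * esy I (tot U) (n + 1) ≤ w * esy I (tot U) w := by
    have h7 : 2 * (Λ + w) * w ≤ (∑ l ∈ I, tot U l) - ((n + 1 : ℕ) : ℝ) := by
      push_cast
      linarith
    have h8 := (mul_le_mul_of_nonneg_right h7 h5).trans h4
    have h9 : (((n + 1 : ℕ) : ℝ) + 1) = w := by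
      push_cast
      linarith
    rw [h9] at h8
    exact h8
  have hw0 : (0 : ℝ) < w := by
    have : 0 < w := by omega
    exact_mod_cast this
  have h7 : 2 * ((Λ + w) * esy I (tot U) (n + 1)) ≤ esy I (tot U) w := by
    have h8 : w * (2 * ((Λ + w) * esy I (tot U) (n + 1))) ≤ w * esy I (tot U) w := by
      refine le_trans (le_of_eq ?_) h6
      ring
    exact le_of_mul_le_mul_left h8 hw0
  linarith

end Pool.Agent.H14.KN
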