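import Pool.Agent.H14.KN.Defs

/-!
[H14 KN COL] Random words have few coincidences. Mathlib only.

Call `(c, l)` with `c ∈ J` a repeat of `z` if some `c' ∈ J`, `c' < c`, has `z c' l = z c l`. For
fixed `l` the elements of `J` that are not repeats are the first occurrences of the values, so
their number is `(J.image (fun c => z c l)).card`, and `coll z J` is the number of repeats. If
`k ≤ coll z J` there is a `k`-subset `R` of `J ×ˢ univ` consisting of repeats. So the set in
question is contained in the union over the `(J.card * m).choose k` sets `R` of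
`D_R = {z | all elements of R are repeats of z}`. For `z ∈ D_R` and `(c, l) ∈ R` let
`φ z (c,l) ∈ J` be such that `φ < c` and `z (φ) l = z c l`. The map
`z ↦ (values of z outside R, φ z)` is injective on `D_R`: if two words `z, z'` have the same
image then `z c l = z' c l` for all `c, l`, by strong induction on `c` (for `(c,l) ∈ R`:
`z c l = z (φ) l = z' (φ) l = z' c l`). So `|D_R| ≤ q^(κ m - k) * |J|^k` (functions
`Rᶜ → ZMod q` and functions `R → J`), and `q^k * |D_R| ≤ |J|^k * q^(κ m)` (`k = |R| ≤ κ m`).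
-/

namespace Pool.Agent.H14.KN

open Finset

private theorem card_D {κ m q : ℕ} [Fact q.Prime] (J : Finset (Fin κ))
    (R : Finset (Fin κ × Fin m)) :
    q ^ R.card * (univ.filter (fun z : Fin κ → Fin m → ZMod q =>
      ∀ p ∈ R, ∃ c ∈ J, c < p.1 ∧ z c p.2 = z p.1 p.2)).card ≤
      J.card ^ R.card * q ^ (κ * m) := by
  classical
  set D := univ.filter (fun z : Fin κ → Fin m → ZMod q =>
      ∀ p ∈ R, ∃ c ∈ J, c < p.1 ∧ z c p.2 = z p.1 p.2) with hD
  have hch : ∀ z : {z // z ∈ D}, ∀ p : {p // p ∈ R}, ∃ c : {c // c ∈ J},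
      (c : Fin κ) < p.1.1 ∧ z.1 c p.1.2 = z.1 p.1.1 p.1.2 := by
    intro z p
    obtain ⟨c, hc, h⟩ := (mem_filter.1 z.2).2 p.1 p.2
    exact ⟨⟨c, hc⟩, h⟩
  choose φ hφ using hch
  let Φ : {z // z ∈ D} → ({p : Fin κ × Fin m // ¬ p ∈ R} → ZMod q) ×
      ({p // p ∈ R} → {c // c ∈ J}) :=
    fun z => (fun p => z.1 p.1.1 p.1.2, φ z)
  have hinj : Function.Injective Φ := by
    intro z z' h
    have h1 : ∀ p : {p : Fin κ × Fin m // ¬ p ∈ R}, z.1 p.1.1 p.1.2 = z'.1 p.1.1 p.1.2 :=
      fun p => congrFun (congrArg Prod.fst h) p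
    have h2 : φ z = φ z' := congrArg Prod.snd h
    have h3 : ∀ n : ℕ, ∀ c : Fin κ, c.val = n → ∀ l, z.1 c l = z'.1 c l := by
      intro n
      induction n using Nat.strong_induction_on with
      | _ n ih =>
        intro c hc l
        by_cases hR : (c, l) ∈ R
        · have h4 := hφ z ⟨(c, l), hR⟩
          have h5 := hφ z' ⟨(c, l), hR⟩
          rw [← h2] at h5
          have h7 : ((φ z ⟨(c, l), hR⟩ : Fin κ) : ℕ) < n := by
            rw [← hc]
            exact h4.1
          have h6 := ih _ h7 (φ z ⟨(c, l), hR⟩ : Fin κ) rfl l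
          exact h4.2.symm.trans (h6.trans h5.2)
        · exact h1 ⟨(c, l), hR⟩
    apply Subtype.ext
    funext c l
    exact h3 _ c rfl l
  have hcard := Fintype.card_le_of_injective Φ hinj
  have hRc : Fintype.card {p : Fin κ × Fin m // ¬ p ∈ R} + R.card = κ * m := by
    have h1 := Fintype.card_subtype_compl (fun p : Fin κ × Fin m => p ∈ R)
    have h2 : Fintype.card {p : Fin κ × Fin m // p ∈ R} = R.card := Fintype.card_coe R
    have h3 : R.card ≤ κ * m := by
      have := card_le_univ R
      rwa [Fintype.card_prod, Fintype.card_fin, Fintype.card_fin] at this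
    rw [h1, h2, Fintype.card_prod, Fintype.card_fin, Fintype.card_fin]
    omega
  rw [Fintype.card_coe, Fintype.card_prod, Fintype.card_fun, Fintype.card_fun, ZMod.card,
    Fintype.card_coe, Fintype.card_coe] at hcard
  calc q ^ R.card * D.card
      ≤ q ^ R.card * (q ^ Fintype.card {p : Fin κ × Fin m // ¬ p ∈ R} * J.card ^ R.card) :=
        Nat.mul_le_mul_left _ hcard
    _ = J.card ^ R.card * (q ^ Fintype.card {p : Fin κ × Fin m // ¬ p ∈ R} * q ^ R.card) := by
        ring
    _ = J.card ^ R.card * q ^ (κ * m) := by rw [← pow_add, hRc]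

private theorem coll_le {κ m q : ℕ} (J : Finset (Fin κ)) (z : Fin κ → Fin m → ZMod q) :
    coll z J ≤ ((J ×ˢ (univ : Finset (Fin m))).filter (fun p : Fin κ × Fin m =>
      ∃ c ∈ J, c < p.1 ∧ z c p.2 = z p.1 p.2)).card := by
  classical
  have h1 : ((J ×ˢ (univ : Finset (Fin m))).filter (fun p : Fin κ × Fin m =>
      ∃ c ∈ J, c < p.1 ∧ z c p.2 = z p.1 p.2)).card =
      ∑ l : Fin m, (J.filter (fun c₀ => ∃ c ∈ J, c < c₀ ∧ z c l = z c₀ l)).card := by
    rw [Finset.card_filter, Finset.sum_product_right]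
    refine Finset.sum_congr rfl fun l _ => ?_
    rw [Finset.card_filter]
  rw [h1]
  unfold coll
  refine Finset.sum_le_sum fun l _ => ?_
  set N := J.filter (fun c₀ => ¬ ∃ c ∈ J, c < c₀ ∧ z c l = z c₀ l) with hN
  have h2 : (J.filter (fun c₀ => ∃ c ∈ J, c < c₀ ∧ z c l = z c₀ l)).card + N.card = J.card :=
    card_filter_add_card_filter_not _
  have h3 : N.card ≤ (J.image (fun c => z c l)).card := by
    refine Finset.card_le_card_of_injOn (fun c => z c l)
      (fun c hc => mem_image_of_mem _ (mem_filter.1 hc).1) ?_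
    intro c hc c' hc' h
    have hc1 := mem_filter.1 (Finset.mem_coe.1 hc)
    have hc2 := mem_filter.1 (Finset.mem_coe.1 hc')
    rcases lt_trichotomy c c' with h4 | h4 | h4
    · exact absurd ⟨c, hc1.1, h4, h⟩ hc2.2
    · exact h4
    · exact absurd ⟨c', hc2.1, h4, h.symm⟩ hc1.2
  omega

theorem coll_count {κ m q : ℕ} [Fact q.Prime] (J : Finset (Fin κ)) (k : ℕ) :
    q ^ k * (univ.filter (fun z : Fin κ → Fin m → ZMod q => k ≤ coll z J)).card ≤
      (J.card * m).choose k * J.card ^ k * q ^ (κ * m) := by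
  classical
  set D : Finset (Fin κ × Fin m) → Finset (Fin κ → Fin m → ZMod q) := fun R =>
    univ.filter (fun z => ∀ p ∈ R, ∃ c ∈ J, c < p.1 ∧ z c p.2 = z p.1 p.2) with hD
  have hsub : univ.filter (fun z : Fin κ → Fin m → ZMod q => k ≤ coll z J) ⊆
      ((J ×ˢ (univ : Finset (Fin m))).powersetCard k).biUnion D := by
    intro z hz
    have h1 : k ≤ coll z J := (mem_filter.1 hz).2
    obtain ⟨R, hR, hRc⟩ := Finset.exists_subset_card_eq (h1.trans (coll_le J z))
    rw [mem_biUnion]
    refine ⟨R, mem_powersetCard.2 ⟨hR.trans (filter_subset _ _), hRc⟩, ?_⟩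
    exact mem_filter.2 ⟨mem_univ _, fun p hp => (mem_filter.1 (hR hp)).2⟩
  calc q ^ k * (univ.filter (fun z : Fin κ → Fin m → ZMod q => k ≤ coll z J)).card
      ≤ q ^ k * ∑ R ∈ (J ×ˢ (univ : Finset (Fin m))).powersetCard k, (D R).card :=
        Nat.mul_le_mul_left _ ((card_le_card hsub).trans card_biUnion_le)
    _ = ∑ R ∈ (J ×ˢ (univ : Finset (Fin m))).powersetCard k, q ^ k * (D R).card := by
        rw [Finset.mul_sum]
    _ ≤ ∑ R ∈ (J ×ˢ (univ : Finset (Fin m))).powersetCard k, J.card ^ k * q ^ (κ * m) := by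
        refine Finset.sum_le_sum fun R hR => ?_
        have h2 := card_D (q := q) J R
        rw [(mem_powersetCard.1 hR).2] at h2
        exact h2
    _ = (J.card * m).choose k * J.card ^ k * q ^ (κ * m) := by
        rw [Finset.sum_const, card_powersetCard, card_product, card_univ, Fintype.card_fin,
          smul_eq_mul]
        ring

end Pool.Agent.H14.KN
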