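import Pool.Agent.H14.KN.Defs

/-!
[H14 KN KNE] Maximal intersecting families: upper bound from `PF`, trivial bound, lower bound.
Mathlib only. (The files `Pool/Agent/H31/Kn/K21Lower.lean` and the result file
`Pool/Agent/Results/MP_3036ab_co/OrderNearHalf.lean` contain very similar proofs.)

Existence: every `F₀` with `IsInt n k F₀` is contained in a `Maximal (IsInt n k)` family (there
are finitely many families; `Set.Finite.exists_le_maximal` or
`Finite.exists_le_maximal`). In particular (`F₀ = ∅`) the set in the definition of `minMaximal`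
is nonempty.

`minMaximal_le`: `F` from `PF (Fin n) k N` is a set of finsets of `Fin n`, hence finite; let `F₀`
be the corresponding finset. `IsInt n k F₀` holds (`Meets A B` gives `(A ∩ B).Nonempty`). Let
`G ⊇ F₀` be maximal. Every `A ∈ G` has `k` elements and meets all members of `F₀`, so `A ∈ K`.
So `G ⊆ K`, `G.card ≤ N`, and `minMaximal n k ≤ G.card` by `Nat.sInf_le`.

`minMaximal_le_two_pow`: `G ⊆ univ`, `(univ : Finset (Finset (Fin n))).card = 2 ^ n`.

`lower`: let `F` be maximal with `F.card = minMaximal n k` (`Nat.sInf_mem`). Every `k`-set `B`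
lies in `F` or is disjoint from a member of `F`: if `B ∉ F` and `B` meets all members then
`insert B F` satisfies `IsInt` (`B ∩ B = B` nonempty as `k ≥ 1`) and contradicts maximality. For
`A ∈ F` the number of `k`-sets disjoint from `A` is `(n-k).choose k`. So
`n.choose k ≤ F.card + F.card * (n-k).choose k ≤ 2 * F.card * (n-k).choose k` as
`(n-k).choose k ≥ 1`.
Next `n.choose k / (n-k).choose k = ∏_{i<k} (n-i)/(n-k-i)` (descending factorials:
`Nat.descFactorial`), and `(n-i)/(n-k-i) ≥ n/(n-k) ≥ exp (k/n)` (the last one: `1 - x ≤ exp (-x)`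
with `x = k/n < 1`). For `n = k = ..` note `2k ≤ n`, so `n - k ≥ k > 0` and `n-k-i > 0`.
So `exp (k^2/n) = exp(k/n)^k ≤ 2 * F.card`, and taking logarithms gives the claim.
-/

namespace Pool.Agent.H14.KN

open Finset

/-- Intersecting families of `k`-subsets of `Fin n`. -/
def IsInt (n k : ℕ) (F : Finset (Finset (Fin n))) : Prop :=
  (∀ A ∈ F, A.card = k) ∧ ∀ A ∈ F, ∀ B ∈ F, (A ∩ B).Nonempty

/-- `i(n,k)`: the smallest size of an inclusion-maximal intersecting family of `k`-subsets of an
`n`-element set. -/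
noncomputable def minMaximal (n k : ℕ) : ℕ :=
  sInf {t : ℕ | ∃ F : Finset (Finset (Fin n)), Maximal (IsInt n k) F ∧ F.card = t}

private theorem exists_max {n k : ℕ} {F₀ : Finset (Finset (Fin n))} (h0 : IsInt n k F₀) :
    ∃ F : Finset (Finset (Fin n)), F₀ ⊆ F ∧ Maximal (IsInt n k) F := by
  obtain ⟨F, h1, hF⟩ := (Set.toFinite {F : Finset (Finset (Fin n)) | IsInt n k F}).exists_le_maximal
    (a := F₀) h0
  exact ⟨F, h1, hF⟩

private theorem isInt_empty (n k : ℕ) : IsInt n k ∅ := by
  constructor
  · intro A hA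
    simp at hA
  · intro A hA
    simp at hA

private theorem exists_eq (n k : ℕ) :
    ∃ F : Finset (Finset (Fin n)), Maximal (IsInt n k) F ∧ F.card = minMaximal n k := by
  obtain ⟨F, -, hF⟩ := exists_max (isInt_empty n k)
  have hne : {m : ℕ | ∃ F : Finset (Finset (Fin n)),
      Maximal (IsInt n k) F ∧ F.card = m}.Nonempty := ⟨F.card, F, hF, rfl⟩
  exact Nat.sInf_mem hne

theorem minMaximal_le {n k N : ℕ} (h : PF (Fin n) k N) : minMaximal n k ≤ N := by
  classical
  obtain ⟨F, hk, hm, -, K, hK, hmem⟩ := h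
  have hfin : F.Finite := Set.toFinite F
  have h0 : IsInt n k hfin.toFinset := by
    constructor
    · intro A hA
      exact hk A (hfin.mem_toFinset.1 hA)
    · intro A hA B hB
      obtain ⟨x, hxA, hxB⟩ := hm A (hfin.mem_toFinset.1 hA) B (hfin.mem_toFinset.1 hB)
      exact ⟨x, mem_inter.2 ⟨hxA, hxB⟩⟩
  obtain ⟨G, hle, hG⟩ := exists_max h0
  have h1 : minMaximal n k ≤ G.card := Nat.sInf_le ⟨G, hG, rfl⟩
  have h2 : G ⊆ K := by
    intro A hA
    refine hmem A (hG.prop.1 A hA) ?_
    intro B hB
    obtain ⟨x, hx⟩ := hG.prop.2 A hA B (hle (hfin.mem_toFinset.2 hB))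
    exact ⟨x, (mem_inter.1 hx).1, (mem_inter.1 hx).2⟩
  exact h1.trans ((card_le_card h2).trans hK)

theorem minMaximal_le_two_pow (n k : ℕ) : minMaximal n k ≤ 2 ^ n := by
  obtain ⟨F, -, hF⟩ := exists_eq n k
  rw [← hF]
  have h1 := card_le_univ F
  rwa [Fintype.card_finset, Fintype.card_fin] at h1

private theorem count (n k : ℕ) (hk : 1 ≤ k) (F : Finset (Finset (Fin n)))
    (hF : Maximal (IsInt n k) F) : n.choose k ≤ F.card * (1 + (n - k).choose k) := by
  have hsub : (univ : Finset (Fin n)).powersetCard k ⊆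
      F ∪ F.biUnion (fun B => (univ \ B).powersetCard k) := by
    intro A hA
    rw [mem_powersetCard] at hA
    by_cases hAF : A ∈ F
    · exact mem_union_left _ hAF
    · apply mem_union_right
      by_contra hcon
      apply hAF
      have hint : IsInt n k (insert A F) := by
        constructor
        · intro B hB
          rcases mem_insert.1 hB with h | h
          · rw [h]; exact hA.2
          · exact hF.prop.1 B h
        · have key : ∀ B ∈ F, (A ∩ B).Nonempty := by
            intro B hB
            by_contra hne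
            apply hcon
            rw [mem_biUnion]
            refine ⟨B, hB, ?_⟩
            rw [mem_powersetCard]
            refine ⟨?_, hA.2⟩
            intro x hx
            rw [mem_sdiff]
            refine ⟨mem_univ _, fun hxB => hne ⟨x, mem_inter.2 ⟨hx, hxB⟩⟩⟩
          intro B hB C hC
          rcases mem_insert.1 hB with h | h
          · rcases mem_insert.1 hC with h' | h'
            · rw [h, h', inter_self, ← card_pos, hA.2]
              exact hk
            · rw [h]; exact key C h'
          · rcases mem_insert.1 hC with h' | h'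
            · rw [h', inter_comm]; exact key B h
            · exact hF.prop.2 B h C h'
      have hle : insert A F ≤ F := hF.le_of_ge hint (subset_insert A F)
      exact hle (mem_insert_self A F)
  have h1 := card_le_card hsub
  rw [card_powersetCard, card_univ, Fintype.card_fin] at h1
  refine le_trans h1 (le_trans (card_union_le _ _) ?_)
  have h2 : (F.biUnion (fun B => (univ \ B).powersetCard k)).card ≤
      F.card * (n - k).choose k := by
    apply card_biUnion_le_card_mul
    intro B hB
    rw [card_powersetCard, card_sdiff_of_subset (subset_univ _), card_univ, Fintype.card_fin,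
      hF.prop.1 B hB]
  calc F.card + (F.biUnion (fun B => (univ \ B).powersetCard k)).card
      ≤ F.card + F.card * (n - k).choose k := by omega
    _ = F.card * (1 + (n - k).choose k) := by ring

private theorem desc (n k : ℕ) (hk : 1 ≤ k) (hn : 2 * k ≤ n) : ∀ j ≤ k,
    Real.exp ((k : ℝ) / n) ^ j * ((n - k).descFactorial j : ℝ) ≤ (n.descFactorial j : ℝ) := by
  have hn0 : (0 : ℝ) < n := by
    have : 0 < n := by omega
    exact_mod_cast this
  intro j
  induction j with
  | zero => intro _; simp
  | succ j ih =>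
    intro hj
    have ih' := ih (by omega)
    rw [Nat.descFactorial_succ, Nat.descFactorial_succ]
    push_cast
    have e1 : ((n - k - j : ℕ) : ℝ) = (n : ℝ) - k - j := by
      rw [Nat.cast_sub (by omega), Nat.cast_sub (by omega)]
    have e2 : ((n - j : ℕ) : ℝ) = (n : ℝ) - j := by
      rw [Nat.cast_sub (by omega)]
    rw [e1, e2]
    have hj0 : (0 : ℝ) ≤ (n : ℝ) - j := by
      rw [← e2]
      positivity
    have h1 : 1 - (k : ℝ) / n ≤ Real.exp (-((k : ℝ) / n)) := by
      have := Real.add_one_le_exp (-((k : ℝ) / n))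
      linarith
    have h2 : ((n : ℝ) - k - j) ≤ ((n : ℝ) - j) * Real.exp (-((k : ℝ) / n)) := by
      have h3 := mul_le_mul_of_nonneg_left h1 hj0
      have h4 : ((n : ℝ) - j) * (1 - (k : ℝ) / n) = (n : ℝ) - k - j + j * ((k : ℝ) / n) := by
        field_simp
        ring
      have h5 : (0 : ℝ) ≤ j * ((k : ℝ) / n) := by positivity
      linarith
    have h6 : Real.exp ((k : ℝ) / n) * ((n : ℝ) - k - j) ≤ (n : ℝ) - j := by
      have h7 := mul_le_mul_of_nonneg_left h2 (Real.exp_pos ((k : ℝ) / n)).le
      have h8 : Real.exp ((k : ℝ) / n) * (((n : ℝ) - j) * Real.exp (-((k : ℝ) / n))) =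
          (n : ℝ) - j := by
        rw [mul_comm ((n : ℝ) - j), ← mul_assoc, ← Real.exp_add, add_neg_cancel, Real.exp_zero,
          one_mul]
      linarith
    calc Real.exp ((k : ℝ) / n) ^ (j + 1) *
          (((n : ℝ) - k - j) * ((n - k).descFactorial j : ℝ)) =
        (Real.exp ((k : ℝ) / n) * ((n : ℝ) - k - j)) *
          (Real.exp ((k : ℝ) / n) ^ j * ((n - k).descFactorial j : ℝ)) := by ring
      _ ≤ ((n : ℝ) - j) *
          (Real.exp ((k : ℝ) / n) ^ j * ((n - k).descFactorial j : ℝ)) :=
        mul_le_mul_of_nonneg_right h6 (by positivity)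
      _ ≤ ((n : ℝ) - j) * (n.descFactorial j : ℝ) := mul_le_mul_of_nonneg_left ih' hj0

theorem lower (n k : ℕ) (hk : 1 ≤ k) (hn : 2 * k ≤ n) :
    (k : ℝ) ^ 2 / n - Real.log 2 ≤ Real.log (minMaximal n k) := by
  obtain ⟨F, hF, hFc⟩ := exists_eq n k
  have h1 := count n k hk F hF
  rw [hFc] at h1
  have h2 : 1 ≤ (n - k).choose k := Nat.choose_pos (by omega)
  have h3 : n.choose k ≤ minMaximal n k * (2 * (n - k).choose k) :=
    h1.trans (Nat.mul_le_mul_left _ (by omega))
  have h4 := desc n k hk hn k (le_refl k)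
  rw [Nat.descFactorial_eq_factorial_mul_choose, Nat.descFactorial_eq_factorial_mul_choose] at h4
  push_cast at h4
  have hf : (0 : ℝ) < (k.factorial : ℝ) := by exact_mod_cast k.factorial_pos
  have hc : (0 : ℝ) < ((n - k).choose k : ℝ) := by exact_mod_cast h2
  have h5 : Real.exp ((k : ℝ) / n) ^ k * ((n - k).choose k : ℝ) ≤ (n.choose k : ℝ) := by
    have h6 : (k.factorial : ℝ) * (Real.exp ((k : ℝ) / n) ^ k * ((n - k).choose k : ℝ)) ≤
        (k.factorial : ℝ) * (n.choose k : ℝ) := by
      calc (k.factorial : ℝ) * (Real.exp ((k : ℝ) / n) ^ k * ((n - k).choose k : ℝ)) =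
          Real.exp ((k : ℝ) / n) ^ k * ((k.factorial : ℝ) * ((n - k).choose k : ℝ)) := by ring
        _ ≤ _ := h4
    exact le_of_mul_le_mul_left h6 hf
  have h7 : (n.choose k : ℝ) ≤ (minMaximal n k : ℝ) * (2 * ((n - k).choose k : ℝ)) := by
    exact_mod_cast h3
  have h8 : Real.exp ((k : ℝ) ^ 2 / n) ≤ 2 * (minMaximal n k : ℝ) := by
    have h9 : Real.exp ((k : ℝ) / n) ^ k = Real.exp ((k : ℝ) ^ 2 / n) := by
      rw [← Real.exp_nat_mul]
      apply congrArg
      ring
    rw [h9] at h5
    have h10 : Real.exp ((k : ℝ) ^ 2 / n) * ((n - k).choose k : ℝ) ≤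
        (2 * (minMaximal n k : ℝ)) * ((n - k).choose k : ℝ) := by
      calc Real.exp ((k : ℝ) ^ 2 / n) * ((n - k).choose k : ℝ) ≤ _ := h5.trans h7
        _ = _ := by ring
    exact le_of_mul_le_mul_right h10 hc
  have hm : (0 : ℝ) < (minMaximal n k : ℝ) := by
    have := (Real.exp_pos ((k : ℝ) ^ 2 / n)).trans_le h8
    linarith
  have h11 := Real.log_le_log (Real.exp_pos _) h8
  rw [Real.log_exp, Real.log_mul (by norm_num) hm.ne'] at h11
  linarith

end Pool.Agent.H14.KN
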