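import Pool.Agent.H14.KN.Defs

/-!
[H14 KN MAJ] Composition with a majority: `s` out of `2s-1` copies. Mathlib only.

Let `F`, `K` be as in `PF α a N`. Put `m = 2s-1` and
`F' = {B | ∃ J : Finset (Fin m), J.card = s ∧ ∃ A : Fin m → Finset α, (∀ j, A j ∈ F) ∧
      B = J.biUnion/sigma of the A j, i.e. (j,x) ∈ B ↔ j ∈ J ∧ x ∈ A j}`.
* Members have `∑_{j ∈ J} a = s a` elements.
* Two members meet: `J ∩ J'` is nonempty since `2 s > 2 s - 1`; for `j ∈ J ∩ J'` the sets
  `A j`, `A' j` in `F` meet.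
* Let `T` be a cover, `T_j = {x | (j,x) ∈ T}`. At least `s` indices `j` have `Cov T_j F`:
  otherwise at least `2s-1-(s-1) = s` indices do not; for each such `j` choose `A j ∈ F` with
  `¬ Meets T_j (A j)` (for the other `j` take any member of `F`: `F` is nonempty because one such
  member was just chosen), let `J` be `s` of these indices; the corresponding member is missed.
  So `T.card = ∑_j T_j.card ≥ s a`.
* If `T.card = s a`: let `J'` be a set of `s` indices with `Cov T_j F`. Then `T_j.card ≥ a` on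
  `J'`, so equality everywhere: `T_j.card = a` and `T_j ∈ K` for `j ∈ J'` and `T_j = ∅` for
  `j ∉ J'`. So `T` lies in the image of
  `(powersetCard s univ) × (functions Fin s → K)` (or use `Finset.pi`/`Fintype.piFinset` with
  values in `K` on `J'` and `{∅}` outside: for each `J'` there are `N^s` of them). Hence the
  number is at most `(2s-1).choose s * N^s`.
-/

namespace Pool.Agent.H14.KN

open Finset

/-- the set with the slices `A j`, `j ∈ J` -/
private def asm {α : Type} [DecidableEq α] {m : ℕ} (J : Finset (Fin m)) (A : Fin m → Finset α) :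
    Finset (Fin m × α) := J.biUnion fun j => (A j).image fun x => (j, x)

private theorem mem_asm {α : Type} [DecidableEq α] {m : ℕ} (J : Finset (Fin m))
    (A : Fin m → Finset α) (j : Fin m) (x : α) : (j, x) ∈ asm J A ↔ j ∈ J ∧ x ∈ A j := by
  unfold asm
  rw [mem_biUnion]
  constructor
  · rintro ⟨i, hi, h⟩
    obtain ⟨y, hy, hyx⟩ := mem_image.1 h
    rw [Prod.mk.injEq] at hyx
    obtain ⟨rfl, rfl⟩ := hyx
    exact ⟨hi, hy⟩
  · rintro ⟨h1, h2⟩
    exact ⟨j, h1, mem_image.2 ⟨x, h2, rfl⟩⟩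

/-- the slices -/
private def sl {α : Type} [DecidableEq α] {m : ℕ} (T : Finset (Fin m × α)) (j : Fin m) :
    Finset α := (T.filter fun p => p.1 = j).image Prod.snd

private theorem mem_sl {α : Type} [DecidableEq α] {m : ℕ} (T : Finset (Fin m × α)) (j : Fin m)
    (x : α) : x ∈ sl T j ↔ (j, x) ∈ T := by
  unfold sl
  rw [mem_image]
  constructor
  · rintro ⟨⟨i, y⟩, h1, h2⟩
    obtain ⟨h3, h4⟩ := mem_filter.1 h1
    have h5 : i = j := h4
    have h6 : y = x := h2
    rw [← h5, ← h6]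
    exact h3
  · intro h
    exact ⟨(j, x), mem_filter.2 ⟨h, rfl⟩, rfl⟩

private theorem card_sl {α : Type} [DecidableEq α] {m : ℕ} (T : Finset (Fin m × α)) :
    T.card = ∑ j, (sl T j).card := by
  rw [card_eq_sum_card_fiberwise (f := Prod.fst) (t := (univ : Finset (Fin m)))
    (fun _ _ => mem_coe.2 (mem_univ _))]
  refine sum_congr rfl fun j _ => ?_
  unfold sl
  rw [card_image_of_injOn]
  rintro ⟨i, x⟩ h1 ⟨i', x'⟩ h2 h3
  have h4 : i = j := (mem_filter.1 (mem_coe.1 h1)).2
  have h5 : i' = j := (mem_filter.1 (mem_coe.1 h2)).2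
  have h6 : x = x' := h3
  rw [h4, h5, h6]

private theorem sl_asm {α : Type} [DecidableEq α] {m : ℕ} (J : Finset (Fin m))
    (A : Fin m → Finset α) (j : Fin m) : sl (asm J A) j = if j ∈ J then A j else ∅ := by
  ext x
  rw [mem_sl, mem_asm]
  by_cases hj : j ∈ J
  · rw [if_pos hj]
    exact ⟨fun h => h.2, fun h => ⟨hj, h⟩⟩
  · rw [if_neg hj]
    exact ⟨fun h => absurd h.1 hj, fun h => absurd h (notMem_empty x)⟩

private theorem asm_sl {α : Type} [DecidableEq α] {m : ℕ} (T : Finset (Fin m × α)) :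
    asm univ (sl T) = T := by
  ext ⟨j, x⟩
  rw [mem_asm, mem_sl]
  exact ⟨fun h => h.2, fun h => ⟨mem_univ _, h⟩⟩

theorem PF.majority {α : Type} [DecidableEq α] {a N s : ℕ} (hs : 1 ≤ s) (h : PF α a N) :
    PF (Fin (2 * s - 1) × α) (s * a) ((2 * s - 1).choose s * N ^ s) := by
  classical
  obtain ⟨F, hF, hI, hC, K, hK, hKT⟩ := h
  have hgood : ∀ T : Finset (Fin (2 * s - 1) × α),
      Cov T {B | ∃ J : Finset (Fin (2 * s - 1)), J.card = s ∧
        ∃ A : Fin (2 * s - 1) → Finset α, (∀ j ∈ J, A j ∈ F) ∧ B = asm J A} →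
      ∃ J : Finset (Fin (2 * s - 1)), J.card = s ∧ ∀ j ∈ J, Cov (sl T j) F := by
    intro T hT
    by_contra hno
    have h1 : (univ.filter fun j => Cov (sl T j) F).card < s := by
      by_contra h2
      rw [not_lt] at h2
      obtain ⟨J, hJ, hJc⟩ := exists_subset_card_eq h2
      exact hno ⟨J, hJc, fun j hj => (mem_filter.1 (hJ hj)).2⟩
    have h2 : s ≤ ((univ.filter fun j => Cov (sl T j) F)ᶜ).card := by
      rw [card_compl, Fintype.card_fin]
      omega
    obtain ⟨J, hJ, hJc⟩ := exists_subset_card_eq h2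
    have h3 : ∀ j ∈ J, ∃ A ∈ F, ¬ Meets (sl T j) A := by
      intro j hj
      have h4 := hJ hj
      rw [mem_compl, mem_filter] at h4
      by_contra h5
      refine h4 ⟨mem_univ _, fun A hA => ?_⟩
      by_contra h6
      exact h5 ⟨A, hA, h6⟩
    choose! A hA hAm using h3
    obtain ⟨⟨j, x⟩, hx, hx'⟩ := hT (asm J A) ⟨J, hJc, A, hA, rfl⟩
    rw [mem_asm] at hx'
    exact hAm j hx'.1 ⟨x, (mem_sl _ _ _).2 hx, hx'.2⟩
  refine ⟨{B | ∃ J : Finset (Fin (2 * s - 1)), J.card = s ∧
    ∃ A : Fin (2 * s - 1) → Finset α, (∀ j ∈ J, A j ∈ F) ∧ B = asm J A}, ?_, ?_, ?_, ?_⟩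
  · rintro _ ⟨J, hJ, A, hA, rfl⟩
    rw [card_sl]
    have h1 : ∀ j, (sl (asm J A) j).card = if j ∈ J then a else 0 := by
      intro j
      rw [sl_asm]
      by_cases hj : j ∈ J
      · rw [if_pos hj, if_pos hj, hF _ (hA j hj)]
      · rw [if_neg hj, if_neg hj, card_empty]
    rw [sum_congr rfl fun j _ => h1 j, sum_ite_mem, univ_inter, sum_const, hJ, smul_eq_mul]
  · rintro _ ⟨J, hJ, A, hA, rfl⟩ _ ⟨J', hJ', A', hA', rfl⟩
    have h1 : (J ∩ J').Nonempty := by
      rw [← card_pos]
      have h2 := card_union_add_card_inter J J'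
      have h3 : (J ∪ J').card ≤ 2 * s - 1 := by
        have h4 := card_le_univ (J ∪ J')
        rwa [Fintype.card_fin] at h4
      omega
    obtain ⟨j, hj⟩ := h1
    obtain ⟨hj1, hj2⟩ := mem_inter.1 hj
    obtain ⟨x, hx, hx'⟩ := hI _ (hA j hj1) _ (hA' j hj2)
    exact ⟨(j, x), (mem_asm _ _ _ _).2 ⟨hj1, hx⟩, (mem_asm _ _ _ _).2 ⟨hj2, hx'⟩⟩
  · intro T hT
    obtain ⟨J, hJ, hJC⟩ := hgood T hT
    rw [card_sl]
    calc s * a = ∑ _j ∈ J, a := by rw [sum_const, hJ, smul_eq_mul]
      _ ≤ ∑ j ∈ J, (sl T j).card := sum_le_sum fun j hj => hC _ (hJC j hj)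
      _ ≤ ∑ j, (sl T j).card := sum_le_sum_of_subset (subset_univ J)
  · refine ⟨(powersetCard s univ).biUnion fun J =>
      (Fintype.piFinset fun j => if j ∈ J then K else {∅}).image fun A => asm univ A, ?_, ?_⟩
    · refine card_biUnion_le.trans ?_
      have h1 : ∀ J ∈ powersetCard s (univ : Finset (Fin (2 * s - 1))),
          ((Fintype.piFinset fun j => if j ∈ J then K else {∅}).image
            fun A => asm univ A).card ≤ N ^ s := by
        intro J hJ
        refine card_image_le.trans ?_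
        rw [Fintype.card_piFinset]
        have h2 : ∀ j, (if j ∈ J then K else {∅}).card = if j ∈ J then K.card else 1 := by
          intro j
          by_cases hj : j ∈ J
          · rw [if_pos hj, if_pos hj]
          · rw [if_neg hj, if_neg hj, card_singleton]
        rw [prod_congr rfl fun j _ => h2 j, prod_ite_mem, univ_inter, prod_const,
          (mem_powersetCard.1 hJ).2]
        exact Nat.pow_le_pow_left hK s
      refine (sum_le_sum h1).trans ?_
      rw [sum_const, card_powersetCard, card_univ, Fintype.card_fin, smul_eq_mul]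
    · intro T hTc hT
      obtain ⟨J, hJ, hJC⟩ := hgood T hT
      rw [card_sl] at hTc
      have h1 : ∑ j ∈ J, (sl T j).card + ∑ j ∈ Jᶜ, (sl T j).card = s * a := by
        rw [sum_add_sum_compl, hTc]
      have h2 : ∑ _j ∈ J, a = s * a := by rw [sum_const, hJ, smul_eq_mul]
      have h3 : ∀ j ∈ J, a ≤ (sl T j).card := fun j hj => hC _ (hJC j hj)
      have h4 : ∑ _j ∈ J, a ≤ ∑ j ∈ J, (sl T j).card := sum_le_sum h3
      have h5 : ∑ j ∈ Jᶜ, (sl T j).card = 0 := by omega
      have h6 : ∑ _j ∈ J, a = ∑ j ∈ J, (sl T j).card := by omega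
      have h7 : ∀ j ∈ J, a = (sl T j).card := (sum_eq_sum_iff_of_le h3).1 h6
      rw [mem_biUnion]
      refine ⟨J, mem_powersetCard.2 ⟨subset_univ _, hJ⟩, ?_⟩
      rw [mem_image]
      refine ⟨sl T, ?_, asm_sl T⟩
      rw [Fintype.mem_piFinset]
      intro j
      by_cases hj : j ∈ J
      · rw [if_pos hj]
        exact hKT _ (h7 j hj).symm (hJC j hj)
      · rw [if_neg hj, mem_singleton, ← card_eq_zero]
        exact (sum_eq_zero_iff.1 h5) j (mem_compl.2 hj)

end Pool.Agent.H14.KN
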