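import Pool.Agent.H14.KN.Transport
import Pool.Agent.H14.KN.Majority
import Pool.Agent.H14.KN.Additive
import Pool.Agent.H14.KN.Kneser

/-!
[H14 KN CMB] The trivial family, and composition of the majority and the additive step.

`PF_one`: `F = {{0}}` on `Fin 1`: `PF (Fin 1) 1 1`.

`minMaximal_le_four_pow`: `PF.majority` with `a = 1`, `s = k` gives
`PF (Fin (2k-1) × Fin 1) (k * 1) ((2k-1).choose k * 1^k)`; transport to `Fin n`
(`2 k - 1 ≤ n`), `minMaximal_le`, and `(2k-1).choose k ≤ 2^(2k-1) ≤ 4^k`.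

`combine`: `PF.majority` (`s = t`): `PF (Fin (2t-1) × Fin n₁) (t a) N'`,
`N' = (2t-1).choose t * N^t`. If `r = 0`, transport to `Fin n` and `minMaximal_le`. If `r ≥ 1`,
`PF.additive` with `b = r`: a family for `t a + r = k` on
`(Fin (2t-1) × Fin n₁) ⊕ Fin (t a + 2 r - 1)`, with `(2t-1) n₁ + t a + 2 r - 1 ≤
(2t-1) n₁ + 2 k ≤ n` points, and `N'' = (N' + 1) * M.choose r`, `M = t a + 2 r - 1`. In both
cases `minMaximal n k ≤ (N'+1) * M.choose r` (`M.choose 0 = 1`). Estimate: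
`N' ≤ 4^t exp (t L)`, `N' + 1 ≤ 2 * 4^t * exp (t L)`, `log (N'+1) ≤ t (L + 3)` (`t ≥ 1`). For
`x > 0`: `M.choose r * x^r ≤ (1 + x)^M ≤ exp (x M)` (one term of the binomial theorem); with
`x = t/M` (for `r ≥ 1`, so `M ≥ t a + 1 ≥ t > 0`):
`M.choose r ≤ exp t * (M/t)^r ≤ exp t * (M/t)^t` as `M/t ≥ 1`, `r ≤ t`, and
`M/t ≤ (t a + 2 r)/t ≤ a + 2 ≤ 3 a`. So `log (M.choose r) ≤ t (1 + log 3 + log a) ≤
t (3 + log a)`. (If `minMaximal n k = 0` its log is `0` and the claim is clear.)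
-/

namespace Pool.Agent.H14.KN

open Finset

theorem PF_one : PF (Fin 1) 1 1 := by
  sorry

theorem minMaximal_le_four_pow {n k : ℕ} (hk : 1 ≤ k) (hn : 2 * k ≤ n) :
    minMaximal n k ≤ 4 ^ k := by
  sorry

theorem combine {n₁ a N t r n k : ℕ} {L : ℝ} (h : PF (Fin n₁) a N) (hN : (N : ℝ) ≤ Real.exp L)
    (hL : 0 ≤ L) (ht : 1 ≤ t) (ha : 1 ≤ a) (hr : r < t) (hk : k = t * a + r)
    (hn : (2 * t - 1) * n₁ + 2 * k ≤ n) :
    Real.log (minMaximal n k) ≤ t * (L + Real.log a + 6) := by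
  sorry

end Pool.Agent.H14.KN
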