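import Pool.Agent.H14.KN.CodeMass

/-!
[H14 KN CAG] Number of codewords that agree with `f₀` on a small set of planes.

Apply `mass_lt` to `U l δ = if δ = sym f₀ l then 1 else 0`; `tot U l = 1`, and
`∏_{l∈S} vh f l` is `1` if `sym f l = sym f₀ l` for all `l ∈ S` and `0` otherwise. So the number
`M` of all `f` (including `f₀`) that agree with `f₀` on `S` satisfies
`M ≥ q^(w-|S|) (1 - |S|/q)`. Since `|S| < w` and `4 w ≤ q`: `M ≥ (3/4) q^(w-|S|)`, and
`q^(w-|S|) ≥ q ≥ 4`, so `M - 1 ≥ q^(w-|S|)/2`.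
-/

namespace Pool.Agent.H14.KN

open Finset

variable {q w m : ℕ} [Fact q.Prime]

theorem count_agree (α β : Fin m → ZMod q) (hinj : Function.Injective (Sum.elim α β))
    (f₀ : Fin w → ZMod q) (S : Finset (Fin m)) (hS : S.card + 1 ≤ w) (hq : 4 * w ≤ q) :
    q ^ (w - S.card) ≤ 2 * (univ.filter (fun f : Fin w → ZMod q =>
      f ≠ f₀ ∧ ∀ l ∈ S, sym α β f l = sym α β f₀ l)).card := by
  classical
  have hqp : q.Prime := Fact.out
  have hq0 : (0 : ℝ) < q := by exact_mod_cast hqp.pos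
  have h1 := mass_lt α β hinj (fun l δ => if δ = sym α β f₀ l then (1 : ℝ) else 0)
    (fun l δ => by split_ifs <;> norm_num) S hS
  have htot : ∀ l, tot (fun l (δ : Option (ZMod q)) =>
      if δ = sym α β f₀ l then (1 : ℝ) else 0) l = 1 := by
    intro l
    unfold tot
    rw [Finset.sum_ite_eq' univ (sym α β f₀ l) (fun _ => (1 : ℝ)), if_pos (mem_univ _)]
  have hvh : ∀ f : Fin w → ZMod q, ∏ l ∈ S, vh α β (fun l (δ : Option (ZMod q)) =>
      if δ = sym α β f₀ l then (1 : ℝ) else 0) f l =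
      if ∀ l ∈ S, sym α β f l = sym α β f₀ l then 1 else 0 := by
    intro f
    unfold vh
    rw [Finset.prod_ite_zero]
    simp
  rw [Finset.prod_congr rfl fun l _ => htot l, Finset.prod_const_one, mul_one,
    Finset.sum_congr rfl fun f _ => hvh f, Finset.sum_boole] at h1
  set M := univ.filter (fun f : Fin w → ZMod q => ∀ l ∈ S, sym α β f l = sym α β f₀ l) with hM
  set M' := univ.filter (fun f : Fin w → ZMod q =>
      f ≠ f₀ ∧ ∀ l ∈ S, sym α β f l = sym α β f₀ l) with hM'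
  have hcard : M.card ≤ M'.card + 1 := by
    have hsub : M ⊆ insert f₀ M' := by
      intro f hf
      rw [mem_insert]
      by_cases h : f = f₀
      · exact Or.inl h
      · exact Or.inr (mem_filter.2 ⟨mem_univ _, h, (mem_filter.1 hf).2⟩)
    exact (card_le_card hsub).trans (card_insert_le _ _)
  have hcardR : (M.card : ℝ) ≤ M'.card + 1 := by exact_mod_cast hcard
  have hSq : ((S.card : ℝ) / q) ≤ 1 / 4 := by
    rw [div_le_iff₀ hq0]
    have h2 : ((4 * w : ℕ) : ℝ) ≤ q := by exact_mod_cast hq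
    have h3 : ((S.card : ℕ) : ℝ) ≤ w := by exact_mod_cast (by omega : S.card ≤ w)
    push_cast at h2
    linarith
  have hpow : (4 : ℝ) ≤ (q : ℝ) ^ (w - S.card) := by
    have hw1 : 1 ≤ w := by omega
    have h4 : 4 ≤ q := by omega
    have h5 : (4 : ℝ) ≤ q := by exact_mod_cast h4
    calc (4 : ℝ) ≤ q := h5
      _ = (q : ℝ) ^ 1 := (pow_one _).symm
      _ ≤ (q : ℝ) ^ (w - S.card) := pow_le_pow_right₀ (by linarith) (by omega)
  have h6 : (q : ℝ) ^ (w - S.card) ≤ 2 * M'.card := by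
    have h7 : (q : ℝ) ^ (w - S.card) * (3 / 4) ≤ (q : ℝ) ^ (w - S.card) *
        (1 - (S.card : ℝ) / q) := mul_le_mul_of_nonneg_left (by linarith) (by positivity)
    linarith
  exact_mod_cast h6

end Pool.Agent.H14.KN
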