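import Pool.Agent.H14.KN.CodeMass

/-!
[H14 KN CEQ] Codewords that agree with `f₀` in `w-1` planes of `A` and have a prescribed symbol
`δ₁` in another plane `l₁`.

Let `U l δ = 1` if `δ = sym f₀ l` (for `l ≠ l₁`), `U l₁ δ = 1` if `δ = δ₁`, and `0` otherwise;
`tot U l = 1`. Let `a = A.card`. For `S ⊆ A`, `|S| = w-1`, put `S⁺ = insert l₁ S` (`w` planes).
`form_sum`: `∑_f ∏_{S⁺} uh f l = 1`, so `∑_S ∑_f ∏_{S⁺} uh f l = a.choose (w-1)`.
As in `CodeMass` (*), `∏_{S⁺} uh - ∏_{S⁺} vh ≤ ∑_{i∈S⁺} dh f i ∏_{S⁺\{i}} uh`.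
Claim: if `uh f l₁ ≠ 0` or `dh f l₁ ≠ 0` then `f ≠ f₀`. Indeed `dh f l₁ ≤ uh f l₁` and
`uh f₀ l₁ = [δ₁ = some (pe f₀ (α l₁))] + [pe f₀ (β l₁) = β l₁ ^ w][δ₁ = none] = 0`: the first
bracket vanishes by hypothesis; if the second does not, then `sym f₀ l₁ = none = δ₁`.
Consequence: for such `f`, `∑_{j∈A} uh f j ≤ w - 1` by `formal_lt` (for `j ∈ A`, `j ≠ l₁`, and
`uh f j` is `1` if `j` is in the set of `formal_lt` and `0` otherwise; the two alternatives
exclude each other).
(a) Terms `i = l₁`: `E₁ = ∑_S ∑_f dh f l₁ ∏_S uh`. `(w-1) E₁ = ∑_S ∑_{j∈S} …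
 = ∑_{S₁ ⊆ A, |S₁| = w-2} ∑_f dh f l₁ ∏_{S₁} uh ∑_{j∈A\S₁} uh f j ≤
 (w-1) ∑_{S₁} ∑_f dh f l₁ ∏_{S₁} uh ≤ (w-1) a.choose (w-2)` (`form_sum_d` with `|S₁| + 2 = w`).
 So `E₁ ≤ a.choose (w-2)`.
(b) Terms `i ∈ S`: `E₂ = ∑_S ∑_{i∈S} ∑_f dh f i * uh f l₁ * ∏_{S\{i}} uh`. Choosing
 `j ∈ S \ {i}` (`w-2 ≥ 1` possibilities), `S₁ = S \ {j}`:
 `(w-2) E₂ = ∑_{S₁, |S₁| = w-2} ∑_{i∈S₁} ∑_f dh f i uh f l₁ ∏_{S₁\{i}} uh ∑_{j∈A\S₁} uh f j
 ≤ (w-1) ∑_{S₁} ∑_{i∈S₁} ∑_f dh f i * ∏_{insert l₁ (S₁\{i})} uh ≤ (w-1)(w-2) a.choose (w-2)`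
 (`form_sum_d`, `|insert l₁ (S₁\{i})| + 2 = w`). So `E₂ ≤ (w-1) a.choose (w-2)`.
Together `E₁ + E₂ ≤ w a.choose (w-2)`, and
`(w-1) a.choose (w-1) = (a-w+2) a.choose (w-2) ≥ 2 w (w-1) a.choose (w-2)` since
`a ≥ 5 w^2`. So `E₁ + E₂ ≤ a.choose (w-1) / 2` and `∑_S ∑_f ∏_{S⁺} vh ≥ a.choose (w-1) / 2`.
The left side is the number of pairs `(S, f)` with `sym f l = sym f₀ l` on `S` and
`sym f l₁ = δ₁`. For such a pair `f ≠ f₀` (because `δ₁ ≠ sym f₀ l₁`), and by `agree_lt` the set
`{l | sym f l = sym f₀ l}` has at most `w-1` elements, so it equals `S`: each `f` occurs once.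
Let `𝓕` be the set of these `f`.
-/

namespace Pool.Agent.H14.KN

open Finset

variable {q w m : ℕ} [Fact q.Prime]

/-- the weights: the symbols of `f₀`, and the symbol `δ₁` in the plane `l₁` -/
private noncomputable def Uc (α β : Fin m → ZMod q) (f₀ : Fin w → ZMod q) (l₁ : Fin m)
    (δ₁ : Option (ZMod q)) (l : Fin m) (δ : Option (ZMod q)) : ℝ :=
  if δ = (if l = l₁ then δ₁ else sym α β f₀ l) then 1 else 0

private theorem tot_uc (α β : Fin m → ZMod q) (f₀ : Fin w → ZMod q) (l₁ : Fin m)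
    (δ₁ : Option (ZMod q)) (l : Fin m) : tot (Uc α β f₀ l₁ δ₁) l = 1 := by
  unfold tot Uc
  rw [sum_ite_eq' univ, if_pos (mem_univ _)]

private theorem uc_nonneg (α β : Fin m → ZMod q) (f₀ : Fin w → ZMod q) (l₁ : Fin m)
    (δ₁ : Option (ZMod q)) (l : Fin m) (δ : Option (ZMod q)) : 0 ≤ Uc α β f₀ l₁ δ₁ l δ := by
  unfold Uc
  by_cases h : δ = (if l = l₁ then δ₁ else sym α β f₀ l)
  · rw [if_pos h]
    exact zero_le_one
  · rw [if_neg h]

theorem count_eq (α β : Fin m → ZMod q) (hinj : Function.Injective (Sum.elim α β))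
    (hw : 3 ≤ w) (f₀ : Fin w → ZMod q) (A : Finset (Fin m)) (l₁ : Fin m) (hl : l₁ ∉ A)
    (δ₁ : Option (ZMod q)) (h1 : δ₁ ≠ sym α β f₀ l₁) (h2 : δ₁ ≠ some (pe f₀ (α l₁)))
    (hA : 5 * w ^ 2 ≤ A.card) :
    ∃ 𝓕 : Finset (Fin w → ZMod q), A.card.choose (w - 1) ≤ 2 * 𝓕.card ∧
      ∀ f ∈ 𝓕, sym α β f l₁ = δ₁ ∧
        ∃ S ⊆ A, S.card = w - 1 ∧ ∀ l ∈ S, sym α β f l = sym α β f₀ l := by
  classical
  obtain ⟨n, hn⟩ : ∃ n, w = n + 3 := ⟨w - 3, by omega⟩
  obtain ⟨U, hUdef⟩ : ∃ U, U = Uc α β f₀ l₁ δ₁ := ⟨_, rfl⟩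
  have hU : ∀ l δ, 0 ≤ U l δ := by
    rw [hUdef]
    exact uc_nonneg α β f₀ l₁ δ₁
  have htot : ∀ l, tot U l = 1 := by
    rw [hUdef]
    exact tot_uc α β f₀ l₁ δ₁
  have hU1 : ∀ δ, U l₁ δ = if δ = δ₁ then 1 else 0 := by
    intro δ
    rw [hUdef]
    unfold Uc
    rw [if_pos rfl]
  have hU2 : ∀ l ∈ A, ∀ δ, U l δ = if δ = sym α β f₀ l then 1 else 0 := by
    intro l hlA δ
    rw [hUdef]
    unfold Uc
    have : l ≠ l₁ := by
      rintro rfl
      exact hl hlA
    rw [if_neg this]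
  -- the key fact
  have hne : ∀ f : Fin w → ZMod q, uh α β U f l₁ ≠ 0 → f ≠ f₀ := by
    rintro f hf rfl
    apply hf
    unfold uh
    rw [hU1, hU1, if_neg (Ne.symm h2)]
    by_cases h : pe f (β l₁) = β l₁ ^ w
    · have h3 : sym α β f l₁ = none := by unfold sym; rw [if_pos h]
      rw [h3] at h1
      rw [if_pos h, if_neg (Ne.symm h1), add_zero]
    · rw [if_neg h, add_zero]
  have hsum : ∀ f : Fin w → ZMod q, uh α β U f l₁ ≠ 0 →
      ∑ l ∈ A, uh α β U f l ≤ (n : ℝ) + 2 := by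
    intro f hf
    have h3 := formal_lt α β hinj f f₀ (hne f hf)
    have h4 : ∀ l ∈ A, uh α β U f l ≤ if (some (pe f (α l)) = sym α β f₀ l ∨
        (pe f (β l) = β l ^ w ∧ sym α β f₀ l = none)) then 1 else 0 := by
      intro l hlA
      unfold uh
      rw [hU2 l hlA, hU2 l hlA]
      by_cases ha : some (pe f (α l)) = sym α β f₀ l
      · have hb : ¬ (none : Option (ZMod q)) = sym α β f₀ l := by
          rw [← ha]
          simp
        rw [if_pos ha, if_neg hb, if_pos (Or.inl ha)]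
        simp
      · rw [if_neg ha, zero_add]
        by_cases hb : pe f (β l) = β l ^ w
        · rw [if_pos hb]
          by_cases hc : (none : Option (ZMod q)) = sym α β f₀ l
          · rw [if_pos hc, if_pos (Or.inr ⟨hb, hc.symm⟩)]
          · rw [if_neg hc]
            split
            · exact zero_le_one
            · exact le_rfl
        · rw [if_neg hb]
          split
          · exact zero_le_one
          · exact le_rfl
    refine (sum_le_sum h4).trans ?_
    rw [sum_boole]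
    have h5 : (A.filter (fun l => some (pe f (α l)) = sym α β f₀ l ∨
        (pe f (β l) = β l ^ w ∧ sym α β f₀ l = none))).card ≤ n + 2 := by
      have h6 := card_le_card (filter_subset_filter (fun l => some (pe f (α l)) = sym α β f₀ l ∨
        (pe f (β l) = β l ^ w ∧ sym α β f₀ l = none)) (subset_univ A))
      omega
    exact_mod_cast h5
  have hdu : ∀ f : Fin w → ZMod q, uh α β U f l₁ = 0 → dh α β U f l₁ = 0 := by
    intro f hf
    have h3 := uh_eq α β U f l₁
    rw [hf] at h3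
    have h4 := ms_vh0 α β U hU f l₁
    have h5 := ms_dh0 α β U hU f l₁
    linarith
  have hu0 : ∀ (f : Fin w → ZMod q) (l : Fin m), 0 ≤ uh α β U f l := fun f l =>
    ms_uh0 α β U hU f l
  have hd0 : ∀ (f : Fin w → ZMod q) (l : Fin m), 0 ≤ dh α β U f l := fun f l =>
    ms_dh0 α β U hU f l
  have hn2 : (0 : ℝ) < (n : ℝ) + 2 := by positivity
  have hn1 : (0 : ℝ) < (n : ℝ) + 1 := by positivity
  -- (a)
  have hEa : ∑ f : Fin w → ZMod q, dh α β U f l₁ * esy A (uh α β U f) (n + 2) ≤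
      (A.card.choose (n + 1) : ℝ) := by
    have h3 : ∀ f : Fin w → ZMod q, dh α β U f l₁ * esy A (uh α β U f) (n + 2) ≤
        dh α β U f l₁ * esy A (uh α β U f) (n + 1) := by
      intro f
      by_cases hf : uh α β U f l₁ = 0
      · rw [hdu f hf, zero_mul, zero_mul]
      · refine mul_le_mul_of_nonneg_left ?_ (hd0 f l₁)
        have h4 := ms_le A (uh α β U f) (fun l _ => hu0 f l) (n + 1)
        have h5 := h4.trans (mul_le_mul_of_nonneg_right (hsum f hf)
          (ms_nonneg A _ (fun l _ => hu0 f l) _))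
        have e : (((n + 1 : ℕ) : ℝ) + 1) = (n : ℝ) + 2 := by push_cast; ring
        rw [e] at h5
        exact le_of_mul_le_mul_left h5 hn2
    refine (sum_le_sum fun f _ => h3 f).trans ?_
    unfold esy
    simp only [mul_sum]
    rw [sum_comm]
    have h4 : ∀ T ∈ A.powersetCard (n + 1), ∑ f : Fin w → ZMod q, dh α β U f l₁ *
        ∏ l ∈ T, uh α β U f l ≤ 1 := by
      intro T hT
      rw [mem_powersetCard] at hT
      have h5 := form_sum_d (w := w) α β hinj U hU l₁ T (fun h => hl (hT.1 h)) (by omega)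
      have e : w - (T.card + 2) = 0 := by omega
      rw [e, pow_zero, one_mul, htot, one_mul, prod_congr rfl fun l _ => htot l,
        prod_const_one] at h5
      exact h5
    refine (sum_le_sum h4).trans ?_
    rw [sum_const, card_powersetCard, nsmul_eq_mul, mul_one]
  -- (b)
  have hEb : ∑ f : Fin w → ZMod q, uh α β U f l₁ * ∑ i ∈ A, dh α β U f i *
      esy (A.erase i) (uh α β U f) (n + 1) ≤ ((n : ℝ) + 2) * (A.card.choose (n + 1) : ℝ) := by
    have h3 : ∀ f : Fin w → ZMod q, ((n : ℝ) + 1) * (uh α β U f l₁ * ∑ i ∈ A, dh α β U f i *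
        esy (A.erase i) (uh α β U f) (n + 1)) ≤
        ((n : ℝ) + 2) * ∑ i ∈ A, uh α β U f l₁ * (dh α β U f i *
          esy (A.erase i) (uh α β U f) n) := by
      intro f
      by_cases hf : uh α β U f l₁ = 0
      · rw [hf]
        simp
      · rw [mul_sum, mul_sum, mul_sum]
        refine sum_le_sum fun i _ => ?_
        have h4 := ms_le (A.erase i) (uh α β U f) (fun l _ => hu0 f l) n
        have h6 : ∑ l ∈ A.erase i, uh α β U f l ≤ (n : ℝ) + 2 :=
          (sum_le_sum_of_subset_of_nonneg (erase_subset _ _) fun l _ _ => hu0 f l).trans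
            (hsum f hf)
        have h5 := h4.trans (mul_le_mul_of_nonneg_right h6
          (ms_nonneg (A.erase i) _ (fun l _ => hu0 f l) n))
        have h7 := mul_le_mul_of_nonneg_left h5 (mul_nonneg (hu0 f l₁) (hd0 f i))
        calc ((n : ℝ) + 1) * (uh α β U f l₁ * (dh α β U f i *
              esy (A.erase i) (uh α β U f) (n + 1)))
            = uh α β U f l₁ * dh α β U f i * (((n : ℝ) + 1) *
              esy (A.erase i) (uh α β U f) (n + 1)) := by ring
          _ ≤ uh α β U f l₁ * dh α β U f i * (((n : ℝ) + 2) *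
              esy (A.erase i) (uh α β U f) n) := h7
          _ = ((n : ℝ) + 2) * (uh α β U f l₁ * (dh α β U f i *
              esy (A.erase i) (uh α β U f) n)) := by ring
    have h4 : ∀ i ∈ A, ∑ f : Fin w → ZMod q, uh α β U f l₁ * (dh α β U f i *
        esy (A.erase i) (uh α β U f) n) ≤ ((A.card - 1).choose n : ℝ) := by
      intro i hi
      unfold esy
      simp only [mul_sum]
      rw [sum_comm]
      have h5 : ∀ T ∈ (A.erase i).powersetCard n, ∑ f : Fin w → ZMod q, uh α β U f l₁ *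
          (dh α β U f i * ∏ l ∈ T, uh α β U f l) ≤ 1 := by
        intro T hT
        rw [mem_powersetCard] at hT
        have hiT : i ∉ T := fun h => absurd (hT.1 h) (notMem_erase i A)
        have hlT : l₁ ∉ T := fun h => hl (mem_of_mem_erase (hT.1 h))
        have hil : i ≠ l₁ := by
          rintro rfl
          exact hl hi
        have h6 := form_sum_d (w := w) α β hinj U hU i (insert l₁ T) (by
          rw [mem_insert]
          rintro (h | h)
          · exact hil h
          · exact hiT h) (by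
          rw [card_insert_of_notMem hlT]
          omega)
        have e : w - ((insert l₁ T).card + 2) = 0 := by
          rw [card_insert_of_notMem hlT]
          omega
        rw [e, pow_zero, one_mul, htot, one_mul, prod_congr rfl fun l _ => htot l,
          prod_const_one] at h6
        refine le_trans (le_of_eq (sum_congr rfl fun f _ => ?_)) h6
        rw [prod_insert hlT]
        ring
      refine (sum_le_sum h5).trans ?_
      rw [sum_const, card_powersetCard, nsmul_eq_mul, mul_one, card_erase_of_mem hi]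
    have h5 : ((n : ℝ) + 1) * ∑ f : Fin w → ZMod q, uh α β U f l₁ * ∑ i ∈ A, dh α β U f i *
        esy (A.erase i) (uh α β U f) (n + 1) ≤
        ((n : ℝ) + 2) * ((A.card : ℝ) * ((A.card - 1).choose n : ℝ)) := by
      rw [mul_sum]
      refine (sum_le_sum fun f _ => h3 f).trans ?_
      rw [← mul_sum]
      refine mul_le_mul_of_nonneg_left ?_ hn2.le
      rw [sum_comm]
      refine (sum_le_sum h4).trans ?_
      rw [sum_const, nsmul_eq_mul]
    have h6 : (A.card : ℝ) * ((A.card - 1).choose n : ℝ) =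
        ((n : ℝ) + 1) * (A.card.choose (n + 1) : ℝ) := by
      have h7 := Nat.add_one_mul_choose_eq (A.card - 1) n
      have h8 : A.card - 1 + 1 = A.card := by
        have : 0 < A.card := by
          have : 0 < w ^ 2 := by positivity
          omega
        omega
      rw [h8] at h7
      have h9 : ((A.card * (A.card - 1).choose n : ℕ) : ℝ) =
        ((A.card.choose (n + 1) * (n + 1) : ℕ) : ℝ) := by rw [h7]
      push_cast at h9
      linarith
    rw [h6] at h5
    have h7 : ((n : ℝ) + 1) * ∑ f : Fin w → ZMod q, uh α β U f l₁ * ∑ i ∈ A, dh α β U f i *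
        esy (A.erase i) (uh α β U f) (n + 1) ≤
        ((n : ℝ) + 1) * (((n : ℝ) + 2) * (A.card.choose (n + 1) : ℝ)) := by
      refine h5.trans (le_of_eq ?_)
      ring
    exact le_of_mul_le_mul_left h7 hn1
  -- the formal sum
  have hform : ∑ f : Fin w → ZMod q, ∑ S ∈ A.powersetCard (n + 2),
      ∏ l ∈ insert l₁ S, uh α β U f l = (A.card.choose (n + 2) : ℝ) := by
    rw [sum_comm]
    have h3 : ∀ S ∈ A.powersetCard (n + 2), ∑ f : Fin w → ZMod q,
        ∏ l ∈ insert l₁ S, uh α β U f l = 1 := by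
      intro S hS
      rw [mem_powersetCard] at hS
      have hlS : l₁ ∉ S := fun h => hl (hS.1 h)
      have hc : (insert l₁ S).card = w := by
        rw [card_insert_of_notMem hlS, hS.2]
        omega
      rw [form_sum α β hinj U (insert l₁ S) hc.le, hc, Nat.sub_self, pow_zero, one_mul,
        prod_congr rfl fun l _ => htot l, prod_const_one]
    rw [sum_congr rfl h3, sum_const, card_powersetCard, nsmul_eq_mul, mul_one]
  have htele : ∀ f : Fin w → ZMod q, ∑ S ∈ A.powersetCard (n + 2),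
      ∏ l ∈ insert l₁ S, uh α β U f l - ∑ S ∈ A.powersetCard (n + 2),
        ∏ l ∈ insert l₁ S, vh α β U f l ≤ dh α β U f l₁ * esy A (uh α β U f) (n + 2) +
          uh α β U f l₁ * ∑ i ∈ A, dh α β U f i * esy (A.erase i) (uh α β U f) (n + 1) := by
    intro f
    rw [← ms_double]
    unfold esy
    rw [← sum_sub_distrib, mul_sum, mul_sum, ← sum_add_distrib]
    refine sum_le_sum fun S hS => ?_
    rw [mem_powersetCard] at hS
    have hlS : l₁ ∉ S := fun h => hl (hS.1 h)
    refine (ms_tele (insert l₁ S) _ _ _ (ms_vh0 α β U hU f) (ms_dh0 α β U hU f)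
      (uh_eq α β U f)).trans (le_of_eq ?_)
    rw [sum_insert hlS, erase_insert hlS, mul_sum]
    congr 1
    refine sum_congr rfl fun i hi => ?_
    have h3 : (insert l₁ S).erase i = insert l₁ (S.erase i) := by
      rw [erase_insert_of_ne]
      rintro rfl
      exact hlS hi
    rw [h3, prod_insert (fun h => hlS (mem_of_mem_erase h))]
    ring
  have hmain := sum_le_sum fun f (_ : f ∈ (univ : Finset (Fin w → ZMod q))) => htele f
  rw [sum_sub_distrib, hform, sum_add_distrib] at hmain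
  -- binomial coefficients
  have hbin : 2 * ((n : ℝ) + 3) * (A.card.choose (n + 1) : ℝ) ≤ (A.card.choose (n + 2) : ℝ) := by
    have h3 := Nat.choose_succ_right_eq A.card (n + 1)
    have h4 : A.card.choose (n + 1 + 1) * (n + 1 + 1) =
        A.card.choose (n + 1) * (A.card - (n + 1)) := h3
    have h5 : 2 * (n + 3) * (n + 2) ≤ A.card - (n + 1) := by
      have h6 : 5 * (n + 3) ^ 2 ≤ A.card := by rw [← hn]; exact hA
      have h7 : 2 * (n + 3) * (n + 2) + (n + 1) ≤ 5 * (n + 3) ^ 2 := by nlinarith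
      omega
    have h6 : A.card.choose (n + 1) * (2 * (n + 3) * (n + 2)) ≤
        A.card.choose (n + 2) * (n + 2) := by
      calc A.card.choose (n + 1) * (2 * (n + 3) * (n + 2))
          ≤ A.card.choose (n + 1) * (A.card - (n + 1)) := Nat.mul_le_mul_left _ h5
        _ = A.card.choose (n + 2) * (n + 2) := h4.symm
    have h7 : (A.card.choose (n + 1) : ℝ) * (2 * ((n : ℝ) + 3) * ((n : ℝ) + 2)) ≤
        (A.card.choose (n + 2) : ℝ) * ((n : ℝ) + 2) := by exact_mod_cast h6
    have h8 : ((n : ℝ) + 2) * (2 * ((n : ℝ) + 3) * (A.card.choose (n + 1) : ℝ)) ≤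
        ((n : ℝ) + 2) * (A.card.choose (n + 2) : ℝ) := by
      linarith
    exact le_of_mul_le_mul_left h8 hn2
  -- the set
  refine ⟨univ.filter (fun f => sym α β f l₁ = δ₁ ∧
    ∃ S ⊆ A, S.card = w - 1 ∧ ∀ l ∈ S, sym α β f l = sym α β f₀ l), ?_, ?_⟩
  swap
  · intro f hf
    exact (mem_filter.1 hf).2
  have hcnt : ∀ f : Fin w → ZMod q, ∑ S ∈ A.powersetCard (n + 2),
      ∏ l ∈ insert l₁ S, vh α β U f l ≤ if (sym α β f l₁ = δ₁ ∧
        ∃ S ⊆ A, S.card = w - 1 ∧ ∀ l ∈ S, sym α β f l = sym α β f₀ l) then 1 else 0 := by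
    intro f
    have hprod : ∀ S ∈ A.powersetCard (n + 2), ∏ l ∈ insert l₁ S, vh α β U f l =
        if (sym α β f l₁ = δ₁ ∧ ∀ l ∈ S, sym α β f l = sym α β f₀ l) then 1 else 0 := by
      intro S hS
      rw [mem_powersetCard] at hS
      have hlS : l₁ ∉ S := fun h => hl (hS.1 h)
      rw [prod_insert hlS]
      have h3 : vh α β U f l₁ = if sym α β f l₁ = δ₁ then 1 else 0 := hU1 _
      have h4 : ∏ l ∈ S, vh α β U f l =
          ∏ l ∈ S, if sym α β f l = sym α β f₀ l then (1 : ℝ) else 0 :=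
        prod_congr rfl fun l hlS => hU2 l (hS.1 hlS) _
      rw [h3, h4, prod_boole]
      by_cases h5 : sym α β f l₁ = δ₁
      · rw [if_pos h5, one_mul]
        by_cases h6 : ∀ l ∈ S, sym α β f l = sym α β f₀ l
        · rw [if_pos h6, if_pos ⟨h5, h6⟩]
        · rw [if_neg h6, if_neg (fun h => h6 h.2)]
      · rw [if_neg h5, zero_mul, if_neg (fun h => h5 h.1)]
    rw [sum_congr rfl hprod, sum_boole]
    by_cases hf : (sym α β f l₁ = δ₁ ∧
        ∃ S ⊆ A, S.card = w - 1 ∧ ∀ l ∈ S, sym α β f l = sym α β f₀ l)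
    · rw [if_pos hf]
      have hff : f ≠ f₀ := by
        rintro rfl
        exact h1 hf.1.symm
      have hag := agree_lt α β hinj f f₀ hff
      have h3 : ((A.powersetCard (n + 2)).filter (fun S => sym α β f l₁ = δ₁ ∧
          ∀ l ∈ S, sym α β f l = sym α β f₀ l)) ⊆
          (univ.filter (fun l => sym α β f l = sym α β f₀ l)).powersetCard (n + 2) := by
        intro S hS
        rw [mem_filter, mem_powersetCard] at hS
        rw [mem_powersetCard]
        exact ⟨fun l hlS => mem_filter.2 ⟨mem_univ _, hS.2.2 l hlS⟩, hS.1.2⟩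
      have h4 := card_le_card h3
      rw [card_powersetCard] at h4
      have h5 : (univ.filter (fun l => sym α β f l = sym α β f₀ l)).card.choose (n + 2) ≤ 1 := by
        have h6 : (univ.filter (fun l => sym α β f l = sym α β f₀ l)).card ≤ n + 2 := by omega
        calc (univ.filter (fun l => sym α β f l = sym α β f₀ l)).card.choose (n + 2)
            ≤ (n + 2).choose (n + 2) := Nat.choose_le_choose _ h6
          _ = 1 := Nat.choose_self _
      exact_mod_cast h4.trans h5
    · rw [if_neg hf]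
      have h3 : ((A.powersetCard (n + 2)).filter (fun S => sym α β f l₁ = δ₁ ∧
          ∀ l ∈ S, sym α β f l = sym α β f₀ l)) = ∅ := by
        rw [filter_eq_empty_iff]
        rintro S hS ⟨h4, h5⟩
        rw [mem_powersetCard] at hS
        exact hf ⟨h4, S, hS.1, by omega, h5⟩
      rw [h3, card_empty, Nat.cast_zero]
  have hlast := sum_le_sum fun f (_ : f ∈ (univ : Finset (Fin w → ZMod q))) => hcnt f
  rw [sum_boole] at hlast
  have e : w - 1 = n + 2 := by omega
  have hfin : (A.card.choose (w - 1) : ℝ) ≤ 2 * ((univ.filter (fun f : Fin w → ZMod q =>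
      sym α β f l₁ = δ₁ ∧ ∃ S ⊆ A, S.card = w - 1 ∧
        ∀ l ∈ S, sym α β f l = sym α β f₀ l)).card : ℝ) := by
    rw [e] at hlast ⊢
    linarith
  exact_mod_cast hfin

end Pool.Agent.H14.KN
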