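import Pool.Agent.H14.KN.CodeBasic
import Pool.Agent.H14.KN.Plane

/-!
[H14 KN FAM] The base family: definitions, cardinalities, the intersection property.

* `card_parts`: a finite set of the sum type is the disjoint union of the sets
  `{inl (l, P) | P ∈ pl T l}` and `{inr (γ, x) | x ∈ cp T γ}`.
* `card_memb`: `(blk ..).card = ∑_{l ∈ J} (lin ..).card = s q` (`card_lin`), the other part has
  `b` elements. Write `e γ x = Sum.inr (γ, x)`.
* `fam_meets`: let `(f,c,J,B)`, `(f',c',J',B')` be two members. `|J ∩ J'| ≥ 2 s - m = w ≥ 1`.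
  If `f ≠ f'`: by `agree_lt` fewer than `w` planes have `sym f l = sym f' l`, so some
  `l ∈ J ∩ J'` has different symbols, and `exists_inter` gives a common point. If `f = f'` and
  `c = c'`: for `l ∈ J ∩ J'` the two lines in the plane `l` are equal and nonempty. If `f = f'`
  and `c ≠ c'`: `B` and `B'` meet (`hZ2`), and they lie in the same copy `g f`.
* `blk_free`: if at least `s` planes `l` have `z f c l ∈ miss (pl T l) (sym f l)`, let `J` be
  `s` of them. For `B ∈ Z c` the member `(f,c,J,B)` meets `T`, but its block does not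
  (`mem_miss`), so `B` meets `cp T (g f)`.
-/

namespace Pool.Agent.H14.KN

open Finset

/-- The points of `T` in the plane `l`. -/
def pl {q m u n₀ : ℕ} (T : Finset ((Fin m × (ZMod q × ZMod q)) ⊕ (Fin u × Fin n₀)))
    [NeZero q] (l : Fin m) : Finset (ZMod q × ZMod q) :=
  univ.filter (fun P => Sum.inl (l, P) ∈ T)

/-- The points of `T` in the copy `γ`. -/
def cp {q m u n₀ : ℕ} (T : Finset ((Fin m × (ZMod q × ZMod q)) ⊕ (Fin u × Fin n₀)))
    (γ : Fin u) : Finset (Fin n₀) :=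
  univ.filter (fun x => Sum.inr (γ, x) ∈ T)

/-- The union of the lines of direction `sym f l` and intercept `z l` in the planes `l ∈ J`. -/
def blk {q w m : ℕ} [NeZero q] (α β : Fin m → ZMod q) (f : Fin w → ZMod q)
    (z : Fin m → ZMod q) (J : Finset (Fin m)) : Finset (Fin m × (ZMod q × ZMod q)) :=
  univ.filter (fun x => x.1 ∈ J ∧ icp (sym α β f x.1) x.2 = z x.1)

/-- The member given by the codeword `f`, the word `z`, the set `J` and the set `B` in the
copy `γ`. -/
def memb {q w m u n₀ : ℕ} [NeZero q] (α β : Fin m → ZMod q) (f : Fin w → ZMod q)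
    (z : Fin m → ZMod q) (J : Finset (Fin m)) (γ : Fin u) (B : Finset (Fin n₀)) :
    Finset ((Fin m × (ZMod q × ZMod q)) ⊕ (Fin u × Fin n₀)) :=
  (blk α β f z J).disjSum ({γ} ×ˢ B)

/-- The base family. -/
def fam {q w m u n₀ κ : ℕ} [NeZero q] (s : ℕ) (α β : Fin m → ZMod q)
    (g : (Fin w → ZMod q) → Fin u) (z : (Fin w → ZMod q) → Fin κ → Fin m → ZMod q)
    (Z : Fin κ → Set (Finset (Fin n₀))) :
    Set (Finset ((Fin m × (ZMod q × ZMod q)) ⊕ (Fin u × Fin n₀))) :=
  {A | ∃ f c J B, J.card = s ∧ B ∈ Z c ∧ A = memb α β f (z f c) J (g f) B}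

variable {q w m u n₀ κ s b : ℕ} [Fact q.Prime]

theorem mem_pl (T : Finset ((Fin m × (ZMod q × ZMod q)) ⊕ (Fin u × Fin n₀))) (l : Fin m)
    (P : ZMod q × ZMod q) : P ∈ pl T l ↔ Sum.inl (l, P) ∈ T := by
  simp [pl]

theorem mem_cp (T : Finset ((Fin m × (ZMod q × ZMod q)) ⊕ (Fin u × Fin n₀))) (γ : Fin u)
    (x : Fin n₀) : x ∈ cp T γ ↔ Sum.inr (γ, x) ∈ T := by
  simp [cp]

theorem card_parts (T : Finset ((Fin m × (ZMod q × ZMod q)) ⊕ (Fin u × Fin n₀))) :
    T.card = ∑ l, (pl T l).card + ∑ γ, (cp T γ).card := by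
  classical
  have h1 : T.card = ∑ x : (Fin m × (ZMod q × ZMod q)) ⊕ (Fin u × Fin n₀),
      if x ∈ T then 1 else 0 := by
    rw [← Finset.card_filter]
    congr 1
    ext x
    simp
  rw [h1, Fintype.sum_sum_type, Fintype.sum_prod_type, Fintype.sum_prod_type]
  congr 1
  · refine Finset.sum_congr rfl fun l _ => ?_
    rw [pl, Finset.card_filter]
  · refine Finset.sum_congr rfl fun l _ => ?_
    rw [cp, Finset.card_filter]

theorem eq_of_parts (T T' : Finset ((Fin m × (ZMod q × ZMod q)) ⊕ (Fin u × Fin n₀)))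
    (h : ∀ l, pl T l = pl T' l) (h' : ∀ γ, cp T γ = cp T' γ) : T = T' := by
  ext x
  rcases x with ⟨l, P⟩ | ⟨γ, y⟩
  · rw [← mem_pl, ← mem_pl, h]
  · rw [← mem_cp, ← mem_cp, h']

theorem card_blk (α β : Fin m → ZMod q) (f : Fin w → ZMod q) (z : Fin m → ZMod q)
    (J : Finset (Fin m)) : (blk α β f z J).card = J.card * q := by
  classical
  rw [blk, Finset.card_filter, Fintype.sum_prod_type]
  have h1 : ∀ l : Fin m, (∑ P : ZMod q × ZMod q,
      if (l, P).1 ∈ J ∧ icp (sym α β f (l, P).1) (l, P).2 = z (l, P).1 then 1 else 0) =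
      if l ∈ J then q else 0 := by
    intro l
    by_cases h : l ∈ J
    · rw [if_pos h]
      have h2 := card_lin (sym α β f l) (z l)
      rw [lin, Finset.card_filter] at h2
      refine Eq.trans (Finset.sum_congr rfl fun P _ => ?_) h2
      simp only [h, true_and]
    · rw [if_neg h]
      refine Finset.sum_eq_zero fun P _ => ?_
      rw [if_neg]
      exact fun h2 => h h2.1
  rw [Finset.sum_congr rfl fun l _ => h1 l, ← Finset.sum_filter, Finset.sum_const, smul_eq_mul]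
  congr 2
  ext l
  simp

theorem card_memb (α β : Fin m → ZMod q) (f : Fin w → ZMod q) (z : Fin m → ZMod q)
    (J : Finset (Fin m)) (γ : Fin u) (B : Finset (Fin n₀)) :
    (memb α β f z J γ B).card = J.card * q + B.card := by
  rw [memb, card_disjSum, card_product, card_singleton, one_mul, card_blk]

theorem mem_blk (α β : Fin m → ZMod q) (f : Fin w → ZMod q) (z : Fin m → ZMod q)
    (J : Finset (Fin m)) (l : Fin m) (P : ZMod q × ZMod q) :
    (l, P) ∈ blk α β f z J ↔ l ∈ J ∧ icp (sym α β f l) P = z l := by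
  simp [blk]

theorem fam_meets (α β : Fin m → ZMod q) (hinj : Function.Injective (Sum.elim α β))
    (hm : m + w = 2 * s) (hw : 1 ≤ w)
    (g : (Fin w → ZMod q) → Fin u) (z : (Fin w → ZMod q) → Fin κ → Fin m → ZMod q)
    (Z : Fin κ → Set (Finset (Fin n₀)))
    (hZ2 : ∀ c c', c ≠ c' → ∀ A ∈ Z c, ∀ B ∈ Z c', Meets A B) :
    ∀ A ∈ fam s α β g z Z, ∀ B ∈ fam s α β g z Z, Meets A B := by
  classical
  rintro _ ⟨f, c, J, B, hJ, hB, rfl⟩ _ ⟨f', c', J', B', hJ', hB', rfl⟩
  have hJJ : w ≤ (J ∩ J').card := by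
    have h1 := card_union_add_card_inter J J'
    have h2 := card_le_univ (J ∪ J')
    rw [Fintype.card_fin] at h2
    omega
  by_cases hf : f = f'
  · subst hf
    by_cases hc : c = c'
    · subst hc
      obtain ⟨l, hl⟩ : (J ∩ J').Nonempty := Finset.card_pos.1 (by omega)
      rw [mem_inter] at hl
      have h1 : 0 < (lin (sym α β f l) (z f c l)).card := by
        rw [card_lin]
        exact (Fact.out : q.Prime).pos
      obtain ⟨P, hP⟩ := Finset.card_pos.1 h1
      rw [mem_lin] at hP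
      refine ⟨Sum.inl (l, P), ?_, ?_⟩
      · exact inl_mem_disjSum.2 ((mem_blk α β f _ J l P).2 ⟨hl.1, hP⟩)
      · exact inl_mem_disjSum.2 ((mem_blk α β f _ J' l P).2 ⟨hl.2, hP⟩)
    · obtain ⟨y, hy, hy'⟩ := hZ2 c c' hc B hB B' hB'
      refine ⟨Sum.inr (g f, y), ?_, ?_⟩
      · exact inr_mem_disjSum.2 (mem_product.2 ⟨mem_singleton.2 rfl, hy⟩)
      · exact inr_mem_disjSum.2 (mem_product.2 ⟨mem_singleton.2 rfl, hy'⟩)
  · have h1 := agree_lt α β hinj f f' hf
    obtain ⟨l, hl, hl'⟩ : ∃ l ∈ J ∩ J', l ∉ univ.filter (fun l => sym α β f l = sym α β f' l) :=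
      Finset.exists_mem_notMem_of_card_lt_card (lt_of_lt_of_le h1 hJJ)
    rw [mem_inter] at hl
    have h2 : sym α β f l ≠ sym α β f' l := fun h => hl' (mem_filter.2 ⟨mem_univ _, h⟩)
    obtain ⟨P, hP, hP'⟩ := exists_inter h2 (z f c l) (z f' c' l)
    refine ⟨Sum.inl (l, P), ?_, ?_⟩
    · exact inl_mem_disjSum.2 ((mem_blk α β f _ J l P).2 ⟨hl.1, hP⟩)
    · exact inl_mem_disjSum.2 ((mem_blk α β f' _ J' l P).2 ⟨hl.2, hP'⟩)

theorem blk_free (α β : Fin m → ZMod q)
    (g : (Fin w → ZMod q) → Fin u) (z : (Fin w → ZMod q) → Fin κ → Fin m → ZMod q)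
    (Z : Fin κ → Set (Finset (Fin n₀)))
    (T : Finset ((Fin m × (ZMod q × ZMod q)) ⊕ (Fin u × Fin n₀)))
    (hT : Cov T (fam s α β g z Z)) (f : Fin w → ZMod q) (c : Fin κ)
    (hbad : s ≤ (univ.filter (fun l => z f c l ∈ miss (pl T l) (sym α β f l))).card) :
    Cov (cp T (g f)) (Z c) := by
  classical
  intro B hB
  obtain ⟨J, hJ, hJc⟩ := Finset.exists_subset_card_eq hbad
  obtain ⟨x, hxT, hx⟩ := hT (memb α β f (z f c) J (g f) B) ⟨f, c, J, B, hJc, hB, rfl⟩
  rcases x with ⟨l, P⟩ | ⟨γ, y⟩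
  · exfalso
    have h1 := (mem_blk α β f (z f c) J l P).1 (inl_mem_disjSum.1 hx)
    have h2 := (mem_filter.1 (hJ h1.1)).2
    rw [mem_miss] at h2
    exact h2 P ((mem_pl T l P).2 hxT) h1.2
  · have h1 := mem_product.1 (inr_mem_disjSum.1 hx)
    have h2 : γ = g f := mem_singleton.1 h1.1
    subst h2
    exact ⟨y, (mem_cp T _ y).2 hxT, h1.2⟩

end Pool.Agent.H14.KN
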