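import Pool.Agent.H14.KN.LineRec
import Pool.Agent.H14.KN.CodeBasic

/-!
[H14 KN SLO] A point set that is structured with respect to the codeword `f₀` and for which
several words of `f₀` are good has many points.

`struct_ge`: for `l ∈ H` some direction differs from `sym f₀ l` and from `some (pe f₀ (α l))`
(there are `q + 1 ≥ 3` directions), so `q ≤ (T l).card` by `card_miss_ge`.

`hits_le`: the number of `c ∈ J` with `y c ∈ S` is at most `|S| + (|J| - |J.image y|)`: for each
value `v` let `μ v = #{c ∈ J | y c = v}`; then `∑_{v ∈ S} μ v ≤ |S| + ∑_v (μ v - 1)` (natural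
subtraction) and `∑_{v ∈ J.image y} (μ v - 1) = |J| - |J.image y|`.

`slots`: let `e = ∑ (T l).card - s q ≥ 0`, `e ≤ q`.
(1) Let `J' ⊆ J`, `j = |J'| ≥ 2`, `200 j ≤ q`. Let `W = {l ∈ H | sym f₀ l = none}`, `|W| ≤ w`
(`inf_le`). For `l ∈ H \ W` the two excepted directions coincide, so by `hit_le` the number
`ν l = q - |miss (T l) (sym f₀ l)|` of hit lines is at most `|T l| - (q - 1)`; for `l ∉ H` it is
at most `|T l|` (`card_miss_ge`). As `|T l| ≥ q` on `H` and `|H| = s`:
`∑_{l ∉ W} ν l ≤ ∑_{l∈H} (|T l| - q) + s + ∑_{l∉H} |T l| = e + s`.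
Every word `z c`, `c ∈ J'`, hits `T` in at least `m - (s-1) = s - w + 1` planes, so in at least
`s - 2 w + 1` planes outside `W`. By `hits_le` (with `S = (miss (T l) (sym f₀ l))ᶜ` and
`y c = z c l`): `j (s - 2w + 1) ≤ ∑_{l∉W} ν l + coll z J' ≤ e + s + coll z J'`, and
`8 coll z J' < j s`. So `8 e ≥ 8 j (s - 2w) - 8 s - j s ≥ 3 j s - 16 w j ≥ 2 j s` (`8 s ≤ 4 j s`,
`16 w ≤ s`). So `j s ≤ 4 e`.
(2) `200 |J| ≤ q`: take `J' = J`. Otherwise take `J' ⊆ J` of size `q/200` (natural division; it is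
at least `2`): `(q/200) s ≤ 4 e ≤ 4 q`, impossible since `s ≥ 2^80`, `q/200 ≥ q/400`.
-/

namespace Pool.Agent.H14.KN

open Finset

theorem hits_le {κ q : ℕ} [Fact q.Prime] (J : Finset (Fin κ)) (y : Fin κ → ZMod q)
    (S : Finset (ZMod q)) :
    (J.filter (fun c => y c ∈ S)).card ≤ S.card + (J.card - (J.image y).card) := by
  classical
  set A := J.filter (fun c => y c ∈ S) with hA
  set B := J.filter (fun c => ¬ y c ∈ S) with hB
  have h1 : A.card + B.card = J.card := card_filter_add_card_filter_not _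
  have h2 : J.image y ⊆ S ∪ B.image y := by
    intro v hv
    obtain ⟨c, hc, rfl⟩ := mem_image.1 hv
    by_cases h : y c ∈ S
    · exact mem_union_left _ h
    · exact mem_union_right _ (mem_image_of_mem _ (mem_filter.2 ⟨hc, h⟩))
  have h3 := card_le_card h2
  have h4 := card_union_le S (B.image y)
  have h5 : (B.image y).card ≤ B.card := card_image_le
  have h6 : (J.image y).card ≤ J.card := card_image_le
  omega

variable {q w s m r κ : ℕ} [Fact q.Prime]

theorem struct_ge (hP : Par q w s m r) (α β : Fin m → ZMod q)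
    (T : Fin m → Finset (ZMod q × ZMod q)) (f₀ : Fin w → ZMod q) (H : Finset (Fin m))
    (hS : ∀ l ∈ H, ∀ δ, δ ≠ sym α β f₀ l → δ ≠ some (pe f₀ (α l)) → miss (T l) δ = ∅) :
    (∀ l ∈ H, q ≤ (T l).card) ∧ H.card * q ≤ ∑ l, (T l).card := by
  classical
  have h1 : ∀ l ∈ H, q ≤ (T l).card := by
    intro l hl
    have hq2 : 2 ≤ q := (Fact.out : q.Prime).two_le
    obtain ⟨δ, hδ⟩ : ∃ δ : Option (ZMod q), δ ∉ ({sym α β f₀ l, some (pe f₀ (α l))} :
        Finset (Option (ZMod q))) := by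
      by_contra hcon
      push Not at hcon
      have h2 : ({sym α β f₀ l, some (pe f₀ (α l))} : Finset (Option (ZMod q))) = univ :=
        Finset.eq_univ_of_forall hcon
      have h3 := congrArg Finset.card h2
      rw [card_univ, Fintype.card_option, ZMod.card] at h3
      have h4 := Finset.card_le_two (a := sym α β f₀ l) (b := some (pe f₀ (α l)))
      omega
    rw [mem_insert, mem_singleton, not_or] at hδ
    have h2 := hS l hl δ hδ.1 hδ.2
    have h3 := card_miss_ge (T l) δ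
    rw [h2, card_empty] at h3
    omega
  refine ⟨h1, ?_⟩
  calc H.card * q = H.card • q := by rw [smul_eq_mul]
    _ ≤ ∑ l ∈ H, (T l).card := Finset.card_nsmul_le_sum _ _ _ h1
    _ ≤ ∑ l, (T l).card := Finset.sum_le_sum_of_subset (subset_univ _)

private theorem slots_small (hP : Par q w s m r) (α β : Fin m → ZMod q)
    (hinj : Function.Injective (Sum.elim α β))
    (T : Fin m → Finset (ZMod q × ZMod q))
    (f₀ : Fin w → ZMod q) (H : Finset (Fin m)) (hH : H.card = s)
    (hS : ∀ l ∈ H, ∀ δ, δ ≠ sym α β f₀ l → δ ≠ some (pe f₀ (α l)) → miss (T l) δ = ∅)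
    (z : Fin κ → Fin m → ZMod q)
    (J : Finset (Fin κ)) (hz : 8 * coll z J < J.card * s) (hJ : ∀ c ∈ J,
      (univ.filter (fun l => z c l ∈ miss (T l) (sym α β f₀ l))).card < s)
    (hJ2 : 2 ≤ J.card) : J.card * s + 4 * (s * q) ≤ 4 * ∑ l, (T l).card := by
  classical
  obtain ⟨hge, -⟩ := struct_ge hP α β T f₀ H hS
  have hq1 : 1 ≤ q := hP.prime.pos
  have hm := hP.hm
  have hw16 : 16 * w ≤ s := by
    have h1 : 16 ≤ w ^ 3 := by
      have h2 : 16 ≤ w := le_trans (by norm_num) hP.hw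
      calc 16 ≤ w := h2
        _ = w ^ 1 := (pow_one w).symm
        _ ≤ w ^ 3 := Nat.pow_le_pow_right (by omega) (by norm_num)
    calc 16 * w ≤ w ^ 3 * w := Nat.mul_le_mul_right w h1
      _ = w ^ 4 := by ring
      _ ≤ s := hP.hs
  set W : Finset (Fin m) := univ.filter (fun l => sym α β f₀ l = none) with hW
  have hWc : W.card ≤ w := inf_le α β hinj f₀
  set M : Fin m → Finset (ZMod q) := fun l => miss (T l) (sym α β f₀ l) with hM
  -- number of hit lines
  have hν : ∀ l ∈ Wᶜ, (((M l)ᶜ.card : ℕ) : ℤ) ≤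
      if l ∈ H then ((T l).card : ℤ) - q + 1 else ((T l).card : ℤ) := by
    intro l hl
    have h1 : (M l)ᶜ.card + (M l).card = q := by
      rw [card_compl_add_card, ZMod.card]
    have h1' : (((M l)ᶜ.card : ℕ) : ℤ) + (((M l).card : ℕ) : ℤ) = q := by exact_mod_cast h1
    have hsym : sym α β f₀ l = some (pe f₀ (α l)) := by
      have h2 : ¬ sym α β f₀ l = none := fun h => (mem_compl.1 hl) (mem_filter.2 ⟨mem_univ _, h⟩)
      unfold sym at h2 ⊢
      split_ifs at h2 ⊢ with h3
      · exact absurd rfl h2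
      · rfl
    split_ifs with hlH
    · have h2 := hit_le (T l) (sym α β f₀ l)
        (fun δ' hδ' => hS l hlH δ' hδ' (by rw [← hsym]; exact hδ'))
      have h3 : 2 * q ≤ (T l).card + (M l).card + 1 := by
        have : 2 * q - 1 ≤ (T l).card + (M l).card := h2
        omega
      have h4 : 2 * (q : ℤ) ≤ ((T l).card : ℤ) + (((M l).card : ℕ) : ℤ) + 1 := by
        exact_mod_cast h3
      linarith
    · have h2 : q ≤ (M l).card + (T l).card := card_miss_ge (T l) (sym α β f₀ l)
      have h3 : (q : ℤ) ≤ (((M l).card : ℕ) : ℤ) + ((T l).card : ℤ) := by exact_mod_cast h2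
      linarith
  have hνsum : ∑ l ∈ Wᶜ, (((M l)ᶜ.card : ℕ) : ℤ) ≤
      ∑ l, ((T l).card : ℤ) - s * q + s := by
    have h1 : ∀ l, (0 : ℤ) ≤ if l ∈ H then ((T l).card : ℤ) - q + 1 else ((T l).card : ℤ) := by
      intro l
      split_ifs with hlH
      · have : (q : ℤ) ≤ ((T l).card : ℤ) := by exact_mod_cast hge l hlH
        linarith
      · positivity
    have h2 : ∑ l, (if l ∈ H then ((T l).card : ℤ) - q + 1 else ((T l).card : ℤ)) =
        ∑ l, ((T l).card : ℤ) - s * q + s := by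
      have h3 : ∀ l, (if l ∈ H then ((T l).card : ℤ) - q + 1 else ((T l).card : ℤ)) =
          ((T l).card : ℤ) + (if l ∈ H then (1 - (q : ℤ)) else 0) := by
        intro l
        split_ifs <;> ring
      rw [Finset.sum_congr rfl fun l _ => h3 l, Finset.sum_add_distrib, ← Finset.sum_filter,
        Finset.sum_const, Finset.filter_univ_mem, hH, nsmul_eq_mul]
      ring
    rw [← h2]
    refine (Finset.sum_le_sum hν).trans ?_
    exact Finset.sum_le_sum_of_subset_of_nonneg (subset_univ _) fun l _ _ => h1 l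
  -- every good word hits many planes
  have hgood : ∀ c ∈ J, s + 1 ≤ (Wᶜ.filter (fun l => z c l ∈ (M l)ᶜ)).card + 2 * w := by
    intro c hc
    have h1 : (univ.filter (fun l => z c l ∈ M l)).card < s := hJ c hc
    have h2 : (univ : Finset (Fin m)) ⊆ (univ.filter (fun l => z c l ∈ M l)) ∪
        (W ∪ Wᶜ.filter (fun l => z c l ∈ (M l)ᶜ)) := by
      intro l _
      by_cases h3 : z c l ∈ M l
      · exact mem_union_left _ (mem_filter.2 ⟨mem_univ _, h3⟩)
      · refine mem_union_right _ ?_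
        by_cases h4 : l ∈ W
        · exact mem_union_left _ h4
        · exact mem_union_right _ (mem_filter.2 ⟨mem_compl.2 h4, mem_compl.2 h3⟩)
    have h3 := card_le_card h2
    rw [card_univ, Fintype.card_fin] at h3
    have h4 := card_union_le (univ.filter (fun l => z c l ∈ M l))
      (W ∪ Wᶜ.filter (fun l => z c l ∈ (M l)ᶜ))
    have h5 := card_union_le W (Wᶜ.filter (fun l => z c l ∈ (M l)ᶜ))
    omega
  have hdc : ∑ c ∈ J, (Wᶜ.filter (fun l => z c l ∈ (M l)ᶜ)).card =
      ∑ l ∈ Wᶜ, (J.filter (fun c => z c l ∈ (M l)ᶜ)).card :=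
    Finset.sum_card_bipartiteAbove_eq_sum_card_bipartiteBelow (fun c l => z c l ∈ (M l)ᶜ)
  have hhits : ∑ l ∈ Wᶜ, (J.filter (fun c => z c l ∈ (M l)ᶜ)).card ≤
      ∑ l ∈ Wᶜ, (M l)ᶜ.card + coll z J := by
    calc ∑ l ∈ Wᶜ, (J.filter (fun c => z c l ∈ (M l)ᶜ)).card
        ≤ ∑ l ∈ Wᶜ, ((M l)ᶜ.card + (J.card - (J.image (fun c => z c l)).card)) :=
          Finset.sum_le_sum fun l _ => hits_le J (fun c => z c l) ((M l)ᶜ)
      _ = ∑ l ∈ Wᶜ, (M l)ᶜ.card + ∑ l ∈ Wᶜ, (J.card - (J.image (fun c => z c l)).card) :=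
          Finset.sum_add_distrib
      _ ≤ ∑ l ∈ Wᶜ, (M l)ᶜ.card + coll z J := by
          refine Nat.add_le_add_left ?_ _
          exact Finset.sum_le_sum_of_subset (subset_univ _)
  have hlow : J.card * (s + 1) ≤
      ∑ c ∈ J, (Wᶜ.filter (fun l => z c l ∈ (M l)ᶜ)).card + J.card * (2 * w) := by
    calc J.card * (s + 1) = J.card • (s + 1) := by rw [smul_eq_mul]
      _ ≤ ∑ c ∈ J, ((Wᶜ.filter (fun l => z c l ∈ (M l)ᶜ)).card + 2 * w) :=
          Finset.card_nsmul_le_sum _ _ _ hgood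
      _ = _ := by rw [Finset.sum_add_distrib, Finset.sum_const, smul_eq_mul]
  have h1 : ((J.card : ℤ)) * (s + 1) ≤ (∑ l, ((T l).card : ℤ) - s * q + s) + coll z J +
      J.card * (2 * w) := by
    have h2 : (J.card : ℤ) * (s + 1) ≤
        (∑ l ∈ Wᶜ, (((M l)ᶜ.card : ℕ) : ℤ) + coll z J) + J.card * (2 * w) := by
      have h3 : J.card * (s + 1) ≤ (∑ l ∈ Wᶜ, (M l)ᶜ.card + coll z J) + J.card * (2 * w) := by
        refine hlow.trans ?_
        rw [hdc]
        exact Nat.add_le_add_right hhits _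
      exact_mod_cast h3
    linarith
  have h2 : 8 * (coll z J : ℤ) < J.card * s := by exact_mod_cast hz
  have h3 : 16 * (w : ℤ) ≤ s := by exact_mod_cast hw16
  have h4 : (2 : ℤ) ≤ J.card := by exact_mod_cast hJ2
  have h5 : (J.card : ℤ) * (16 * w) ≤ J.card * s := mul_le_mul_of_nonneg_left h3 (by positivity)
  have h6 : (2 : ℤ) * s ≤ J.card * s := mul_le_mul_of_nonneg_right h4 (by positivity)
  have h7 : (J.card : ℤ) * s + 4 * (s * q) ≤ 4 * ∑ l, ((T l).card : ℤ) := by
    nlinarith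
  exact_mod_cast h7

theorem slots (hP : Par q w s m r) (α β : Fin m → ZMod q)
    (hinj : Function.Injective (Sum.elim α β))
    (T : Fin m → Finset (ZMod q × ZMod q)) (hT : ∑ l, (T l).card ≤ (s + 1) * q)
    (f₀ : Fin w → ZMod q) (H : Finset (Fin m)) (hH : H.card = s)
    (hS : ∀ l ∈ H, ∀ δ, δ ≠ sym α β f₀ l → δ ≠ some (pe f₀ (α l)) → miss (T l) δ = ∅)
    (z : Fin κ → Fin m → ZMod q)
    (hz : ∀ J : Finset (Fin κ), 2 ≤ J.card → 200 * J.card ≤ q → 8 * coll z J < J.card * s)
    (J : Finset (Fin κ)) (hJ : ∀ c ∈ J,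
      (univ.filter (fun l => z c l ∈ miss (T l) (sym α β f₀ l))).card < s)
    (hJ2 : 2 ≤ J.card) : J.card * s + 4 * (s * q) ≤ 4 * ∑ l, (T l).card := by
  classical
  by_cases hq : 200 * J.card ≤ q
  · exact slots_small hP α β hinj T f₀ H hH hS z J (hz J hJ2 hq) hJ hJ2
  · exfalso
    have hw1 : 2000 ≤ w := le_trans (by norm_num) hP.hw
    have hws : w ≤ s := le_trans (by
      calc w = w ^ 1 := (pow_one w).symm
        _ ≤ w ^ 4 := Nat.pow_le_pow_right (by omega) (by norm_num)) hP.hs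
    have hwm : w ≤ m := by
      have := hP.hm
      omega
    have hmq : m ≤ q := le_trans (by
      calc m = m ^ 1 := (pow_one m).symm
        _ ≤ m ^ 10 := Nat.pow_le_pow_right (by omega) (by norm_num)) hP.hmq
    obtain ⟨j, hj⟩ : ∃ j, j = q / 200 := ⟨_, rfl⟩
    have hj2 : 2 ≤ j := by omega
    have hjJ : j ≤ J.card := by omega
    have hjq : 200 * j ≤ q := by omega
    have hjq' : q ≤ 400 * j := by omega
    obtain ⟨J', hJ', hJc⟩ := Finset.exists_subset_card_eq hjJ
    have h1 := slots_small hP α β hinj T f₀ H hH hS z J'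
      (hz J' (by omega) (by rw [hJc]; exact hjq)) (fun c hc => hJ c (hJ' hc)) (by omega)
    rw [hJc] at h1
    have h2 : j * s ≤ 4 * q := by
      have h3 : 4 * ((s + 1) * q) = 4 * (s * q) + 4 * q := by ring
      omega
    have h3 : j * s ≤ j * 1600 := by
      calc j * s ≤ 4 * q := h2
        _ ≤ 4 * (400 * j) := Nat.mul_le_mul_left 4 hjq'
        _ = j * 1600 := by ring
    have h4 : s ≤ 1600 := Nat.le_of_mul_le_mul_left h3 (by omega)
    omega

end Pool.Agent.H14.KN
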