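import Pool.Agent.H14.KN.Main
import Pool.Agent.H14.KN.Fam
import Pool.Agent.H14.KN.Slots

/-!
[H14 KN CVR] Covers of the base family with at most `s q + b` points.

Let `t = ∑ l, (pl T l).card`, `t^γ = (cp T γ).card`, `T.card = t + ∑_γ t^γ` (`card_parts`). Since
`b + 1 ≤ q`, `t + 1 ≤ s q + b + 1 ≤ (s + 1) q`: `main_lemma` applies to `pl T`.
(1) If `q^(m+5) ≤ ∑_f nb f`: by `hz1`, for all `γ` and `c` there is an `f` with `g f = γ` for which
the word `z f c` is bad, so `cp T γ` covers `Z c` (`blk_free`). So every `cp T γ` covers all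
classes and has at least `b + 1` points (`hZ3`), `T.card ≥ u (b+1) ≥ s q + b + 1`,
contradiction.
(2) Otherwise there are `f₀, H` as in the conclusion. `s q ≤ t` (`struct_ge`). Let `J` be the set
of the `c` for which `z f₀ c` is good, i.e. fewer than `s` planes have
`z f₀ c l ∈ miss (pl T l) (sym f₀ l)`. For `c ∉ J` the set `cp T (g f₀)` covers `Z c`
(`blk_free`).
 * `J = ∅`: `cp T (g f₀)` covers all classes, so it has `≥ b + 1` points; `T.card ≥ s q + b + 1`,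
   contradiction.
 * `|J| ≥ 2`: by `hZ4` `b + σ ≤ t^{g f₀} + σ |J|`, by `slots` `|J| s + 4 s q ≤ 4 t`. So
   `4 T.card ≥ 4 t + 4 t^{g f₀} ≥ |J| s + 4 s q + 4 b + 4 σ - 4 σ |J| ≥ 4 s q + 4 b + 4 σ` if
   `4 σ ≤ s`. This is `> 4 (s q + b)` if `σ ≥ 1`; for `σ = 0` use `|J| s > 0`. Contradiction.
   (In both cases `|J| s - 4 σ |J| + 4 σ > 0`: it is `≥ 4 σ` and, if `σ = 0`, it is `|J| s > 0`.)
 * `J = {c}`: `hZ4` with `U = {c}` gives `b ≤ t^{g f₀}`. With `s q ≤ t` and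
   `T.card ≤ s q + b`: `t = s q`, `t^{g f₀} = b` and `t^γ = 0` for `γ ≠ g f₀`. This is the
   conclusion.
-/

namespace Pool.Agent.H14.KN

open Finset

theorem cover_cases {q w s m r u n₀ κ b σ : ℕ} [Fact q.Prime] (hP : Par q w s m r)
    (α β : Fin m → ZMod q) (hinj : Function.Injective (Sum.elim α β))
    (g : (Fin w → ZMod q) → Fin u) (z : (Fin w → ZMod q) → Fin κ → Fin m → ZMod q)
    (hz1 : ∀ T : Fin m → Finset (ZMod q × ZMod q),
        q ^ (m + 5) ≤ ∑ f : Fin w → ZMod q, nb α β s T f →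
        ∀ (γ : Fin u) (c : Fin κ), ∃ f, g f = γ ∧
          s ≤ (univ.filter (fun l => z f c l ∈ miss (T l) (sym α β f l))).card)
    (hz2 : ∀ (f : Fin w → ZMod q) (J : Finset (Fin κ)), 2 ≤ J.card →
        200 * J.card ≤ q → 8 * coll (z f) J < J.card * s)
    (Z : Fin κ → Set (Finset (Fin n₀)))
    (hZ3 : ∀ T : Finset (Fin n₀), (∀ c, Cov T (Z c)) → b + 1 ≤ T.card)
    (hZ4 : ∀ T : Finset (Fin n₀), ∀ U : Finset (Fin κ), U.Nonempty →
      (∀ c, c ∉ U → Cov T (Z c)) → b + σ ≤ T.card + σ * U.card)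
    (hb : b + 1 ≤ q) (hσ : 4 * σ ≤ s) (hu : s * q + b + 1 ≤ u * (b + 1))
    (T : Finset ((Fin m × (ZMod q × ZMod q)) ⊕ (Fin u × Fin n₀)))
    (hT : Cov T (fam s α β g z Z)) (hTc : T.card ≤ s * q + b) :
    T.card = s * q + b ∧ ∃ (f₀ : Fin w → ZMod q) (H : Finset (Fin m)) (c : Fin κ),
      H.card = s ∧
      (∀ l ∈ H, ∀ δ, δ ≠ sym α β f₀ l → δ ≠ some (pe f₀ (α l)) → miss (pl T l) δ = ∅) ∧
      ∑ l, (pl T l).card = s * q ∧ (cp T (g f₀)).card = b ∧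
      (∀ γ, γ ≠ g f₀ → cp T γ = ∅) ∧ (∀ c', c' ≠ c → Cov (cp T (g f₀)) (Z c')) ∧
      (univ.filter (fun l => z f₀ c l ∈ miss (pl T l) (sym α β f₀ l))).card < s := by
  sorry

end Pool.Agent.H14.KN
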