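import Mathlib

/-!
MP_3036ab_co, project KN (helper14): the order of magnitude of `log i(n,k)`.
Common definitions. Everything is elementary; there are no proofs in this file except
trivial ones.
-/

namespace Pool.Agent.H14.KN

open Finset

/-! ### Covers and families -/

/-- `T` meets `A`. -/
def Meets {α : Type} (T A : Finset α) : Prop := ∃ x ∈ T, x ∈ A

/-- `T` meets every member of the family `F`. -/
def Cov {α : Type} (T : Finset α) (F : Set (Finset α)) : Prop := ∀ A ∈ F, Meets T A

/-- There is an intersecting family of `k`-sets on `α` such that every cover has at least `k`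
elements and at most `N` covers have exactly `k` elements. -/
def PF (α : Type) (k N : ℕ) : Prop :=
  ∃ F : Set (Finset α), (∀ A ∈ F, A.card = k) ∧ (∀ A ∈ F, ∀ B ∈ F, Meets A B) ∧
    (∀ T : Finset α, Cov T F → k ≤ T.card) ∧
    ∃ K : Finset (Finset α), K.card ≤ N ∧ ∀ T : Finset α, T.card = k → Cov T F → T ∈ K

/-- Directional families: classes `Z c` of `b`-sets on `α`; sets of different classes meet;
a cover of all classes has more than `b` elements; a cover of all classes outside the nonempty
set `U` has at least `b - σ (|U| - 1)` elements; the `b`-sets that cover all classes except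
possibly one are at most `N` in number (counted with the exceptional class). -/
def DF (α ι : Type) (b N σ : ℕ) : Prop :=
  ∃ Z : ι → Set (Finset α), (∀ c, ∀ A ∈ Z c, A.card = b) ∧
    (∀ c c', c ≠ c' → ∀ A ∈ Z c, ∀ B ∈ Z c', Meets A B) ∧
    (∀ T : Finset α, (∀ c, Cov T (Z c)) → b + 1 ≤ T.card) ∧
    (∀ T : Finset α, ∀ U : Finset ι, U.Nonempty → (∀ c, c ∉ U → Cov T (Z c)) →
      b + σ ≤ T.card + σ * U.card) ∧
    ∃ K : Finset (ι × Finset α), K.card ≤ N ∧
      ∀ (c₀ : ι) (T : Finset α), T.card = b → (∀ c, c ≠ c₀ → Cov T (Z c)) → (c₀, T) ∈ K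

/-! ### The affine plane over `ZMod q` -/

/-- The intercept of the line of direction `δ` through the point `P`; `none` is the vertical
direction. The line with direction `δ` and intercept `c` is `{P | icp δ P = c}`. -/
def icp {q : ℕ} (δ : Option (ZMod q)) (P : ZMod q × ZMod q) : ZMod q :=
  match δ with
  | none => P.1
  | some d => P.2 - d * P.1

/-- The line with direction `δ` and intercept `c`. -/
def lin {q : ℕ} [NeZero q] (δ : Option (ZMod q)) (c : ZMod q) : Finset (ZMod q × ZMod q) :=
  univ.filter (fun P => icp δ P = c)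

/-- The intercepts of the lines of direction `δ` that are missed by `T`. -/
def miss {q : ℕ} [NeZero q] (T : Finset (ZMod q × ZMod q)) (δ : Option (ZMod q)) :
    Finset (ZMod q) :=
  univ.filter (fun c => ∀ P ∈ T, icp δ P ≠ c)

/-! ### The code -/

/-- The value at `x` of the polynomial with coefficients `f`. -/
def pe {q w : ℕ} (f : Fin w → ZMod q) (x : ZMod q) : ZMod q := ∑ i, f i * x ^ (i : ℕ)

/-- The symbol of the codeword `f` in the plane `l`. -/
def sym {q w m : ℕ} (α β : Fin m → ZMod q) (f : Fin w → ZMod q) (l : Fin m) :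
    Option (ZMod q) :=
  if pe f (β l) = β l ^ w then none else some (pe f (α l))

/-! ### The tail of a sum of independent indicators -/

/-- The probability that at least `s` of the independent events `l ∈ I` of probability `v l`
occur. -/
noncomputable def tail {ι : Type} [DecidableEq ι] (I : Finset ι) (v : ι → ℝ) (s : ℕ) : ℝ :=
  ∑ A ∈ I.powerset.filter (fun A => s ≤ A.card), (∏ l ∈ A, v l) * ∏ l ∈ I \ A, (1 - v l)

/-- Elementary symmetric function of the `v l`, `l ∈ I`. -/
noncomputable def esy {ι : Type} [DecidableEq ι] (I : Finset ι) (v : ι → ℝ) (y : ℕ) : ℝ :=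
  ∑ S ∈ I.powersetCard y, ∏ l ∈ S, v l

/-- The numbers of words that are bad for the point set `T` and the codeword `f`: at least `s`
of the lines with direction `sym f l` and intercept `z l` are missed by `T l`. -/
def nb {q w m : ℕ} [NeZero q] (α β : Fin m → ZMod q) (s : ℕ)
    (T : Fin m → Finset (ZMod q × ZMod q)) (f : Fin w → ZMod q) : ℕ :=
  (univ.filter (fun z : Fin m → ZMod q =>
    s ≤ (univ.filter (fun l => z l ∈ miss (T l) (sym α β f l))).card)).card

/-- The fraction of missed lines of direction `sym f l` in the plane `l`. -/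
noncomputable def vf {q w m : ℕ} [NeZero q] (α β : Fin m → ZMod q)
    (T : Fin m → Finset (ZMod q × ZMod q)) (f : Fin w → ZMod q) (l : Fin m) : ℝ :=
  ((miss (T l) (sym α β f l)).card : ℝ) / q

/-- Number of coincidences among the words `z c`, `c ∈ J`. -/
def coll {κ m q : ℕ} (z : Fin κ → Fin m → ZMod q) (J : Finset (Fin κ)) : ℕ :=
  ∑ l, (J.card - (J.image (fun c => z c l)).card)

/-! ### Weights on the directions -/

/-- Total weight in the plane `l`. -/
noncomputable def tot {q m : ℕ} [NeZero q] (U : Fin m → Option (ZMod q) → ℝ) (l : Fin m) : ℝ :=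
  ∑ δ, U l δ

/-- Weight of the symbol of `f`. -/
noncomputable def vh {q w m : ℕ} (α β : Fin m → ZMod q) (U : Fin m → Option (ZMod q) → ℝ)
    (f : Fin w → ZMod q) (l : Fin m) : ℝ := U l (sym α β f l)

/-- Formal weight of `f`: both formal symbols count. -/
noncomputable def uh {q w m : ℕ} (α β : Fin m → ZMod q) (U : Fin m → Option (ZMod q) → ℝ)
    (f : Fin w → ZMod q) (l : Fin m) : ℝ :=
  U l (some (pe f (α l))) + if pe f (β l) = β l ^ w then U l none else 0

/-- The difference of the formal weight and the weight. -/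
noncomputable def dh {q w m : ℕ} (α β : Fin m → ZMod q) (U : Fin m → Option (ZMod q) → ℝ)
    (f : Fin w → ZMod q) (l : Fin m) : ℝ :=
  if pe f (β l) = β l ^ w then U l (some (pe f (α l))) else 0

/-! ### Parameters -/

/-- The parameters: `q` lines in a parallel class, codewords with `w` coefficients, `m` planes,
`s` lines in a member, `r / q` is about `q ^ (-1/4)`. -/
structure Par (q w s m r : ℕ) : Prop where
  prime : q.Prime
  hm : m + w = 2 * s
  hw : 2 ^ 80 ≤ w
  hq2 : q ≤ 2 ^ w
  hs : w ^ 4 ≤ s
  hmq : m ^ 10 ≤ q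
  hr : q ^ 3 ≤ r ^ 4
  hmr : 4 * m * r ≤ q
  hr0 : 0 < r

end Pool.Agent.H14.KN
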