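import Pool.Agent.H14.KN.Defs

/-!
[H14 KN INT] The values of a random polynomial of degree `< w` at up to `w` different points are
independent and uniform. Mathlib only.

The map `f ↦ (pe f (x l))_{l ∈ S}` from `Fin w → ZMod q` to `S → ZMod q` is linear and
surjective: given values, `Lagrange.interpolate` gives a polynomial of degree
`< S.card ≤ w` with these values at the different points `x l`; its coefficients form `f`. A
surjective additive map between finite groups has all fibres of the same size
`q^w / q^(S.card) = q^(w - S.card)` (e.g. `card_fiber..`, or count with the kernel). So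
`∑_f ∏_{l ∈ S} φ l (pe f (x l)) = q^(w - S.card) * ∑_{g : S → ZMod q} ∏_{l} φ l (g l)`, and the
last sum is `∏_{l ∈ S} ∑_v φ l v` (`Finset.prod_univ_sum` or `Finset.prod_sum`).

Alternative: induction on `w - S.card` and `S` or direct use of `Matrix.vandermonde`.
-/

namespace Pool.Agent.H14.KN

open Finset

theorem interp_sum {q w : ℕ} [Fact q.Prime] {ι : Type} [DecidableEq ι] (S : Finset ι)
    (x : ι → ZMod q) (hx : Set.InjOn x (S : Set ι)) (hS : S.card ≤ w)
    (φ : ι → ZMod q → ℝ) :
    ∑ f : Fin w → ZMod q, ∏ l ∈ S, φ l (pe f (x l)) =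
      (q : ℝ) ^ (w - S.card) * ∏ l ∈ S, ∑ v, φ l v := by
  classical
  let ev : (Fin w → ZMod q) →+ (S → ZMod q) :=
    { toFun := fun f l => pe f (x l)
      map_zero' := by
        funext l
        simp [pe]
      map_add' := by
        intro f g
        funext l
        simp only [pe, Pi.add_apply, add_mul, Finset.sum_add_distrib] }
  have hev : ∀ f l, ev f l = pe f (x l) := fun f l => rfl
  have hsurj : Function.Surjective ev := by
    intro r
    let r' : ι → ZMod q := fun l => if h : l ∈ S then r ⟨l, h⟩ else 0
    let P : Polynomial (ZMod q) := Lagrange.interpolate S x r'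
    have hdeg : P.degree < (w : WithBot ℕ) := by
      refine (Lagrange.degree_interpolate_lt r' hx).trans_le ?_
      exact_mod_cast hS
    refine ⟨fun i => P.coeff i, ?_⟩
    funext l
    rw [hev]
    have h1 : pe (fun i : Fin w => P.coeff i) (x l) = P.eval (x l) := by
      unfold pe
      rcases Nat.eq_zero_or_pos w with h | h
      · subst h
        have hP : P = 0 := by
          rw [← Polynomial.degree_eq_bot]
          by_contra hne
          have h2 : P ≠ 0 := fun h3 => hne (by rw [h3, Polynomial.degree_zero])
          have h3 := Polynomial.zero_le_degree_iff.2 h2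
          exact absurd (h3.trans_lt hdeg) (by simp)
        rw [hP]
        simp
      · have h2 : P.natDegree < w := by
          by_cases hP : P = 0
          · rw [hP, Polynomial.natDegree_zero]
            exact h
          · rwa [Polynomial.natDegree_lt_iff_degree_lt hP]
        rw [Polynomial.eval_eq_sum_range' h2, Finset.sum_range]
    rw [h1]
    have h2 := Lagrange.eval_interpolate_at_node r' hx l.2
    rw [h2]
    simp only [r', l.2, dif_pos]
  have hfib : ∀ g : S → ZMod q, (univ.filter (fun f => ev f = g)).card = q ^ (w - S.card) := by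
    intro g
    have h1 : ∀ g' : S → ZMod q, (univ.filter (fun f => ev f = g')).card =
        (univ.filter (fun f => ev f = g)).card := fun g' =>
      AddMonoidHom.card_fiber_eq_of_mem_range ev (hsurj g') (hsurj g)
    have h2 : Fintype.card (Fin w → ZMod q) =
        ∑ g' : S → ZMod q, (univ.filter (fun f => ev f = g')).card := by
      rw [← Finset.card_univ]
      exact Finset.card_eq_sum_card_fiberwise fun f _ => Finset.mem_coe.2 (mem_univ _)
    rw [Finset.sum_congr rfl fun g' _ => h1 g', Finset.sum_const, Finset.card_univ,
      Fintype.card_fun, Fintype.card_fun, ZMod.card, Fintype.card_fin, Fintype.card_coe,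
      smul_eq_mul] at h2
    have hq : 0 < q := (Fact.out : q.Prime).pos
    have h3 : q ^ S.card * q ^ (w - S.card) = q ^ S.card * (univ.filter (fun f => ev f = g)).card := by
      rw [← h2, ← pow_add]
      congr 1
      omega
    exact (Nat.eq_of_mul_eq_mul_left (pow_pos hq _) h3).symm
  have hsum : ∑ f : Fin w → ZMod q, ∏ l ∈ S, φ l (pe f (x l)) =
      ∑ g : S → ZMod q, (q : ℝ) ^ (w - S.card) * ∏ l : S, φ l (g l) := by
    rw [← Finset.sum_fiberwise_of_maps_to (s := (univ : Finset (Fin w → ZMod q)))
      (t := (univ : Finset (S → ZMod q))) (g := ev) (fun f _ => mem_univ _)]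
    refine Finset.sum_congr rfl fun g _ => ?_
    have h1 : ∀ f ∈ univ.filter (fun f => ev f = g),
        ∏ l ∈ S, φ l (pe f (x l)) = ∏ l : S, φ l (g l) := by
      intro f hf
      rw [← (mem_filter.1 hf).2, ← Finset.prod_coe_sort S (fun l => φ l (pe f (x l)))]
      exact Finset.prod_congr rfl fun l _ => by rw [hev]
    rw [Finset.sum_congr rfl h1, Finset.sum_const, hfib g, nsmul_eq_mul]
    push_cast
    ring
  rw [hsum, ← Finset.mul_sum]
  congr 1
  rw [← Finset.prod_coe_sort S (fun l => ∑ v, φ l v)]
  rw [Finset.prod_univ_sum, Fintype.piFinset_univ]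

end Pool.Agent.H14.KN
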