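import Pool.Agent.H14.KN.Plane
import Pool.Agent.H14.KN.Jamison

/-!
[H14 KN REC] Recognition of lines: `q` points that meet all lines of all but at most two
directions form a line.

`line_of_two`: for a direction `δ ≠ δ₁, δ₂` the map `icp δ` is injective on `T`
(`injOn_of_hit`). So two different points `P, Q ∈ T` (there is a `δ` with `icp δ P = icp δ Q`,
`exists_join`) are joined by `δ₁` or by `δ₂`. As `q ≥ 2` take `P ≠ Q` in `T`, joined by
`δ* ∈ {δ₁, δ₂}`; let `c = icp δ* P`. Claim: every `R ∈ T` has `icp δ* R = c`. Otherwise `R ≠ P`,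
`R ≠ Q`, the direction joining `R` and `P` is not `δ*` (else `icp δ* R = c`), and the same for
`R` and `Q`; both directions lie in `{δ₁, δ₂}` and differ from `δ*`, so they are equal, say `δ°`.
Then `icp δ° P = icp δ° R = icp δ° Q`, so `P, Q` are joined by `δ*` and by `δ°`,
contradicting `join_unique`. So `T ⊆ lin δ* c`, and both have `q` elements.

`hit_le`: let `T` meet all lines of all directions but `δ`. By `jamison_miss` the sum over the
directions has only the term `δ`: `2q - 1 ≤ T.card + (miss T δ).card`.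

`eq_lin_of_hit`: with `T.card = q`, `hit_le` gives `(miss T δ).card ≥ q - 1`; the complement of
`miss T δ` in `ZMod q` has at most one element and contains `c` and all `icp δ P`, `P ∈ T`. So
`T ⊆ lin δ c`; both have `q` elements.
-/

namespace Pool.Agent.H14.KN

open Finset

variable {q : ℕ} [Fact q.Prime]

private theorem eq_lin_of_subset {T : Finset (ZMod q × ZMod q)} (hT : T.card = q)
    {δ : Option (ZMod q)} {c : ZMod q} (h : ∀ P ∈ T, icp δ P = c) : T = lin δ c := by
  apply eq_of_subset_of_card_le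
  · intro P hP
    rw [mem_lin]
    exact h P hP
  · rw [card_lin, hT]

theorem line_of_two (T : Finset (ZMod q × ZMod q)) (hT : T.card = q)
    (δ₁ δ₂ : Option (ZMod q)) (h : ∀ δ, δ ≠ δ₁ → δ ≠ δ₂ → miss T δ = ∅) :
    ∃ δ c, T = lin δ c := by
  have hq : 1 < T.card := by
    rw [hT]
    exact (Fact.out : q.Prime).one_lt
  obtain ⟨P, hP, Q, hQ, hPQ⟩ := one_lt_card.1 hq
  -- two different points of `T` are joined by one of the two directions
  have key : ∀ A ∈ T, ∀ B ∈ T, A ≠ B → ∀ δ, icp δ A = icp δ B → δ = δ₁ ∨ δ = δ₂ := by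
    intro A hA B hB hAB δ hδ
    by_contra hcon
    push Not at hcon
    exact hAB (injOn_of_hit hT (h δ hcon.1 hcon.2) hA hB hδ)
  obtain ⟨δs, hδs⟩ := exists_join P Q
  have h1 := key P hP Q hQ hPQ δs hδs
  refine ⟨δs, icp δs P, eq_lin_of_subset hT ?_⟩
  intro R hR
  by_contra hc
  have hRP : R ≠ P := fun h => hc (by rw [h])
  have hRQ : R ≠ Q := fun h => hc (by rw [h, hδs])
  obtain ⟨δa, ha⟩ := exists_join R P
  obtain ⟨δb, hb⟩ := exists_join R Q
  have ha1 := key R hR P hP hRP δa ha
  have hb1 := key R hR Q hQ hRQ δb hb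
  have ha2 : δa ≠ δs := fun h => hc (by rw [← h, ha])
  have hb2 : δb ≠ δs := fun h => hc (by rw [← h, hb, h, hδs])
  have hab : δa = δb := by
    rcases h1 with h1 | h1 <;> rcases ha1 with ha1 | ha1 <;> rcases hb1 with hb1 | hb1
    · exact ha1.trans hb1.symm
    · exact absurd (ha1.trans h1.symm) ha2
    · exact absurd (hb1.trans h1.symm) hb2
    · exact ha1.trans hb1.symm
    · exact ha1.trans hb1.symm
    · exact absurd (hb1.trans h1.symm) hb2
    · exact absurd (ha1.trans h1.symm) ha2
    · exact ha1.trans hb1.symm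
  rw [← hab] at hb
  exact ha2 (join_unique hPQ (ha.symm.trans hb) hδs)

theorem hit_le (T : Finset (ZMod q × ZMod q)) (δ : Option (ZMod q))
    (h : ∀ δ', δ' ≠ δ → miss T δ' = ∅) : 2 * q - 1 ≤ T.card + (miss T δ).card := by
  have h1 := jamison_miss T
  have h2 : ∑ δ', (miss T δ').card = (miss T δ).card := by
    apply Finset.sum_eq_single δ
    · intro δ' _ hδ'
      rw [h δ' hδ', card_empty]
    · intro hcon
      exact absurd (mem_univ _) hcon
  rw [h2] at h1
  exact h1

theorem eq_lin_of_hit (T : Finset (ZMod q × ZMod q)) (hT : T.card = q)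
    (δ : Option (ZMod q)) (h : ∀ δ', δ' ≠ δ → miss T δ' = ∅) (c : ZMod q)
    (hc : c ∉ miss T δ) : T = lin δ c := by
  have h1 := hit_le T δ h
  have h2 : 1 < q := (Fact.out : q.Prime).one_lt
  have h3 : (miss T δ)ᶜ.card ≤ 1 := by
    rw [card_compl, ZMod.card]
    omega
  rw [card_le_one] at h3
  apply eq_lin_of_subset hT
  intro P hP
  apply h3 _ _ _ _
  · rw [mem_compl, mem_miss]
    intro hcon
    exact hcon P hP rfl
  · rw [mem_compl]
    exact hc

end Pool.Agent.H14.KN
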