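import Pool.Agent.H14.KN.Plane
import Pool.Agent.H14.KN.TailBasic
import Pool.Agent.H14.KN.ProdLow

/-!
[H14 KN STR] Main lemma, case 2: fewer than `s` planes contain at most `q - r` points; the
numbers.

Let `t l = (T l).card`, `Q = {l | t l + r ≤ q}`, `H` its complement, `|Q| = s - y₀`, `y₀ ≥ 1`,
`|H| = m - |Q| = s - w + y₀`. Facts: `m r ≤ q/4`, `s + 2 ≤ m ≤ 2 s`, `w^4 ≤ s`.
(1) `y₀ ≤ w + 1`: otherwise `|H| ≥ s + 2` and `∑_H t ≥ (s+2)(q - r)`, so
`(s+2)(q-r) ≤ (s+1) q`, `q ≤ (s+2) r ≤ m r ≤ q/4`, contradiction.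
(2) `∑_Q t ≤ (s+1) q - |H| (q-r) = (w + 1 - y₀) q + |H| r ≤ (w + 2 - y₀) q`.
(3) `∏_{l∈Q} vf f l ≥ ∏_Q (1 - t l/q) ≥ (ρ/exp 2)^(w+2-y₀)`, `ρ = (r/q)^2`, by `card_miss_ge`
(`vf f l ≥ 1 - t l/q`) and `prod_low` with `τ l = t l/q ≤ 1 - r/q`, `B = w + 2 - y₀`.
Case `y₀ ≤ w`: `y = y₀`, `Ht = H`. `tail univ s ≥ tail Q |Q| * tail H y` (`tail_mul`,
`|Q| + y = s`) and `tail Q |Q| ≥ ∏_Q vf` (`prod_le_tail`). So
`tail univ s ≥ (ρ/exp 2)^(w+2-y) tail H y`, and dividing by `q ≥ 1` makes it smaller.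
Case `y₀ = w + 1`: `|H| = s + 1`, and some `l₀ ∈ H` has `t l₀ < q` (otherwise
`∑ t ≥ (s+1) q`). Let `y = w`, `Ht = H \ {l₀}`, `|Ht| = s`. `tail univ s ≥
(∏_Q vf) * vf f l₀ * tail Ht w` (apply `tail_mul` to `Q ∪ {l₀}` and `Ht`:
`|Q| + 1 + w = s - w - 1 + 1 + w = s`), `vf f l₀ ≥ 1 - t l₀/q ≥ 1/q`, and
`∏_Q vf ≥ (ρ/exp 2)^1 ≥ (ρ/exp 2)^2` since `ρ/exp 2 ≤ 1`; `w + 2 - y = 2`.
(4) `I = {l ∈ Ht | 2 t l ≤ 3 q}`. Let `h` be the number of the other planes in `Ht`; each has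
`t l > q + q/2`. So `(s+1) q ≥ ∑_{Ht} t ≥ |Ht| (q - r) + h q/2`. As `|Ht| = s - w + y` and
`|Ht| r ≤ q/4`: `h q / 2 ≤ (w + 1 - y) q + q/4 ≤ (w + 1) q`, `h ≤ 2 w + 2`, and
`|I| ≥ s - w + y - 2w - 2 ≥ s - 3 w - 1 ≥ s/2`.
-/

namespace Pool.Agent.H14.KN

open Finset

theorem struct2 {q w s m r : ℕ} [Fact q.Prime] (hP : Par q w s m r) (α β : Fin m → ZMod q)
    (T : Fin m → Finset (ZMod q × ZMod q)) (hT : ∑ l, (T l).card + 1 ≤ (s + 1) * q)
    (hQ : (univ.filter (fun l => (T l).card + r ≤ q)).card < s) :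
    ∃ (y : ℕ) (Ht I : Finset (Fin m)), 1 ≤ y ∧ y ≤ w ∧ Ht.card + w = s + y ∧ I ⊆ Ht ∧
      s ≤ 2 * I.card ∧ (∀ l ∈ I, 2 * (T l).card ≤ 3 * q) ∧
      ∀ f : Fin w → ZMod q, (((r : ℝ) / q) ^ 2 / Real.exp 2) ^ (w + 2 - y) / q *
        tail Ht (vf α β T f) y ≤ tail univ (vf α β T f) s := by
  classical
  have hq0 : 0 < q := hP.prime.pos
  have hqR : (0 : ℝ) < q := by exact_mod_cast hq0
  have hq1 : (1 : ℝ) ≤ q := by exact_mod_cast hq0
  have hr0 : (0 : ℝ) < r := by exact_mod_cast hP.hr0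
  have hmr : (4 : ℝ) * m * r ≤ q := by exact_mod_cast hP.hmr
  have hmN := hP.hm
  have hw1 : 7 ≤ w := le_trans (by norm_num) hP.hw
  have hsw : 7 * w ≤ s := by
    have h2 := hP.hs
    have h5 : 7 ≤ w ^ 3 := by
      calc 7 ≤ w := hw1
        _ = w ^ 1 := (pow_one w).symm
        _ ≤ w ^ 3 := Nat.pow_le_pow_right (by omega) (by norm_num)
    calc 7 * w ≤ w ^ 3 * w := Nat.mul_le_mul_right w h5
      _ = w ^ 4 := by ring
      _ ≤ s := h2
  have hε : (0 : ℝ) < (r : ℝ) / q := div_pos hr0 hqR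
  have hrq : (r : ℝ) ≤ q := by
    have h1 : (1 : ℝ) ≤ m := by exact_mod_cast (by omega : 1 ≤ m)
    nlinarith
  have hε1 : (r : ℝ) / q ≤ 1 := by
    rw [div_le_one hqR]
    exact hrq
  set Q : Finset (Fin m) := univ.filter (fun l => (T l).card + r ≤ q) with hQdef
  have hcard : Q.card + Qᶜ.card = m := by
    rw [card_add_card_compl, Fintype.card_fin]
  have hHt : ∀ l ∈ Qᶜ, (q : ℝ) < ((T l).card : ℝ) + r := by
    intro l hl
    have h3 : ¬ (T l).card + r ≤ q := by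
      intro h
      exact (mem_compl.1 hl) (mem_filter.2 ⟨mem_univ _, h⟩)
    exact_mod_cast not_le.1 h3
  have hsum : ∑ l, ((T l).card : ℝ) + 1 ≤ ((s : ℝ) + 1) * q := by exact_mod_cast hT
  have hHsum : (Qᶜ.card : ℝ) * ((q : ℝ) - r) ≤ ∑ l ∈ Qᶜ, ((T l).card : ℝ) := by
    rw [← nsmul_eq_mul]
    refine Finset.card_nsmul_le_sum _ _ _ fun l hl => ?_
    linarith [hHt l hl]
  have hsplit : ∑ l ∈ Q, ((T l).card : ℝ) + ∑ l ∈ Qᶜ, ((T l).card : ℝ) =
      ∑ l, ((T l).card : ℝ) := Finset.sum_add_sum_compl _ _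
  have hrm : ∀ J : Finset (Fin m), (J.card : ℝ) * r ≤ q / 4 := by
    intro J
    have h1 : J.card ≤ m := by
      have := card_le_univ J
      rwa [Fintype.card_fin] at this
    have h2 : (J.card : ℝ) ≤ m := by exact_mod_cast h1
    have h3 : (J.card : ℝ) * r ≤ m * r := mul_le_mul_of_nonneg_right h2 hr0.le
    linarith
  obtain ⟨y₀, hy₀⟩ : ∃ y₀, Q.card + y₀ = s := ⟨s - Q.card, by omega⟩
  have hy1 : 1 ≤ y₀ := by omega
  have hHc : Qᶜ.card + w = s + y₀ := by omega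
  have hyw : y₀ ≤ w + 1 := by
    by_contra hcon
    have h1 : (s : ℝ) + 2 ≤ Qᶜ.card := by exact_mod_cast (by omega : s + 2 ≤ Qᶜ.card)
    have h2 := hrm Qᶜ
    have h3 : (0 : ℝ) ≤ ∑ l ∈ Q, ((T l).card : ℝ) := Finset.sum_nonneg fun l _ => by positivity
    nlinarith
  have hvge : ∀ (f : Fin w → ZMod q) (l : Fin m), 1 - ((T l).card : ℝ) / q ≤ vf α β T f l := by
    intro f l
    unfold vf
    have h := card_miss_ge (T l) (sym α β f l)
    have h' : (q : ℝ) ≤ ((miss (T l) (sym α β f l)).card : ℝ) + ((T l).card : ℝ) := by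
      exact_mod_cast h
    rw [sub_le_iff_le_add, ← add_div, le_div_iff₀ hqR]
    linarith
  have hv0 : ∀ (f : Fin w → ZMod q) (l : Fin m), 0 ≤ vf α β T f l :=
    fun f l => vf_nonneg α β T f l
  have hv1 : ∀ (f : Fin w → ZMod q) (l : Fin m), vf α β T f l ≤ 1 :=
    fun f l => vf_le_one α β T f l
  have hprod : ∀ f : Fin w → ZMod q, (((r : ℝ) / q) ^ 2 / Real.exp 2) ^ (w + 2 - y₀) ≤
      ∏ l ∈ Q, vf α β T f l := by
    intro f
    have hle : ∀ l ∈ Q, ((T l).card : ℝ) / q ≤ 1 - (r : ℝ) / q := by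
      intro l hl
      have h := (mem_filter.1 hl).2
      have h' : ((T l).card : ℝ) + r ≤ q := by exact_mod_cast h
      rw [le_sub_iff_add_le, ← add_div, div_le_one hqR]
      exact h'
    have hB : ∑ l ∈ Q, ((T l).card : ℝ) / q ≤ ((w + 2 - y₀ : ℕ) : ℝ) := by
      rw [← Finset.sum_div, div_le_iff₀ hqR, Nat.cast_sub (by omega)]
      have h1 : (Qᶜ.card : ℝ) + w = s + y₀ := by exact_mod_cast hHc
      have h2 := hrm Qᶜ
      push_cast
      have h3 : (Qᶜ.card : ℝ) = s + y₀ - w := by linarith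
      rw [h3] at hHsum h2
      nlinarith
    have h := prod_low Q (fun l => ((T l).card : ℝ) / q) hε hε1 (fun l _ => by positivity) hle hB
    refine h.trans (Finset.prod_le_prod (fun l hl => ?_) fun l _ => hvge f l)
    have := hle l hl
    have h2 : (0 : ℝ) ≤ 1 - ((T l).card : ℝ) / q := by linarith
    exact h2
  set κ : ℝ := ((r : ℝ) / q) ^ 2 / Real.exp 2 with hκ
  have hκ0 : 0 < κ := by positivity
  have hκ1 : κ ≤ 1 := by
    rw [hκ, div_le_one (Real.exp_pos 2)]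
    have h1 : ((r : ℝ) / q) ^ 2 ≤ 1 := pow_le_one₀ hε.le hε1
    have h2 : (1 : ℝ) ≤ Real.exp 2 := Real.one_le_exp (by norm_num)
    linarith
  suffices hkey : ∃ (y : ℕ) (Ht : Finset (Fin m)), 1 ≤ y ∧ y ≤ w ∧ Ht.card + w = s + y ∧
      Ht ⊆ Qᶜ ∧ ∀ f : Fin w → ZMod q, κ ^ (w + 2 - y) / q *
        tail Ht (vf α β T f) y ≤ tail univ (vf α β T f) s by
    obtain ⟨y, Ht, h1, h2, h3, h4, h5⟩ := hkey
    refine ⟨y, Ht, Ht.filter (fun l => 2 * (T l).card ≤ 3 * q), h1, h2, h3,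
      filter_subset _ _, ?_, fun l hl => (mem_filter.1 hl).2, h5⟩
    set I := Ht.filter (fun l => 2 * (T l).card ≤ 3 * q) with hI
    set J := Ht.filter (fun l => ¬ 2 * (T l).card ≤ 3 * q) with hJ
    have hIJ : I.card + J.card = Ht.card := card_filter_add_card_filter_not _
    have e1 : (Ht.card : ℝ) * ((q : ℝ) - r) + (J.card : ℝ) * (q / 2) ≤
        ∑ l ∈ Ht, ((T l).card : ℝ) := by
      have e2 : (I.card : ℝ) * ((q : ℝ) - r) ≤ ∑ l ∈ I, ((T l).card : ℝ) := by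
        rw [← nsmul_eq_mul]
        refine Finset.card_nsmul_le_sum _ _ _ fun l hl => ?_
        linarith [hHt l (h4 (mem_filter.1 hl).1)]
      have e3 : (J.card : ℝ) * (((q : ℝ) - r) + q / 2) ≤ ∑ l ∈ J, ((T l).card : ℝ) := by
        rw [← nsmul_eq_mul]
        refine Finset.card_nsmul_le_sum _ _ _ fun l hl => ?_
        have h6 := (mem_filter.1 hl).2
        have h7 : (3 : ℝ) * q < 2 * ((T l).card : ℝ) := by exact_mod_cast not_le.1 h6
        linarith
      have e4 : ∑ l ∈ I, ((T l).card : ℝ) + ∑ l ∈ J, ((T l).card : ℝ) =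
          ∑ l ∈ Ht, ((T l).card : ℝ) := Finset.sum_filter_add_sum_filter_not _ _ _
      have e5 : (I.card : ℝ) + J.card = Ht.card := by exact_mod_cast hIJ
      rw [← e4, ← e5]
      linarith
    have e6 : ∑ l ∈ Ht, ((T l).card : ℝ) ≤ ∑ l, ((T l).card : ℝ) :=
      Finset.sum_le_sum_of_subset_of_nonneg (subset_univ _) fun l _ _ => by positivity
    have e7 := hrm Ht
    have e8 : (Ht.card : ℝ) + w = s + y := by exact_mod_cast h3
    have e9 : (1 : ℝ) ≤ y := by exact_mod_cast h1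
    have e10 : (J.card : ℝ) ≤ 2 * w + 1 := by
      have h9 : (Ht.card : ℝ) = s + y - w := by linarith
      rw [h9] at e1 e7
      have h10 : (J.card : ℝ) * (q / 2) ≤ (w : ℝ) * q + q / 4 := by nlinarith
      have h11 : (J.card : ℝ) * (q / 2) ≤ (2 * w + 1) * (q / 2) := by linarith
      exact le_of_mul_le_mul_right h11 (by positivity)
    have e11 : J.card ≤ 2 * w + 1 := by exact_mod_cast e10
    omega
  by_cases hcase : y₀ ≤ w
  · refine ⟨y₀, Qᶜ, hy1, hcase, hHc, subset_rfl, fun f => ?_⟩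
    have h1 := tail_mul Q Qᶜ disjoint_compl_right (vf α β T f) (fun l _ => hv0 f l)
      (fun l _ => hv1 f l) Q.card y₀
    rw [Finset.union_compl, hy₀] at h1
    have h2 := prod_le_tail Q Q subset_rfl (vf α β T f) (fun l _ => hv0 f l)
      (fun l _ => hv1 f l) (le_refl Q.card)
    have h3 := tail_nonneg Qᶜ (vf α β T f) (fun l _ => hv0 f l) (fun l _ => hv1 f l) y₀
    have h4 : κ ^ (w + 2 - y₀) / q ≤ tail Q (vf α β T f) Q.card := by
      refine le_trans ?_ ((hprod f).trans h2)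
      exact div_le_self (by positivity) hq1
    exact (mul_le_mul_of_nonneg_right h4 h3).trans h1
  · have hy₀w : y₀ = w + 1 := by omega
    obtain ⟨l₀, hl₀, htl₀⟩ : ∃ l₀ ∈ Qᶜ, ((T l₀).card : ℝ) + 1 ≤ q := by
      by_contra hcon
      push Not at hcon
      have h1 : (Qᶜ.card : ℝ) * (q : ℝ) ≤ ∑ l ∈ Qᶜ, ((T l).card : ℝ) := by
        rw [← nsmul_eq_mul]
        refine Finset.card_nsmul_le_sum _ _ _ fun l hl => ?_
        have h2 := hcon l hl
        have h3 : q < (T l).card + 1 := by exact_mod_cast h2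
        exact_mod_cast Nat.lt_succ_iff.1 h3
      have h2 : (Qᶜ.card : ℝ) = s + 1 := by exact_mod_cast (by omega : Qᶜ.card = s + 1)
      rw [h2] at h1
      have h3 : (0 : ℝ) ≤ ∑ l ∈ Q, ((T l).card : ℝ) := Finset.sum_nonneg fun l _ => by positivity
      linarith
    have hlQ : l₀ ∉ Q := mem_compl.1 hl₀
    refine ⟨w, Qᶜ.erase l₀, by omega, le_rfl, ?_, erase_subset _ _, fun f => ?_⟩
    · rw [card_erase_of_mem hl₀]
      omega
    · have hdis : Disjoint (insert l₀ Q) (Qᶜ.erase l₀) := by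
        rw [Finset.disjoint_left]
        intro x hx hx'
        rw [mem_insert] at hx
        rw [mem_erase, mem_compl] at hx'
        rcases hx with h | h
        · exact hx'.1 h
        · exact hx'.2 h
      have hun : insert l₀ Q ∪ Qᶜ.erase l₀ = univ := by
        ext x
        simp only [mem_union, mem_insert, mem_erase, mem_compl, mem_univ, iff_true]
        tauto
      have h1 := tail_mul (insert l₀ Q) (Qᶜ.erase l₀) hdis (vf α β T f) (fun l _ => hv0 f l)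
        (fun l _ => hv1 f l) (insert l₀ Q).card w
      have hc : (insert l₀ Q).card + w = s := by
        rw [card_insert_of_notMem hlQ]
        omega
      rw [hun, hc] at h1
      have h2 := prod_le_tail (insert l₀ Q) (insert l₀ Q) subset_rfl (vf α β T f)
        (fun l _ => hv0 f l) (fun l _ => hv1 f l) (le_refl _)
      rw [Finset.prod_insert hlQ] at h2
      have h3 := tail_nonneg (Qᶜ.erase l₀) (vf α β T f) (fun l _ => hv0 f l)
        (fun l _ => hv1 f l) w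
      have h5 : 1 / (q : ℝ) ≤ vf α β T f l₀ := by
        refine le_trans ?_ (hvge f l₀)
        rw [le_sub_iff_add_le, ← add_div, div_le_one hqR]
        linarith
      have h6 : κ ^ (w + 2 - w) ≤ ∏ l ∈ Q, vf α β T f l := by
        refine le_trans ?_ (hprod f)
        exact pow_le_pow_of_le_one hκ0.le hκ1 (by omega)
      have h4 : κ ^ (w + 2 - w) / q ≤ tail (insert l₀ Q) (vf α β T f) (insert l₀ Q).card := by
        refine le_trans ?_ h2
        rw [div_eq_mul_one_div, mul_comm]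
        exact mul_le_mul h5 h6 (by positivity) (hv0 f l₀)
      exact (mul_le_mul_of_nonneg_right h4 h3).trans h1

end Pool.Agent.H14.KN
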