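import Pool.Agent.H14.KN.Case1
import Pool.Agent.H14.KN.Struct
import Pool.Agent.H14.KN.CaseD
import Pool.Agent.H14.KN.CaseLt
import Pool.Agent.H14.KN.CaseE

/-!
[H14 KN MAI] The main lemma, assembly.

If at least `s` planes have `(T l).card + r ≤ q`: `case1`. Otherwise take `y, Ht, I` from
`struct2`, and let `κ = (((r/q)^2)/exp 2)^(w+2-y)/q ≥ 0`. It is enough (in the first alternative)
to show `q^5 ≤ κ * ∑_f tail Ht (vf f) y`, since then by `nb_eq` and `struct2`
`∑_f nb f = q^m ∑_f tail univ (vf f) s ≥ q^m κ ∑_f tail Ht (vf f) y ≥ q^(m+5)`.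
* If `40 w ∑_I vf f ≤ s` for all `f`: `caseD`, `tail_mono` (`I ⊆ Ht`), `num2` and
  `(2w)^y ≥ (w/12800)^y / 2^w`.
* Otherwise let `f₀` be such that `s < 40 w ∑_I vf f₀`. If `y < w`: `caseLt`, `tail_mono`,
  `num2`. If `y = w`: `Ht.card = s`. If there are `l₁ ∈ Ht` and `δ₁ ≠ sym f₀ l₁`,
  `δ₁ ≠ some (pe f₀ (α l₁))` with `miss (T l₁) δ₁ ≠ ∅`: `caseE` and `num3` (`w + 2 - y = 2`).
  Otherwise the second alternative holds with `f₀` and `H = Ht`.
-/

namespace Pool.Agent.H14.KN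

open Finset

theorem main_lemma {q w s m r : ℕ} [Fact q.Prime] (hP : Par q w s m r) (α β : Fin m → ZMod q)
    (hinj : Function.Injective (Sum.elim α β)) (T : Fin m → Finset (ZMod q × ZMod q))
    (hT : ∑ l, (T l).card + 1 ≤ (s + 1) * q) :
    q ^ (m + 5) ≤ ∑ f : Fin w → ZMod q, nb α β s T f ∨
      ∃ (f₀ : Fin w → ZMod q) (H : Finset (Fin m)), H.card = s ∧
        ∀ l ∈ H, ∀ δ, δ ≠ sym α β f₀ l → δ ≠ some (pe f₀ (α l)) → miss (T l) δ = ∅ := by
  classical
  have hqpos : 0 < q := hP.prime.pos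
  have hq0 : (0 : ℝ) < q := Nat.cast_pos.2 hqpos
  by_cases hQ : s ≤ (univ.filter (fun l => (T l).card + r ≤ q)).card
  · exact Or.inl (case1 hP α β T hT hQ)
  obtain ⟨y, Ht, I, hy, hyw, hcard, hIH, hI, hIT, hstr⟩ := struct2 hP α β T hT (not_le.1 hQ)
  obtain ⟨c, hc⟩ : ∃ c : ℝ, c = (((r : ℝ) / q) ^ 2 / Real.exp 2) ^ (w + 2 - y) / q := ⟨_, rfl⟩
  have hc0 : 0 ≤ c := by
    rw [hc]
    positivity
  have hmono : ∑ f : Fin w → ZMod q, tail I (vf α β T f) y ≤
      ∑ f : Fin w → ZMod q, tail Ht (vf α β T f) y :=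
    sum_le_sum fun f _ => tail_mono I Ht hIH _ (fun l _ => vf_nonneg α β T f l)
      (fun l _ => vf_le_one α β T f l) y
  have key : (q : ℝ) ^ 5 ≤ c * ∑ f : Fin w → ZMod q, tail Ht (vf α β T f) y →
      q ^ (m + 5) ≤ ∑ f : Fin w → ZMod q, nb α β s T f := by
    intro h
    have h1 : ((q ^ (m + 5) : ℕ) : ℝ) ≤ ((∑ f : Fin w → ZMod q, nb α β s T f : ℕ) : ℝ) := by
      push_cast
      have h2 : ∀ f ∈ (univ : Finset (Fin w → ZMod q)),
          (q : ℝ) ^ m * (c * tail Ht (vf α β T f) y) ≤ (nb α β s T f : ℝ) := by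
        intro f _
        rw [nb_eq, hc]
        exact mul_le_mul_of_nonneg_left (hstr f) (by positivity)
      refine le_trans ?_ (sum_le_sum h2)
      rw [← mul_sum, ← mul_sum, pow_add]
      exact mul_le_mul_of_nonneg_left h (by positivity)
    exact_mod_cast h1
  have h12 : ∀ z : ℝ, (q : ℝ) ^ (w - y) / 4 * (((w : ℝ) / 12800) ^ y / 2 ^ w) ≤ z → z ≤
      ∑ f : Fin w → ZMod q, tail Ht (vf α β T f) y →
      q ^ (m + 5) ≤ ∑ f : Fin w → ZMod q, nb α β s T f := by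
    intro z h1 h2
    refine key ?_
    have h3 := num2 hP hy hyw
    rw [← hc] at h3
    exact h3.trans (mul_le_mul_of_nonneg_left (h1.trans h2) hc0)
  by_cases hA : ∀ f : Fin w → ZMod q, 40 * (w : ℝ) * ∑ l ∈ I, vf α β T f l ≤ s
  · left
    refine h12 _ ?_ ((caseD hP α β hinj T hy hyw I hI hIT hA).trans hmono)
    refine mul_le_mul_of_nonneg_left ?_ (by positivity)
    have h1 : ((w : ℝ) / 12800) ^ y ≤ (2 * (w : ℝ)) ^ y := by
      refine pow_le_pow_left₀ (by positivity) ?_ y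
      have : (0 : ℝ) ≤ w := Nat.cast_nonneg w
      linarith
    refine le_trans ?_ h1
    refine div_le_self (by positivity) (one_le_pow₀ (by norm_num))
  · push Not at hA
    obtain ⟨f₀, hf⟩ := hA
    rcases Nat.lt_or_ge y w with hlt | hge
    · left
      exact h12 _ ((caseLt hP α β hinj T hy hlt I f₀ hf).trans hmono) le_rfl
    · have hyw' : y = w := le_antisymm hyw hge
      subst hyw'
      by_cases hex : ∃ l ∈ Ht, ∃ δ, δ ≠ sym α β f₀ l ∧ δ ≠ some (pe f₀ (α l)) ∧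
          (miss (T l) δ).Nonempty
      · obtain ⟨l, hl, δ, h1, h2, h3⟩ := hex
        left
        refine key ?_
        have h4 := num3 hP
        rw [hc, show y + 2 - y = 2 by omega]
        exact h4.trans (mul_le_mul_of_nonneg_left
          (caseE hP α β hinj T I Ht hIH f₀ hf l hl δ h1 h2 h3) (by positivity))
      · right
        refine ⟨f₀, Ht, by omega, fun l hl δ h1 h2 => ?_⟩
        by_contra h3
        exact hex ⟨l, hl, δ, h1, h2, nonempty_iff_ne_empty.2 h3⟩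

end Pool.Agent.H14.KN
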