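import Pool.Agent.H14.KN.Defs

/-!
[H14 KN MPR] Many primes between `n` and `4n`. Mathlib only (`Mathlib.NumberTheory.Chebyshev`).

`Chebyshev.theta_ge (n : ℕ) : n * log 2 - log (n + 1) - 2 * √n * log n ≤ θ n` and
`Chebyshev.theta_le_log4_mul_x : θ x ≤ log 4 * x`. So
`θ (4n) - θ n ≥ 4 n log 2 - log (4n+1) - 4 √n log (4n) - 2 n log 2
 = 2 n log 2 - log (4n+1) - 4 √n log (4n) ≥ K log (4n)` for large `n`.
On the other hand `θ (4n) - θ n = ∑ log p` over the primes in `(n, 4n]`, at most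
`log (4n)` times their number. (`Chebyshev.theta_eq_sum_Icc` or the definition of `θ`.)
-/

namespace Pool.Agent.H14.KN

open Finset

theorem many_primes (K : ℕ) : ∃ n₀ : ℕ, ∀ n, n₀ ≤ n →
    K ≤ ((Ioc n (4 * n)).filter Nat.Prime).card := by
  refine ⟨(8 * (K + 5)) ^ 4, fun n hn => ?_⟩
  by_contra hcon
  have hcard : (((Ioc n (4 * n)).filter Nat.Prime).card : ℝ) ≤ K := by
    exact_mod_cast (not_le.1 hcon).le
  have hn' : ((8 * ((K : ℝ) + 5)) ^ 4) ≤ (n : ℝ) := by exact_mod_cast hn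
  have hK : (0 : ℝ) ≤ K := Nat.cast_nonneg K
  have hn1 : (1 : ℝ) ≤ n := by
    refine le_trans ?_ hn'
    exact one_le_pow₀ (by linarith)
  have hn0 : 1 ≤ n := by exact_mod_cast hn1
  set s := Real.sqrt n with hs
  have hs2 : s * s = n := Real.mul_self_sqrt (by linarith)
  have hs0 : 0 ≤ s := Real.sqrt_nonneg _
  set t := Real.sqrt s with ht
  have ht2 : t * t = s := Real.mul_self_sqrt hs0
  have ht0 : 0 ≤ t := Real.sqrt_nonneg _
  have ht4 : t ^ 4 = n := by
    rw [← hs2, ← ht2]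
    ring
  have htK : 8 * ((K : ℝ) + 5) ≤ t := by
    have h1 : (8 * ((K : ℝ) + 5)) ^ 4 ≤ t ^ 4 := by rw [ht4]; exact hn'
    exact le_of_pow_le_pow_left₀ (by norm_num) ht0 h1
  have ht1 : 1 ≤ t := by linarith
  have hlog : Real.log (4 * n + 1) ≤ 4 * t := by
    have h1 : (4 * (n : ℝ) + 1) ≤ 5 * t ^ 4 := by rw [ht4]; linarith
    calc Real.log (4 * n + 1) ≤ Real.log (5 * t ^ 4) := Real.log_le_log (by linarith) h1
      _ = Real.log 5 + 4 * Real.log t := by
          rw [Real.log_mul (by norm_num) (by positivity), Real.log_pow]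
          norm_num
      _ ≤ (5 - 1) + 4 * (t - 1) := by
          have h2 := Real.log_le_sub_one_of_pos (show (0 : ℝ) < 5 by norm_num)
          have h3 := Real.log_le_sub_one_of_pos (show (0 : ℝ) < t by linarith)
          linarith
      _ = 4 * t := by ring
  have hlog4 : Real.log (4 * n) ≤ 4 * t :=
    (Real.log_le_log (by linarith) (by linarith)).trans hlog
  have hlog0 : 0 ≤ Real.log (4 * n) := Real.log_nonneg (by linarith)
  have h1 := Chebyshev.theta_ge (4 * n)
  have h2 := Chebyshev.theta_le_log4_mul_x (x := (n : ℝ)) (by linarith)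
  have hsq : Real.sqrt ((4 * n : ℕ) : ℝ) = 2 * s := by
    push_cast
    rw [Real.sqrt_mul (by norm_num), show (4 : ℝ) = 2 ^ 2 by norm_num, Real.sqrt_sq (by norm_num)]
  rw [hsq] at h1
  push_cast at h1
  have h3 : Chebyshev.theta (4 * (n : ℝ)) - Chebyshev.theta (n : ℝ) ≤ K * Real.log (4 * n) := by
    have h4 : Chebyshev.theta (4 * (n : ℝ)) =
        ∑ p ∈ (Ioc 0 (4 * n)).filter Nat.Prime, Real.log p := by
      unfold Chebyshev.theta
      have : ⌊(4 * (n : ℝ))⌋₊ = 4 * n := by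
        rw [show (4 * (n : ℝ)) = ((4 * n : ℕ) : ℝ) by push_cast; ring]
        exact Nat.floor_natCast _
      rw [this]
    have h5 : Chebyshev.theta (n : ℝ) = ∑ p ∈ (Ioc 0 n).filter Nat.Prime, Real.log p := by
      unfold Chebyshev.theta
      rw [Nat.floor_natCast]
    have h6 : (Ioc 0 (4 * n)).filter Nat.Prime =
        (Ioc 0 n).filter Nat.Prime ∪ (Ioc n (4 * n)).filter Nat.Prime := by
      ext p
      simp only [mem_filter, mem_union, mem_Ioc]
      constructor
      · rintro ⟨⟨ha, hb⟩, hp⟩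
        by_cases hpn : p ≤ n
        · exact Or.inl ⟨⟨ha, hpn⟩, hp⟩
        · exact Or.inr ⟨⟨by omega, hb⟩, hp⟩
      · rintro (⟨⟨ha, hb⟩, hp⟩ | ⟨⟨ha, hb⟩, hp⟩)
        · exact ⟨⟨ha, by omega⟩, hp⟩
        · exact ⟨⟨by omega, hb⟩, hp⟩
    have h7 : Disjoint ((Ioc 0 n).filter Nat.Prime) ((Ioc n (4 * n)).filter Nat.Prime) := by
      rw [disjoint_left]
      intro p hp hp'
      have ha := (mem_Ioc.1 (mem_filter.1 hp).1).2
      have hb := (mem_Ioc.1 (mem_filter.1 hp').1).1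
      omega
    rw [h4, h5, h6, sum_union h7, add_sub_cancel_left]
    calc ∑ p ∈ (Ioc n (4 * n)).filter Nat.Prime, Real.log p
        ≤ ((Ioc n (4 * n)).filter Nat.Prime).card • Real.log (4 * n) := by
          refine sum_le_card_nsmul _ _ _ fun p hp => ?_
          have hb := mem_Ioc.1 (mem_filter.1 hp).1
          refine Real.log_le_log ?_ ?_
          · exact_mod_cast (by omega : 0 < p)
          · exact_mod_cast hb.2
      _ = (((Ioc n (4 * n)).filter Nat.Prime).card : ℝ) * Real.log (4 * n) := by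
          rw [nsmul_eq_mul]
      _ ≤ K * Real.log (4 * n) := mul_le_mul_of_nonneg_right hcard hlog0
  have hl4 : Real.log 4 = 2 * Real.log 2 := by
    rw [show (4 : ℝ) = 2 ^ 2 by norm_num, Real.log_pow]
    norm_num
  rw [hl4] at h2
  have hl2 : (1 / 2 : ℝ) < Real.log 2 := by
    have := Real.log_two_gt_d9
    linarith
  have h8 : 2 * (n : ℝ) * Real.log 2 ≤
      Real.log (4 * n + 1) + 4 * s * Real.log (4 * n) + K * Real.log (4 * n) := by
    linarith
  have h9 : 4 * s * Real.log (4 * n) ≤ 4 * s * (4 * t) :=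
    mul_le_mul_of_nonneg_left hlog4 (by linarith)
  have h10 : (K : ℝ) * Real.log (4 * n) ≤ K * (4 * t) := mul_le_mul_of_nonneg_left hlog4 hK
  have h11 : (n : ℝ) ≤ 2 * (n : ℝ) * Real.log 2 := by nlinarith
  have h12 : (n : ℝ) ≤ 4 * t + 4 * s * (4 * t) + K * (4 * t) := by linarith
  rw [← ht4, ← ht2] at h12
  have ht3 : t ≤ t ^ 3 := by
    have : 1 ≤ t ^ 2 := one_le_pow₀ ht1
    nlinarith
  have h13 : t ^ 4 ≤ 4 * (K + 5) * t ^ 3 := by
    have h14 : (K : ℝ) * t ≤ K * t ^ 3 := mul_le_mul_of_nonneg_left ht3 hK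
    nlinarith
  have h15 : 0 < t ^ 3 := by positivity
  have h16 : 8 * ((K : ℝ) + 5) * t ^ 3 ≤ t * t ^ 3 := mul_le_mul_of_nonneg_right htK h15.le
  nlinarith

end Pool.Agent.H14.KN
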