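import Pool.Agent.H14.KN.Defs

/-!
[H14 KN PRM] The choice of the number of copies. Mathlib only, real analysis.

Let `ρ = n/k`, `A = ρ (log ρ)^4 / (64 C₁)`, `R₀ = (128 C₁)^2 + 128 C₁ (a₀ + 4) + 4`,
`k₀ = ⌈exp C₁⌉₊`. Suppose `k ≥ k₀`, `ρ ≥ R₀`, `n (log k)^4 ≤ C₁ k^2`. Then
* `log k ≥ C₁ ≥ 1`, so `(log k)^4 ≥ C₁` and `ρ ≤ C₁ k/(log k)^4 ≤ k`; so `log ρ ≤ log k` and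
  `A ≤ ρ (log k)^4/(64 C₁) ≤ k/64`. `log ρ ≥ 1` (`ρ ≥ 4`).
* `A/2 ≥ ρ/(128 C₁) ≥ a₀ + 4` and `A/2 ≥ ρ/(128 C₁) ≥ √ρ` (as `ρ ≥ (128 C₁)^2`).
Let `t = ⌈k/A⌉₊`, `a = k / t`, `r = k % t`. `t ≥ k/A > 0`, `t ≤ k/A + 1 ≤ (65/64) k/A` and
`t ≤ 2 k/A`. `a ≤ k/t ≤ A`; `a ≥ k/t - 1 ≥ (64/65) A - 1 ≥ A/2` (as `A ≥ 8`). So `a₀ ≤ a`,
`2 ≤ a`, `log a ≥ log √ρ = (log ρ)/2`, and `log a ≤ log A ≤ log (ρ^5) = 5 log ρ` since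
`log ρ ≤ ρ`.
* If `n₁ (log a)^4 ≤ C₁ a^2`, then `n₁ (log ρ)^4/16 ≤ C₁ a^2` and
  `(2t-1) n₁ ≤ 2 t * 16 C₁ a^2/(log ρ)^4 ≤ 32 C₁ k a/(log ρ)^4 ≤ 32 C₁ k A/(log ρ)^4 = k ρ/2 = n/2`
  (`t a ≤ k`), and `2 k ≤ n/2` since `ρ ≥ 4`.
* `t ≤ 2k/A = 128 C₁ k/(ρ (log ρ)^4)` and
  `C₁ (log a)^4 + log a + 6 ≤ 625 C₁ (log ρ)^4 + 5 log ρ + 6 ≤ 636 C₁ (log ρ)^4`; the product is at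
  most `128 * 636 * C₁^2 * k/ρ ≤ 10^6 C₁^2 k^2/n`.
-/

namespace Pool.Agent.H14.KN

open Finset

theorem param (C₁ : ℝ) (hC : 1 ≤ C₁) (a₀ : ℕ) : ∃ (R₀ : ℝ) (k₀ : ℕ), ∀ n k : ℕ, k₀ ≤ k →
    R₀ * k ≤ n → (n : ℝ) * Real.log k ^ 4 ≤ C₁ * (k : ℝ) ^ 2 →
    ∃ t a r : ℕ, 1 ≤ t ∧ r < t ∧ k = t * a + r ∧ a₀ ≤ a ∧ 2 ≤ a ∧
      (∀ n₁ : ℕ, (n₁ : ℝ) * Real.log a ^ 4 ≤ C₁ * (a : ℝ) ^ 2 →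
        (2 * t - 1) * n₁ + 2 * k ≤ n) ∧
      (t : ℝ) * (C₁ * Real.log a ^ 4 + Real.log a + 6) ≤
        10 ^ 6 * C₁ ^ 2 * ((k : ℝ) ^ 2 / n) := by
  sorry

end Pool.Agent.H14.KN
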