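import Pool.Agent.H14.KN.LineRec

/-!
[H14 KN PLS] Several planes: which directions are blocked. `T : Fin m → Finset (points)`,
`m = 2x - 1`. A direction `δ` is good if at least `x` of the planes `i` have
`miss (T i) δ = ∅`.

* `good_card`: each such plane has `q ≤ (T i).card` (`card_miss_ge`), so `x q ≤ ∑ (T i).card`.
* `exists_not_good`: let `∑ (T i).card ≤ x q + b'`, `b' + 2 ≤ q`, `x ≥ 1`, and suppose all
  directions are good. Let `I = {i | q ≤ (T i).card}`. Then `I.card ≤ x`: otherwise the sum is at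
  least `(x+1) q > x q + b'`. For every `δ` the at least `x` planes with `miss (T i) δ = ∅` lie
  in `I`; so `I` has exactly `x` elements and `miss (T i) δ = ∅` for all `i ∈ I` and all `δ`. By
  `jamison` each `T i`, `i ∈ I`, has at least `2q - 1` points; the sum is at least
  `x (2q-1) ≥ x q + (q - 1) > x q + b'`. Contradiction.
* `rigid`: let `∑ (T i).card = x q`, `x ≥ 1`, and let all directions `δ ≠ δ₀` be good. Let `I` be
  as above; again `I.card ≤ x` (otherwise the sum is `≥ (x+1) q > x q`), and a good direction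
  (there is a direction `≠ δ₀`) shows `I.card = x`, `miss (T i) δ = ∅` for all `i ∈ I`,
  `δ ≠ δ₀`. Since the sum is `x q` and each `T i`, `i ∈ I`, has `≥ q` points, `(T i).card = q` for
  `i ∈ I` and `T i = ∅` for `i ∉ I`. For `i ∈ I` use `eq_lin_of_hit` with
  `c i = icp δ₀ P` for any `P ∈ T i` (the set is nonempty).
-/

namespace Pool.Agent.H14.KN

open Finset

variable {q : ℕ} [Fact q.Prime]

theorem pls_ge {T : Finset (ZMod q × ZMod q)} {δ : Option (ZMod q)} (h : miss T δ = ∅) :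
    q ≤ T.card := by
  have h1 := card_miss_ge T δ
  rw [h, card_empty, zero_add] at h1
  exact h1

theorem pls_hit {T : Finset (ZMod q × ZMod q)} {δ : Option (ZMod q)} (h : miss T δ = ∅)
    (c : ZMod q) : ∃ P ∈ T, icp δ P = c := by
  have h1 : c ∉ miss T δ := by
    rw [h]
    exact notMem_empty c
  rw [mem_miss] at h1
  push Not at h1
  exact h1

theorem pls_sub {m : ℕ} (T : Fin m → Finset (ZMod q × ZMod q)) (δ : Option (ZMod q)) :
    univ.filter (fun i => miss (T i) δ = ∅) ⊆ univ.filter (fun i => q ≤ (T i).card) := by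
  intro i hi
  rw [mem_filter] at hi ⊢
  exact ⟨hi.1, pls_ge hi.2⟩

omit [Fact q.Prime] in
theorem pls_le {m : ℕ} (T : Fin m → Finset (ZMod q × ZMod q)) :
    (univ.filter (fun i => q ≤ (T i).card)).card * q ≤ ∑ i, (T i).card := by
  rw [← smul_eq_mul, ← sum_const]
  calc ∑ _i ∈ univ.filter (fun i => q ≤ (T i).card), q
      ≤ ∑ i ∈ univ.filter (fun i => q ≤ (T i).card), (T i).card :=
        sum_le_sum fun i hi => (mem_filter.1 hi).2
    _ ≤ ∑ i, (T i).card := sum_le_sum_of_subset (filter_subset _ _)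

theorem good_card {m x : ℕ} (T : Fin m → Finset (ZMod q × ZMod q)) (δ : Option (ZMod q))
    (h : x ≤ (univ.filter (fun i => miss (T i) δ = ∅)).card) : x * q ≤ ∑ i, (T i).card := by
  refine le_trans (Nat.mul_le_mul_right q ?_) (pls_le T)
  exact h.trans (card_le_card (pls_sub T δ))

theorem exists_not_good {x b' : ℕ} (hx : 1 ≤ x) (hb : b' + 2 ≤ q)
    (T : Fin (2 * x - 1) → Finset (ZMod q × ZMod q)) (hT : ∑ i, (T i).card ≤ x * q + b') :
    ∃ δ : Option (ZMod q), (univ.filter (fun i => miss (T i) δ = ∅)).card < x := by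
  by_contra hcon
  push Not at hcon
  have hq : 0 < q := (Fact.out : q.Prime).pos
  obtain ⟨I, hI⟩ : ∃ I : Finset (Fin (2 * x - 1)), I = univ.filter (fun i => q ≤ (T i).card) :=
    ⟨_, rfl⟩
  have hIle : I.card ≤ x := by
    by_contra hlt
    have h1 := pls_le T
    rw [← hI] at h1
    have h2 : (x + 1) * q ≤ I.card * q := Nat.mul_le_mul_right q (by omega)
    have h3 : (x + 1) * q = x * q + q := by ring
    omega
  have hS : ∀ δ, univ.filter (fun i => miss (T i) δ = ∅) = I := by
    intro δ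
    rw [hI] at hIle ⊢
    exact eq_of_subset_of_card_le (pls_sub T δ) (hIle.trans (hcon δ))
  have hIx : x ≤ I.card := by
    rw [← hS none]
    exact hcon none
  have hjam : ∀ i ∈ I, 2 * q - 1 ≤ (T i).card := by
    intro i hi
    refine jamison (T i) fun δ c => ?_
    rw [← hS δ, mem_filter] at hi
    exact pls_hit hi.2 c
  have h1 : I.card * (2 * q - 1) ≤ ∑ i, (T i).card := by
    rw [← smul_eq_mul, ← sum_const]
    calc ∑ _i ∈ I, (2 * q - 1) ≤ ∑ i ∈ I, (T i).card := sum_le_sum hjam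
      _ ≤ ∑ i, (T i).card := sum_le_sum_of_subset (subset_univ _)
  have h2 : x * (2 * q - 1) ≤ I.card * (2 * q - 1) := Nat.mul_le_mul_right _ hIx
  have h3 : x * (2 * q - 1) = x * q + x * (q - 1) := by
    rw [← mul_add]
    congr 1
    omega
  have h4 : 1 * (q - 1) ≤ x * (q - 1) := Nat.mul_le_mul_right _ hx
  omega

theorem rigid {x : ℕ} (hx : 1 ≤ x) (T : Fin (2 * x - 1) → Finset (ZMod q × ZMod q))
    (hT : ∑ i, (T i).card = x * q) (δ₀ : Option (ZMod q))
    (h : ∀ δ, δ ≠ δ₀ → x ≤ (univ.filter (fun i => miss (T i) δ = ∅)).card) :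
    ∃ (I : Finset (Fin (2 * x - 1))) (c : Fin (2 * x - 1) → ZMod q), I.card = x ∧
      ∀ i, T i = if i ∈ I then lin δ₀ (c i) else ∅ := by
  have hq : 0 < q := (Fact.out : q.Prime).pos
  obtain ⟨I, hI⟩ : ∃ I : Finset (Fin (2 * x - 1)), I = univ.filter (fun i => q ≤ (T i).card) :=
    ⟨_, rfl⟩
  have hIle : I.card ≤ x := by
    by_contra hlt
    have h1 := pls_le T
    rw [← hI, hT] at h1
    have h2 : (x + 1) * q ≤ I.card * q := Nat.mul_le_mul_right q (by omega)
    have h3 : (x + 1) * q = x * q + q := by ring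
    omega
  have hS : ∀ δ, δ ≠ δ₀ → univ.filter (fun i => miss (T i) δ = ∅) = I := by
    intro δ hδ
    rw [hI] at hIle ⊢
    exact eq_of_subset_of_card_le (pls_sub T δ) (hIle.trans (h δ hδ))
  obtain ⟨δ₁, hδ₁⟩ : ∃ δ₁, δ₁ ≠ δ₀ := by
    cases δ₀ with
    | none => exact ⟨some 0, Option.some_ne_none 0⟩
    | some d => exact ⟨none, (Option.some_ne_none d).symm⟩
  have hIx : I.card = x := by
    refine le_antisymm hIle ?_
    rw [← hS δ₁ hδ₁]
    exact h δ₁ hδ₁
  have hge : ∀ i ∈ I, q ≤ (T i).card := by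
    intro i hi
    rw [hI, mem_filter] at hi
    exact hi.2
  have hsplit : ∑ i ∈ I, (T i).card + ∑ i ∈ Iᶜ, (T i).card = x * q := by
    rw [sum_add_sum_compl, hT]
  have hIq : ∑ _i ∈ I, q = x * q := by
    rw [sum_const, smul_eq_mul, hIx]
  have hle : ∑ _i ∈ I, q ≤ ∑ i ∈ I, (T i).card := sum_le_sum hge
  have hz : ∑ i ∈ Iᶜ, (T i).card = 0 := by omega
  have heq : ∑ _i ∈ I, q = ∑ i ∈ I, (T i).card := by omega
  have hcard : ∀ i ∈ I, q = (T i).card := (sum_eq_sum_iff_of_le hge).1 heq
  have hemp : ∀ i, i ∉ I → T i = ∅ := by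
    intro i hi
    rw [sum_eq_zero_iff] at hz
    exact card_eq_zero.1 (hz i (mem_compl.2 hi))
  have hc : ∀ i, ∃ c, T i = if i ∈ I then lin δ₀ c else ∅ := by
    intro i
    by_cases hi : i ∈ I
    · have hne : (T i).Nonempty := by
        rw [← card_pos, ← hcard i hi]
        exact hq
      obtain ⟨P, hP⟩ := hne
      refine ⟨icp δ₀ P, ?_⟩
      rw [if_pos hi]
      refine eq_lin_of_hit (T i) (hcard i hi).symm δ₀ (fun δ hδ => ?_) _ ?_
      · have h1 := hi
        rw [← hS δ hδ, mem_filter] at h1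
        exact h1.2
      · rw [mem_miss]
        push Not
        exact ⟨P, hP, rfl⟩
    · refine ⟨0, ?_⟩
      rw [if_neg hi]
      exact hemp i hi
  choose c hc using hc
  exact ⟨I, c, hIx, hc⟩

end Pool.Agent.H14.KN
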