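import Pool.Agent.H14.KN.Avoid

/-!
[H14 KN RA1] Most choices `ω f = (g f, z f)` have the first random property.

Write `K = Fin w → ZMod q`, `V = Fin u × (Fin κ → Fin m → ZMod q)`, `|V| = u q^(κ m)`.
For a `T` with `q^(m+5) ≤ ∑_f nb f`, `γ : Fin u` and `c : Fin κ` let
`G f = {(γ', z) | γ' = γ, s ≤ #{l | z c l ∈ miss (T l) (sym f l)}}`. Then
`|G f| = nb f * q^((κ-1) m)` (the word `z c` is bad, the other words are arbitrary), so
`∑_f |G f| ≥ q^5 q^(κ m) = (q^5/u) |V| ≥ q^3 |V|`. By `avoid_count` the set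
`B_{T,γ,c}` of the `ω` with `ω f ∉ G f` for all `f` has at most `|V|^|K| exp (-q^3)` elements. Let
`B` be the union over all `(T, γ, c)`; `(T,γ,c)` runs through
`2^(m q^2) * u * κ` values. `m q² ≤ q^3/4`, since `4 m ≤ q` (from `m^10 ≤ q`; `m ≥ 2^80`),
`u ≤ q^2 ≤ 2^(q)`…, `κ ≤ 2^s ≤ 2^q` (`κ^16 ≤ 2^s`, `s ≤ m ≤ q`), so the number of
triples is at most `2^(q^3/4 + 2 q) ≤ 2^(q^3/2)`, and
`4 * 2^(q^3/2) * exp (-q^3) ≤ 1` (e.g. `2 ≤ exp 1`, `4 ≤ exp (q^3/2)`).
-/

namespace Pool.Agent.H14.KN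

open Finset

private theorem card_coord {κ : ℕ} {W : Type} [Fintype W] [DecidableEq W] (c : Fin κ)
    (bad : Finset W) :
    (univ.filter (fun z : Fin κ → W => z c ∈ bad)).card * Fintype.card W =
      bad.card * Fintype.card W ^ κ := by
  classical
  have h1 : univ.filter (fun z : Fin κ → W => z c ∈ bad) =
      Fintype.piFinset (fun c' => if c' = c then bad else univ) := by
    ext z
    rw [mem_filter, Fintype.mem_piFinset]
    constructor
    · rintro ⟨-, h⟩ c'
      split_ifs with h2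
      · rw [h2]
        exact h
      · exact mem_univ _
    · intro h
      refine ⟨mem_univ _, ?_⟩
      have := h c
      rwa [if_pos rfl] at this
  have h2 : ∏ c' ∈ univ.erase c, (if c' = c then bad else (univ : Finset W)).card =
      Fintype.card W ^ (κ - 1) := by
    have h3 : ∀ c' ∈ (univ : Finset (Fin κ)).erase c,
        (if c' = c then bad else (univ : Finset W)).card = Fintype.card W := by
      intro c' hc'
      rw [if_neg (ne_of_mem_erase hc'), card_univ]
    rw [Finset.prod_congr rfl h3, Finset.prod_const, card_erase_of_mem (mem_univ _), card_univ,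
      Fintype.card_fin]
  have hκ : 1 ≤ κ := Fin.pos c
  rw [h1, Fintype.card_piFinset, ← Finset.mul_prod_erase univ _ (mem_univ c), h2, if_pos rfl,
    mul_assoc, ← pow_succ]
  congr 2
  omega

theorem bad_one {q w s m r κ u : ℕ} [Fact q.Prime] (hP : Par q w s m r)
    (hκ : κ ^ 16 ≤ 2 ^ s) (hκ1 : 1 ≤ κ) (hu1 : 1 ≤ u) (hu : u ≤ q ^ 2)
    (α β : Fin m → ZMod q) :
    ∃ B : Finset ((Fin w → ZMod q) → Fin u × (Fin κ → Fin m → ZMod q)),
      4 * B.card ≤ Fintype.card ((Fin w → ZMod q) → Fin u × (Fin κ → Fin m → ZMod q)) ∧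
      ∀ ω, ω ∉ B → ∀ T : Fin m → Finset (ZMod q × ZMod q),
        q ^ (m + 5) ≤ ∑ f : Fin w → ZMod q, nb α β s T f →
        ∀ (γ : Fin u) (c : Fin κ), ∃ f, (ω f).1 = γ ∧
          s ≤ (univ.filter (fun l => (ω f).2 c l ∈ miss (T l) (sym α β f l))).card := by
  classical
  have : NeZero u := ⟨by omega⟩
  have hqN : 0 < q := hP.prime.pos
  have hq0 : (0 : ℝ) < q := by exact_mod_cast hqN
  -- the sets G
  set G : (Fin m → Finset (ZMod q × ZMod q)) → Fin u → Fin κ → (Fin w → ZMod q) →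
      Finset (Fin u × (Fin κ → Fin m → ZMod q)) := fun T γ c f =>
    univ.filter (fun v => v.1 = γ ∧
      s ≤ (univ.filter (fun l => v.2 c l ∈ miss (T l) (sym α β f l))).card) with hG
  set X : Finset ((Fin m → Finset (ZMod q × ZMod q)) × Fin u × Fin κ) :=
    univ.filter (fun x => q ^ (m + 5) ≤ ∑ f : Fin w → ZMod q, nb α β s x.1 f) with hX
  set B : Finset ((Fin w → ZMod q) → Fin u × (Fin κ → Fin m → ZMod q)) :=
    X.biUnion (fun x => Fintype.piFinset (fun f => univ \ G x.1 x.2.1 x.2.2 f)) with hB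
  refine ⟨B, ?_, ?_⟩
  · -- the count
    have hGc : ∀ T γ c f, (G T γ c f).card * q ^ m = nb α β s T f * q ^ (m * κ) := by
      intro T γ c f
      set bad : Finset (Fin m → ZMod q) := univ.filter (fun z =>
        s ≤ (univ.filter (fun l => z l ∈ miss (T l) (sym α β f l))).card) with hbad
      have h1 : G T γ c f = {γ} ×ˢ (univ.filter (fun z : Fin κ → Fin m → ZMod q =>
          z c ∈ bad)) := by
        ext v
        rw [hG, mem_product, mem_singleton]
        simp only [mem_filter, mem_univ, true_and, hbad]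
      have h2 := card_coord c bad
      have h3 : Fintype.card (Fin m → ZMod q) = q ^ m := by
        rw [Fintype.card_fun, ZMod.card, Fintype.card_fin]
      rw [h3, ← pow_mul] at h2
      rw [h1, card_product, card_singleton, one_mul, h2]
      rfl
    have hV : (Fintype.card (Fin u × (Fin κ → Fin m → ZMod q)) : ℝ) =
        u * (q : ℝ) ^ (m * κ) := by
      rw [Fintype.card_prod, Fintype.card_fin, Fintype.card_fun, Fintype.card_fun, ZMod.card,
        Fintype.card_fin, Fintype.card_fin, ← pow_mul]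
      push_cast
      ring
    have hbound : ∀ x ∈ X, ((Fintype.piFinset (fun f => univ \ G x.1 x.2.1 x.2.2 f)).card : ℝ) ≤
        (Fintype.card (Fin u × (Fin κ → Fin m → ZMod q)) : ℝ) ^
          Fintype.card (Fin w → ZMod q) * Real.exp (-((q : ℝ) ^ 3)) := by
      intro x hx
      have hx2 := (mem_filter.1 hx).2
      have hx3 : (q : ℝ) ^ (m + 5) ≤ ∑ f : Fin w → ZMod q, (nb α β s x.1 f : ℝ) := by
        exact_mod_cast hx2
      refine avoid_count (fun f => G x.1 x.2.1 x.2.2 f) ?_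
      rw [hV]
      have h1 : (∑ f : Fin w → ZMod q, ((G x.1 x.2.1 x.2.2 f).card : ℝ)) * (q : ℝ) ^ m =
          (∑ f : Fin w → ZMod q, (nb α β s x.1 f : ℝ)) * (q : ℝ) ^ (m * κ) := by
        rw [Finset.sum_mul, Finset.sum_mul]
        refine Finset.sum_congr rfl fun f _ => ?_
        exact_mod_cast hGc x.1 x.2.1 x.2.2 f
      have huR : (u : ℝ) ≤ (q : ℝ) ^ 2 := by exact_mod_cast hu
      have h2 : (q : ℝ) ^ 3 * (u * (q : ℝ) ^ (m * κ)) * (q : ℝ) ^ m ≤
          (∑ f : Fin w → ZMod q, ((G x.1 x.2.1 x.2.2 f).card : ℝ)) * (q : ℝ) ^ m := by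
        rw [h1]
        calc (q : ℝ) ^ 3 * (u * (q : ℝ) ^ (m * κ)) * (q : ℝ) ^ m
            = u * ((q : ℝ) ^ 3 * (q : ℝ) ^ (m * κ) * (q : ℝ) ^ m) := by ring
          _ ≤ (q : ℝ) ^ 2 * ((q : ℝ) ^ 3 * (q : ℝ) ^ (m * κ) * (q : ℝ) ^ m) :=
              mul_le_mul_of_nonneg_right huR (by positivity)
          _ = (q : ℝ) ^ (m + 5) * (q : ℝ) ^ (m * κ) := by
              rw [pow_add]
              ring
          _ ≤ _ := mul_le_mul_of_nonneg_right hx3 (by positivity)
      exact le_of_mul_le_mul_right h2 (by positivity)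
    have hXc : (X.card : ℝ) ≤ (2 : ℝ) ^ (q * q * m) * (u * κ) := by
      have h1 : X.card ≤ 2 ^ (q * q * m) * (u * κ) := by
        refine (card_le_univ X).trans (le_of_eq ?_)
        rw [Fintype.card_prod, Fintype.card_prod, Fintype.card_fun, Fintype.card_finset,
          Fintype.card_prod, ZMod.card, Fintype.card_fin, Fintype.card_fin, Fintype.card_fin,
          ← pow_mul]
      exact_mod_cast h1
    have hBc : (B.card : ℝ) ≤ (X.card : ℝ) *
        ((Fintype.card (Fin u × (Fin κ → Fin m → ZMod q)) : ℝ) ^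
          Fintype.card (Fin w → ZMod q) * Real.exp (-((q : ℝ) ^ 3))) := by
      have h1 : (B.card : ℝ) ≤ ∑ x ∈ X,
          ((Fintype.piFinset (fun f => univ \ G x.1 x.2.1 x.2.2 f)).card : ℝ) := by
        exact_mod_cast card_biUnion_le
      refine h1.trans ?_
      rw [← nsmul_eq_mul]
      exact Finset.sum_le_card_nsmul _ _ _ hbound
    -- numerics
    have hexp : 2 + q * q * m + (2 * q + q) ≤ q ^ 3 := by
      have h4m : 4 * m ≤ q := by
        calc 4 * m = 4 * m * 1 := (mul_one _).symm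
          _ ≤ 4 * m * r := Nat.mul_le_mul_left _ hP.hr0
          _ ≤ q := hP.hmr
      have hq4 : 4 ≤ q := by
        have h1 := hP.hw
        have h2 := hP.hm
        have h3 := hP.hs
        have h4 : w ≤ w ^ 4 := by
          calc w = w ^ 1 := (pow_one w).symm
            _ ≤ w ^ 4 := Nat.pow_le_pow_right (by omega) (by norm_num)
        omega
      have h1 : q * q * (4 * m) ≤ q * q * q := Nat.mul_le_mul_left _ h4m
      have h2 : 4 * 4 * q ≤ q * q * q := Nat.mul_le_mul (Nat.mul_le_mul hq4 hq4) le_rfl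
      have h3 : q ^ 3 = q * q * q := by ring
      have h4 : q * q * (4 * m) = 4 * (q * q * m) := by ring
      rw [h3]
      omega
    have hsq : s ≤ q := by
      have h2 := hP.hm
      have h1 := hP.hw
      have h3 := hP.hs
      have h4 : w ≤ w ^ 4 := by
        calc w = w ^ 1 := (pow_one w).symm
          _ ≤ w ^ 4 := Nat.pow_le_pow_right (by omega) (by norm_num)
      have h4m : 4 * m ≤ q := by
        calc 4 * m = 4 * m * 1 := (mul_one _).symm
          _ ≤ 4 * m * r := Nat.mul_le_mul_left _ hP.hr0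
          _ ≤ q := hP.hmr
      omega
    have hu2 : (u : ℝ) ≤ (2 : ℝ) ^ (2 * q) := by
      have h1 : u ≤ 2 ^ (2 * q) := by
        calc u ≤ q ^ 2 := hu
          _ ≤ (2 ^ q) ^ 2 := Nat.pow_le_pow_left (Nat.lt_two_pow_self).le 2
          _ = 2 ^ (2 * q) := by rw [← pow_mul, mul_comm]
      exact_mod_cast h1
    have hκ2 : (κ : ℝ) ≤ (2 : ℝ) ^ q := by
      have h1 : κ ≤ 2 ^ q := by
        calc κ = κ ^ 1 := (pow_one κ).symm
          _ ≤ κ ^ 16 := Nat.pow_le_pow_right hκ1 (by norm_num)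
          _ ≤ 2 ^ s := hκ
          _ ≤ 2 ^ q := Nat.pow_le_pow_right (by norm_num) hsq
      exact_mod_cast h1
    have hX2 : 4 * (X.card : ℝ) ≤ (2 : ℝ) ^ (q ^ 3) := by
      calc 4 * (X.card : ℝ) ≤ 4 * ((2 : ℝ) ^ (q * q * m) * (u * κ)) :=
            mul_le_mul_of_nonneg_left hXc (by norm_num)
        _ ≤ 4 * ((2 : ℝ) ^ (q * q * m) * ((2 : ℝ) ^ (2 * q) * (2 : ℝ) ^ q)) := by
            refine mul_le_mul_of_nonneg_left ?_ (by norm_num)
            refine mul_le_mul_of_nonneg_left ?_ (by positivity)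
            exact mul_le_mul hu2 hκ2 (by positivity) (by positivity)
        _ = (2 : ℝ) ^ (2 + q * q * m + (2 * q + q)) := by
            rw [pow_add, pow_add, pow_add]
            ring
        _ ≤ (2 : ℝ) ^ (q ^ 3) := pow_le_pow_right₀ (by norm_num) hexp
    have h2e : (2 : ℝ) ^ (q ^ 3) ≤ Real.exp ((q : ℝ) ^ 3) := by
      have h1 : (2 : ℝ) ≤ Real.exp 1 := by
        have := Real.add_one_le_exp (1 : ℝ)
        linarith
      calc (2 : ℝ) ^ (q ^ 3) ≤ (Real.exp 1) ^ (q ^ 3) :=
            pow_le_pow_left₀ (by norm_num) h1 _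
        _ = Real.exp ((q : ℝ) ^ 3) := by
            rw [← Real.exp_nat_mul, mul_one]
            push_cast
            rfl
    have hfin : 4 * (B.card : ℝ) ≤
        (Fintype.card (Fin u × (Fin κ → Fin m → ZMod q)) : ℝ) ^
          Fintype.card (Fin w → ZMod q) := by
      set Y : ℝ := (Fintype.card (Fin u × (Fin κ → Fin m → ZMod q)) : ℝ) ^
          Fintype.card (Fin w → ZMod q) with hY
      have hY0 : 0 ≤ Y := by positivity
      calc 4 * (B.card : ℝ) ≤ 4 * ((X.card : ℝ) * (Y * Real.exp (-((q : ℝ) ^ 3)))) :=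
            mul_le_mul_of_nonneg_left hBc (by norm_num)
        _ = (4 * (X.card : ℝ)) * (Y * Real.exp (-((q : ℝ) ^ 3))) := by ring
        _ ≤ Real.exp ((q : ℝ) ^ 3) * (Y * Real.exp (-((q : ℝ) ^ 3))) :=
            mul_le_mul_of_nonneg_right (hX2.trans h2e) (by positivity)
        _ = Y * (Real.exp ((q : ℝ) ^ 3) * Real.exp (-((q : ℝ) ^ 3))) := by ring
        _ = Y := by rw [← Real.exp_add, add_neg_cancel, Real.exp_zero, mul_one]
    rw [Fintype.card_fun]
    exact_mod_cast hfin
  · intro ω hω T hT γ c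
    by_contra hcon
    push Not at hcon
    apply hω
    rw [hB, mem_biUnion]
    refine ⟨(T, γ, c), mem_filter.2 ⟨mem_univ _, hT⟩, ?_⟩
    rw [Fintype.mem_piFinset]
    intro f
    rw [mem_sdiff]
    refine ⟨mem_univ _, fun h => ?_⟩
    have h2 := (mem_filter.1 h).2
    exact absurd h2.2 (not_le.2 (hcon f h2.1))

end Pool.Agent.H14.KN
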