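import Pool.Agent.H14.KN.Defs

/-!
[H14 KN TRA] Transport of families along embeddings, monotonicity. Mathlib only.

Proof of `PF.transport`. Take an embedding `e : α ↪ Fin n` (it exists because of the
cardinalities) and `F' = {A.map e | A ∈ F}`. For `T : Finset (Fin n)` put
`T' = T.preimage e` (`e` is injective). Then `Meets T (A.map e) ↔ Meets T' A`, so `T` is a cover
of `F'` iff `T'` is a cover of `F`. Cardinalities: `(A.map e).card = A.card`. `T'.map e ⊆ T`, so
`T'.card ≤ T.card`; if `T` is a cover then `k ≤ T'.card ≤ T.card`. If moreover `T.card = k`, then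
`T'.map e = T` (subset with the same cardinality), `T'.card = k`, `T' ∈ K`, so
`T ∈ K.image (Finset.map e)`, which has at most `N` elements. Two members `A.map e`, `B.map e`
meet because `A`, `B` meet.

`DF.transport` is the same with `ι ≃ Fin κ` for the classes: `Z' c = {A.map e | A ∈ Z (ε c)}`.
For the fourth condition, the set `U` is transported along the equivalence. For the last
condition: if `T.card = b` and `T` covers all classes but `c₀`, apply the fourth condition of the
given family to `T' = T.preimage e` and `U = {ε c₀}`: `b + σ ≤ T'.card + σ`, so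
`b ≤ T'.card ≤ T.card = b` and `T = T'.map e`.

`DF.mono`: `b + σ' ≤ T.card + σ' * U.card` follows from `b + σ ≤ T.card + σ * U.card`,
`1 ≤ U.card` and `σ ≤ σ'`, since `(σ' - σ) * (U.card - 1) ≥ 0`.
-/

namespace Pool.Agent.H14.KN

open Finset

private theorem tra_meets {α β : Type} (e : α ↪ β) (T : Finset β) (A : Finset α) :
    Meets T (A.map e) ↔ Meets (T.preimage e e.injective.injOn) A := by
  constructor
  · rintro ⟨x, hx, hxA⟩
    obtain ⟨a, ha, rfl⟩ := Finset.mem_map.1 hxA
    exact ⟨a, Finset.mem_preimage.2 hx, ha⟩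
  · rintro ⟨a, ha, haA⟩
    exact ⟨e a, Finset.mem_preimage.1 ha, Finset.mem_map_of_mem e haA⟩

private theorem tra_sub {α β : Type} (e : α ↪ β) (T : Finset β) :
    (T.preimage e e.injective.injOn).map e ⊆ T := by
  intro x hx
  obtain ⟨a, ha, rfl⟩ := Finset.mem_map.1 hx
  exact Finset.mem_preimage.1 ha

private theorem tra_card {α β : Type} (e : α ↪ β) (T : Finset β) :
    (T.preimage e e.injective.injOn).card ≤ T.card := by
  rw [← Finset.card_map e]
  exact Finset.card_le_card (tra_sub e T)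

private theorem tra_eq {α β : Type} (e : α ↪ β) (T : Finset β)
    (h : T.card ≤ (T.preimage e e.injective.injOn).card) :
    (T.preimage e e.injective.injOn).map e = T := by
  refine Finset.eq_of_subset_of_card_le (tra_sub e T) ?_
  rw [Finset.card_map]
  exact h

private theorem tra_mm {α β : Type} (e : α ↪ β) {A B : Finset α} (h : Meets A B) :
    Meets (A.map e) (B.map e) := by
  obtain ⟨x, hx, hy⟩ := h
  exact ⟨e x, Finset.mem_map_of_mem e hx, Finset.mem_map_of_mem e hy⟩

theorem PF.transport {α : Type} [Fintype α] {n k N : ℕ} (h : PF α k N)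
    (hc : Fintype.card α ≤ n) : PF (Fin n) k N := by
  classical
  obtain ⟨e⟩ : Nonempty (α ↪ Fin n) :=
    Function.Embedding.nonempty_of_card_le (by rw [Fintype.card_fin]; exact hc)
  obtain ⟨F, h1, h2, h3, K, hK, h4⟩ := h
  have hcov : ∀ T : Finset (Fin n), Cov T {B | ∃ A ∈ F, B = A.map e} →
      Cov (T.preimage e e.injective.injOn) F := fun T hT A hA =>
    (tra_meets e T A).1 (hT _ ⟨A, hA, rfl⟩)
  refine ⟨{B | ∃ A ∈ F, B = A.map e}, ?_, ?_, ?_, K.image fun A => A.map e, ?_, ?_⟩
  · rintro B ⟨A, hA, rfl⟩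
    rw [Finset.card_map]
    exact h1 A hA
  · rintro B ⟨A, hA, rfl⟩ B' ⟨A', hA', rfl⟩
    exact tra_mm e (h2 A hA A' hA')
  · intro T hT
    exact (h3 _ (hcov T hT)).trans (tra_card e T)
  · exact Finset.card_image_le.trans hK
  · intro T hTk hT
    have h5 := h3 _ (hcov T hT)
    have h6 := tra_card e T
    rw [Finset.mem_image]
    refine ⟨T.preimage e e.injective.injOn, h4 _ (by omega) (hcov T hT), tra_eq e T (by omega)⟩

theorem PF.mono {α : Type} {k N N' : ℕ} (h : PF α k N) (hN : N ≤ N') : PF α k N' := by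
  obtain ⟨F, h1, h2, h3, K, hK, h4⟩ := h
  exact ⟨F, h1, h2, h3, K, hK.trans hN, h4⟩

theorem DF.transport {α ι : Type} [Fintype α] [Fintype ι] {n κ b N σ : ℕ} (h : DF α ι b N σ)
    (hc : Fintype.card α ≤ n) (hκ : Fintype.card ι = κ) : DF (Fin n) (Fin κ) b N σ := by
  classical
  obtain ⟨e⟩ : Nonempty (α ↪ Fin n) :=
    Function.Embedding.nonempty_of_card_le (by rw [Fintype.card_fin]; exact hc)
  obtain ⟨ε⟩ : Nonempty (Fin κ ≃ ι) :=
    ⟨Fintype.equivOfCardEq (by rw [Fintype.card_fin]; exact hκ.symm)⟩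
  obtain ⟨Z, h1, h2, h3, h4, K, hK, h5⟩ := h
  have hcov : ∀ (T : Finset (Fin n)) (c : Fin κ), Cov T {B | ∃ A ∈ Z (ε c), B = A.map e} →
      Cov (T.preimage e e.injective.injOn) (Z (ε c)) := fun T c hT A hA =>
    (tra_meets e T A).1 (hT _ ⟨A, hA, rfl⟩)
  refine ⟨fun c => {B | ∃ A ∈ Z (ε c), B = A.map e}, ?_, ?_, ?_, ?_,
    K.image fun x => (ε.symm x.1, x.2.map e), ?_, ?_⟩
  · rintro c B ⟨A, hA, rfl⟩
    rw [Finset.card_map]
    exact h1 _ A hA
  · rintro c c' hcc B ⟨A, hA, rfl⟩ B' ⟨A', hA', rfl⟩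
    exact tra_mm e (h2 _ _ (fun h => hcc (ε.injective h)) A hA A' hA')
  · intro T hT
    refine (h3 (T.preimage e e.injective.injOn) fun c => ?_).trans (tra_card e T)
    have h6 := hcov T (ε.symm c) (hT _)
    rwa [Equiv.apply_symm_apply] at h6
  · intro T U hU hT
    have h6 := h4 (T.preimage e e.injective.injOn) (U.map ε.toEmbedding)
      (Finset.Nonempty.map hU) (fun c hcU => by
        have h7 := hcov T (ε.symm c) (hT _ (fun h => hcU (by
          rw [Finset.mem_map]
          exact ⟨ε.symm c, h, ε.apply_symm_apply c⟩)))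
        rwa [Equiv.apply_symm_apply] at h7)
    rw [Finset.card_map] at h6
    have h7 := tra_card e T
    omega
  · exact Finset.card_image_le.trans hK
  · intro c₀ T hTb hT
    have hT' : ∀ c, c ≠ ε c₀ → Cov (T.preimage e e.injective.injOn) (Z c) := by
      intro c hcc
      have h7 := hcov T (ε.symm c) (hT _ (fun h => hcc (by rw [← h, Equiv.apply_symm_apply])))
      rwa [Equiv.apply_symm_apply] at h7
    have h6 := h4 (T.preimage e e.injective.injOn) {ε c₀} (Finset.singleton_nonempty _)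
      (fun c hcU => hT' c (by simpa using hcU))
    rw [Finset.card_singleton, mul_one] at h6
    have h7 := tra_card e T
    rw [Finset.mem_image]
    refine ⟨(ε c₀, T.preimage e e.injective.injOn), h5 _ _ (by omega) hT', ?_⟩
    exact Prod.ext (ε.symm_apply_apply c₀) (tra_eq e T (by omega))

theorem DF.mono {α ι : Type} {b N N' σ σ' : ℕ} (h : DF α ι b N σ) (hN : N ≤ N')
    (hσ : σ ≤ σ') : DF α ι b N' σ' := by
  obtain ⟨Z, h1, h2, h3, h4, K, hK, h5⟩ := h
  refine ⟨Z, h1, h2, h3, ?_, K, hK.trans hN, h5⟩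
  intro T U hU hT
  have h6 := h4 T U hU hT
  obtain ⟨t, rfl⟩ := Nat.exists_eq_add_of_le hσ
  have h7 : 1 ≤ U.card := Finset.card_pos.2 hU
  obtain ⟨u, hu⟩ := Nat.exists_eq_add_of_le h7
  rw [hu] at h6 ⊢
  nlinarith [Nat.zero_le (t * u)]

end Pool.Agent.H14.KN
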