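import Pool.Agent.H14.KN.BaseAll
import Pool.Agent.H14.KN.Combine
import Pool.Agent.H14.KN.Param

/-!
[H14 KN UPP] The upper bound, assembly.

Let `C₁, a₀` be from `base_all`, `R₀, k₀` from `param C₁ _ a₀`. Put `K₀ = max k₀ a₀ + 3`,
`C = 2 K₀ + C₁ + 2 * max R₀ 0 + 10^6 * C₁^2`. Let `1 ≤ k`, `2 k ≤ n`, `ρ = n/k`; all terms of the
right side are nonnegative. `log (minMaximal n k) ≤ log (4^k) ≤ 2 k` (`minMaximal_le_four_pow`,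
`log 4 ≤ 2`; if `minMaximal n k = 0` the log is `0`).
(a) `k < K₀`: `2 k ≤ 2 K₀ ≤ 2 K₀ (1 + log k)^4`.
(b) `n < R₀ k`: `2 k = 2 (n/k) (k^2/n) ≤ 2 R₀ (k^2/n)`.
(c) `k ≥ K₀` and `C₁ k^2 < n (log k)^4`: `base_all` with `a = k` gives `PF (Fin n') k N` with
`n' (log k)^4 ≤ C₁ k^2 ≤ n (log k)^4`, so `n' ≤ n` (`log k > 0` as `k ≥ 3`), `PF.transport`,
`minMaximal_le`: `log (minMaximal n k) ≤ C₁ (log k)^4 ≤ C₁ (1 + log k)^4`.
(d) otherwise `param` gives `t, a, r` and `base_all` gives `n₁, N` for `a`; `combine` with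
`L = C₁ (log a)^4`: `log (minMaximal n k) ≤ 10^6 C₁^2 (k^2/n)`.
-/

namespace Pool.Agent.H14.KN

open Finset

theorem upper : ∃ C : ℝ, 0 < C ∧ ∀ k n : ℕ, 1 ≤ k → 2 * k ≤ n →
    Real.log (minMaximal n k) ≤ C * ((k : ℝ) ^ 2 / n + (1 + Real.log k) ^ 4) := by
  sorry

end Pool.Agent.H14.KN
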